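import Mathlib

namespace Pool.Agent.H22.Cov

open Finset

/-- Random shifts: some `L` shifts reduce the uncovered set to its `L`-th power density. -/
theorem exists_shifts {G : Type*} [AddCommGroup G] [Fintype G] [DecidableEq G]
    (U : Finset G) (L : ℕ) :
    ∃ V : Fin L → G, (univ.filter fun u : G => ∀ j, u - V j ∈ U).card * (Fintype.card G) ^ L
      ≤ U.card ^ L * Fintype.card G := by
  classical
  by_contra hcon
  push Not at hcon
  have h1 : ∑ V : Fin L → G, (U.card ^ L * Fintype.card G) <
      ∑ V : Fin L → G, (univ.filter fun u : G => ∀ j, u - V j ∈ U).card * (Fintype.card G) ^ L :=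
    Finset.sum_lt_sum_of_nonempty univ_nonempty (fun V _ => hcon V)
  have h2 : ∑ V : Fin L → G, (univ.filter fun u : G => ∀ j, u - V j ∈ U).card
      = Fintype.card G * U.card ^ L := by
    have : ∀ V : Fin L → G, (univ.filter fun u : G => ∀ j, u - V j ∈ U).card
        = ∑ u : G, if (∀ j, u - V j ∈ U) then 1 else 0 := by
      intro V
      rw [Finset.card_filter]
    simp_rw [this]
    rw [Finset.sum_comm]
    have h3 : ∀ u : G, (∑ V : Fin L → G, if (∀ j, u - V j ∈ U) then 1 else 0) = U.card ^ L := by
      intro u
      rw [← Finset.card_filter]
      have h4 : (univ.filter fun V : Fin L → G => ∀ j, u - V j ∈ U)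
          = Fintype.piFinset (fun _ : Fin L => U.image (fun x => u - x)) := by
        ext V
        simp only [mem_filter, mem_univ, true_and, Fintype.mem_piFinset, mem_image]
        constructor
        · intro h j
          exact ⟨u - V j, h j, by abel⟩
        · intro h j
          obtain ⟨x, hx, hxe⟩ := h j
          rw [← hxe]
          simpa using hx
      rw [h4, Fintype.card_piFinset]
      simp only [prod_const, card_univ, Fintype.card_fin]
      congr 1
      exact Finset.card_image_of_injective _ (fun a b h => by simpa using h)
    simp_rw [h3]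
    simp
  rw [← Finset.sum_mul, ← Finset.sum_mul, h2] at h1
  simp only [sum_const, card_univ, Fintype.card_pi, prod_const, Fintype.card_fin,
    smul_eq_mul] at h1
  apply absurd h1
  apply not_lt.mpr
  apply le_of_eq
  ring

end Pool.Agent.H22.Cov
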