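import Mathlib

namespace Pool.Agent.H22.Cov

open Finset

/-- The type of a configuration: how often each value occurs. -/
def typ {n : ℕ} {X : Type*} [DecidableEq X] (e : Fin n → X) : X → ℕ :=
  fun x => (univ.filter fun j => e j = x).card

theorem typ_comp_perm {n : ℕ} {X : Type*} [DecidableEq X] (e : Fin n → X)
    (σ : Equiv.Perm (Fin n)) : typ (e ∘ σ) = typ e := by
  funext x
  unfold typ
  apply Finset.card_bij (fun j _ => σ j)
  · intro j hj
    simpa using hj
  · intro a _ b _ h
    exact σ.injective h
  · intro b hb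
    exact ⟨σ.symm b, by simpa using hb, by simp⟩

theorem exists_perm_of_typ_eq {n : ℕ} {X : Type*} [DecidableEq X] (e e' : Fin n → X)
    (h : typ e' = typ e) : ∃ σ : Equiv.Perm (Fin n), e' = e ∘ σ := by
  classical
  have h1 : ∀ x : X, Nonempty ({j // e' j = x} ≃ {j // e j = x}) := by
    intro x
    apply Nonempty.intro
    apply Fintype.equivOfCardEq
    rw [Fintype.card_subtype, Fintype.card_subtype]
    exact congrFun h x
  let f := fun x => (h1 x).some
  refine ⟨(Equiv.sigmaFiberEquiv e').symm.trans
    ((Equiv.sigmaCongrRight f).trans (Equiv.sigmaFiberEquiv e)), ?_⟩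
  funext j
  simp only [Equiv.coe_trans, Function.comp_apply]
  have := ((f (e' j)) ⟨j, rfl⟩).2
  simp [Equiv.sigmaFiberEquiv, this]

/-- Orbit size. -/
theorem card_typ_mul {n : ℕ} {X : Type*} [DecidableEq X] [Fintype X] (e : Fin n → X) :
    (univ.filter fun e' : Fin n → X => typ e' = typ e).card * ∏ x, (typ e x).factorial
      = n.factorial := by
  classical
  have h1 : (univ : Finset (Equiv.Perm (Fin n))).card = n.factorial := by
    simp [Finset.card_univ, Fintype.card_perm]
  rw [← h1]
  have hmap : ∀ σ ∈ (univ : Finset (Equiv.Perm (Fin n))),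
      e ∘ σ ∈ (univ.filter fun e' : Fin n → X => typ e' = typ e) := by
    intro σ _
    simp [typ_comp_perm]
  rw [Finset.card_eq_sum_card_fiberwise hmap]
  rw [Finset.sum_const_nat (m := ∏ x, (typ e x).factorial)]
  intro e' he'
  simp only [mem_filter, mem_univ, true_and] at he'
  obtain ⟨σ₀, hσ₀⟩ := exists_perm_of_typ_eq e e' he'
  have h2 := DomMulAct.stabilizer_card e
  have h3 : ∏ x, (Fintype.card {a // e a = x}).factorial = ∏ x, (typ e x).factorial := by
    apply Finset.prod_congr rfl
    intro x _
    rw [Fintype.card_subtype]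
    rfl
  rw [← h3, ← h2, Fintype.card_subtype]
  apply Finset.card_bij (fun σ _ => σ * σ₀⁻¹)
  · intro σ hσ
    simp only [mem_filter, mem_univ, true_and] at hσ ⊢
    funext j
    have := congrFun (hσ.trans hσ₀) (σ₀⁻¹ j)
    simpa using this
  · intro a _ b _ hab
    simpa using hab
  · intro b hb
    simp only [mem_filter, mem_univ, true_and] at hb
    refine ⟨b * σ₀, ?_, by simp⟩
    simp only [mem_filter, mem_univ, true_and]
    rw [hσ₀]
    funext j
    have := congrFun hb (σ₀ j)
    simpa using this

variable {F : Type*} [Field F] {X : Type*} [AddCommGroup X] [Module F X]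

/-- Number of configurations of the same type congruent to `e` modulo `W`. -/
noncomputable def fib {n : ℕ} [DecidableEq X] [Fintype X] (e : Fin n → X) (W : Submodule F X) : ℕ := by
  classical
  exact (univ.filter fun e' : Fin n → X => typ e' = typ e ∧ ∀ j, e' j - e j ∈ W).card

theorem fib_perm {n : ℕ} [DecidableEq X] [Fintype X] (e e' : Fin n → X) (W : Submodule F X)
    (h : typ e' = typ e) : fib e' W = fib e W := by
  classical
  obtain ⟨σ, hσ⟩ := exists_perm_of_typ_eq e e' h
  unfold fib
  symm
  apply Finset.card_bij (fun a _ => a ∘ σ)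
  · intro a ha
    simp only [mem_filter, mem_univ, true_and] at ha ⊢
    refine ⟨?_, ?_⟩
    · rw [typ_comp_perm, ha.1, h]
    · intro j
      rw [hσ]
      exact ha.2 (σ j)
  · intro a _ b _ hab
    funext j
    have := congrFun hab (σ.symm j)
    simpa using this
  · intro b hb
    simp only [mem_filter, mem_univ, true_and] at hb
    refine ⟨b ∘ σ.symm, ?_, ?_⟩
    · simp only [mem_filter, mem_univ, true_and]
      refine ⟨?_, ?_⟩
      · rw [typ_comp_perm b σ.symm, hb.1, h]
      · intro j
        have := hb.2 (σ.symm j)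
        rw [hσ] at this
        simpa using this
    · funext j
      simp

theorem fib_mono {n : ℕ} [DecidableEq X] [Fintype X] (e : Fin n → X) {W W' : Submodule F X}
    (h : W ≤ W') : fib e W ≤ fib e W' := by
  classical
  unfold fib
  apply Finset.card_le_card
  intro a ha
  simp only [mem_filter, mem_univ, true_and] at ha ⊢
  exact ⟨ha.1, fun j => h (ha.2 j)⟩

theorem fib_submod {n : ℕ} [DecidableEq X] [Fintype X] (e : Fin n → X) (W W' : Submodule F X) :
    fib e W * fib e W' ≤ fib e (W ⊔ W') * fib e (W ⊓ W') := by
  classical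
  have key := Finset.card_mul_le_card_mul
    (s := (univ.filter fun e' : Fin n → X => typ e' = typ e ∧ ∀ j, e' j - e j ∈ W))
    (t := (univ.filter fun e' : Fin n → X => typ e' = typ e ∧ ∀ j, e' j - e j ∈ W ⊔ W'))
    (r := fun a b => ∀ j, b j - a j ∈ W')
    (m := fib e W') (n := fib e (W ⊓ W')) ?_ ?_
  · simpa [fib] using key
  · intro a ha
    simp only [mem_filter, mem_univ, true_and] at ha
    rw [← fib_perm e a W' ha.1]
    unfold fib Finset.bipartiteAbove
    apply Finset.card_le_card
    intro b hb
    simp only [mem_filter, mem_univ, true_and] at hb ⊢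
    refine ⟨⟨hb.1.trans ha.1, ?_⟩, hb.2⟩
    intro j
    have h1 : b j - e j = (a j - e j) + (b j - a j) := by abel
    rw [h1]
    exact Submodule.add_mem_sup (ha.2 j) (hb.2 j)
  · intro b hb
    simp only [mem_filter, mem_univ, true_and] at hb
    unfold Finset.bipartiteBelow
    rcases Finset.eq_empty_or_nonempty ((univ.filter fun e' : Fin n → X => typ e' = typ e ∧ ∀ j, e' j - e j ∈ W).filter
      (fun a => ∀ j, b j - a j ∈ W')) with h0 | ⟨a0, ha0⟩
    · rw [h0]
      simp
    · simp only [mem_filter, mem_univ, true_and] at ha0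
      rw [← fib_perm e a0 (W ⊓ W') ha0.1.1]
      unfold fib
      apply Finset.card_le_card
      intro a ha
      simp only [mem_filter, mem_univ, true_and] at ha ⊢
      refine ⟨ha.1.1.trans ha0.1.1.symm, ?_⟩
      intro j
      rw [Submodule.mem_inf]
      constructor
      · have h1 : a j - a0 j = (a j - e j) - (a0 j - e j) := by abel
        rw [h1]
        exact W.sub_mem (ha.1.2 j) (ha0.1.2 j)
      · have h1 : a j - a0 j = (b j - a0 j) - (b j - a j) := by abel
        rw [h1]
        exact W'.sub_mem (ha0.2 j) (ha.2 j)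

/-- A configuration is balanced if all nonzero values occur equally often. -/
def Balanced {n : ℕ} [DecidableEq X] (e : Fin n → X) : Prop :=
  ∃ k : ℕ, ∀ x : X, x ≠ 0 → typ e x = k

theorem typ_sum {n : ℕ} {X : Type*} [DecidableEq X] [Fintype X] (e : Fin n → X) :
    ∑ x, typ e x = n := by
  have := Finset.card_eq_sum_card_fiberwise (s := (univ : Finset (Fin n))) (t := univ) (f := e)
    (fun _ _ => by simp)
  simp only [card_univ, Fintype.card_fin] at this
  exact this.symm

theorem typ_equiv_comp {n : ℕ} [DecidableEq X] [Fintype X] (e : Fin n → X) (hb : Balanced e)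
    (g : X ≃ₗ[F] X) : typ (g ∘ e) = typ e := by
  obtain ⟨k, hk⟩ := hb
  have h1 : ∀ x, typ (g ∘ e) x = typ e (g.symm x) := by
    intro x
    unfold typ
    congr 1
    ext j
    simp only [mem_filter, mem_univ, true_and, Function.comp_apply]
    constructor
    · intro h
      rw [← h]; simp
    · intro h
      rw [h]; simp
  funext x
  rw [h1]
  by_cases hx : x = 0
  · subst hx
    simp
  · rw [hk x hx, hk]
    simpa using hx

theorem fib_map {n : ℕ} [DecidableEq X] [Fintype X] (e : Fin n → X) (hb : Balanced e)
    (g : X ≃ₗ[F] X) (W : Submodule F X) : fib e (W.map (g : X →ₗ[F] X)) = fib e W := by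
  classical
  rw [← fib_perm e (g ∘ e) _ (typ_equiv_comp e hb g)]
  unfold fib
  symm
  have hkey : ∀ a : Fin n → X, typ a = typ e → typ (g ∘ a) = typ e := by
    intro a ha
    have hba : Balanced a := by
      obtain ⟨k, hk⟩ := hb
      exact ⟨k, fun x hx => by rw [ha]; exact hk x hx⟩
    rw [typ_equiv_comp a hba g, ha]
  have hkey' : ∀ a : Fin n → X, typ a = typ e → typ (g.symm ∘ a) = typ e := by
    intro a ha
    have hba : Balanced a := by
      obtain ⟨k, hk⟩ := hb
      exact ⟨k, fun x hx => by rw [ha]; exact hk x hx⟩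
    rw [typ_equiv_comp a hba g.symm, ha]
  apply Finset.card_bij (fun a _ => g ∘ a)
  · intro a ha
    simp only [mem_filter, mem_univ, true_and] at ha ⊢
    refine ⟨?_, ?_⟩
    · rw [hkey a ha.1, typ_equiv_comp e hb g]
    · intro j
      simp only [Function.comp_apply]
      rw [← map_sub]
      exact Submodule.mem_map_of_mem (ha.2 j)
  · intro a _ b _ hab
    funext j
    have := congrFun hab j
    simpa using this
  · intro b hb'
    simp only [mem_filter, mem_univ, true_and] at hb'
    refine ⟨g.symm ∘ b, ?_, ?_⟩
    · simp only [mem_filter, mem_univ, true_and]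
      refine ⟨?_, ?_⟩
      · rw [typ_equiv_comp e hb g] at hb'
        exact hkey' b hb'.1
      · intro j
        obtain ⟨w, hw, hwe⟩ := hb'.2 j
        simp only [Function.comp_apply] at hwe ⊢
        have : g.symm (b j) - e j = w := by
          apply g.injective
          rw [map_sub]
          simp only [LinearEquiv.apply_symm_apply]
          exact hwe.symm
        rw [this]
        exact hw
    · funext j
      simp

theorem fib_eq_of_finrank_eq {n : ℕ} [DecidableEq X] [Fintype X] [FiniteDimensional F X]
    (e : Fin n → X) (hb : Balanced e) (W W' : Submodule F X)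
    (h : Module.finrank F W = Module.finrank F W') : fib e W = fib e W' := by
  have e1 : W ≃ₗ[F] W' := LinearEquiv.ofFinrankEq _ _ h
  obtain ⟨g, hg⟩ := Submodule.exists_linearEquiv_restrict_eq e1
  have : W' = W.map (g : X →ₗ[F] X) := by
    ext x
    constructor
    · intro hx
      refine ⟨(e1.symm ⟨x, hx⟩ : W), (e1.symm ⟨x, hx⟩).2, ?_⟩
      have := hg (e1.symm ⟨x, hx⟩)
      simp only [LinearEquiv.apply_symm_apply] at this
      exact this.symm
    · rintro ⟨w, hw, rfl⟩
      have := hg ⟨w, hw⟩
      simp only at this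
      change (g w) ∈ W'
      rw [← this]
      exact (e1 ⟨w, hw⟩).2
  rw [this, fib_map e hb g]

end Pool.Agent.H22.Cov
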