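import Pool.Agent.H22.CovB

namespace Pool.Agent.H22.Cov

open Finset Module

theorem logconvex_step (f : ℕ → ℕ) (t : ℕ) (hpos : ∀ i ≤ t, 0 < f i) (h0 : f 0 = 1)
    (h : ∀ i, i + 2 ≤ t → f (i + 1) ^ 2 ≤ f (i + 2) * f i) :
    ∀ i, i + 1 ≤ t → f i ^ (i + 1) ≤ f (i + 1) ^ i := by
  intro i
  induction i with
  | zero => intro _; simp [h0]
  | succ i ih =>
    intro hi
    have h1 := ih (by omega)
    have h2 := h i (by omega)
    have hp : 0 < f (i + 1) := hpos _ (by omega)
    have h3 : (f (i + 1) ^ 2) ^ (i + 1) ≤ (f (i + 2) * f i) ^ (i + 1) := Nat.pow_le_pow_left h2 _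
    have h4 : f (i + 1) ^ i * f (i + 1) ^ (i + 1 + 1) ≤ f (i + 1) ^ i * f (i + 1 + 1) ^ (i + 1) := by
      calc f (i + 1) ^ i * f (i + 1) ^ (i + 1 + 1) = (f (i + 1) ^ 2) ^ (i + 1) := by ring
        _ ≤ (f (i + 2) * f i) ^ (i + 1) := h3
        _ = f (i + 2) ^ (i + 1) * f i ^ (i + 1) := by ring
        _ ≤ f (i + 2) ^ (i + 1) * f (i + 1) ^ i := Nat.mul_le_mul_left _ h1
        _ = f (i + 1) ^ i * f (i + 1 + 1) ^ (i + 1) := by ring
    exact Nat.le_of_mul_le_mul_left h4 (pow_pos hp i)

theorem logconvex_pow (f : ℕ → ℕ) (t : ℕ) (hpos : ∀ i ≤ t, 0 < f i) (h0 : f 0 = 1)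
    (h : ∀ i, i + 2 ≤ t → f (i + 1) ^ 2 ≤ f (i + 2) * f i) :
    ∀ i ≤ t, f i ^ t ≤ f t ^ i := by
  intro i hi
  have key : ∀ s, i ≤ s → s ≤ t → f i ^ s ≤ f s ^ i := by
    intro s his
    induction s, his using Nat.le_induction with
    | base => intro _; exact le_rfl
    | succ s hs ih =>
      intro hst
      rcases Nat.eq_zero_or_pos s with hs0 | hs0
      · subst hs0
        have : i = 0 := by omega
        subst this
        simp [h0]
      · have h1 := ih (by omega)
        have h2 := logconvex_step f t hpos h0 h s hst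
        have h3 : (f i ^ (s + 1)) ^ s ≤ (f (s + 1) ^ i) ^ s := by
          calc (f i ^ (s + 1)) ^ s = (f i ^ s) ^ (s + 1) := by ring
            _ ≤ (f s ^ i) ^ (s + 1) := Nat.pow_le_pow_left h1 _
            _ = (f s ^ (s + 1)) ^ i := by ring
            _ ≤ (f (s + 1) ^ s) ^ i := Nat.pow_le_pow_left h2 _
            _ = (f (s + 1) ^ i) ^ s := by ring
        exact (Nat.pow_le_pow_iff_left (by omega)).mp h3
  exact key t hi le_rfl

variable {F : Type*} [Field F]

theorem fib_bot {n : ℕ} {X : Type*} [AddCommGroup X] [Module F X] [DecidableEq X] [Fintype X]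
    (e : Fin n → X) : fib e (⊥ : Submodule F X) = 1 := by
  classical
  unfold fib
  rw [Finset.card_eq_one]
  refine ⟨e, ?_⟩
  ext a
  simp only [mem_filter, mem_univ, true_and, Submodule.mem_bot, mem_singleton]
  constructor
  · rintro ⟨_, h⟩
    funext j
    exact sub_eq_zero.mp (h j)
  · rintro rfl
    simp

theorem fib_top {n : ℕ} {X : Type*} [AddCommGroup X] [Module F X] [DecidableEq X] [Fintype X]
    (e : Fin n → X) : fib e (⊤ : Submodule F X)
      = (univ.filter fun e' : Fin n → X => typ e' = typ e).card := by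
  classical
  unfold fib
  congr 1
  ext a
  simp

theorem fib_pos {n : ℕ} {X : Type*} [AddCommGroup X] [Module F X] [DecidableEq X] [Fintype X]
    (e : Fin n → X) (W : Submodule F X) : 0 < fib e W := by
  classical
  unfold fib
  rw [Finset.card_pos]
  exact ⟨e, by simp⟩

/-- Shearer type bound. -/
theorem fib_pow_le {n : ℕ} {X : Type*} [AddCommGroup X] [Module F X] [DecidableEq X] [Fintype X]
    (e : Fin n → X) (hb : Balanced e) (W : Submodule F X) :
    fib e W ^ (finrank F X) ≤
      (univ.filter fun e' : Fin n → X => typ e' = typ e).card ^ (finrank F W) := by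
  classical
  let b : Basis (Fin (finrank F X)) F X := Module.finBasis F X
  set t := finrank F X with ht
  have hfin : ∀ s : Finset (Fin t), finrank F (Submodule.span F (b '' (s : Set (Fin t)))) = s.card := by
    intro s
    have hli : LinearIndependent F (fun x : (s : Set (Fin t)) => b x) :=
      b.linearIndependent.comp _ Subtype.val_injective
    have := finrank_span_eq_card hli
    rw [show Set.range (fun x : (s : Set (Fin t)) => b x) = b '' (s : Set (Fin t)) by
      ext y; simp] at this
    rw [this]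
    simp
  let S : ℕ → Finset (Fin t) := fun i => univ.filter fun j => j.val < i
  have hS : ∀ i ≤ t, (S i).card = i := by
    intro i hi
    have : (S i) = (Finset.univ : Finset (Fin i)).map (Fin.castLEEmb hi) := by
      ext j
      simp only [S, mem_filter, mem_univ, true_and, mem_map]
      constructor
      · intro h
        exact ⟨⟨j.val, h⟩, by ext; simp⟩
      · rintro ⟨a, rfl⟩
        simp
    rw [this]
    simp
  let f : ℕ → ℕ := fun i => fib e (Submodule.span F (b '' ((S i : Finset (Fin t)) : Set (Fin t))))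
  have hf : ∀ i ≤ t, ∀ W : Submodule F X, finrank F W = i → fib e W = f i := by
    intro i hi W hW
    apply fib_eq_of_finrank_eq e hb
    rw [hW, hfin, hS i hi]
  have hmain := logconvex_pow f t (fun i _ => fib_pos e _) ?_ ?_ (finrank F W)
    (Submodule.finrank_le W)
  · rw [← hf (finrank F W) (Submodule.finrank_le W) W rfl,
      ← hf t le_rfl ⊤ (by rw [finrank_top]), fib_top] at hmain
    exact hmain
  · rw [← hf 0 (Nat.zero_le _) ⊥ (finrank_bot F X)]
    exact fib_bot e
  · intro i hi
    -- two subspaces of dimension i+1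
    let S1 : Finset (Fin t) := S (i + 1)
    let S2 : Finset (Fin t) := insert ⟨i + 1, by omega⟩ (S i)
    have hS1 : S1.card = i + 1 := hS (i + 1) (by omega)
    have hS2 : S2.card = i + 1 := by
      rw [Finset.card_insert_of_notMem, hS i (by omega)]
      simp [S]
    have hU : S1 ∪ S2 = S (i + 2) := by
      ext j
      simp only [S1, S2, S, mem_union, mem_filter, mem_univ, true_and, mem_insert, Fin.ext_iff]
      omega
    let W1 := Submodule.span F (b '' (S1 : Set (Fin t)))
    let W2 := Submodule.span F (b '' (S2 : Set (Fin t)))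
    have hW1 : finrank F W1 = i + 1 := by rw [hfin, hS1]
    have hW2 : finrank F W2 = i + 1 := by rw [hfin, hS2]
    have hsup : W1 ⊔ W2 = Submodule.span F (b '' ((S (i + 2) : Finset (Fin t)) : Set (Fin t))) := by
      rw [← Submodule.span_union, ← Set.image_union, ← Finset.coe_union, hU]
    have hsupf : finrank F (W1 ⊔ W2 : Submodule F X) = i + 2 := by
      rw [hsup, hfin, hS (i + 2) hi]
    have hinf : finrank F (W1 ⊓ W2 : Submodule F X) = i := by
      have := Submodule.finrank_sup_add_finrank_inf_eq W1 W2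
      omega
    have h1 := fib_submod e W1 W2
    rw [hf _ (by omega) W1 hW1, hf _ (by omega) W2 hW2, hf _ hi _ hsupf,
      hf _ (by omega) _ hinf] at h1
    rw [sq]
    exact h1

end Pool.Agent.H22.Cov
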