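import Pool.Agent.H22.CovC

namespace Pool.Agent.H22.Cov

open Finset Module

variable {F : Type*} [Field F] [Fintype F] [DecidableEq F]
variable {X : Type*} [AddCommGroup X] [Module F X] [DecidableEq X] [Fintype X]

/-- Syndrome map of a parity check matrix `H`. -/
def syn {m n : ℕ} (H : Fin m → Fin n → F) : (Fin n → X) →ₗ[F] (Fin m → X) where
  toFun e := fun l => ∑ j, H l j • e j
  map_add' a b := by
    funext l
    simp [smul_add, Finset.sum_add_distrib]
  map_smul' c a := by
    funext l
    simp only [Pi.smul_apply, RingHom.id_apply, Finset.smul_sum]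
    apply Finset.sum_congr rfl
    intro j _
    rw [smul_comm]

theorem card_annihilator {n : ℕ} (δ : Fin n → X) :
    (univ.filter fun h : Fin n → F => ∑ j, h j • δ j = 0).card
      = (Fintype.card F) ^ (n - finrank F (Submodule.span F (Set.range δ))) := by
  classical
  have h1 : (univ.filter fun h : Fin n → F => ∑ j, h j • δ j = 0).card
      = Nat.card (LinearMap.ker (Fintype.linearCombination F δ)) := by
    rw [Nat.card_eq_fintype_card, Fintype.card_subtype]
    congr 1
    ext h
    simp [Fintype.linearCombination_apply]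
  rw [h1, Module.natCard_eq_pow_finrank (K := F)]
  rw [Nat.card_eq_fintype_card]
  congr 1
  have h2 := LinearMap.finrank_range_add_finrank_ker (Fintype.linearCombination F δ)
  rw [Fintype.range_linearCombination] at h2
  simp only [finrank_fintype_fun_eq_card, Fintype.card_fin] at h2
  omega

theorem card_H {m n : ℕ} (δ : Fin n → X) :
    (univ.filter fun H : Fin m → Fin n → F => syn H δ = 0).card
      = ((Fintype.card F) ^ (n - finrank F (Submodule.span F (Set.range δ)))) ^ m := by
  classical
  have h1 : (univ.filter fun H : Fin m → Fin n → F => syn H δ = 0)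
      = Fintype.piFinset (fun _ : Fin m => univ.filter fun h : Fin n → F => ∑ j, h j • δ j = 0) := by
    ext H
    simp only [mem_filter, mem_univ, true_and, Fintype.mem_piFinset]
    constructor
    · intro h l
      exact congrFun h l
    · intro h
      funext l
      exact h l
  rw [h1, Fintype.card_piFinset]
  simp only [prod_const, card_univ, Fintype.card_fin, card_annihilator]

/-- Averaging: a parity check matrix with few collisions on the orbit of `e0`. -/
theorem exists_H {m n : ℕ} (e0 : Fin n → X) :
    ∃ H : Fin m → Fin n → F,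
      (((univ.filter fun p : (Fin n → X) × (Fin n → X) =>
        (typ p.1 = typ e0 ∧ typ p.2 = typ e0) ∧ syn H p.1 = syn H p.2).card : ℕ) : ℝ)
      ≤ ((univ.filter fun e' : Fin n → X => typ e' = typ e0).card : ℝ) *
        ∑ᶠ W : Submodule F X, (fib e0 W : ℝ) * (((Fintype.card F : ℝ) ^ m) ^ (finrank F W))⁻¹ := by
  classical
  have : Finite (Submodule F X) := inferInstance
  have : Fintype (Submodule F X) := Fintype.ofFinite _
  rw [finsum_eq_sum_of_fintype]
  set q : ℝ := (Fintype.card F : ℝ) with hq
  have hq0 : 0 < q := by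
    rw [hq]; exact_mod_cast Fintype.card_pos
  set T := (univ.filter fun e' : Fin n → X => typ e' = typ e0) with hT
  by_contra hcon
  push Not at hcon
  set B : ℝ := (T.card : ℝ) * ∑ W : Submodule F X, (fib e0 W : ℝ) * ((q ^ m) ^ (finrank F W))⁻¹ with hB
  have hsum : ∑ H : Fin m → Fin n → F, B < ∑ H : Fin m → Fin n → F,
      (((univ.filter fun p : (Fin n → X) × (Fin n → X) =>
        (typ p.1 = typ e0 ∧ typ p.2 = typ e0) ∧ syn H p.1 = syn H p.2).card : ℕ) : ℝ) :=
    Finset.sum_lt_sum_of_nonempty univ_nonempty (fun H _ => hcon H)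
  apply absurd hsum
  apply not_lt.mpr
  -- total number of collisions
  have h1 : ∀ H : Fin m → Fin n → F,
      (((univ.filter fun p : (Fin n → X) × (Fin n → X) =>
        (typ p.1 = typ e0 ∧ typ p.2 = typ e0) ∧ syn H p.1 = syn H p.2).card : ℕ) : ℝ)
      = ∑ a ∈ T, ∑ b ∈ T, if syn H (b - a) = 0 then (1 : ℝ) else 0 := by
    intro H
    rw [← Finset.sum_product', ← Finset.sum_filter, Finset.sum_const, nsmul_eq_mul, mul_one]
    congr 2
    ext ⟨a, b⟩
    simp only [mem_filter, mem_univ, true_and, mem_product, hT]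
    rw [map_sub, sub_eq_zero]
    constructor
    · rintro ⟨h, h'⟩
      exact ⟨h, h'.symm⟩
    · rintro ⟨h, h'⟩
      exact ⟨h, h'.symm⟩
  simp_rw [h1]
  rw [Finset.sum_comm]
  have h2 : ∀ a ∈ T, ∑ H : Fin m → Fin n → F, ∑ b ∈ T, (if syn H (b - a) = 0 then (1 : ℝ) else 0)
      ≤ (q ^ n) ^ m * ∑ W : Submodule F X, (fib e0 W : ℝ) * ((q ^ m) ^ (finrank F W))⁻¹ := by
    intro a ha
    rw [Finset.sum_comm]
    have h3 : ∀ b ∈ T, ∑ H : Fin m → Fin n → F, (if syn H (b - a) = 0 then (1 : ℝ) else 0)
        ≤ ∑ W : Submodule F X, (if (∀ j, b j - a j ∈ W) then (q ^ n) ^ m * ((q ^ m) ^ (finrank F W))⁻¹ else 0) := by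
      intro b _
      rw [← Finset.sum_filter, Finset.sum_const, nsmul_eq_mul, mul_one, card_H]
      set W0 := Submodule.span F (Set.range (b - a)) with hW0
      have hle : finrank F W0 ≤ n := by
        have h5 := finrank_range_le_card (R := F) (b - a)
        rw [Fintype.card_fin] at h5
        exact h5
      have h4 : (((Fintype.card F ^ (n - finrank F W0)) ^ m : ℕ) : ℝ)
          = (if (∀ j, b j - a j ∈ W0) then (q ^ n) ^ m * ((q ^ m) ^ (finrank F W0))⁻¹ else 0) := by
        rw [if_pos]
        · push_cast
          rw [← hq]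
          rw [pow_sub₀ q hq0.ne' hle, mul_pow, inv_pow]
          congr 1
          rw [← pow_mul, ← pow_mul, mul_comm]
        · intro j
          exact Submodule.subset_span ⟨j, rfl⟩
      rw [h4]
      apply Finset.single_le_sum
        (f := fun W : Submodule F X => (if (∀ j, b j - a j ∈ W) then (q ^ n) ^ m * ((q ^ m) ^ (finrank F W))⁻¹ else 0))
      · intro W _
        split_ifs
        · positivity
        · exact le_rfl
      · exact mem_univ _
    calc ∑ b ∈ T, ∑ H : Fin m → Fin n → F, (if syn H (b - a) = 0 then (1 : ℝ) else 0)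
        ≤ ∑ b ∈ T, ∑ W : Submodule F X, (if (∀ j, b j - a j ∈ W) then (q ^ n) ^ m * ((q ^ m) ^ (finrank F W))⁻¹ else 0) :=
          Finset.sum_le_sum h3
      _ = ∑ W : Submodule F X, ∑ b ∈ T, (if (∀ j, b j - a j ∈ W) then (q ^ n) ^ m * ((q ^ m) ^ (finrank F W))⁻¹ else 0) :=
          Finset.sum_comm
      _ = (q ^ n) ^ m * ∑ W : Submodule F X, (fib e0 W : ℝ) * ((q ^ m) ^ (finrank F W))⁻¹ := by
          rw [Finset.mul_sum]
          apply Finset.sum_congr rfl
          intro W _
          rw [← Finset.sum_filter, Finset.sum_const, nsmul_eq_mul]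
          have h5 : fib e0 W = (T.filter fun b => ∀ j, b j - a j ∈ W).card := by
            have ha' : typ a = typ e0 := by simpa [hT] using ha
            rw [← fib_perm e0 a W ha']
            unfold fib
            congr 1
            ext b
            simp [hT, ha']
          rw [← h5]
          ring
  calc ∑ a ∈ T, ∑ H : Fin m → Fin n → F, ∑ b ∈ T, (if syn H (b - a) = 0 then (1 : ℝ) else 0)
      ≤ ∑ a ∈ T, ((q ^ n) ^ m * ∑ W : Submodule F X, (fib e0 W : ℝ) * ((q ^ m) ^ (finrank F W))⁻¹) :=
        Finset.sum_le_sum h2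
    _ = ∑ H : Fin m → Fin n → F, B := by
        rw [Finset.sum_const, Finset.sum_const, nsmul_eq_mul, nsmul_eq_mul, hB, hT]
        simp only [card_univ, Fintype.card_pi, prod_const, Fintype.card_fin]
        push_cast
        rw [← hq]
        ring

end Pool.Agent.H22.Cov
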