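import Pool.Agent.H22.CovD

namespace Pool.Agent.H22.Cov

open Finset Module

variable {F : Type*} [Field F] [Fintype F] [DecidableEq F]
variable {X : Type*} [AddCommGroup X] [Module F X] [DecidableEq X] [Fintype X]

theorem collision_bound {α γ : Type*} [DecidableEq α] [DecidableEq γ] (T : Finset α) (f : α → γ) :
    T.card ^ 2 ≤ (T.image f).card * ((T ×ˢ T).filter fun p => f p.1 = f p.2).card := by
  classical
  have h1 : T.card = ∑ s ∈ T.image f, (T.filter fun a => f a = s).card :=
    Finset.card_eq_sum_card_image f T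
  have h2 : ((T ×ˢ T).filter fun p => f p.1 = f p.2).card
      = ∑ s ∈ T.image f, (T.filter fun a => f a = s).card ^ 2 := by
    have hm : ∀ p ∈ ((T ×ˢ T).filter fun p => f p.1 = f p.2), f p.1 ∈ T.image f := by
      intro p hp
      simp only [mem_filter, mem_product] at hp
      exact Finset.mem_image_of_mem f hp.1.1
    rw [Finset.card_eq_sum_card_fiberwise hm]
    apply Finset.sum_congr rfl
    intro s _
    rw [sq, ← Finset.card_product]
    congr 1
    ext ⟨a, b⟩
    simp only [mem_filter, mem_product]
    constructor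
    · rintro ⟨⟨⟨ha, hb⟩, hab⟩, has⟩
      exact ⟨⟨ha, has⟩, ⟨hb, hab ▸ has⟩⟩
    · rintro ⟨⟨ha, has⟩, ⟨hb, hbs⟩⟩
      exact ⟨⟨⟨ha, hb⟩, has.trans hbs.symm⟩, has⟩
  rw [h2]
  conv_lhs => rw [h1]
  exact sq_sum_le_card_mul_sum_sq

theorem sum_bound {n m : ℕ} (e0 : Fin n → X) (hb : Balanced e0) (ht : 0 < finrank F X) (β : ℝ)
    (hβ : 1 ≤ β)
    (hT : ((univ.filter fun e' : Fin n → X => typ e' = typ e0).card : ℝ)
      = (β * (Fintype.card F : ℝ) ^ m) ^ (finrank F X)) :
    ∑ᶠ W : Submodule F X, (fib e0 W : ℝ) * (((Fintype.card F : ℝ) ^ m) ^ (finrank F W))⁻¹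
      ≤ β ^ (finrank F X) + (Nat.card (Submodule F X) : ℝ) * β ^ (finrank F X - 1) := by
  classical
  have : Finite (Submodule F X) := inferInstance
  have : Fintype (Submodule F X) := Fintype.ofFinite _
  rw [finsum_eq_sum_of_fintype]
  set q : ℝ := (Fintype.card F : ℝ) with hq
  have hq0 : 0 < q := by
    rw [hq]; exact_mod_cast Fintype.card_pos
  have hβ0 : 0 < β := by linarith
  have hterm : ∀ W : Submodule F X, (fib e0 W : ℝ) * ((q ^ m) ^ (finrank F W))⁻¹ ≤ β ^ (finrank F W) := by
    intro W
    have h1 := fib_pow_le e0 hb W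
    have h2 : ((fib e0 W : ℝ)) ^ (finrank F X) ≤ ((β * q ^ m) ^ (finrank F W)) ^ (finrank F X) := by
      calc ((fib e0 W : ℝ)) ^ (finrank F X)
          ≤ ((univ.filter fun e' : Fin n → X => typ e' = typ e0).card : ℝ) ^ (finrank F W) := by
            exact_mod_cast h1
        _ = ((β * q ^ m) ^ (finrank F W)) ^ (finrank F X) := by
            rw [hT, ← pow_mul, ← pow_mul]
            congr 1
            exact mul_comm _ _
    have h3 : (fib e0 W : ℝ) ≤ (β * q ^ m) ^ (finrank F W) :=
      le_of_pow_le_pow_left₀ (by omega) (by positivity) h2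
    rw [mul_pow] at h3
    rw [← div_eq_mul_inv, div_le_iff₀ (by positivity)]
    exact h3
  have hsplit : ∑ W : Submodule F X, (fib e0 W : ℝ) * ((q ^ m) ^ (finrank F W))⁻¹
      ≤ ∑ W : Submodule F X, ((if W = ⊤ then β ^ (finrank F X) else 0) + β ^ (finrank F X - 1)) := by
    apply Finset.sum_le_sum
    intro W _
    by_cases hW : W = ⊤
    · subst hW
      have := hterm ⊤
      rw [finrank_top] at this
      simp only [if_true, finrank_top]
      have h0 : 0 ≤ β ^ (finrank F X - 1) := by positivity
      linarith
    · rw [if_neg hW, zero_add]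
      refine (hterm W).trans ?_
      apply pow_le_pow_right₀ hβ
      have := Submodule.finrank_lt hW
      omega
  refine hsplit.trans ?_
  rw [Finset.sum_add_distrib, Finset.sum_ite_eq' univ ⊤]
  simp

/-- Image of a balanced orbit under a good syndrome map is nearly everything. -/
theorem exists_H_image {n m : ℕ} (e0 : Fin n → X) (hb : Balanced e0) (ht : 0 < finrank F X) (β : ℝ)
    (hβ : 1 ≤ β)
    (hT : ((univ.filter fun e' : Fin n → X => typ e' = typ e0).card : ℝ)
      = (β * (Fintype.card F : ℝ) ^ m) ^ (finrank F X)) :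
    ∃ H : Fin m → Fin n → F,
      ((Fintype.card F : ℝ) ^ m) ^ (finrank F X) ≤
        (((univ.filter fun e' : Fin n → X => typ e' = typ e0).image (syn H)).card : ℝ)
          * (1 + (Nat.card (Submodule F X) : ℝ) / β) := by
  classical
  obtain ⟨H, hH⟩ := exists_H (m := m) (F := F) e0
  refine ⟨H, ?_⟩
  have hs := sum_bound e0 hb ht β hβ hT
  set q : ℝ := (Fintype.card F : ℝ) with hq
  have hq0 : 0 < q := by
    rw [hq]; exact_mod_cast Fintype.card_pos
  have hβ0 : 0 < β := by linarith
  set T := (univ.filter fun e' : Fin n → X => typ e' = typ e0) with hTdef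
  set t := finrank F X with htdef
  set N : ℝ := (Nat.card (Submodule F X) : ℝ) with hN
  set I : ℝ := ((T.image (syn H)).card : ℝ) with hI
  have hc := collision_bound T (syn H (X := X))
  have hc2 : (((T ×ˢ T).filter fun p => syn H p.1 = syn H p.2).card : ℝ) ≤
      (T.card : ℝ) * (β ^ t + N * β ^ (t - 1)) := by
    have h1 : ((T ×ˢ T).filter fun p => syn H p.1 = syn H p.2)
        = (univ.filter fun p : (Fin n → X) × (Fin n → X) =>
          (typ p.1 = typ e0 ∧ typ p.2 = typ e0) ∧ syn H p.1 = syn H p.2) := by
      ext p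
      simp [hTdef]
    rw [h1]
    refine hH.trans ?_
    exact mul_le_mul_of_nonneg_left hs (by positivity)
  have hc3 : (T.card : ℝ) ^ 2 ≤ I * ((T.card : ℝ) * (β ^ t + N * β ^ (t - 1))) := by
    calc (T.card : ℝ) ^ 2 ≤ I * (((T ×ˢ T).filter fun p => syn H p.1 = syn H p.2).card : ℝ) := by
          rw [hI]
          exact_mod_cast hc
      _ ≤ _ := mul_le_mul_of_nonneg_left hc2 (by positivity)
  have hTpos : 0 < (T.card : ℝ) := by
    rw [hT]; positivity
  have hc4 : (T.card : ℝ) ≤ I * (β ^ t + N * β ^ (t - 1)) := by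
    have : (T.card : ℝ) * (T.card : ℝ) ≤ (T.card : ℝ) * (I * (β ^ t + N * β ^ (t - 1))) := by
      calc (T.card : ℝ) * (T.card : ℝ) = (T.card : ℝ) ^ 2 := by ring
        _ ≤ _ := hc3
        _ = _ := by ring
    exact le_of_mul_le_mul_left this hTpos
  rw [hT, mul_pow] at hc4
  have hb1 : β ^ t = β * β ^ (t - 1) := by
    rw [← pow_succ']
    congr 1
    omega
  have hfac : β ^ t + N * β ^ (t - 1) = β ^ t * (1 + N / β) := by
    rw [hb1]
    field_simp
  rw [hfac] at hc4
  have hβt : 0 < β ^ t := by positivity
  have : β ^ t * (q ^ m) ^ t ≤ β ^ t * (I * (1 + N / β)) := by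
    calc _ ≤ _ := hc4
      _ = _ := by ring
  exact le_of_mul_le_mul_left this hβt

theorem card_preimage_le {G K : Type*} [AddCommGroup G] [AddCommGroup K] [Fintype G] [Fintype K]
    [DecidableEq G] [DecidableEq K] (f : G →+ K) (S : Finset G) :
    Fintype.card G * (S.image f).card ≤
      Fintype.card K * (univ.filter fun u : G => ∃ e ∈ S, f u = f e).card ∧
    (univ.filter fun u : G => f u = 0).card * (S.image f).card ≤ Fintype.card G := by
  classical
  -- fibers over points of the range have the size of the kernel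
  have hfib : ∀ s ∈ S.image f, (univ.filter fun u : G => f u = s).card
      = (univ.filter fun u : G => f u = 0).card := by
    intro s hs
    obtain ⟨e, _, rfl⟩ := Finset.mem_image.mp hs
    apply Finset.card_bij (fun u _ => u - e)
    · intro u hu
      simp only [mem_filter, mem_univ, true_and] at hu ⊢
      rw [map_sub, hu, sub_self]
    · intro a _ b _ h
      simpa using h
    · intro b hb
      simp only [mem_filter, mem_univ, true_and] at hb
      exact ⟨b + e, by simp [hb], by simp⟩
  have hcov : (univ.filter fun u : G => ∃ e ∈ S, f u = f e).card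
      = (S.image f).card * (univ.filter fun u : G => f u = 0).card := by
    have hm : ∀ u ∈ (univ.filter fun u : G => ∃ e ∈ S, f u = f e), f u ∈ S.image f := by
      intro u hu
      simp only [mem_filter, mem_univ, true_and] at hu
      obtain ⟨e, he, hue⟩ := hu
      rw [hue]
      exact Finset.mem_image_of_mem f he
    rw [Finset.card_eq_sum_card_fiberwise hm]
    rw [Finset.sum_const_nat (m := (univ.filter fun u : G => f u = 0).card)]
    intro s hs
    rw [← hfib s hs]
    congr 1
    ext u
    simp only [mem_filter, mem_univ, true_and]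
    constructor
    · rintro ⟨_, h⟩; exact h
    · intro h
      obtain ⟨e, he, hes⟩ := Finset.mem_image.mp hs
      exact ⟨⟨e, he, h.trans hes.symm⟩, h⟩
  have hG : Fintype.card G ≤ Fintype.card K * (univ.filter fun u : G => f u = 0).card := by
    have hm : ∀ u ∈ (univ : Finset G), f u ∈ (univ : Finset K) := by simp
    rw [← Finset.card_univ (α := G), Finset.card_eq_sum_card_fiberwise hm]
    rw [← Finset.card_univ (α := K), ← smul_eq_mul, ← Finset.sum_const]
    apply Finset.sum_le_sum
    intro s _
    rcases Finset.eq_empty_or_nonempty (univ.filter fun u : G => f u = s) with h0 | ⟨e, he⟩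
    · rw [h0]; simp
    · simp only [mem_filter, mem_univ, true_and] at he
      apply Finset.card_le_card_of_injOn (fun u => u - e)
      · intro u hu
        simp only [coe_filter, mem_univ, true_and, Set.mem_ofPred_eq] at hu ⊢
        rw [map_sub, hu, he, sub_self]
      · intro a _ b _ h
        simpa using h
  constructor
  · rw [hcov]
    calc Fintype.card G * (S.image f).card
        ≤ (Fintype.card K * (univ.filter fun u : G => f u = 0).card) * (S.image f).card :=
          Nat.mul_le_mul_right _ hG
      _ = _ := by ring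
  · have hsub : (univ.filter fun u : G => ∃ e ∈ S, f u = f e).card ≤ Fintype.card G := by
      rw [← Finset.card_univ]
      exact Finset.card_le_card (Finset.filter_subset _ _)
    rw [hcov] at hsub
    rw [mul_comm]
    exact hsub

end Pool.Agent.H22.Cov
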