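import Pool.Agent.H22.CovA
import Pool.Agent.H22.CovE

namespace Pool.Agent.H22.Cov

open Finset Module

variable {F : Type*} [Field F] [Fintype F] [DecidableEq F]

theorem syn_eq_zero_iff {t n m : ℕ} (H : Fin m → Fin n → F) (u : Fin n → (Fin t → F)) :
    syn H u = 0 ↔ ∀ i, (fun j => u j i) ∈ LinearMap.ker (syn H (X := F)) := by
  constructor
  · intro h i
    rw [LinearMap.mem_ker]
    funext l
    have := congrFun (congrFun h l) i
    simpa [syn, Finset.sum_apply] using this
  · intro h
    funext l i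
    have := h i
    rw [LinearMap.mem_ker] at this
    have := congrFun this l
    simpa [syn, Finset.sum_apply] using this

theorem card_ker_pow {t n m : ℕ} (H : Fin m → Fin n → F) :
    (univ.filter fun u : Fin n → (Fin t → F) => syn H u = 0).card
      = ((Fintype.card F) ^ (finrank F (LinearMap.ker (syn H (X := F))))) ^ t := by
  classical
  have h1 : Fintype.card {u : Fin n → (Fin t → F) // syn H u = 0}
      = Fintype.card (Fin t → LinearMap.ker (syn H (X := F))) := by
    apply Fintype.card_congr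
    refine ⟨fun u i => ⟨fun j => u.1 j i, (syn_eq_zero_iff H u.1).mp u.2 i⟩,
      fun c => ⟨fun j i => (c i).1 j, (syn_eq_zero_iff H _).mpr (fun i => (c i).2)⟩, ?_, ?_⟩
    · intro u; rfl
    · intro c; rfl
  rw [← Fintype.card_subtype, h1, Fintype.card_pi]
  simp only [prod_const, card_univ, Fintype.card_fin]
  congr 1
  exact Module.card_eq_pow_finrank

theorem exists_linear_code {t n m L : ℕ} (ht : 0 < t) (e0 : Fin n → (Fin t → F))
    (hb : Balanced e0) (β : ℝ) (hβ : 1 ≤ β)
    (hT : ((univ.filter fun e' : Fin n → (Fin t → F) => typ e' = typ e0).card : ℝ)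
      = (β * (Fintype.card F : ℝ) ^ m) ^ t)
    (hN : (Nat.card (Submodule F (Fin t → F)) : ℝ) ≤ β)
    (hL : ((Nat.card (Submodule F (Fin t → F)) : ℝ) / β) ^ L * ((Fintype.card F : ℝ) ^ t) ^ n < 1) :
    ∃ C : Submodule F (Fin n → F),
      (∀ u : Fin n → (Fin t → F), ∃ e : Fin n → (Fin t → F), typ e = typ e0 ∧
        ∀ i, (fun j => u j i - e j i) ∈ C) ∧
      finrank F C + m ≤ n + 1 + L * t := by
  classical
  have hft : finrank F (Fin t → F) = t := by simp
  obtain ⟨H, hH⟩ := exists_H_image (F := F) (m := m) e0 hb (by rw [hft]; exact ht) β hβ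
    (by rw [hft]; exact hT)
  rw [hft] at hH
  set q : ℝ := (Fintype.card F : ℝ) with hq
  have hq1 : 1 < q := by
    rw [hq]; exact_mod_cast Fintype.one_lt_card
  have hq0 : 0 < q := by linarith
  have hβ0 : 0 < β := by linarith
  set T := (univ.filter fun e' : Fin n → (Fin t → F) => typ e' = typ e0) with hTdef
  set N : ℝ := (Nat.card (Submodule F (Fin t → F)) : ℝ) with hNdef
  set I : ℝ := ((T.image (syn H)).card : ℝ) with hI
  obtain ⟨hcov, hker⟩ := card_preimage_le (G := Fin n → (Fin t → F)) (K := Fin m → (Fin t → F))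
    (syn H (X := Fin t → F)).toAddMonoidHom T
  have hN0 : 0 ≤ N := by rw [hNdef]; positivity
  have hNβ : N / β ≤ 1 := (div_le_one hβ0).mpr hN
  have hG : (Fintype.card (Fin n → (Fin t → F)) : ℝ) = (q ^ t) ^ n := by
    rw [hq]; simp
  have hK : (Fintype.card (Fin m → (Fin t → F)) : ℝ) = (q ^ m) ^ t := by
    rw [hq]; simp; ring
  have hGpos : 0 < (Fintype.card (Fin n → (Fin t → F)) : ℝ) := by rw [hG]; positivity
  -- the uncovered set
  set Cov := (univ.filter fun u : Fin n → (Fin t → F) => ∃ e ∈ T, syn H u = syn H e) with hCov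
  set U := (univ.filter fun u : Fin n → (Fin t → F) => ¬ ∃ e ∈ T, syn H u = syn H e) with hU
  have hsplit : Cov.card + U.card = Fintype.card (Fin n → (Fin t → F)) := by
    rw [hCov, hU, ← Finset.card_univ]
    exact Finset.card_filter_add_card_filter_not _
  have hcov' : (Fintype.card (Fin n → (Fin t → F)) : ℝ) * I ≤ (q ^ m) ^ t * (Cov.card : ℝ) := by
    rw [← hK, hI, hCov]
    exact_mod_cast hcov
  have hker' : ((q ^ (finrank F (LinearMap.ker (syn H (X := F))))) ^ t) * I
      ≤ (Fintype.card (Fin n → (Fin t → F)) : ℝ) := by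
    have h1 := card_ker_pow (t := t) H
    have h2 : ((univ.filter fun u : Fin n → (Fin t → F) => syn H u = 0).card : ℝ)
        = (q ^ (finrank F (LinearMap.ker (syn H (X := F))))) ^ t := by
      rw [h1, hq]; push_cast; rfl
    rw [← h2, hI]
    exact_mod_cast hker
  have hGC : (Fintype.card (Fin n → (Fin t → F)) : ℝ) ≤ (Cov.card : ℝ) * (1 + N / β) := by
    have h1 : (q ^ m) ^ t * (Fintype.card (Fin n → (Fin t → F)) : ℝ)
        ≤ (q ^ m) ^ t * ((Cov.card : ℝ) * (1 + N / β)) := by
      calc (q ^ m) ^ t * (Fintype.card (Fin n → (Fin t → F)) : ℝ)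
          ≤ (I * (1 + N / β)) * (Fintype.card (Fin n → (Fin t → F)) : ℝ) := by
            apply mul_le_mul_of_nonneg_right hH hGpos.le
        _ = ((Fintype.card (Fin n → (Fin t → F)) : ℝ) * I) * (1 + N / β) := by ring
        _ ≤ ((q ^ m) ^ t * (Cov.card : ℝ)) * (1 + N / β) := by
            apply mul_le_mul_of_nonneg_right hcov'
            positivity
        _ = _ := by ring
    exact le_of_mul_le_mul_left h1 (by positivity)
  have hUle : (U.card : ℝ) ≤ (Fintype.card (Fin n → (Fin t → F)) : ℝ) * (N / β) := by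
    have h1 : (Cov.card : ℝ) + (U.card : ℝ) = (Fintype.card (Fin n → (Fin t → F)) : ℝ) := by
      exact_mod_cast hsplit
    have h2 : (Cov.card : ℝ) ≤ (Fintype.card (Fin n → (Fin t → F)) : ℝ) := by
      have : 0 ≤ (U.card : ℝ) := by positivity
      linarith
    have h3 : 0 ≤ N / β := by positivity
    nlinarith
  obtain ⟨V, hV⟩ := exists_shifts U L
  have hzero : (univ.filter fun u : Fin n → (Fin t → F) => ∀ j, u - V j ∈ U).card = 0 := by
    by_contra hne
    have hge : 1 ≤ (univ.filter fun u : Fin n → (Fin t → F) => ∀ j, u - V j ∈ U).card :=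
      Nat.one_le_iff_ne_zero.mpr hne
    have h1 : (Fintype.card (Fin n → (Fin t → F))) ^ L
        ≤ U.card ^ L * Fintype.card (Fin n → (Fin t → F)) := by
      calc (Fintype.card (Fin n → (Fin t → F))) ^ L
          = 1 * (Fintype.card (Fin n → (Fin t → F))) ^ L := (one_mul _).symm
        _ ≤ _ := Nat.mul_le_mul_right _ hge
        _ ≤ _ := hV
    have h2 : (Fintype.card (Fin n → (Fin t → F)) : ℝ) ^ L
        ≤ (U.card : ℝ) ^ L * (Fintype.card (Fin n → (Fin t → F)) : ℝ) := by
      exact_mod_cast h1
    have h3 : (U.card : ℝ) ^ L ≤ ((Fintype.card (Fin n → (Fin t → F)) : ℝ) * (N / β)) ^ L :=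
      pow_le_pow_left₀ (by positivity) hUle L
    have h4 : (Fintype.card (Fin n → (Fin t → F)) : ℝ) ^ L * 1
        ≤ (Fintype.card (Fin n → (Fin t → F)) : ℝ) ^ L * ((N / β) ^ L * (q ^ t) ^ n) := by
      calc (Fintype.card (Fin n → (Fin t → F)) : ℝ) ^ L * 1
          = (Fintype.card (Fin n → (Fin t → F)) : ℝ) ^ L := mul_one _
        _ ≤ (U.card : ℝ) ^ L * (Fintype.card (Fin n → (Fin t → F)) : ℝ) := h2
        _ ≤ ((Fintype.card (Fin n → (Fin t → F)) : ℝ) * (N / β)) ^ L
              * (Fintype.card (Fin n → (Fin t → F)) : ℝ) :=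
            mul_le_mul_of_nonneg_right h3 hGpos.le
        _ = _ := by rw [mul_pow, ← hG]; ring
    have h5 := le_of_mul_le_mul_left h4 (by positivity)
    linarith
  let rows : Fin L × Fin t → (Fin n → F) := fun p => fun j => V p.1 j p.2
  refine ⟨LinearMap.ker (syn H (X := F)) ⊔ Submodule.span F (Set.range rows), ?_, ?_⟩
  · intro u
    have hu : ∃ j, u - V j ∉ U := by
      by_contra hcon
      push Not at hcon
      have : u ∈ (univ.filter fun u : Fin n → (Fin t → F) => ∀ j, u - V j ∈ U) := by
        simp only [mem_filter, mem_univ, true_and]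
        exact hcon
      rw [Finset.card_eq_zero] at hzero
      rw [hzero] at this
      simp at this
    obtain ⟨l, hl⟩ := hu
    rw [hU] at hl
    simp only [mem_filter, mem_univ, true_and, not_not] at hl
    obtain ⟨e, he, hse⟩ := hl
    refine ⟨e, by simpa [hTdef] using he, ?_⟩
    have h0 : syn H (u - V l - e) = 0 := by
      rw [map_sub, hse, sub_self]
    intro i
    have h1 := (syn_eq_zero_iff H _).mp h0 i
    have h2 : (fun j => u j i - e j i) = (fun j => (u - V l - e) j i) + rows (l, i) := by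
      funext j
      simp only [rows, Pi.sub_apply, Pi.add_apply]
      ring
    rw [h2]
    apply Submodule.add_mem_sup h1
    exact Submodule.subset_span ⟨(l, i), rfl⟩
  · have h1 : finrank F (Submodule.span F (Set.range rows)) ≤ L * t := by
      have := finrank_range_le_card (R := F) rows
      rw [Fintype.card_prod, Fintype.card_fin, Fintype.card_fin] at this
      exact this
    have h2 := Submodule.finrank_add_le_finrank_add_finrank (LinearMap.ker (syn H (X := F)))
      (Submodule.span F (Set.range rows))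
    set d := finrank F (LinearMap.ker (syn H (X := F))) with hd
    have h3 : d + m ≤ n + 1 := by
      -- (q^d)^t * (q^m)^t ≤ 2 (q^t)^n
      have h4 : (q ^ d) ^ t * (q ^ m) ^ t ≤ 2 * (q ^ t) ^ n := by
        calc (q ^ d) ^ t * (q ^ m) ^ t ≤ (q ^ d) ^ t * (I * (1 + N / β)) :=
              mul_le_mul_of_nonneg_left hH (by positivity)
          _ = ((q ^ d) ^ t * I) * (1 + N / β) := by ring
          _ ≤ (Fintype.card (Fin n → (Fin t → F)) : ℝ) * (1 + N / β) :=
              mul_le_mul_of_nonneg_right hker' (by positivity)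
          _ ≤ (Fintype.card (Fin n → (Fin t → F)) : ℝ) * 2 :=
              mul_le_mul_of_nonneg_left (by linarith) hGpos.le
          _ = 2 * (q ^ t) ^ n := by rw [hG]; ring
      have hq2 : (2 : ℝ) ≤ q := by
        rw [hq]
        exact_mod_cast Fintype.one_lt_card
      have h5 : q ^ (t * (d + m)) ≤ q ^ (t * n + 1) := by
        calc q ^ (t * (d + m)) = (q ^ d) ^ t * (q ^ m) ^ t := by ring
          _ ≤ 2 * (q ^ t) ^ n := h4
          _ ≤ q * (q ^ t) ^ n := mul_le_mul_of_nonneg_right hq2 (by positivity)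
          _ = q ^ (t * n + 1) := by ring
      have h6 : t * (d + m) ≤ t * n + 1 := (pow_le_pow_iff_right₀ hq1).mp h5
      by_contra hcon
      push Not at hcon
      have h7 : t * (n + 2) ≤ t * (d + m) := Nat.mul_le_mul_left t (by omega)
      have h8 : t * (n + 2) = t * n + 2 * t := by ring
      omega
    omega

end Pool.Agent.H22.Cov
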