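import Pool.Agent.H22.CovB

namespace Pool.Agent.H22.Cov

open Finset

/-- number of nonzero entries -/
def wt {n : ℕ} {X : Type*} [DecidableEq X] [Zero X] (e : Fin n → X) : ℕ :=
  (univ.filter fun j => e j ≠ 0).card

theorem exists_of_typ {n : ℕ} {X : Type*} [DecidableEq X] [Fintype X] (τ : X → ℕ)
    (h : ∑ x, τ x = n) : ∃ e : Fin n → X, typ e = τ := by
  classical
  have hc : Fintype.card (Fin n) = Fintype.card (Σ x, Fin (τ x)) := by
    simp [h]
  let f := Fintype.equivOfCardEq hc
  refine ⟨fun j => (f j).1, ?_⟩
  funext x
  unfold typ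
  have : (univ.filter fun j => (f j).1 = x).card = (univ : Finset (Fin (τ x))).card := by
    symm
    apply Finset.card_bij (fun a _ => f.symm ⟨x, a⟩)
    · intro a _
      simp
    · intro a _ b _ hab
      have := f.symm.injective hab
      simpa using this
    · intro b hb
      simp only [mem_filter, mem_univ, true_and] at hb
      refine ⟨hb ▸ (f b).2, mem_univ _, ?_⟩
      apply f.injective
      rw [Equiv.apply_symm_apply]
      subst hb
      rfl
  rw [this]
  simp

theorem fact_ineq (k a : ℕ) : k.factorial * k ^ a ≤ a.factorial * k ^ k := by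
  rcases le_total k a with h | h
  · have h1 := Nat.factorial_mul_pow_sub_le_factorial h
    calc k.factorial * k ^ a = (k.factorial * k ^ (a - k)) * k ^ k := by
          rw [mul_assoc, ← pow_add]
          congr 2
          omega
      _ ≤ a.factorial * k ^ k := Nat.mul_le_mul_right _ h1
  · have h1 : (k - (k - a)).factorial * k.descFactorial (k - a) = k.factorial :=
      Nat.factorial_mul_descFactorial (Nat.sub_le _ _)
    have h2 : k - (k - a) = a := by omega
    rw [h2] at h1
    have h3 : k.descFactorial (k - a) ≤ k ^ (k - a) := Nat.descFactorial_le_pow _ _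
    calc k.factorial * k ^ a = (a.factorial * k.descFactorial (k - a)) * k ^ a := by rw [h1]
      _ ≤ (a.factorial * k ^ (k - a)) * k ^ a :=
          Nat.mul_le_mul_right _ (Nat.mul_le_mul_left _ h3)
      _ = a.factorial * k ^ k := by
          rw [mul_assoc, ← pow_add]
          congr 2
          omega

theorem balanced_orbit {n : ℕ} {X : Type*} [DecidableEq X] [Fintype X] [AddCommGroup X]
    (e : Fin n → X) :
    ∃ e0 : Fin n → X, (∃ k : ℕ, ∀ x : X, x ≠ 0 → typ e0 x = k) ∧ wt e0 ≤ wt e ∧
      (univ.filter fun e' : Fin n → X => typ e' = typ e).card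
        ≤ (n + 1) ^ (Fintype.card X) *
          (univ.filter fun e' : Fin n → X => typ e' = typ e0).card := by
  classical
  set c := (univ.filter fun x : X => x ≠ 0).card with hc
  set w := wt e with hw
  set k := w / c with hk
  have hcX : c ≤ Fintype.card X := by
    rw [hc, ← Finset.card_univ]
    exact Finset.card_le_card (Finset.filter_subset _ _)
  have hwn : w ≤ n := by
    rw [hw]; unfold wt
    calc _ ≤ (univ : Finset (Fin n)).card := Finset.card_le_card (Finset.filter_subset _ _)
      _ = n := by simp
  have hKw : c * k ≤ w := Nat.mul_div_le w c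
  -- the weight is the sum of nonzero types
  have hwt : ∀ e' : Fin n → X, wt e' = ∑ x ∈ univ.filter (fun x : X => x ≠ 0), typ e' x := by
    intro e'
    unfold wt
    have hm : ∀ j ∈ (univ.filter fun j => e' j ≠ 0), e' j ∈ univ.filter (fun x : X => x ≠ 0) := by
      intro j hj
      simpa using hj
    rw [Finset.card_eq_sum_card_fiberwise hm]
    apply Finset.sum_congr rfl
    intro x hx
    unfold typ
    congr 1
    ext j
    simp only [mem_filter, mem_univ, true_and] at hx ⊢
    constructor
    · rintro ⟨_, h⟩; exact h
    · intro h; exact ⟨by rw [h]; exact hx, h⟩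
  let τ : X → ℕ := fun x => if x = 0 then n - c * k else k
  have hτ : ∑ x, τ x = n := by
    rw [← Finset.sum_filter_add_sum_filter_not univ (fun x : X => x ≠ 0)]
    have h1 : ∑ x ∈ univ.filter (fun x : X => x ≠ 0), τ x = c * k := by
      rw [hc, Finset.sum_const_nat]
      intro x hx
      simp only [mem_filter, mem_univ, true_and] at hx
      simp [τ, hx]
    have h2 : ∑ x ∈ univ.filter (fun x : X => ¬ x ≠ 0), τ x = n - c * k := by
      have : univ.filter (fun x : X => ¬ x ≠ 0) = {0} := by
        ext x; simp
      rw [this]
      simp [τ]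
    rw [h1, h2]
    omega
  obtain ⟨e0, he0⟩ := exists_of_typ τ hτ
  refine ⟨e0, ⟨k, fun x hx => by rw [he0]; simp [τ, hx]⟩, ?_, ?_⟩
  · rw [hwt e0, he0]
    have h1 : ∑ x ∈ univ.filter (fun x : X => x ≠ 0), τ x = c * k := by
      rw [hc, Finset.sum_const_nat]
      intro x hx
      simp only [mem_filter, mem_univ, true_and] at hx
      simp [τ, hx]
    rw [h1]
    exact hKw
  · have h1 := card_typ_mul e
    have h2 := card_typ_mul e0
    have hprod : ∀ σ : X → ℕ, ∏ x, (σ x).factorial
        = (∏ x ∈ univ.filter (fun x : X => x ≠ 0), (σ x).factorial) * (σ 0).factorial := by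
      intro σ
      rw [← Finset.prod_filter_mul_prod_filter_not univ (fun x : X => x ≠ 0)]
      congr 1
      have : univ.filter (fun x : X => ¬ x ≠ 0) = {0} := by
        ext x; simp
      rw [this]
      simp
    have htyp0 : typ e 0 = n - w := by
      have h3 := typ_sum e
      rw [← Finset.sum_filter_add_sum_filter_not univ (fun x : X => x ≠ 0)] at h3
      have : univ.filter (fun x : X => ¬ x ≠ 0) = {0} := by
        ext x; simp
      rw [this, ← hwt e, Finset.sum_singleton] at h3
      omega
    -- product comparison
    have hA : ∏ x ∈ univ.filter (fun x : X => x ≠ 0), (typ e0 x).factorial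
        ≤ ∏ x ∈ univ.filter (fun x : X => x ≠ 0), (typ e x).factorial := by
      have h3 : ∏ x ∈ univ.filter (fun x : X => x ≠ 0), (typ e0 x).factorial = k.factorial ^ c := by
        rw [hc, Finset.prod_congr rfl (g := fun _ => k.factorial), Finset.prod_const]
        intro x hx
        simp only [mem_filter, mem_univ, true_and] at hx
        rw [he0]; simp [τ, hx]
      rw [h3]
      rcases Nat.eq_zero_or_pos k with hk0 | hk0
      · rw [hk0]
        simp only [Nat.factorial_zero, one_pow]
        exact Nat.one_le_iff_ne_zero.mpr (Finset.prod_ne_zero_iff.mpr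
          (fun x _ => Nat.factorial_ne_zero _))
      · have h4 : ∏ x ∈ univ.filter (fun x : X => x ≠ 0), (k.factorial * k ^ (typ e x))
            ≤ ∏ x ∈ univ.filter (fun x : X => x ≠ 0), ((typ e x).factorial * k ^ k) :=
          Finset.prod_le_prod' (fun x _ => fact_ineq k (typ e x))
        rw [Finset.prod_mul_distrib, Finset.prod_mul_distrib, Finset.prod_const, Finset.prod_const,
          ← hc, Finset.prod_pow_eq_pow_sum, ← hwt e] at h4
        have h5 : (k ^ k) ^ c ≤ k ^ w := by
          rw [← pow_mul, mul_comm]
          exact Nat.pow_le_pow_right hk0 hKw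
        have h6 : k.factorial ^ c * k ^ w
            ≤ (∏ x ∈ univ.filter (fun x : X => x ≠ 0), (typ e x).factorial) * k ^ w :=
          h4.trans (Nat.mul_le_mul_left _ h5)
        exact Nat.le_of_mul_le_mul_right h6 (pow_pos hk0 _)
    have hB : (typ e0 0).factorial ≤ (n + 1) ^ (Fintype.card X) * (typ e 0).factorial := by
      rw [he0, htyp0]
      simp only [τ, if_true]
      rcases Nat.eq_zero_or_pos c with hc0 | hc0
      · have : w = 0 := by
          have h3 := hwt e
          have h4 : univ.filter (fun x : X => x ≠ 0) = ∅ := Finset.card_eq_zero.mp (hc ▸ hc0)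
          rw [h4] at h3
          simpa using h3
        rw [this, hc0]
        simp only [zero_mul, Nat.sub_zero]
        exact Nat.le_mul_of_pos_left _ (pow_pos (Nat.succ_pos _) _)
      · have hmod : w - c * k < c := by
          have := Nat.mod_add_div w c
          have h3 := Nat.mod_lt w hc0
          rw [← hk] at this
          omega
        have h3 : (n - c * k - (w - c * k)).factorial * (n - c * k).descFactorial (w - c * k)
            = (n - c * k).factorial :=
          Nat.factorial_mul_descFactorial (by omega)
        have h4 : n - c * k - (w - c * k) = n - w := by omega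
        rw [h4] at h3
        rw [← h3, mul_comm]
        apply Nat.mul_le_mul_right
        calc (n - c * k).descFactorial (w - c * k) ≤ (n - c * k) ^ (w - c * k) :=
              Nat.descFactorial_le_pow _ _
          _ ≤ (n + 1) ^ (w - c * k) := Nat.pow_le_pow_left (by omega) _
          _ ≤ (n + 1) ^ (Fintype.card X) := Nat.pow_le_pow_right (by omega) (by omega)
    have hAB : ∏ x, (typ e0 x).factorial
        ≤ (n + 1) ^ (Fintype.card X) * ∏ x, (typ e x).factorial := by
      rw [hprod, hprod]
      calc _ ≤ (∏ x ∈ univ.filter (fun x : X => x ≠ 0), (typ e x).factorial) *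
            ((n + 1) ^ (Fintype.card X) * (typ e 0).factorial) := Nat.mul_le_mul hA hB
        _ = _ := by ring
    have hpos : 0 < ∏ x, (typ e x).factorial :=
      Finset.prod_pos (fun x _ => Nat.factorial_pos _)
    apply Nat.le_of_mul_le_mul_right _ hpos
    rw [h1, ← h2]
    calc _ ≤ (univ.filter fun e' : Fin n → X => typ e' = typ e0).card
          * ((n + 1) ^ (Fintype.card X) * ∏ x, (typ e x).factorial) := Nat.mul_le_mul_left _ hAB
      _ = _ := by ring

theorem ball_le {n : ℕ} {X : Type*} [DecidableEq X] [Fintype X] [AddCommGroup X] (R : ℕ) :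
    ∃ e0 : Fin n → X, (∃ k : ℕ, ∀ x : X, x ≠ 0 → typ e0 x = k) ∧ wt e0 ≤ R ∧
      (univ.filter fun e : Fin n → X => wt e ≤ R).card
        ≤ (n + 1) ^ (2 * Fintype.card X) *
          (univ.filter fun e' : Fin n → X => typ e' = typ e0).card := by
  classical
  set S := (univ.filter fun e : Fin n → X => wt e ≤ R) with hS
  have hne : S.Nonempty := ⟨0, by simp [hS, wt]⟩
  obtain ⟨e1, he1, hmax⟩ := Finset.exists_max_image S
    (fun e => (univ.filter fun e' : Fin n → X => typ e' = typ e).card) hne
  obtain ⟨e0, hb, hw, hle⟩ := balanced_orbit e1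
  refine ⟨e0, hb, hw.trans (by simpa [hS] using he1), ?_⟩
  have h1 : S.card ≤ (univ.filter fun e' : Fin n → X => typ e' = typ e1).card * (S.image typ).card := by
    apply Finset.card_le_mul_card_image
    intro τ hτ
    obtain ⟨e, he, rfl⟩ := Finset.mem_image.mp hτ
    refine le_trans ?_ (hmax e he)
    apply Finset.card_le_card
    intro a ha
    simp only [mem_filter, mem_univ, true_and] at ha ⊢
    exact ha.2
  have h2 : (S.image typ).card ≤ (n + 1) ^ (Fintype.card X) := by
    have h3 : S.image typ ⊆ Fintype.piFinset (fun _ : X => Finset.range (n + 1)) := by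
      intro τ hτ
      obtain ⟨e, _, rfl⟩ := Finset.mem_image.mp hτ
      simp only [Fintype.mem_piFinset, mem_range]
      intro x
      unfold typ
      have : (univ.filter fun j => e j = x).card ≤ (univ : Finset (Fin n)).card :=
        Finset.card_le_card (Finset.filter_subset _ _)
      rw [Finset.card_univ, Fintype.card_fin] at this
      omega
    refine (Finset.card_le_card h3).trans ?_
    rw [Fintype.card_piFinset]
    simp
  calc S.card ≤ _ := h1
    _ ≤ ((n + 1) ^ (Fintype.card X) *
          (univ.filter fun e' : Fin n → X => typ e' = typ e0).card) * (n + 1) ^ (Fintype.card X) :=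
        Nat.mul_le_mul hle h2
    _ = _ := by ring

end Pool.Agent.H22.Cov
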