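import Pool.Agent.H22.CovF
import Pool.Agent.H22.CovG

namespace Pool.Agent.H22.Cov

open Finset Module Filter Topology

variable {F : Type*} [Field F] [Fintype F] [DecidableEq F]

/-- sphere covering bound for general codes -/
theorem sphere_covering {t n R : ℕ} (C : Finset (Fin n → F))
    (hC : ∀ u : Fin n → (Fin t → F), ∃ c : Fin n → (Fin t → F),
      (∀ i, (fun j => c j i) ∈ C) ∧ wt (u - c) ≤ R) :
    ((Fintype.card F) ^ t) ^ n ≤
      C.card ^ t * (univ.filter fun e : Fin n → (Fin t → F) => wt e ≤ R).card := by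
  classical
  have h1 : ((Fintype.card F) ^ t) ^ n = (univ : Finset (Fin n → (Fin t → F))).card := by
    simp
  rw [h1]
  have h2 : (univ : Finset (Fin n → (Fin t → F))) ⊆
      ((Fintype.piFinset (fun _ : Fin t => C)) ×ˢ
        (univ.filter fun e : Fin n → (Fin t → F) => wt e ≤ R)).image
        (fun p => (fun j i => p.1 i j) + p.2) := by
    intro u _
    obtain ⟨c, hc, hw⟩ := hC u
    rw [Finset.mem_image]
    refine ⟨(fun i j => c j i, u - c), ?_, ?_⟩
    · simp only [mem_product, Fintype.mem_piFinset, mem_filter, mem_univ, true_and]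
      exact ⟨hc, hw⟩
    · funext j i
      simp
  calc (univ : Finset (Fin n → (Fin t → F))).card
      ≤ _ := Finset.card_le_card h2
    _ ≤ _ := Finset.card_image_le
    _ = _ := by
        rw [Finset.card_product, Fintype.card_piFinset]
        simp

theorem log_small (K K' ε : ℝ) (hε : 0 < ε) :
    ∀ᶠ n : ℕ in atTop, K * Real.log ((n : ℝ) + 1) + K' ≤ ε * n := by
  have h1 : Tendsto (fun n : ℕ => Real.log ((n : ℝ) + 1) / n) atTop (𝓝 0) := by
    have h2 := Real.tendsto_pow_log_div_mul_add_atTop 1 (-1) 1 one_ne_zero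
    have h3 : Tendsto (fun n : ℕ => (n : ℝ) + 1) atTop atTop :=
      tendsto_atTop_add_const_right _ _ tendsto_natCast_atTop_atTop
    have h4 := h2.comp h3
    refine h4.congr ?_
    intro n
    simp
  have h5 : Tendsto (fun n : ℕ => K' / (n : ℝ)) atTop (𝓝 0) :=
    tendsto_const_nhds.div_atTop tendsto_natCast_atTop_atTop
  have h6 : Tendsto (fun n : ℕ => K * (Real.log ((n : ℝ) + 1) / n) + K' / (n : ℝ)) atTop (𝓝 0) := by
    have := (h1.const_mul K).add h5
    simpa using this
  filter_upwards [h6.eventually (gt_mem_nhds hε), eventually_gt_atTop 0] with n hn hn0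
  have hn0' : (0 : ℝ) < n := by exact_mod_cast hn0
  have : (K * (Real.log ((n : ℝ) + 1) / n) + K' / (n : ℝ)) * n ≤ ε * n :=
    mul_le_mul_of_nonneg_right hn.le hn0'.le
  calc K * Real.log ((n : ℝ) + 1) + K'
      = (K * (Real.log ((n : ℝ) + 1) / n) + K' / (n : ℝ)) * n := by
        field_simp
    _ ≤ ε * n := this

theorem main_bound (t : ℕ) (ht : 0 < t) (δ : ℝ) (hδ : 0 < δ) :
    ∃ n0 : ℕ, ∀ n ≥ n0, ∀ R : ℕ, ∀ C : Finset (Fin n → F), C.Nonempty →
      (∀ u : Fin n → (Fin t → F), ∃ c : Fin n → (Fin t → F),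
        (∀ i, (fun j => c j i) ∈ C) ∧ wt (u - c) ≤ R) →
      ∃ C' : Submodule F (Fin n → F),
        (∀ u : Fin n → (Fin t → F), ∃ c : Fin n → (Fin t → F),
          (∀ i, (fun j => c j i) ∈ C') ∧ wt (u - c) ≤ R) ∧
        (finrank F C' : ℝ) ≤ Real.logb (Fintype.card F) C.card + δ * n := by
  classical
  set q : ℝ := (Fintype.card F : ℝ) with hq
  have hq1 : 1 < q := by
    rw [hq]; exact_mod_cast Fintype.one_lt_card
  have hq0 : 0 < q := by linarith
  have hlq : 0 < Real.log q := Real.log_pos hq1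
  have ht' : (0 : ℝ) < t := by exact_mod_cast ht
  set x : ℕ := Fintype.card (Fin t → F) with hx
  set N : ℝ := (Nat.card (Submodule F (Fin t → F)) : ℝ) with hN
  have hN1 : 1 ≤ N := by
    rw [hN]
    have : 0 < Nat.card (Submodule F (Fin t → F)) := Nat.card_pos
    exact_mod_cast this
  set L : ℕ := ⌈4 * t / δ⌉₊ + 1 with hL
  have hLδ : 4 * t < δ * L := by
    have h1 : 4 * t / δ ≤ ⌈4 * t / δ⌉₊ := Nat.le_ceil _
    have h2 : 4 * t / δ < L := by
      rw [hL]; push_cast; linarith
    rw [div_lt_iff₀ hδ] at h2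
    linarith
  have hev := (log_small (2 * x / t / Real.log q) (L * t + 2) (δ / 2) (by linarith)).and
    ((log_small 0 (Real.logb q N) (δ / 4) (by linarith)).and (eventually_gt_atTop 0))
  rw [eventually_atTop] at hev
  obtain ⟨n0, hn0⟩ := hev
  refine ⟨n0, ?_⟩
  intro n hn R C hCne hC
  obtain ⟨hlog, hNlog, hnpos⟩ := hn0 n hn
  have hnpos' : (0 : ℝ) < n := by exact_mod_cast hnpos
  obtain ⟨e0, hb, hwt, hball⟩ := ball_le (n := n) (X := Fin t → F) R
  set M : ℕ := (univ.filter fun e' : Fin n → (Fin t → F) => typ e' = typ e0).card with hM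
  have hMpos : 0 < M := by
    rw [hM, Finset.card_pos]
    exact ⟨e0, by simp⟩
  have hMpos' : (0 : ℝ) < M := by exact_mod_cast hMpos
  have hCpos : (0 : ℝ) < C.card := by exact_mod_cast hCne.card_pos
  have hsc := sphere_covering C hC
  -- logarithmic form of the sphere covering bound
  set a : ℝ := Real.logb q M / t with ha
  have hlogM : Real.logb q M = a * t := by rw [ha]; field_simp
  have hsc2 : (n : ℝ) ≤ Real.logb q C.card + (2 * x / t / Real.log q) * Real.log ((n : ℝ) + 1) + a := by
    have h1 : (q ^ t) ^ n ≤ (C.card : ℝ) ^ t * (((n : ℝ) + 1) ^ (2 * x) * M) := by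
      calc (q ^ t) ^ n = ((((Fintype.card F) ^ t) ^ n : ℕ) : ℝ) := by rw [hq]; push_cast; rfl
        _ ≤ ((C.card ^ t * (univ.filter fun e : Fin n → (Fin t → F) => wt e ≤ R).card : ℕ) : ℝ) := by
            exact_mod_cast hsc
        _ ≤ ((C.card ^ t * ((n + 1) ^ (2 * x) * M) : ℕ) : ℝ) := by
            exact_mod_cast Nat.mul_le_mul_left _ hball
        _ = _ := by push_cast; ring
    have hn1 : (0 : ℝ) < (n : ℝ) + 1 := by positivity
    have hp1 : (C.card : ℝ) ^ t ≠ 0 := (pow_pos hCpos t).ne'
    have hp2 : ((n : ℝ) + 1) ^ (2 * x) ≠ 0 := (pow_pos hn1 _).ne'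
    have h2 : Real.logb q ((q ^ t) ^ n) ≤ Real.logb q ((C.card : ℝ) ^ t * (((n : ℝ) + 1) ^ (2 * x) * M)) :=
      Real.logb_le_logb_of_le hq1 (pow_pos (pow_pos hq0 t) n) h1
    rw [Real.logb_mul hp1 (mul_ne_zero hp2 hMpos'.ne'), Real.logb_mul hp2 hMpos'.ne',
      ← pow_mul, Real.logb_pow, Real.logb_pow, Real.logb_pow] at h2
    rw [Real.logb_self_eq_one hq1, mul_one, hlogM] at h2
    have h3 : Real.logb q ((n : ℝ) + 1) = Real.log ((n : ℝ) + 1) / Real.log q := rfl
    rw [h3] at h2
    push_cast at h2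
    have h4 : (t : ℝ) * n ≤ t * (Real.logb q C.card + (2 * x / t / Real.log q) * Real.log ((n : ℝ) + 1) + a) := by
      calc (t : ℝ) * n ≤ t * Real.logb q C.card + (2 * x * (Real.log ((n : ℝ) + 1) / Real.log q) + a * t) := h2
        _ = _ := by field_simp; ring
    exact le_of_mul_le_mul_left h4 ht'
  rcases lt_or_ge (a - δ * n / 2) 0 with hcase | hcase
  · refine ⟨⊤, ?_, ?_⟩
    · intro u
      refine ⟨u, fun i => Submodule.mem_top, ?_⟩
      rw [sub_self]
      simp [wt]
    · rw [finrank_top]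
      simp only [finrank_fintype_fun_eq_card, Fintype.card_fin]
      have hL0 : (0 : ℝ) ≤ L * t + 2 := by positivity
      linarith
  · set m : ℕ := ⌊a - δ * n / 2⌋₊ with hm
    have hm1 : (m : ℝ) ≤ a - δ * n / 2 := Nat.floor_le hcase
    have hm2 : a - δ * n / 2 < m + 1 := Nat.lt_floor_add_one _
    set β : ℝ := q ^ (a - m) with hβ
    have hβ0 : 0 < β := Real.rpow_pos_of_pos hq0 _
    have hβge : q ^ (δ * n / 2) ≤ β := by
      rw [hβ]
      apply Real.rpow_le_rpow_of_exponent_le hq1.le
      linarith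
    have hNle : N ≤ q ^ (δ * n / 4) := by
      have h1 : Real.logb q N ≤ δ * n / 4 := by
        have h2 := hNlog
        linarith
      rw [Real.logb_le_iff_le_rpow hq1 (by linarith)] at h1
      exact h1
    have hβ1 : 1 ≤ β := by
      refine le_trans ?_ hβge
      apply Real.one_le_rpow hq1.le
      positivity
    have hNβ : N / β ≤ q ^ (-(δ * n / 4)) := by
      rw [div_le_iff₀ hβ0]
      calc N ≤ q ^ (δ * n / 4) := hNle
        _ = q ^ (-(δ * n / 4)) * q ^ (δ * n / 2) := by
            rw [← Real.rpow_add hq0]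
            congr 1
            ring
        _ ≤ q ^ (-(δ * n / 4)) * β :=
            mul_le_mul_of_nonneg_left hβge (Real.rpow_nonneg hq0.le _)
    have hT : (M : ℝ) = (β * q ^ m) ^ t := by
      have h1 : β * q ^ m = q ^ a := by
        rw [hβ, ← Real.rpow_natCast q m, ← Real.rpow_add hq0]
        congr 1
        ring
      rw [h1, ← Real.rpow_natCast (q ^ a) t, ← Real.rpow_mul hq0.le, ← hlogM,
        Real.rpow_logb hq0 hq1.ne' hMpos']
    have hNβ1 : N ≤ β := by
      refine hNle.trans (le_trans ?_ hβge)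
      apply Real.rpow_le_rpow_of_exponent_le hq1.le
      have : 0 < δ * n := by positivity
      linarith
    have hLlt : (N / β) ^ L * (q ^ t) ^ n < 1 := by
      have h0 : 0 ≤ N / β := by positivity
      calc (N / β) ^ L * (q ^ t) ^ n ≤ (q ^ (-(δ * n / 4))) ^ L * (q ^ t) ^ n := by
            apply mul_le_mul_of_nonneg_right (pow_le_pow_left₀ h0 hNβ L) (by positivity)
        _ = q ^ ((-(δ * n / 4)) * L + t * n) := by
            rw [← Real.rpow_natCast (q ^ (-(δ * n / 4))) L, ← Real.rpow_mul hq0.le, ← pow_mul,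
              ← Real.rpow_natCast q (t * n), ← Real.rpow_add hq0]
            push_cast
            rfl
        _ < 1 := by
            apply Real.rpow_lt_one_of_one_lt_of_neg hq1
            have : 4 * t * n < δ * L * n := mul_lt_mul_of_pos_right hLδ hnpos'
            nlinarith
    obtain ⟨C', hC', hdim⟩ := exists_linear_code (L := L) ht e0 hb β hβ1 hT hNβ1 hLlt
    refine ⟨C', ?_, ?_⟩
    · intro u
      obtain ⟨e, hte, hmem⟩ := hC' u
      refine ⟨u - e, fun i => by simpa using hmem i, ?_⟩
      have h1 : wt (u - (u - e)) = wt e := by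
        congr 1
        abel
      have h2 : wt e = wt e0 := by
        have h3 : ∀ e' : Fin n → (Fin t → F), wt e' = n - typ e' 0 := by
          intro e'
          have h4 := Finset.card_filter_add_card_filter_not (s := (univ : Finset (Fin n)))
            (fun j => e' j = 0)
          rw [Finset.card_univ, Fintype.card_fin] at h4
          unfold wt typ
          have h5 : (univ.filter fun j => e' j ≠ 0).card = (univ.filter fun j => ¬ e' j = 0).card := rfl
          omega
        rw [h3, h3, hte]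
      rw [h1, h2]
      exact hwt
    · have h1 : (finrank F C' : ℝ) + m ≤ n + 1 + L * t := by exact_mod_cast hdim
      linarith

end Pool.Agent.H22.Cov
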