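import Mathlib

namespace Pool.Agent.H22.Hy

open UpperHalfPlane MeasureTheory Metric Set
open scoped MatrixGroups Topology

/-- group law of the half plane viewed as the group of affine maps -/
noncomputable def mulS (z w : ℍ) : ℍ :=
  ⟨⟨z.re + z.im * w.re, z.im * w.im⟩, mul_pos z.im_pos w.im_pos⟩

@[simp] theorem mulS_re (z w : ℍ) : (mulS z w).re = z.re + z.im * w.re := rfl
@[simp] theorem mulS_im (z w : ℍ) : (mulS z w).im = z.im * w.im := rfl

theorem toSL2R_smul (z w : ℍ) : z.toSL2R • w = mulS z w := by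
  apply UpperHalfPlane.ext
  have hs : √z.im ≠ (0 : ℝ) := by simpa [Real.sqrt_ne_zero'] using z.im_pos
  have hs2 : (√z.im : ℂ) ≠ 0 := by exact_mod_cast hs
  have hsq : (√z.im : ℂ) * (√z.im : ℂ) = (z.im : ℂ) := by
    rw [← Complex.ofReal_mul, Real.mul_self_sqrt z.im_pos.le]
  rw [coe_specialLinearGroup_apply]
  simp only [coe_toSL2R, Matrix.of_apply, Matrix.cons_val', Matrix.cons_val_zero,
    Matrix.cons_val_one, Matrix.cons_val_fin_one, Matrix.cons_val_zero]
  have h2 : ((mulS z w : ℍ) : ℂ) = (z.re : ℂ) + (z.im : ℂ) * (w : ℂ) := by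
    apply Complex.ext
    · simp [mulS]
    · simp [mulS]
  rw [h2]
  simp only [Algebra.algebraMap_self, RingHom.id_apply, Complex.ofReal_div, Complex.ofReal_zero,
    Complex.ofReal_one, zero_mul, zero_add]
  field_simp
  rw [sq, hsq]
  ring

/-- rotation about `I` -/
noncomputable def rot (θ : ℝ) : SL(2, ℝ) :=
  ⟨!![Real.cos θ, Real.sin θ; -Real.sin θ, Real.cos θ], by
    rw [Matrix.det_fin_two_of]
    have := Real.cos_sq_add_sin_sq θ
    nlinarith⟩

theorem rot_coe (θ : ℝ) (z : ℍ) : ((rot θ • z : ℍ) : ℂ) =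
    ((Real.cos θ : ℂ) * z + (Real.sin θ : ℂ)) / (-(Real.sin θ : ℂ) * z + (Real.cos θ : ℂ)) := by
  rw [coe_specialLinearGroup_apply]
  simp [rot]

theorem rot_add (θ θ' : ℝ) : rot (θ + θ') = rot θ * rot θ' := by
  apply Subtype.ext
  change !![Real.cos (θ + θ'), Real.sin (θ + θ'); -Real.sin (θ + θ'), Real.cos (θ + θ')] =
    !![Real.cos θ, Real.sin θ; -Real.sin θ, Real.cos θ] *
      !![Real.cos θ', Real.sin θ'; -Real.sin θ', Real.cos θ']
  rw [Matrix.mul_fin_two, Real.cos_add, Real.sin_add]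
  ext i j
  fin_cases i <;> fin_cases j <;> simp <;> ring

theorem rot_zero : rot 0 = 1 := by
  apply Subtype.ext
  ext i j
  fin_cases i <;> fin_cases j <;> simp [rot]

theorem rot_add_pi (θ : ℝ) (z : ℍ) : rot (θ + Real.pi) • z = rot θ • z := by
  apply UpperHalfPlane.ext
  rw [rot_coe, rot_coe, Real.cos_add_pi, Real.sin_add_pi, Complex.ofReal_neg, Complex.ofReal_neg]
  have : (-(-(Real.sin θ : ℂ)) * (z : ℂ) + -(Real.cos θ : ℂ))
      = -((-(Real.sin θ : ℂ)) * z + (Real.cos θ : ℂ)) := by ring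
  rw [this, show (-(Real.cos θ : ℂ) * (z : ℂ) + -(Real.sin θ : ℂ))
      = -((Real.cos θ : ℂ) * z + (Real.sin θ : ℂ)) by ring, neg_div_neg_eq]

theorem rot_smul_I (θ : ℝ) : rot θ • (I : ℍ) = I := by
  apply UpperHalfPlane.ext
  rw [rot_coe]
  have h : (-(Real.sin θ : ℂ) * ((I : ℍ) : ℂ) + (Real.cos θ : ℂ)) ≠ 0 := by
    intro h0
    have h1 := congrArg Complex.re h0
    have h2 := congrArg Complex.im h0
    simp at h1 h2
    have h1' : Real.cos θ = 0 := by exact_mod_cast h1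
    have h2' : Real.sin θ = 0 := by exact_mod_cast h2
    have := Real.cos_sq_add_sin_sq θ
    rw [h1', h2'] at this
    norm_num at this
  rw [div_eq_iff h]
  have hI : ((I : ℍ) : ℂ) = Complex.I := rfl
  rw [hI]
  ring_nf
  rw [Complex.I_sq]
  ring

theorem continuous_rot : Continuous rot := by
  apply continuous_induced_rng.mpr
  apply continuous_matrix
  intro i j
  fin_cases i <;> fin_cases j <;> simp [rot, Function.comp_def] <;> fun_prop

theorem rot_denom_sq (θ : ℝ) (z : ℍ) :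
    0 < (Real.cos θ - z.re * Real.sin θ) ^ 2 + (z.im * Real.sin θ) ^ 2 := by
  have hz := z.im_pos
  rcases eq_or_ne (Real.sin θ) 0 with h | h
  · have := Real.cos_sq_add_sin_sq θ
    rw [h] at this ⊢
    nlinarith
  · have : 0 < (z.im * Real.sin θ) ^ 2 := by positivity
    have h2 : 0 ≤ (Real.cos θ - z.re * Real.sin θ) ^ 2 := sq_nonneg _
    linarith

theorem moebius_parts (c s x y : ℝ) (h : 0 < (c - x * s) ^ 2 + (y * s) ^ 2) :
    (((c : ℂ) * (⟨x, y⟩ : ℂ) + (s : ℂ)) / (-(s : ℂ) * (⟨x, y⟩ : ℂ) + (c : ℂ))).im =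
      y * (c ^ 2 + s ^ 2) / ((c - x * s) ^ 2 + (y * s) ^ 2) ∧
    (((c : ℂ) * (⟨x, y⟩ : ℂ) + (s : ℂ)) / (-(s : ℂ) * (⟨x, y⟩ : ℂ) + (c : ℂ))).re =
      ((c * x + s) * (c - x * s) - c * s * y ^ 2) / ((c - x * s) ^ 2 + (y * s) ^ 2) := by
  have hn : Complex.normSq (-(s : ℂ) * (⟨x, y⟩ : ℂ) + (c : ℂ)) = (c - x * s) ^ 2 + (y * s) ^ 2 := by
    rw [Complex.normSq_apply]
    simp
    ring
  constructor
  · rw [Complex.div_im, hn]
    simp
    field_simp
    ring
  · rw [Complex.div_re, hn]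
    simp
    field_simp
    ring

theorem rot_im (θ : ℝ) (z : ℍ) : (rot θ • z).im =
    z.im / ((Real.cos θ - z.re * Real.sin θ) ^ 2 + (z.im * Real.sin θ) ^ 2) := by
  have h := rot_denom_sq θ z
  have h1 : (rot θ • z).im = ((rot θ • z : ℍ) : ℂ).im := rfl
  rw [h1, rot_coe]
  have h2 := (moebius_parts (Real.cos θ) (Real.sin θ) z.re z.im h).1
  rw [Real.cos_sq_add_sin_sq, mul_one] at h2
  exact h2

theorem rot_re (θ : ℝ) (z : ℍ) : (rot θ • z).re =
    ((Real.cos θ * z.re + Real.sin θ) * (Real.cos θ - z.re * Real.sin θ)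
      - Real.cos θ * Real.sin θ * z.im ^ 2) /
      ((Real.cos θ - z.re * Real.sin θ) ^ 2 + (z.im * Real.sin θ) ^ 2) := by
  have h := rot_denom_sq θ z
  have h1 : (rot θ • z).re = ((rot θ • z : ℍ) : ℂ).re := rfl
  rw [h1, rot_coe]
  exact (moebius_parts (Real.cos θ) (Real.sin θ) z.re z.im h).2

/-- the point `i e^d` -/
noncomputable def pt (d : ℝ) : ℍ := ⟨⟨0, Real.exp d⟩, Real.exp_pos d⟩

@[simp] theorem pt_re (d : ℝ) : (pt d).re = 0 := rfl
@[simp] theorem pt_im (d : ℝ) : (pt d).im = Real.exp d := rfl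

theorem bden_eq (d θ : ℝ) : Real.cosh d - Real.sinh d * Real.cos (2 * θ) =
    Real.exp (-d) * Real.cos θ ^ 2 + Real.exp d * Real.sin θ ^ 2 := by
  rw [Real.cos_two_mul, Real.cosh_eq, Real.sinh_eq]
  have := Real.sin_sq_add_cos_sq θ
  have h2 : Real.sin θ ^ 2 = 1 - Real.cos θ ^ 2 := by linarith
  rw [h2]
  ring

theorem bden_pos (d θ : ℝ) : 0 < Real.cosh d - Real.sinh d * Real.cos (2 * θ) := by
  rw [bden_eq]
  have h1 := Real.exp_pos d
  have h2 := Real.exp_pos (-d)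
  rcases eq_or_ne (Real.sin θ) 0 with h | h
  · have := Real.cos_sq_add_sin_sq θ
    rw [h] at this ⊢
    have h3 : Real.cos θ ^ 2 = 1 := by linarith
    rw [h3]
    simp
    positivity
  · have : 0 < Real.exp d * Real.sin θ ^ 2 := by positivity
    have h4 : 0 ≤ Real.exp (-d) * Real.cos θ ^ 2 := by positivity
    linarith

theorem rot_pt_im (θ d : ℝ) : (rot θ • pt d).im =
    1 / (Real.cosh d - Real.sinh d * Real.cos (2 * θ)) := by
  rw [rot_im, pt_re, pt_im, bden_eq]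
  have h1 := Real.exp_pos d
  have h2 : Real.exp (-d) = 1 / Real.exp d := by rw [Real.exp_neg, one_div]
  have hp := bden_pos d θ
  rw [bden_eq, h2] at hp
  rw [h2]
  have h3 : (Real.cos θ - 0 * Real.sin θ) ^ 2 + (Real.exp d * Real.sin θ) ^ 2
      = Real.exp d * (1 / Real.exp d * Real.cos θ ^ 2 + Real.exp d * Real.sin θ ^ 2) := by
    field_simp
    ring
  rw [h3]
  field_simp

theorem rot_pt_re (θ d : ℝ) : (rot θ • pt d).re =
    -(Real.sinh d * Real.sin (2 * θ)) / (Real.cosh d - Real.sinh d * Real.cos (2 * θ)) := by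
  rw [rot_re, pt_re, pt_im, bden_eq, Real.sin_two_mul, Real.sinh_eq]
  have h1 := Real.exp_pos d
  have h2 : Real.exp (-d) = 1 / Real.exp d := by rw [Real.exp_neg, one_div]
  have hp := bden_pos d θ
  rw [bden_eq, h2] at hp
  rw [h2]
  have h3 : (Real.cos θ - 0 * Real.sin θ) ^ 2 + (Real.exp d * Real.sin θ) ^ 2
      = Real.exp d * (1 / Real.exp d * Real.cos θ ^ 2 + Real.exp d * Real.sin θ ^ 2) := by
    field_simp
    ring
  rw [h3, div_eq_div_iff (mul_pos h1 hp).ne' hp.ne']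
  field_simp
  ring

theorem cosh_dist_I (z : ℍ) : Real.cosh (dist z I) = (z.re ^ 2 + z.im ^ 2 + 1) / (2 * z.im) := by
  rw [cosh_dist']
  simp

theorem dist_pt_I (d : ℝ) : dist (pt d) I = |d| := by
  rw [dist_of_re_eq (by simp)]
  simp [Real.dist_eq]

theorem dist_rot_I (θ : ℝ) (z : ℍ) : dist (rot θ • z) I = dist z I := by
  conv_lhs => rw [← rot_smul_I θ]
  exact dist_smul _ _ _

/-- rotations act transitively on spheres about `I` -/
theorem exists_rot_pt {d : ℝ} (hd : 0 < d) (w : ℍ) (hw : dist w I = d) :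
    ∃ θ : ℝ, rot θ • pt d = w := by
  have hs : 0 < Real.sinh d := Real.sinh_pos_iff.mpr hd
  have hc : Real.cosh d = (w.re ^ 2 + w.im ^ 2 + 1) / (2 * w.im) := by
    rw [← hw, cosh_dist_I]
  have hy := w.im_pos
  set C : ℝ := (Real.cosh d - 1 / w.im) / Real.sinh d with hC
  set S : ℝ := (-(w.re / w.im)) / Real.sinh d with hS
  have hCS : C ^ 2 + S ^ 2 = 1 := by
    rw [hC, hS, div_pow, div_pow, ← add_div, div_eq_one_iff_eq (by positivity), Real.sinh_sq, hc]
    field_simp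
    ring
  obtain ⟨φ, hφ1, hφ2⟩ : ∃ φ : ℝ, Real.cos φ = C ∧ Real.sin φ = S := by
    refine ⟨Complex.arg ⟨C, S⟩, ?_, ?_⟩
    · have hne : (⟨C, S⟩ : ℂ) ≠ 0 := by
        intro h0
        have h1 := congrArg Complex.re h0
        have h2 := congrArg Complex.im h0
        simp at h1 h2
        rw [h1, h2] at hCS
        norm_num at hCS
      rw [Complex.cos_arg hne]
      have : ‖(⟨C, S⟩ : ℂ)‖ = 1 := by
        rw [Complex.norm_eq_sqrt_sq_add_sq, hCS, Real.sqrt_one]
      rw [this]; simp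
    · rw [Complex.sin_arg]
      have : ‖(⟨C, S⟩ : ℂ)‖ = 1 := by
        rw [Complex.norm_eq_sqrt_sq_add_sq, hCS, Real.sqrt_one]
      rw [this]; simp
  refine ⟨φ / 2, ?_⟩
  have h2 : 2 * (φ / 2) = φ := by ring
  have him : (rot (φ / 2) • pt d).im = w.im := by
    rw [rot_pt_im, h2, hφ1, hC]
    field_simp
    ring
  have hre : (rot (φ / 2) • pt d).re = w.re := by
    have h3 := rot_pt_im (φ / 2) d
    rw [him, h2, hφ1] at h3
    rw [rot_pt_re, h2, hφ1, hφ2, div_eq_mul_one_div, ← h3, hS]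
    field_simp
  exact UpperHalfPlane.ext_re_im hre him

theorem dist_rot_pt (θ d : ℝ) (hd : 0 ≤ d) : dist (rot θ • pt d) I = d := by
  rw [dist_rot_I, dist_pt_I, abs_of_nonneg hd]

end Pool.Agent.H22.Hy
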