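import Mathlib

namespace Pool.Agent.H22.Hy

open scoped ComplexInnerProductSpace

variable {H : Type*} [NormedAddCommGroup H] [InnerProductSpace ℂ H]

theorem pow_norm_logconvex (T : H →L[ℂ] H) (hT : ∀ x y : H, ⟪T x, y⟫ = ⟪x, T y⟫) (h : H) (n : ℕ) :
    ‖(T ^ (n + 1)) h‖ ^ 2 ≤ ‖(T ^ n) h‖ * ‖(T ^ (n + 2)) h‖ := by
  have h1 : ⟪(T ^ (n + 1)) h, (T ^ (n + 1)) h⟫ = ⟪(T ^ n) h, (T ^ (n + 2)) h⟫ := by
    have e1 : (T ^ (n + 1)) h = T ((T ^ n) h) := by rw [pow_succ']; rfl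
    have e2 : (T ^ (n + 2)) h = T ((T ^ (n + 1)) h) := by rw [pow_succ' T (n + 1)]; rfl
    rw [e2, ← hT, ← e1]
  have h2 : ‖⟪(T ^ (n + 1)) h, (T ^ (n + 1)) h⟫‖ = ‖(T ^ (n + 1)) h‖ ^ 2 := by
    rw [inner_self_eq_norm_sq_to_K]
    simp
  rw [← h2, h1]
  exact norm_inner_le_norm _ _

theorem norm_le_of_pow_bound (T : H →L[ℂ] H) (hT : ∀ x y : H, ⟪T x, y⟫ = ⟪x, T y⟫)
    {ρ C : ℝ} (hρ : 0 ≤ ρ) (h : H) (hC : ∀ N : ℕ, ‖(T ^ N) h‖ ≤ C * ρ ^ N) :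
    ‖T h‖ ≤ ρ * ‖h‖ := by
  by_contra hcon
  push Not at hcon
  have hT1 : ‖(T ^ 1) h‖ = ‖T h‖ := by rw [pow_one]
  have hT0 : ‖(T ^ 0) h‖ = ‖h‖ := by rw [pow_zero]; rfl
  have h0 : 0 < ‖h‖ := by
    rcases eq_or_ne h 0 with h0 | h0
    · rw [h0] at hcon
      simp at hcon
    · exact norm_pos_iff.mpr h0
  set t := ‖T h‖ / ‖h‖ with ht
  have htρ : ρ < t := by rwa [ht, lt_div_iff₀ h0]
  have ht0 : 0 < t := lt_of_le_of_lt hρ htρ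
  have key : ∀ n : ℕ, 0 < ‖(T ^ n) h‖ ∧ t * ‖(T ^ n) h‖ ≤ ‖(T ^ (n + 1)) h‖ := by
    intro n
    induction n with
    | zero =>
      rw [zero_add, hT1, hT0]
      refine ⟨h0, ?_⟩
      rw [ht, div_mul_cancel₀ _ h0.ne']
    | succ n ih =>
      have h1 : 0 < ‖(T ^ (n + 1)) h‖ := lt_of_lt_of_le (mul_pos ht0 ih.1) ih.2
      refine ⟨h1, ?_⟩
      have h2 := pow_norm_logconvex T hT h n
      have h3 : ‖(T ^ n) h‖ * (t * ‖(T ^ (n + 1)) h‖) ≤ ‖(T ^ n) h‖ * ‖(T ^ (n + 2)) h‖ := by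
        calc ‖(T ^ n) h‖ * (t * ‖(T ^ (n + 1)) h‖) = (t * ‖(T ^ n) h‖) * ‖(T ^ (n + 1)) h‖ := by ring
          _ ≤ ‖(T ^ (n + 1)) h‖ * ‖(T ^ (n + 1)) h‖ :=
              mul_le_mul_of_nonneg_right ih.2 h1.le
          _ = ‖(T ^ (n + 1)) h‖ ^ 2 := by ring
          _ ≤ _ := h2
      exact le_of_mul_le_mul_left h3 ih.1
  have hlow : ∀ n : ℕ, t ^ n * ‖h‖ ≤ ‖(T ^ n) h‖ := by
    intro n
    induction n with
    | zero => rw [hT0]; simp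
    | succ n ih =>
      calc t ^ (n + 1) * ‖h‖ = t * (t ^ n * ‖h‖) := by ring
        _ ≤ t * ‖(T ^ n) h‖ := mul_le_mul_of_nonneg_left ih ht0.le
        _ ≤ _ := (key n).2
  rcases hρ.eq_or_lt with h1 | h1
  · have h2 := hC 1
    rw [← h1, pow_one, pow_one, mul_zero] at h2
    have h3 := hlow 1
    have h4 : 0 < t ^ 1 * ‖h‖ := by positivity
    rw [pow_one] at h3
    linarith
  · have h2 : 1 < t / ρ := by rwa [one_lt_div h1]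
    obtain ⟨n, hn⟩ := pow_unbounded_of_one_lt (C / ‖h‖) h2
    have h3 := (hlow n).trans (hC n)
    rw [div_lt_iff₀ h0, div_pow] at hn
    have h4 : 0 < ρ ^ n := by positivity
    have h5 : C * ρ ^ n < t ^ n / ρ ^ n * ‖h‖ * ρ ^ n := mul_lt_mul_of_pos_right hn h4
    have h6 : t ^ n / ρ ^ n * ‖h‖ * ρ ^ n = t ^ n * ‖h‖ := by field_simp
    linarith

/-- vectors on which the powers of `T` grow at most like `ρ ^ N` -/
def growth (T : H →L[ℂ] H) (ρ : ℝ) : Submodule ℂ H where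
  carrier := {h | ∃ C : ℝ, ∀ N : ℕ, ‖(T ^ N) h‖ ≤ C * ρ ^ N}
  add_mem' := by
    rintro a b ⟨C, hC⟩ ⟨D, hD⟩
    refine ⟨C + D, fun N => ?_⟩
    rw [map_add, add_mul]
    exact (norm_add_le _ _).trans (add_le_add (hC N) (hD N))
  zero_mem' := ⟨0, fun N => by simp⟩
  smul_mem' := by
    rintro c a ⟨C, hC⟩
    refine ⟨‖c‖ * C, fun N => ?_⟩
    rw [map_smul, norm_smul, mul_assoc]
    exact mul_le_mul_of_nonneg_left (hC N) (norm_nonneg _)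

theorem norm_le_of_dense (T : H →L[ℂ] H) (hT : ∀ x y : H, ⟪T x, y⟫ = ⟪x, T y⟫)
    {ρ : ℝ} (hρ : 0 ≤ ρ) (hd : Dense (growth T ρ : Set H)) (x : H) : ‖T x‖ ≤ ρ * ‖x‖ := by
  have hclosed : IsClosed {x : H | ‖T x‖ ≤ ρ * ‖x‖} :=
    isClosed_le (T.continuous.norm) (continuous_const.mul continuous_norm)
  have : closure (growth T ρ : Set H) ⊆ {x : H | ‖T x‖ ≤ ρ * ‖x‖} := by
    apply hclosed.closure_subset_iff.mpr
    rintro h ⟨C, hC⟩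
    exact norm_le_of_pow_bound T hT hρ h hC
  exact this (hd x)

end Pool.Agent.H22.Hy
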