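import Pool.Agent.H22.HyA

namespace Pool.Agent.H22.Hy

open UpperHalfPlane MeasureTheory Metric Set Filter
open scoped MatrixGroups Topology ENNReal NNReal

theorem cosh_dist_rot_pt (δ d : ℝ) : Real.cosh (dist (rot δ • pt d) (pt d)) =
    1 + 2 * Real.sinh d ^ 2 * Real.sin δ ^ 2 := by
  rw [cosh_dist', rot_pt_re, rot_pt_im, pt_re, pt_im]
  have hp := bden_pos d δ
  set B := Real.cosh d - Real.sinh d * Real.cos (2 * δ) with hB
  have he := Real.exp_pos d
  have h1 : Real.sin (2 * δ) ^ 2 = 1 - Real.cos (2 * δ) ^ 2 := by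
    have := Real.sin_sq_add_cos_sq (2 * δ); linarith
  have h2 : Real.sin δ ^ 2 = (1 - Real.cos (2 * δ)) / 2 := by
    have := Real.sin_sq_add_cos_sq δ
    rw [Real.cos_two_mul]; linarith
  have h3 := Real.cosh_sq d
  have h4 : Real.exp d = Real.cosh d + Real.sinh d := by rw [Real.cosh_add_sinh]
  have h5 : (-(Real.sinh d * Real.sin (2 * δ)) / B - 0) ^ 2 = Real.sinh d ^ 2 * (1 - Real.cos (2 * δ) ^ 2) / B ^ 2 := by
    rw [sub_zero, div_pow, neg_sq, mul_pow, h1]
  rw [h5, h2]
  rw [div_eq_iff (by positivity)]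
  field_simp
  rw [h4]
  have h6 : Real.sinh d ^ 2 * (1 - Real.cos (2 * δ) ^ 2) + 1 = B * (Real.cosh d + Real.sinh d * Real.cos (2 * δ)) := by
    rw [hB]; nlinarith
  have h7 : Real.cosh d ^ 2 = Real.sinh d ^ 2 + 1 := h3
  have h8 : (Real.cosh d + Real.sinh d) ^ 2 * (Real.cosh d - Real.sinh d * Real.cos (2 * δ)) + (Real.cosh d + Real.sinh d * Real.cos (2 * δ))
      = (Real.cosh d + Real.sinh d) * (2 * (1 + Real.sinh d ^ 2 * (1 - Real.cos (2 * δ)))) := by
    linear_combination (Real.cosh d + 2 * Real.sinh d - Real.sinh d * Real.cos (2 * δ)) * h7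
  rw [h6]
  rw [← hB] at h8
  linear_combination B * h8

theorem dist_rot_pt_le (θ θ' d : ℝ) (hd : 0 ≤ d) :
    dist (rot θ • pt d) (rot θ' • pt d) ≤ 2 * Real.sinh d * |θ - θ'| := by
  have h1 : rot θ = rot θ' * rot (θ - θ') := by
    rw [← rot_add]; congr 1; ring
  rw [h1, mul_smul, dist_smul]
  set D := dist (rot (θ - θ') • pt d) (pt d) with hD
  have h2 := cosh_dist_rot_pt (θ - θ') d
  rw [← hD] at h2
  have hD0 : 0 ≤ D := dist_nonneg
  have hs : 0 ≤ Real.sinh d := Real.sinh_nonneg_iff.mpr hd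
  have h3 : Real.cosh D = 1 + 2 * Real.sinh (D / 2) ^ 2 := by
    have h4 := Real.cosh_two_mul (D / 2)
    have h5 := Real.cosh_sq (D / 2)
    rw [show 2 * (D / 2) = D by ring] at h4
    rw [h4, h5]; ring
  have h4 : Real.sinh (D / 2) ^ 2 = (Real.sinh d * |Real.sin (θ - θ')|) ^ 2 := by
    rw [mul_pow, sq_abs]; linarith
  have h5 : Real.sinh (D / 2) = Real.sinh d * |Real.sin (θ - θ')| := by
    have h6 : 0 ≤ Real.sinh (D / 2) := Real.sinh_nonneg_iff.mpr (by linarith)
    have h7 : 0 ≤ Real.sinh d * |Real.sin (θ - θ')| := by positivity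
    exact (pow_left_inj₀ h6 h7 two_ne_zero).mp h4
  have h6 : D / 2 ≤ Real.sinh (D / 2) := Real.self_le_sinh_iff.mpr (by linarith)
  have h7 : |Real.sin (θ - θ')| ≤ |θ - θ'| := Real.abs_sin_le_abs
  have h8 : Real.sinh d * |Real.sin (θ - θ')| ≤ Real.sinh d * |θ - θ'| :=
    mul_le_mul_of_nonneg_left h7 hs
  linarith

theorem sphere_subset_image {d : ℝ} (hd : 0 < d) :
    sphere (I : ℍ) d = (fun θ => rot θ • pt d) '' Icc 0 Real.pi := by
  ext w
  constructor
  · intro hw
    rw [mem_sphere] at hw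
    obtain ⟨θ, hθ⟩ := exists_rot_pt hd w hw
    -- reduce modulo pi
    obtain ⟨k, hk⟩ : ∃ k : ℤ, θ - k * Real.pi ∈ Ico 0 Real.pi := by
      refine ⟨⌊θ / Real.pi⌋, ?_⟩
      have h1 := Int.floor_le (θ / Real.pi)
      have h2 := Int.lt_floor_add_one (θ / Real.pi)
      rw [le_div_iff₀ Real.pi_pos] at h1
      rw [div_lt_iff₀ Real.pi_pos] at h2
      constructor <;> linarith
    refine ⟨θ - k * Real.pi, ⟨hk.1, hk.2.le⟩, ?_⟩
    have hper : Function.Periodic (fun θ => rot θ • pt d) Real.pi := fun θ => rot_add_pi θ _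
    have := hper.sub_int_mul_eq (x := θ) k
    simp only at this ⊢
    rw [this, hθ]
  · rintro ⟨θ, _, rfl⟩
    rw [mem_sphere]
    exact dist_rot_pt θ d hd.le

theorem hausdorff_sphere_lt_top {d : ℝ} (hd : 0 < d) : μH[1] (sphere (I : ℍ) d) < ∞ := by
  rw [sphere_subset_image hd]
  have hs : 0 ≤ Real.sinh d := Real.sinh_nonneg_iff.mpr hd.le
  have hL : LipschitzOnWith (Real.toNNReal (2 * Real.sinh d)) (fun θ => rot θ • pt d) (Icc 0 Real.pi) := by
    apply LipschitzOnWith.of_dist_le_mul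
    intro x _ y _
    rw [Real.coe_toNNReal _ (by positivity), Real.dist_eq]
    exact dist_rot_pt_le x y d hd.le
  refine (hL.hausdorffMeasure_image_le (d := 1) zero_le_one).trans_lt ?_
  rw [hausdorffMeasure_real, Real.volume_Icc]
  apply ENNReal.mul_lt_top
  · simp
  · exact ENNReal.ofReal_lt_top

theorem hausdorff_sphere_pos {d : ℝ} (hd : 0 < d) : 0 < μH[1] (sphere (I : ℍ) d) := by
  have hL : LipschitzWith 1 (fun w : ℍ => dist w (pt d)) := LipschitzWith.dist_left _
  have h1 := hL.hausdorffMeasure_image_le (d := 1) zero_le_one (sphere (I : ℍ) d)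
  have hsub : Icc 0 (dist (rot (Real.pi / 2) • pt d) (pt d)) ⊆
      (fun w : ℍ => dist w (pt d)) '' (sphere (I : ℍ) d) := by
    have hcont : ContinuousOn (fun θ : ℝ => dist (rot θ • pt d) (pt d)) (Icc 0 (Real.pi / 2)) := by
      apply Continuous.continuousOn
      exact (continuous_rot.smul continuous_const).dist continuous_const
    have hivt := intermediate_value_Icc (by positivity) hcont
    have h0 : dist (rot 0 • pt d) (pt d) = 0 := by rw [rot_zero, one_smul, dist_self]
    rw [h0] at hivt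
    intro x hx
    obtain ⟨θ, _, hθ⟩ := hivt hx
    exact ⟨rot θ • pt d, by rw [mem_sphere]; exact dist_rot_pt θ d hd.le, hθ⟩
  have hpos : 0 < dist (rot (Real.pi / 2) • pt d) (pt d) := by
    have h2 := cosh_dist_rot_pt (Real.pi / 2) d
    rw [Real.sin_pi_div_two] at h2
    have hs : 0 < Real.sinh d := Real.sinh_pos_iff.mpr hd
    have h3 : 1 < Real.cosh (dist (rot (Real.pi / 2) • pt d) (pt d)) := by
      rw [h2]; have : 0 < Real.sinh d ^ 2 := by positivity
      linarith
    rw [Real.one_lt_cosh] at h3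
    exact lt_of_le_of_ne dist_nonneg (Ne.symm h3)
  have h2 : (0 : ℝ≥0∞) < μH[1] (Icc 0 (dist (rot (Real.pi / 2) • pt d) (pt d))) := by
    rw [hausdorffMeasure_real, Real.volume_Icc, sub_zero]
    exact ENNReal.ofReal_pos.mpr hpos
  have h3 := h2.trans_le ((measure_mono hsub).trans h1)
  simpa using h3

/-- law of a uniformly random point on the circle of radius `d` about `I` -/
noncomputable def sig (d : ℝ) : Measure ℍ :=
  ((ENNReal.ofReal Real.pi)⁻¹ • (volume.restrict (Ioc 0 Real.pi))).map (fun θ : ℝ => rot θ • pt d)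

theorem continuous_rot_pt (d : ℝ) : Continuous (fun θ : ℝ => rot θ • pt d) :=
  continuous_rot.smul continuous_const

instance sig_prob (d : ℝ) : IsProbabilityMeasure (sig d) := by
  unfold sig
  have : IsProbabilityMeasure ((ENNReal.ofReal Real.pi)⁻¹ • (volume.restrict (Ioc 0 Real.pi))) := by
    constructor
    rw [Measure.smul_apply, Measure.restrict_apply_univ, Real.volume_Ioc, sub_zero, smul_eq_mul]
    exact ENNReal.inv_mul_cancel (by simpa using Real.pi_pos) ENNReal.ofReal_ne_top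
  exact Measure.isProbabilityMeasure_map (continuous_rot_pt d).aemeasurable

theorem integral_sig {E : Type*} [NormedAddCommGroup E] [NormedSpace ℝ E] (d : ℝ) (f : ℍ → E)
    (hf : AEStronglyMeasurable f (sig d)) :
    ∫ w, f w ∂(sig d) = Real.pi⁻¹ • ∫ θ in (0 : ℝ)..Real.pi, f (rot θ • pt d) := by
  unfold sig at hf ⊢
  rw [integral_map (continuous_rot_pt d).aemeasurable hf, integral_smul_measure,
    intervalIntegral.integral_of_le Real.pi_pos.le]
  congr 1
  rw [ENNReal.toReal_inv, ENNReal.toReal_ofReal Real.pi_pos.le]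

end Pool.Agent.H22.Hy
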