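import Pool.Agent.H22.HyB

namespace Pool.Agent.H22.Hy

open UpperHalfPlane MeasureTheory Metric Set Filter
open scoped MatrixGroups Topology ENNReal NNReal BoundedContinuousFunction

/-- mean over the hyperbolic circle of radius `d` about `z` with respect to arc length -/
noncomputable def circleMean {E : Type*} [NormedAddCommGroup E] [NormedSpace ℝ E]
    (d : ℝ) (f : ℍ → E) (z : ℍ) : E :=
  ⨍ w in sphere z d, f w ∂μH[1]

variable {E : Type*} [NormedAddCommGroup E] [NormedSpace ℝ E]

theorem preimage_smul_sphere (γ : SL(2, ℝ)) (z : ℍ) (d : ℝ) :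
    (fun w : ℍ => γ • w) ⁻¹' (sphere (γ • z) d) = sphere z d := by
  ext w
  rw [mem_preimage, mem_sphere, mem_sphere, dist_smul]

theorem mp_smul (γ : SL(2, ℝ)) : MeasurePreserving (fun w : ℍ => γ • w) μH[1] μH[1] :=
  (IsometryEquiv.constSMul γ : ℍ ≃ᵢ ℍ).measurePreserving_hausdorffMeasure 1

theorem mp_smul_sphere (γ : SL(2, ℝ)) (z : ℍ) (d : ℝ) :
    MeasurePreserving (fun w : ℍ => γ • w) (μH[1].restrict (sphere z d))
      (μH[1].restrict (sphere (γ • z) d)) := by
  have := (mp_smul γ).restrict_preimage (s := sphere (γ • z) d) isClosed_sphere.measurableSet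
  rwa [preimage_smul_sphere] at this

theorem measEmb_smul (γ : SL(2, ℝ)) : MeasurableEmbedding (fun w : ℍ => γ • w) :=
  (Homeomorph.smul γ : ℍ ≃ₜ ℍ).measurableEmbedding

theorem hausdorff_sphere_smul (γ : SL(2, ℝ)) (z : ℍ) (d : ℝ) :
    μH[1] (sphere (γ • z) d) = μH[1] (sphere z d) := by
  have := (mp_smul γ).measure_preimage (s := sphere (γ • z) d)
    isClosed_sphere.measurableSet.nullMeasurableSet
  rw [preimage_smul_sphere] at this
  exact this.symm

theorem circleMean_smul (γ : SL(2, ℝ)) (d : ℝ) (f : ℍ → E) (z : ℍ) :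
    circleMean d (fun w => f (γ • w)) z = circleMean d f (γ • z) := by
  unfold circleMean
  rw [setAverage_eq, setAverage_eq, (mp_smul_sphere γ z d).integral_comp (measEmb_smul γ)]
  congr 2
  unfold Measure.real
  rw [hausdorff_sphere_smul]

theorem hausdorff_sphere_eq_sig {d : ℝ} (hd : 0 < d) :
    μH[1].restrict (sphere (I : ℍ) d) = μH[1] (sphere (I : ℍ) d) • sig d := by
  have hfin : IsFiniteMeasure (μH[1].restrict (sphere (I : ℍ) d)) := by
    constructor
    rw [Measure.restrict_apply_univ]
    exact hausdorff_sphere_lt_top hd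
  have hfin2 : IsFiniteMeasure (μH[1] (sphere (I : ℍ) d) • sig d) := by
    constructor
    rw [Measure.smul_apply, measure_univ, smul_eq_mul, mul_one]
    exact hausdorff_sphere_lt_top hd
  apply ext_of_forall_integral_eq_of_IsFiniteMeasure
  intro f
  set ν := μH[1].restrict (sphere (I : ℍ) d) with hν
  rw [integral_smul_measure, integral_sig d f f.continuous.aestronglyMeasurable]
  set c : ℝ := ∫ θ in (0 : ℝ)..Real.pi, f (rot θ • pt d) with hc
  -- invariance
  have hinv : ∀ θ : ℝ, ∫ w, f (rot θ • w) ∂ν = ∫ w, f w ∂ν := by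
    intro θ
    have h1 := mp_smul_sphere (rot θ) I d
    rw [rot_smul_I] at h1
    exact h1.integral_comp (measEmb_smul (rot θ)) f
  have hcont : Continuous (fun p : ℝ × ℍ => f (rot p.1 • p.2)) :=
    f.continuous.comp ((continuous_rot.comp continuous_fst).smul continuous_snd)
  have hint : Integrable (fun p : ℝ × ℍ => f (rot p.1 • p.2))
      ((volume.restrict (Ioc 0 Real.pi)).prod ν) := by
    apply Integrable.of_bound hcont.aestronglyMeasurable ‖f‖
    exact Eventually.of_forall fun p => f.norm_coe_le_norm _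
  have h2 : ∫ θ in (0 : ℝ)..Real.pi, ∫ w, f (rot θ • w) ∂ν = ∫ w, c ∂ν := by
    rw [intervalIntegral.integral_of_le Real.pi_pos.le]
    rw [integral_integral_swap hint]
    apply integral_congr_ae
    have hae : ∀ᵐ w ∂ν, w ∈ sphere (I : ℍ) d := ae_restrict_mem isClosed_sphere.measurableSet
    filter_upwards [hae] with w hw
    rw [mem_sphere] at hw
    obtain ⟨θ₀, hθ₀⟩ := exists_rot_pt hd w hw
    rw [← intervalIntegral.integral_of_le Real.pi_pos.le, hc]
    have hper : Function.Periodic (fun θ => f (rot θ • pt d)) Real.pi := by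
      intro θ; simp only [rot_add_pi]
    have h3 : ∀ θ : ℝ, f (rot θ • w) = f (rot (θ + θ₀) • pt d) := by
      intro θ
      rw [← hθ₀, ← mul_smul, ← rot_add]
    simp_rw [h3]
    rw [intervalIntegral.integral_comp_add_right (fun θ => f (rot θ • pt d)) θ₀, zero_add,
      add_comm Real.pi θ₀]
    have := hper.intervalIntegral_add_eq θ₀ 0
    rw [zero_add] at this
    exact this
  simp_rw [hinv] at h2
  rw [intervalIntegral.integral_const, integral_const, sub_zero, smul_eq_mul, smul_eq_mul] at h2
  have h3 : ν.real univ = (μH[1] (sphere (I : ℍ) d)).toReal := by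
    unfold Measure.real
    rw [hν, Measure.restrict_apply_univ]
  rw [h3] at h2
  rw [smul_eq_mul, smul_eq_mul]
  have hpi := Real.pi_pos
  field_simp
  linarith

theorem circleMean_I {d : ℝ} (hd : 0 < d) (f : ℍ → E) :
    circleMean d f I = ∫ w, f w ∂(sig d) := by
  unfold circleMean
  rw [setAverage_eq, hausdorff_sphere_eq_sig hd, integral_smul_measure, smul_smul]
  unfold Measure.real
  rw [inv_mul_cancel₀, one_smul]
  exact (ENNReal.toReal_pos (hausdorff_sphere_pos hd).ne' (hausdorff_sphere_lt_top hd).ne).ne'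

/-- the circle mean as an average over the fixed law `sig d` -/
theorem circleMean_eq {d : ℝ} (hd : 0 < d) (f : ℍ → E) (z : ℍ) :
    circleMean d f z = ∫ w, f (mulS z w) ∂(sig d) := by
  have h1 := circleMean_smul z.toSL2R d f I
  rw [toSL2R_smul_I] at h1
  rw [← h1, circleMean_I hd]
  simp_rw [toSL2R_smul]

theorem sig_rot (d θ : ℝ) : (sig d).map (fun w => rot θ • w) = sig d := by
  have hc : Continuous (fun w : ℍ => rot θ • w) := continuous_const_smul _
  have : IsProbabilityMeasure ((sig d).map (fun w => rot θ • w)) :=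
    Measure.isProbabilityMeasure_map hc.aemeasurable
  apply ext_of_forall_integral_eq_of_IsFiniteMeasure
  intro f
  have hfc : Continuous (fun w : ℍ => f (rot θ • w)) := f.continuous.comp hc
  rw [integral_map hc.aemeasurable f.continuous.aestronglyMeasurable,
    integral_sig d _ hfc.aestronglyMeasurable,
    integral_sig d f f.continuous.aestronglyMeasurable]
  congr 1
  have h3 : ∀ φ : ℝ, f (rot θ • rot φ • pt d) = f (rot (φ + θ) • pt d) := by
    intro φ
    rw [← mul_smul, ← rot_add, add_comm]
  simp_rw [h3]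
  rw [intervalIntegral.integral_comp_add_right (fun θ => f (rot θ • pt d)) θ, zero_add,
      add_comm Real.pi θ]
  have hper : Function.Periodic (fun θ => f (rot θ • pt d)) Real.pi := by
    intro θ; simp only [rot_add_pi]
  have := hper.intervalIntegral_add_eq θ 0
  rw [zero_add] at this
  exact this

/-- averaging over all rotations of a point at distance `r` from `I` -/
theorem rot_average {r : ℝ} (hr : 0 < r) (z : ℍ) (hz : dist z I = r) (f : ℍ → E)
    (hf : Continuous f) :
    Real.pi⁻¹ • ∫ θ in (0 : ℝ)..Real.pi, f (rot θ • z) = ∫ w, f w ∂(sig r) := by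
  rw [integral_sig r f hf.aestronglyMeasurable]
  congr 1
  obtain ⟨θ₀, hθ₀⟩ := exists_rot_pt hr z hz
  have h3 : ∀ θ : ℝ, f (rot θ • z) = f (rot (θ + θ₀) • pt r) := by
    intro θ
    rw [← hθ₀, ← mul_smul, ← rot_add]
  simp_rw [h3]
  rw [intervalIntegral.integral_comp_add_right (fun θ => f (rot θ • pt r)) θ₀, zero_add,
      add_comm Real.pi θ₀]
  have hper : Function.Periodic (fun θ => f (rot θ • pt r)) Real.pi := by
    intro θ; simp only [rot_add_pi]
  have := hper.intervalIntegral_add_eq θ₀ 0
  rw [zero_add] at this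
  exact this

end Pool.Agent.H22.Hy
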