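import Pool.Agent.H22.HyC

namespace Pool.Agent.H22.Hy

open UpperHalfPlane MeasureTheory Metric Set Filter
open scoped MatrixGroups Topology ENNReal NNReal

/-- `X d s = √(2 (cosh d - cosh s))` -/
noncomputable def XX (d s : ℝ) : ℝ := √(2 * (Real.cosh d - Real.cosh s))

/-- points of the circle in the horocyclic parameter -/
noncomputable def wp (ε d s : ℝ) : ℍ :=
  ⟨⟨ε * (Real.exp (s / 2) * XX d s), Real.exp s⟩, Real.exp_pos s⟩

@[simp] theorem wp_re (ε d s : ℝ) : (wp ε d s).re = ε * (Real.exp (s / 2) * XX d s) := rfl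
@[simp] theorem wp_im (ε d s : ℝ) : (wp ε d s).im = Real.exp s := rfl

theorem continuous_XX (d : ℝ) : Continuous (XX d) := by
  unfold XX
  exact ((continuous_const.sub Real.continuous_cosh).const_mul 2).sqrt

theorem XX_neg (d s : ℝ) : XX d (-s) = XX d s := by
  unfold XX; rw [Real.cosh_neg]

theorem continuous_wp (ε d : ℝ) : Continuous (wp ε d) := by
  have h : Continuous (fun s => ((wp ε d s : ℍ) : ℂ)) := by
    have : (fun s => ((wp ε d s : ℍ) : ℂ)) =
        fun s => (((ε * (Real.exp (s / 2) * XX d s) : ℝ) : ℂ) + ((Real.exp s : ℝ) : ℂ) * Complex.I) := by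
      funext s
      apply Complex.ext
      · simp only [coe_re, wp_re, Complex.add_re, Complex.ofReal_re, Complex.mul_re,
          Complex.I_re, Complex.I_im, Complex.ofReal_im, mul_zero, zero_mul, sub_zero, add_zero]
      · simp only [coe_im, wp_im, Complex.add_im, Complex.ofReal_re, Complex.mul_im,
          Complex.I_re, Complex.I_im, Complex.ofReal_im, mul_zero, mul_one, zero_mul, add_zero,
          zero_add]
    rw [this]
    have hX := continuous_XX d
    fun_prop
  exact isEmbedding_coe.continuous_iff.mpr h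

/-- density -/
noncomputable def dens (d s : ℝ) : ℝ := Real.exp (-s / 2) * (XX d s)⁻¹ / (2 * Real.pi)

theorem dens_nonneg (d s : ℝ) : 0 ≤ dens d s := by
  unfold dens XX
  have := Real.pi_pos
  positivity

theorem XX_eq_zero {d s : ℝ} (h : |d| ≤ |s|) : XX d s = 0 := by
  unfold XX
  apply Real.sqrt_eq_zero_of_nonpos
  have : Real.cosh d ≤ Real.cosh s := Real.cosh_le_cosh.mpr h
  linarith

theorem XX_pos {d s : ℝ} (h : |s| < |d|) : 0 < XX d s := by
  unfold XX
  apply Real.sqrt_pos.mpr
  have : Real.cosh s < Real.cosh d := Real.cosh_lt_cosh.mpr h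
  linarith

theorem dens_eq_zero {d s : ℝ} (h : |d| ≤ |s|) : dens d s = 0 := by
  unfold dens
  rw [XX_eq_zero h]
  simp

theorem measurable_dens (d : ℝ) : Measurable (dens d) := by
  unfold dens
  exact (((Real.continuous_exp.comp (continuous_neg.div_const 2)).measurable.mul
    (continuous_XX d).measurable.inv)).div_const _

/-- measure on the parameter line -/
noncomputable def ms (d : ℝ) : Measure ℝ :=
  volume.withDensity (fun s => ENNReal.ofReal (dens d s))

theorem log_im_hasDeriv (d θ : ℝ) :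
    HasDerivAt (fun θ => -Real.log (Real.cosh d - Real.sinh d * Real.cos (2 * θ)))
      (-(2 * Real.sinh d * Real.sin (2 * θ)) / (Real.cosh d - Real.sinh d * Real.cos (2 * θ))) θ := by
  have h1 : HasDerivAt (fun θ => Real.cosh d - Real.sinh d * Real.cos (2 * θ))
      (2 * Real.sinh d * Real.sin (2 * θ)) θ := by
    have h2 : HasDerivAt (fun θ : ℝ => 2 * θ) 2 θ := by
      simpa using (hasDerivAt_id θ).const_mul (2 : ℝ)
    have h3 := h2.cos
    have h4 := (h3.const_mul (Real.sinh d)).const_sub (Real.cosh d)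
    exact h4.congr_deriv (by ring)
  have h5 := (h1.log (bden_pos d θ).ne').neg
  exact h5.congr_deriv (by rw [neg_div])

theorem rot_pt_eq_wp {d θ : ℝ} (hd : 0 < d) (hθ : θ ∈ Ioo 0 (Real.pi / 2)) :
    rot θ • pt d = wp (-1) d (-Real.log (Real.cosh d - Real.sinh d * Real.cos (2 * θ))) ∧
    rot (Real.pi - θ) • pt d = wp 1 d (-Real.log (Real.cosh d - Real.sinh d * Real.cos (2 * θ))) ∧
    XX d (-Real.log (Real.cosh d - Real.sinh d * Real.cos (2 * θ))) =
      Real.sinh d * Real.sin (2 * θ) /
        Real.sqrt (Real.cosh d - Real.sinh d * Real.cos (2 * θ)) := by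
  have hp := bden_pos d θ
  have hcos := rot_pt_im θ d
  have hs : 0 < Real.sinh d := Real.sinh_pos_iff.mpr hd
  have hsin : 0 < Real.sin (2 * θ) := by
    apply Real.sin_pos_of_pos_of_lt_pi
    · linarith [hθ.1]
    · linarith [hθ.2]
  set B := Real.cosh d - Real.sinh d * Real.cos (2 * θ) with hB
  have hsq : Real.sinh d ^ 2 * Real.sin (2 * θ) ^ 2 = 2 * Real.cosh d * B - 1 - B ^ 2 := by
    have h1 := Real.sin_sq_add_cos_sq (2 * θ)
    have h2 := Real.cosh_sq d
    rw [hB]
    have h3 : Real.sin (2 * θ) ^ 2 = 1 - Real.cos (2 * θ) ^ 2 := by linarith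
    rw [h3]
    linear_combination (-1 : ℝ) * h2
  have hX : XX d (-Real.log B) = Real.sinh d * Real.sin (2 * θ) / Real.sqrt B := by
    unfold XX
    have h1 : 2 * (Real.cosh d - Real.cosh (-Real.log B)) =
        (Real.sinh d * Real.sin (2 * θ) / Real.sqrt B) ^ 2 := by
      rw [Real.cosh_neg, Real.cosh_log hp, div_pow, Real.sq_sqrt hp.le, mul_pow, hsq]
      field_simp
      ring
    rw [h1, Real.sqrt_sq (by positivity)]
  have hexp : Real.exp (-Real.log B / 2) = 1 / Real.sqrt B := by
    rw [Real.sqrt_eq_rpow, Real.rpow_def_of_pos hp, one_div, ← Real.exp_neg]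
    congr 1; ring
  have hexp1 : Real.exp (-Real.log B) = 1 / B := by
    rw [Real.exp_neg, Real.exp_log hp, one_div]
  refine ⟨?_, ?_, hX⟩
  · apply UpperHalfPlane.ext_re_im
    · rw [rot_pt_re, wp_re, hX, hexp, ← hB]
      have : Real.sqrt B * Real.sqrt B = B := Real.mul_self_sqrt hp.le
      rw [div_mul_div_comm, this]
      ring
    · rw [rot_pt_im, wp_im, hexp1]
  · have h2 : 2 * (Real.pi - θ) = 2 * Real.pi - 2 * θ := by ring
    apply UpperHalfPlane.ext_re_im
    · rw [rot_pt_re, wp_re, hX, hexp, h2, Real.sin_two_pi_sub, Real.cos_two_pi_sub, ← hB]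
      have : Real.sqrt B * Real.sqrt B = B := Real.mul_self_sqrt hp.le
      rw [div_mul_div_comm, this]
      ring
    · rw [rot_pt_im, wp_im, hexp1, h2, Real.cos_two_pi_sub]

theorem image_log {d : ℝ} (hd : 0 < d) :
    (fun θ => -Real.log (Real.cosh d - Real.sinh d * Real.cos (2 * θ))) '' Ioo 0 (Real.pi / 2)
      = Ioo (-d) d := by
  have hs : 0 < Real.sinh d := Real.sinh_pos_iff.mpr hd
  ext s
  constructor
  · rintro ⟨θ, hθ, rfl⟩
    have hp := bden_pos d θ
    have hc1 : Real.cos (2 * θ) < 1 := by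
      have h1 := Real.cos_lt_cos_of_nonneg_of_le_pi (x := 0) (y := 2 * θ) le_rfl
        (by linarith [hθ.2]) (by linarith [hθ.1])
      rwa [Real.cos_zero] at h1
    have hc2 : -1 < Real.cos (2 * θ) := by
      have h1 := Real.cos_lt_cos_of_nonneg_of_le_pi (x := 2 * θ) (y := Real.pi)
        (by linarith [hθ.1]) le_rfl (by linarith [hθ.2])
      rwa [Real.cos_pi] at h1
    have he1 : Real.exp (-d) = Real.cosh d - Real.sinh d := by rw [Real.cosh_sub_sinh]
    have he2 : Real.exp d = Real.cosh d + Real.sinh d := by rw [Real.cosh_add_sinh]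
    simp only [mem_Ioo]
    constructor
    · have : Real.log (Real.cosh d - Real.sinh d * Real.cos (2 * θ)) < d := by
        rw [Real.log_lt_iff_lt_exp hp, he2]
        nlinarith
      linarith
    · have : -d < Real.log (Real.cosh d - Real.sinh d * Real.cos (2 * θ)) := by
        rw [Real.lt_log_iff_exp_lt hp, he1]
        nlinarith
      linarith
  · intro hsd
    set c : ℝ := (Real.cosh d - Real.exp (-s)) / Real.sinh d with hc
    have he1 : Real.exp (-d) = Real.cosh d - Real.sinh d := by rw [Real.cosh_sub_sinh]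
    have he2 : Real.exp d = Real.cosh d + Real.sinh d := by rw [Real.cosh_add_sinh]
    have hc1 : c < 1 := by
      rw [hc, div_lt_one hs]
      have : Real.exp (-d) < Real.exp (-s) := Real.exp_lt_exp.mpr (by linarith [hsd.2])
      linarith
    have hc2 : -1 < c := by
      rw [hc, lt_div_iff₀ hs]
      have : Real.exp (-s) < Real.exp d := Real.exp_lt_exp.mpr (by linarith [hsd.1])
      linarith
    refine ⟨Real.arccos c / 2, ?_, ?_⟩
    · constructor
      · have := Real.arccos_pos.mpr hc1
        linarith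
      · have : Real.arccos c < Real.pi := by
          rcases lt_or_eq_of_le (Real.arccos_le_pi c) with h | h
          · exact h
          · exfalso
            rw [Real.arccos_eq_pi] at h
            linarith
        linarith
    · simp only
      rw [show 2 * (Real.arccos c / 2) = Real.arccos c by ring,
        Real.cos_arccos hc2.le hc1.le, hc]
      have : Real.cosh d - Real.sinh d * ((Real.cosh d - Real.exp (-s)) / Real.sinh d)
          = Real.exp (-s) := by
        field_simp
        ring
      rw [this, Real.log_exp, neg_neg]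

theorem injOn_log {d : ℝ} (hd : 0 < d) :
    InjOn (fun θ => -Real.log (Real.cosh d - Real.sinh d * Real.cos (2 * θ)))
      (Ioo 0 (Real.pi / 2)) := by
  have hs : 0 < Real.sinh d := Real.sinh_pos_iff.mpr hd
  intro x hx y hy hxy
  simp only [neg_inj] at hxy
  have h1 := Real.log_injOn_pos (mem_Ioi.mpr (bden_pos d x)) (mem_Ioi.mpr (bden_pos d y)) hxy
  have h2 : Real.cos (2 * x) = Real.cos (2 * y) := by
    have : Real.sinh d * Real.cos (2 * x) = Real.sinh d * Real.cos (2 * y) := by linarith
    exact mul_left_cancel₀ hs.ne' this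
  have h3 := Real.injOn_cos ⟨by linarith [hx.1], by linarith [hx.2]⟩
    ⟨by linarith [hy.1], by linarith [hy.2]⟩ h2
  linarith

theorem lintegral_half {d : ℝ} (hd : 0 < d) (G : ℝ → ℝ≥0∞) :
    ∫⁻ θ in Ioo 0 (Real.pi / 2), G (-Real.log (Real.cosh d - Real.sinh d * Real.cos (2 * θ)))
      = ∫⁻ s in Ioo (-d) d, G s * ENNReal.ofReal (Real.exp (-s / 2) * (XX d s)⁻¹ / 2) := by
  rw [← image_log hd]
  rw [lintegral_image_eq_lintegral_abs_deriv_mul measurableSet_Ioo
    (fun θ _ => (log_im_hasDeriv d θ).hasDerivWithinAt) (injOn_log hd)]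
  apply setLIntegral_congr_fun measurableSet_Ioo
  intro θ hθ
  simp only
  obtain ⟨_, _, hX⟩ := rot_pt_eq_wp hd hθ
  have hp := bden_pos d θ
  have hs : 0 < Real.sinh d := Real.sinh_pos_iff.mpr hd
  have hsin : 0 < Real.sin (2 * θ) := by
    apply Real.sin_pos_of_pos_of_lt_pi
    · linarith [hθ.1]
    · linarith [hθ.2]
  rw [hX]
  set B := Real.cosh d - Real.sinh d * Real.cos (2 * θ) with hB
  have hexp : Real.exp (-(-Real.log B) / 2) = Real.sqrt B := by
    rw [Real.sqrt_eq_rpow, Real.rpow_def_of_pos hp]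
    congr 1; ring
  rw [hexp, mul_comm, mul_assoc, ← ENNReal.ofReal_mul (by positivity)]
  have h1 : Real.sqrt B * (Real.sinh d * Real.sin (2 * θ) / Real.sqrt B)⁻¹ / 2 *
      |-(2 * Real.sinh d * Real.sin (2 * θ)) / B| = 1 := by
    rw [neg_div, abs_neg, abs_of_pos (by positivity)]
    have h2 : Real.sqrt B * Real.sqrt B = B := Real.mul_self_sqrt hp.le
    rw [inv_div]
    field_simp
    rw [sq, h2]
  rw [h1]
  simp

end Pool.Agent.H22.Hy
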