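import Pool.Agent.H22.HyD

namespace Pool.Agent.H22.Hy

open UpperHalfPlane MeasureTheory Metric Set Filter
open scoped MatrixGroups Topology ENNReal NNReal

theorem lintegral_ms' (d : ℝ) {G : ℝ → ℝ≥0∞} (hG : Measurable G) :
    ∫⁻ s, G s ∂(ms d) = ∫⁻ s, ENNReal.ofReal (dens d s) * G s := by
  unfold ms
  rw [lintegral_withDensity_eq_lintegral_mul _ (measurable_dens d).ennreal_ofReal hG]
  rfl

theorem lintegral_ms {d : ℝ} (hd : 0 < d) {G : ℝ → ℝ≥0∞} (hG : Measurable G) :
    ∫⁻ s, G s ∂(ms d) = (ENNReal.ofReal Real.pi)⁻¹ *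
      ∫⁻ s in Ioo (-d) d, G s * ENNReal.ofReal (Real.exp (-s / 2) * (XX d s)⁻¹ / 2) := by
  rw [lintegral_ms' d hG, ← lintegral_const_mul' _ _ (ENNReal.inv_ne_top.mpr
    (by simpa using Real.pi_pos)), ← lintegral_indicator measurableSet_Ioo]
  apply lintegral_congr
  intro s
  by_cases hs : s ∈ Ioo (-d) d
  · rw [indicator_of_mem hs, ← ENNReal.ofReal_inv_of_pos Real.pi_pos, mul_comm (G s), ← mul_assoc,
      ← ENNReal.ofReal_mul (by have := Real.pi_pos; positivity)]
    congr 2
    unfold dens
    have := Real.pi_pos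
    field_simp
  · rw [indicator_of_notMem hs, dens_eq_zero]
    · simp
    · rw [abs_of_pos hd]
      by_contra h
      push Not at h
      exact hs (abs_lt.mp h)

theorem sig_eq {d : ℝ} (hd : 0 < d) :
    sig d = (ms d).map (wp (-1) d) + (ms d).map (wp 1 d) := by
  apply Measure.ext_of_lintegral
  intro F hF
  have hm1 := (continuous_wp (-1) d).measurable
  have hm2 := (continuous_wp 1 d).measurable
  rw [lintegral_add_measure, lintegral_map hF hm1, lintegral_map hF hm2,
    lintegral_ms hd (G := fun s => F (wp (-1) d s)) (hF.comp hm1),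
    lintegral_ms hd (G := fun s => F (wp 1 d s)) (hF.comp hm2), ← mul_add]
  unfold sig
  rw [lintegral_map hF (continuous_rot_pt d).measurable, lintegral_smul_measure, smul_eq_mul]
  congr 1
  have hpi := Real.pi_pos
  have hun : Ioc 0 Real.pi = Ioc 0 (Real.pi / 2) ∪ Ioc (Real.pi / 2) Real.pi :=
    (Ioc_union_Ioc_eq_Ioc (by positivity) (by linarith)).symm
  have hdis : Disjoint (Ioc 0 (Real.pi / 2)) (Ioc (Real.pi / 2) Real.pi) := by
    rw [Set.disjoint_left]
    intro x hx hx'
    exact absurd hx'.1 (not_lt.mpr hx.2)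
  rw [hun, lintegral_union measurableSet_Ioc hdis]
  congr 1
  · rw [← restrict_Ioo_eq_restrict_Ioc, ← lintegral_half hd (fun s => F (wp (-1) d s))]
    apply setLIntegral_congr_fun measurableSet_Ioo
    intro θ hθ
    simp only
    rw [(rot_pt_eq_wp hd hθ).1]
  · rw [← restrict_Ioo_eq_restrict_Ioc, ← lintegral_half hd (fun s => F (wp 1 d s))]
    have himg : (fun θ : ℝ => Real.pi - θ) ⁻¹' (Ioo (Real.pi / 2) Real.pi) = Ioo 0 (Real.pi / 2) := by
      ext x
      simp only [mem_preimage, mem_Ioo]
      constructor <;> rintro ⟨h1, h2⟩ <;> constructor <;> linarith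
    have hmp : MeasurePreserving (fun θ : ℝ => Real.pi - θ) (volume.restrict (Ioo 0 (Real.pi / 2)))
        (volume.restrict (Ioo (Real.pi / 2) Real.pi)) := by
      have := (Measure.measurePreserving_sub_left volume Real.pi).restrict_preimage
        (s := Ioo (Real.pi / 2) Real.pi) measurableSet_Ioo
      rwa [himg] at this
    rw [← hmp.lintegral_comp (f := fun θ => F (rot θ • pt d))
      (hF.comp (continuous_rot_pt d).measurable)]
    apply setLIntegral_congr_fun measurableSet_Ioo
    intro θ hθ
    simp only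
    rw [← (rot_pt_eq_wp hd hθ).2.1]

theorem lintegral_sig {d : ℝ} (hd : 0 < d) {F : ℍ → ℝ≥0∞} (hF : Measurable F) :
    ∫⁻ w, F w ∂(sig d) =
      ∫⁻ s, ENNReal.ofReal (dens d s) * (F (wp (-1) d s) + F (wp 1 d s)) := by
  have hm1 := (continuous_wp (-1) d).measurable
  have hm2 := (continuous_wp 1 d).measurable
  rw [sig_eq hd, lintegral_add_measure, lintegral_map hF hm1, lintegral_map hF hm2,
    lintegral_ms' d (G := fun s => F (wp (-1) d s)) (hF.comp hm1),
    lintegral_ms' d (G := fun s => F (wp 1 d s)) (hF.comp hm2), ← lintegral_add_left]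
  · simp_rw [mul_add]
  · exact (measurable_dens d).ennreal_ofReal.mul (hF.comp hm1)

theorem dens_mul_exp (d s : ℝ) : dens d s * Real.exp s = dens d (-s) := by
  unfold dens
  rw [XX_neg]
  have : Real.exp (-(-s) / 2) = Real.exp (-s / 2) * Real.exp s := by
    rw [← Real.exp_add]; congr 1; ring
  rw [this]; ring

/-- inverse in the group structure of the half plane -/
noncomputable def invS (w : ℍ) : ℍ :=
  ⟨⟨-w.re / w.im, 1 / w.im⟩, by simpa using w.im_pos⟩

@[simp] theorem invS_re (w : ℍ) : (invS w).re = -w.re / w.im := rfl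
@[simp] theorem invS_im (w : ℍ) : (invS w).im = 1 / w.im := rfl

theorem mulS_assoc (a b c : ℍ) : mulS (mulS a b) c = mulS a (mulS b c) := by
  apply UpperHalfPlane.ext_re_im
  · simp; ring
  · simp; ring

theorem mulS_invS (w : ℍ) : mulS w (invS w) = I := by
  have := w.im_pos.ne'
  apply UpperHalfPlane.ext_re_im
  · simp; field_simp; ring
  · simp; field_simp

theorem invS_mulS (w : ℍ) : mulS (invS w) w = I := by
  have := w.im_pos.ne'
  apply UpperHalfPlane.ext_re_im
  · simp; field_simp; ring
  · simp; field_simp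

theorem mulS_I (w : ℍ) : mulS w I = w := by
  apply UpperHalfPlane.ext_re_im <;> simp

theorem I_mulS (w : ℍ) : mulS I w = w := by
  apply UpperHalfPlane.ext_re_im <;> simp

theorem invS_wp (ε d s : ℝ) : invS (wp ε d s) = wp (-ε) d (-s) := by
  apply UpperHalfPlane.ext_re_im
  · rw [invS_re, wp_re, wp_re, wp_im, XX_neg]
    have : Real.exp (s / 2) / Real.exp s = Real.exp (-s / 2) := by
      rw [← Real.exp_sub]; congr 1; ring
    rw [← this]
    ring
  · rw [invS_im, wp_im, wp_im, Real.exp_neg, one_div]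

theorem continuous_mulS : Continuous (fun p : ℍ × ℍ => mulS p.1 p.2) := by
  have h : Continuous (fun p : ℍ × ℍ => ((mulS p.1 p.2 : ℍ) : ℂ)) := by
    have : (fun p : ℍ × ℍ => ((mulS p.1 p.2 : ℍ) : ℂ)) =
        fun p => (((p.1.re + p.1.im * p.2.re : ℝ) : ℂ) + ((p.1.im * p.2.im : ℝ) : ℂ) * Complex.I) := by
      funext p
      apply Complex.ext
      · simp only [coe_re, mulS_re, Complex.add_re, Complex.ofReal_re, Complex.mul_re,
          Complex.I_re, Complex.I_im, Complex.ofReal_im, mul_zero, zero_mul, sub_zero, add_zero]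
      · simp only [coe_im, mulS_im, Complex.add_im, Complex.ofReal_re, Complex.mul_im,
          Complex.I_re, Complex.I_im, Complex.ofReal_im, mul_zero, mul_one, add_zero,
          zero_add]
    rw [this]
    have h1 : Continuous (fun p : ℍ × ℍ => p.1.re) := continuous_re.comp continuous_fst
    have h2 : Continuous (fun p : ℍ × ℍ => p.1.im) := continuous_im.comp continuous_fst
    have h3 : Continuous (fun p : ℍ × ℍ => p.2.re) := continuous_re.comp continuous_snd
    have h4 : Continuous (fun p : ℍ × ℍ => p.2.im) := continuous_im.comp continuous_snd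
    fun_prop
  exact isEmbedding_coe.continuous_iff.mpr h

theorem continuous_invS : Continuous invS := by
  have h : Continuous (fun p : ℍ => ((invS p : ℍ) : ℂ)) := by
    have : (fun p : ℍ => ((invS p : ℍ) : ℂ)) =
        fun p => (((-p.re / p.im : ℝ) : ℂ) + ((1 / p.im : ℝ) : ℂ) * Complex.I) := by
      funext p
      apply Complex.ext
      · simp only [coe_re, invS_re, Complex.add_re, Complex.ofReal_re, Complex.mul_re,
          Complex.I_re, Complex.I_im, Complex.ofReal_im, mul_zero, zero_mul, sub_zero, add_zero]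
      · simp only [coe_im, invS_im, Complex.add_im, Complex.ofReal_re, Complex.mul_im,
          Complex.I_re, Complex.I_im, Complex.ofReal_im, mul_zero, mul_one, add_zero,
          zero_add]
    rw [this]
    have h1 : Continuous (fun p : ℍ => p.re) := continuous_re
    have h2 : Continuous (fun p : ℍ => p.im) := continuous_im
    have h3 : ∀ p : ℍ, p.im ≠ 0 := fun p => p.im_pos.ne'
    have h4 : Continuous (fun p : ℍ => -p.re / p.im) := h1.neg.div h2 h3
    have h5 : Continuous (fun p : ℍ => 1 / p.im) := continuous_const.div h2 h3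
    fun_prop
  exact isEmbedding_coe.continuous_iff.mpr h

theorem lintegral_sig_inv {d : ℝ} (hd : 0 < d) {F : ℍ → ℝ≥0∞} (hF : Measurable F) :
    ∫⁻ w, F (invS w) * ENNReal.ofReal w.im ∂(sig d) = ∫⁻ w, F w ∂(sig d) := by
  have him : Measurable (fun w : ℍ => ENNReal.ofReal w.im) :=
    continuous_im.measurable.ennreal_ofReal
  rw [lintegral_sig hd (F := fun w => F (invS w) * ENNReal.ofReal w.im)
    ((hF.comp continuous_invS.measurable).mul him), lintegral_sig hd hF]
  rw [← lintegral_neg_eq_self (fun s => ENNReal.ofReal (dens d s) * (F (wp (-1) d s) + F (wp 1 d s)))]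
  apply lintegral_congr
  intro s
  rw [← dens_mul_exp, ENNReal.ofReal_mul (dens_nonneg d s), invS_wp, invS_wp, wp_im, wp_im, neg_neg]
  ring

theorem lintegral_im_sig {d : ℝ} (hd : 0 < d) :
    ∫⁻ w, ENNReal.ofReal w.im ∂(sig d) = 1 := by
  have := lintegral_sig_inv hd (F := fun _ => 1) measurable_const
  simpa using this

end Pool.Agent.H22.Hy
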