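import Pool.Agent.H22.HyE

namespace Pool.Agent.H22.Hy

open UpperHalfPlane MeasureTheory Metric Set Filter
open scoped MatrixGroups Topology ENNReal NNReal

/-- horocyclic coordinates -/
noncomputable def hc (p : ℝ × ℝ) : ℍ := ⟨⟨p.1, Real.exp p.2⟩, Real.exp_pos p.2⟩

@[simp] theorem hc_re (p : ℝ × ℝ) : (hc p).re = p.1 := rfl
@[simp] theorem hc_im (p : ℝ × ℝ) : (hc p).im = Real.exp p.2 := rfl

theorem continuous_hc : Continuous hc := by
  have h : Continuous (fun p : ℝ × ℝ => ((hc p : ℍ) : ℂ)) := by
    have : (fun p : ℝ × ℝ => ((hc p : ℍ) : ℂ)) =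
        fun p => ((p.1 : ℂ) + ((Real.exp p.2 : ℝ) : ℂ) * Complex.I) := by
      funext p
      apply Complex.ext
      · simp only [coe_re, hc_re, Complex.add_re, Complex.ofReal_re, Complex.mul_re,
          Complex.I_re, Complex.I_im, Complex.ofReal_im, mul_zero, zero_mul, sub_zero, add_zero]
      · simp only [coe_im, hc_im, Complex.add_im, Complex.ofReal_re, Complex.mul_im,
          Complex.I_re, Complex.I_im, Complex.ofReal_im, mul_zero, mul_one, add_zero,
          zero_add]
    rw [this]
    fun_prop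
  exact isEmbedding_coe.continuous_iff.mpr h

theorem vol_eq : (volume : Measure ℍ) = (volume.comap UpperHalfPlane.coe).withDensity
    fun z => ENNReal.ofReal (1 / z.im ^ 2) := by
  rw [volume_def]
  congr 1
  funext z
  rw [ENNReal.ofReal]
  congr 1
  ext
  rw [Real.coe_toNNReal _ (by have := z.im_pos; positivity)]
  push_cast
  simp

theorem lintegral_vol {F : ℍ → ℝ≥0∞} (hF : Measurable F) :
    ∫⁻ z, F z = ∫⁻ x : ℝ, ∫⁻ v : ℝ, ENNReal.ofReal (Real.exp (-v)) * F (hc (x, v)) := by
  have hmp : MeasurePreserving UpperHalfPlane.coe (volume.comap UpperHalfPlane.coe)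
      (volume.restrict (.range UpperHalfPlane.coe)) :=
    ⟨measurable_coe, by rw [measurableEmbedding_coe.map_comap]⟩
  have hr : (Set.range UpperHalfPlane.coe) = {p : ℂ | 0 < p.im} := by
    ext p
    constructor
    · rintro ⟨z, rfl⟩; exact z.im_pos
    · intro hp; exact ⟨⟨p, hp⟩, rfl⟩
  rw [hr] at hmp
  have hS : MeasurableSet {p : ℂ | 0 < p.im} := measurableSet_lt measurable_const Complex.measurable_im
  have him : Measurable (fun z : ℍ => ENNReal.ofReal (1 / z.im ^ 2)) := by
    apply Measurable.ennreal_ofReal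
    exact (measurable_const.div (continuous_im.measurable.pow_const 2))
  set G : ℂ → ℝ≥0∞ := Function.extend UpperHalfPlane.coe F (fun _ => 0) with hG
  have hGm : Measurable G := measurableEmbedding_coe.measurable_extend hF measurable_const
  have hGc : ∀ z : ℍ, G z = F z := fun z => UpperHalfPlane.coe_injective.extend_apply _ _ _
  have hG0 : ∀ p : ℂ, ¬ 0 < p.im → G p = 0 := by
    intro p hp
    rw [hG, Function.extend_apply']
    rintro ⟨z, rfl⟩
    exact hp z.im_pos
  have hKm : Measurable (fun p : ℂ => ENNReal.ofReal (1 / p.im ^ 2) * G p) := by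
    apply Measurable.mul _ hGm
    apply Measurable.ennreal_ofReal
    exact (measurable_const.div (Complex.measurable_im.pow_const 2))
  have h1 : ∫⁻ z, F z = ∫⁻ p : ℂ, ENNReal.ofReal (1 / p.im ^ 2) * G p := by
    have h2 : ∫⁻ p : ℂ, ENNReal.ofReal (1 / p.im ^ 2) * G p =
        ∫⁻ p : ℂ in {p | 0 < p.im}, ENNReal.ofReal (1 / p.im ^ 2) * G p := by
      rw [← lintegral_indicator hS]
      apply lintegral_congr
      intro p
      by_cases hp : 0 < p.im
      · rw [indicator_of_mem (by exact hp)]
      · rw [indicator_of_notMem (by exact hp), hG0 p hp, mul_zero]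
    rw [h2, ← hmp.lintegral_comp_emb measurableEmbedding_coe, vol_eq,
      lintegral_withDensity_eq_lintegral_mul _ him hF]
    apply lintegral_congr
    intro z
    simp only [Pi.mul_apply, hGc]
    rfl
  have hKm2 : Measurable (fun q : ℝ × ℝ => ENNReal.ofReal (1 / q.2 ^ 2) * G ⟨q.1, q.2⟩) := by
    have := hKm.comp Complex.measurableEquivRealProd.symm.measurable
    simpa [Function.comp_def, Complex.measurableEquivRealProd_symm_apply] using this
  rw [h1]
  rw [← (Complex.volume_preserving_equiv_real_prod.symm).lintegral_comp_emb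
    (Complex.measurableEquivRealProd.symm.measurableEmbedding)]
  simp only [Complex.measurableEquivRealProd_symm_apply]
  rw [Measure.volume_eq_prod, lintegral_prod _ hKm2.aemeasurable]
  apply lintegral_congr
  intro x
  simp only
  have h3 : ∫⁻ y : ℝ, ENNReal.ofReal (1 / y ^ 2) * G ⟨x, y⟩ =
      ∫⁻ y in Ioi (0 : ℝ), ENNReal.ofReal (1 / y ^ 2) * G ⟨x, y⟩ := by
    rw [← lintegral_indicator measurableSet_Ioi]
    apply lintegral_congr
    intro y
    by_cases hy : 0 < y
    · rw [indicator_of_mem (by exact hy)]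
    · rw [indicator_of_notMem (by exact hy), hG0 ⟨x, y⟩ hy, mul_zero]
  have h4 : Ioi (0 : ℝ) = Real.exp '' univ := by rw [image_univ, Real.range_exp]
  rw [h3, h4, lintegral_image_eq_lintegral_abs_deriv_mul MeasurableSet.univ
    (fun v _ => (Real.hasDerivAt_exp v).hasDerivWithinAt) Real.exp_injective.injOn,
    setLIntegral_univ]
  apply lintegral_congr
  intro v
  have h5 : G ⟨x, Real.exp v⟩ = F (hc (x, v)) := hGc (hc (x, v))
  rw [h5, ← mul_assoc, ← ENNReal.ofReal_mul (abs_nonneg _), abs_of_pos (Real.exp_pos v)]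
  congr 2
  rw [Real.exp_neg]
  have := Real.exp_pos v
  field_simp

/-- right translations scale the volume -/
theorem lintegral_mulS (w : ℍ) {F : ℍ → ℝ≥0∞} (hF : Measurable F) :
    ∫⁻ z, F (mulS z w) = ENNReal.ofReal w.im * ∫⁻ z, F z := by
  have hm : Measurable (fun z : ℍ => mulS z w) :=
    (continuous_mulS.comp (continuous_id.prodMk continuous_const)).measurable
  have hmF : Measurable (fun z : ℍ => F (mulS z w)) := hF.comp hm
  have hmul : ∀ x v : ℝ, mulS (hc (x, v)) w = hc (x + Real.exp v * w.re, v + Real.log w.im) := by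
    intro x v
    apply UpperHalfPlane.ext_re_im
    · simp
    · simp [Real.exp_add, Real.exp_log w.im_pos]
  have hmc : Measurable (fun p : ℝ × ℝ => ENNReal.ofReal (Real.exp (-p.2)) * F (hc (p.1, p.2))) := by
    apply Measurable.mul
    · apply Measurable.ennreal_ofReal
      exact (Real.continuous_exp.comp continuous_snd.neg).measurable
    · exact hF.comp continuous_hc.measurable
  have hmc2 : Measurable (fun p : ℝ × ℝ => ENNReal.ofReal (Real.exp (-p.2)) *
      F (mulS (hc (p.1, p.2)) w)) := by
    apply Measurable.mul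
    · apply Measurable.ennreal_ofReal
      exact (Real.continuous_exp.comp continuous_snd.neg).measurable
    · exact hmF.comp continuous_hc.measurable
  rw [lintegral_vol hmF, lintegral_vol hF]
  have e1 := lintegral_lintegral_swap (μ := (volume : Measure ℝ)) (ν := (volume : Measure ℝ))
    (f := fun x v => ENNReal.ofReal (Real.exp (-v)) * F (mulS (hc (x, v)) w)) hmc2.aemeasurable
  have e2 := lintegral_lintegral_swap (μ := (volume : Measure ℝ)) (ν := (volume : Measure ℝ))
    (f := fun x v => ENNReal.ofReal (Real.exp (-v)) * F (hc (x, v))) hmc.aemeasurable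
  rw [e1, e2]
  rw [← lintegral_const_mul' _ _ ENNReal.ofReal_ne_top]
  rw [← lintegral_add_right_eq_self (fun v => ENNReal.ofReal w.im *
    ∫⁻ x : ℝ, ENNReal.ofReal (Real.exp (-v)) * F (hc (x, v))) (Real.log w.im)]
  apply lintegral_congr
  intro v
  rw [← lintegral_const_mul' _ _ ENNReal.ofReal_ne_top]
  rw [← lintegral_add_right_eq_self (fun x => ENNReal.ofReal w.im *
    (ENNReal.ofReal (Real.exp (-(v + Real.log w.im))) * F (hc (x, v + Real.log w.im))))
      (Real.exp v * w.re)]
  apply lintegral_congr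
  intro x
  rw [hmul, ← mul_assoc, ← ENNReal.ofReal_mul w.im_pos.le]
  congr 2
  rw [neg_add, Real.exp_add, Real.exp_neg (Real.log w.im), Real.exp_log w.im_pos]
  have := w.im_pos
  field_simp

end Pool.Agent.H22.Hy
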