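import Pool.Agent.H22.HyF

namespace Pool.Agent.H22.Hy

open UpperHalfPlane MeasureTheory Metric Set Filter
open scoped MatrixGroups Topology ENNReal NNReal ComplexInnerProductSpace ComplexConjugate

theorem measurable_pair : Measurable (fun p : ℍ × ℍ => (p.1, mulS p.1 p.2)) :=
  (continuous_fst.prodMk continuous_mulS).measurable

/-- joint law of a point and a random point at distance `d` -/
noncomputable def PI (d : ℝ) : Measure (ℍ × ℍ) :=
  ((volume : Measure ℍ).prod (sig d)).map (fun p => (p.1, mulS p.1 p.2))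

theorem lintegral_PI (d : ℝ) {P : ℍ × ℍ → ℝ≥0∞} (hP : Measurable P) :
    ∫⁻ p, P p ∂(PI d) = ∫⁻ z, ∫⁻ w, P (z, mulS z w) ∂(sig d) := by
  unfold PI
  have h := (hP.comp measurable_pair).aemeasurable (μ := (volume : Measure ℍ).prod (sig d))
  rw [lintegral_map hP measurable_pair]
  exact lintegral_prod _ h

theorem lintegral_PI_swap {d : ℝ} (hd : 0 < d) {P : ℍ × ℍ → ℝ≥0∞} (hP : Measurable P) :
    ∫⁻ p, P p.swap ∂(PI d) = ∫⁻ p, P p ∂(PI d) := by
  rw [lintegral_PI d hP, lintegral_PI d (P := fun p => P p.swap) (hP.comp measurable_swap)]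
  simp only [Prod.swap_prod_mk]
  have hm1 : Measurable (fun p : ℍ × ℍ => P (mulS p.1 p.2, p.1)) :=
    hP.comp (continuous_mulS.prodMk continuous_fst).measurable
  have hm2 : Measurable (fun p : ℍ × ℍ => P (p.1, mulS p.1 p.2)) :=
    hP.comp (continuous_fst.prodMk continuous_mulS).measurable
  have hc3 : Continuous (fun p : ℍ × ℍ => mulS p.1 (invS p.2)) :=
    continuous_mulS.comp (continuous_fst.prodMk (continuous_invS.comp continuous_snd))
  have hm3 : Measurable (fun p : ℍ × ℍ => P (mulS p.1 (invS p.2), p.1)) :=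
    hP.comp (hc3.prodMk continuous_fst).measurable
  have him : Measurable (fun w : ℍ => ENNReal.ofReal w.im) :=
    continuous_im.measurable.ennreal_ofReal
  symm
  rw [lintegral_lintegral_swap (f := fun z w => P (z, mulS z w)) hm2.aemeasurable]
  have h1 : ∀ w : ℍ, ∫⁻ z, P (z, mulS z w) =
      ∫⁻ Z, P (mulS Z (invS w), Z) * ENNReal.ofReal w.im := by
    intro w
    have hF : Measurable (fun Z : ℍ => P (mulS Z (invS w), Z)) :=
      hm3.comp (measurable_id.prodMk measurable_const)
    have h2 := lintegral_mulS w hF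
    rw [lintegral_mul_const' _ _ ENNReal.ofReal_ne_top, mul_comm, ← h2]
    apply lintegral_congr
    intro z
    rw [mulS_assoc, mulS_invS, mulS_I]
  simp_rw [h1]
  rw [lintegral_lintegral_swap (μ := sig d) (ν := (volume : Measure ℍ))
    (f := fun w Z => P (mulS Z (invS w), Z) * ENNReal.ofReal w.im)]
  · apply lintegral_congr
    intro Z
    have hF : Measurable (fun w : ℍ => P (mulS Z w, Z)) :=
      hm1.comp (measurable_const.prodMk measurable_id)
    exact lintegral_sig_inv hd hF
  · apply Measurable.aemeasurable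
    exact (hm3.comp measurable_swap).mul (him.comp measurable_fst)

theorem PI_swap {d : ℝ} (hd : 0 < d) : (PI d).map Prod.swap = PI d := by
  apply Measure.ext_of_lintegral
  intro P hP
  rw [lintegral_map hP measurable_swap]
  exact lintegral_PI_swap hd hP

theorem mp_swap {d : ℝ} (hd : 0 < d) : MeasurePreserving Prod.swap (PI d) (PI d) :=
  ⟨measurable_swap, PI_swap hd⟩

theorem mp_fst (d : ℝ) : MeasurePreserving Prod.fst (PI d) (volume : Measure ℍ) := by
  refine ⟨measurable_fst, ?_⟩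
  apply Measure.ext_of_lintegral
  intro P hP
  rw [lintegral_map hP measurable_fst, lintegral_PI d (P := fun p => P p.1) (hP.comp measurable_fst)]
  simp

theorem mp_snd {d : ℝ} (hd : 0 < d) : MeasurePreserving Prod.snd (PI d) (volume : Measure ℍ) := by
  have := (mp_fst d).comp (mp_swap hd)
  exact this

/-- the Hilbert space -/
noncomputable abbrev L2 := Lp ℂ 2 (volume : Measure ℍ)

noncomputable def i1 (d : ℝ) : L2 →ₗᵢ[ℂ] Lp ℂ 2 (PI d) :=
  Lp.compMeasurePreservingₗᵢ ℂ Prod.fst (mp_fst d)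

noncomputable def i2 {d : ℝ} (hd : 0 < d) : L2 →ₗᵢ[ℂ] Lp ℂ 2 (PI d) :=
  Lp.compMeasurePreservingₗᵢ ℂ Prod.snd (mp_snd hd)

/-- the averaging operator -/
noncomputable def Aop {d : ℝ} (hd : 0 < d) : L2 →L[ℂ] L2 :=
  (i1 d).toContinuousLinearMap.adjoint ∘L (i2 hd).toContinuousLinearMap

theorem inner_Aop {d : ℝ} (hd : 0 < d) (f g : L2) :
    ⟪g, Aop hd f⟫ = ∫ p, conj (g p.1) * f p.2 ∂(PI d) := by
  unfold Aop
  rw [ContinuousLinearMap.comp_apply, ContinuousLinearMap.adjoint_inner_right]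
  rw [L2.inner_def]
  apply integral_congr_ae
  have h1 : (i1 d g : ℍ × ℍ → ℂ) =ᵐ[PI d] fun p => g p.1 :=
    Lp.coeFn_compMeasurePreserving g (mp_fst d)
  have h2 : (i2 hd f : ℍ × ℍ → ℂ) =ᵐ[PI d] fun p => f p.2 :=
    Lp.coeFn_compMeasurePreserving f (mp_snd hd)
  filter_upwards [h1, h2] with p h1 h2
  simp only [LinearIsometry.coe_toContinuousLinearMap, h1, h2]
  simp [mul_comm]

end Pool.Agent.H22.Hy
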