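import Pool.Agent.H22.HyG

namespace Pool.Agent.H22.Hy

open UpperHalfPlane MeasureTheory Metric Set Filter
open scoped MatrixGroups Topology ENNReal NNReal ComplexInnerProductSpace ComplexConjugate

theorem integral_PI {d : ℝ} {P : ℍ × ℍ → ℂ} (hP : Integrable P (PI d)) :
    ∫ p, P p ∂(PI d) = ∫ z, ∫ w, P (z, mulS z w) ∂(sig d) := by
  unfold PI at hP ⊢
  rw [integral_map measurable_pair.aemeasurable hP.aestronglyMeasurable]
  have h := (integrable_map_measure hP.aestronglyMeasurable measurable_pair.aemeasurable).mp hP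
  exact integral_prod _ h

theorem integrable_PI_prod {d : ℝ} {P : ℍ × ℍ → ℂ} (hP : Integrable P (PI d)) :
    Integrable (fun p : ℍ × ℍ => P (p.1, mulS p.1 p.2)) ((volume : Measure ℍ).prod (sig d)) := by
  unfold PI at hP
  exact (integrable_map_measure hP.aestronglyMeasurable measurable_pair.aemeasurable).mp hP

theorem memLp_fst (d : ℝ) (g : L2) : MemLp (fun p : ℍ × ℍ => g p.1) 2 (PI d) :=
  (Lp.memLp g).comp_measurePreserving (mp_fst d)

theorem memLp_snd {d : ℝ} (hd : 0 < d) (g : L2) : MemLp (fun p : ℍ × ℍ => g p.2) 2 (PI d) :=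
  (Lp.memLp g).comp_measurePreserving (mp_snd hd)

theorem memLp_conj {α : Type*} [MeasurableSpace α] {μ : Measure α} {p : ℝ≥0∞} {f : α → ℂ}
    (hf : MemLp f p μ) : MemLp (fun x => conj (f x)) p μ := by
  refine hf.of_le (Complex.continuous_conj.comp_aestronglyMeasurable hf.aestronglyMeasurable) ?_
  exact Eventually.of_forall fun x => by simp

theorem integrable_conj_mul {d : ℝ} (hd : 0 < d) (f g : L2) :
    Integrable (fun p : ℍ × ℍ => conj (g p.1) * f p.2) (PI d) :=
  (memLp_conj (memLp_fst d g)).integrable_mul (memLp_snd hd f)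

theorem inner_Aop_symm {d : ℝ} (hd : 0 < d) (f g : L2) :
    ⟪g, Aop hd f⟫ = ⟪Aop hd g, f⟫ := by
  rw [← inner_conj_symm (Aop hd g) f, inner_Aop, inner_Aop, ← integral_conj]
  rw [← (mp_swap hd).integral_comp MeasurableEquiv.prodComm.measurableEmbedding]
  apply integral_congr_ae
  refine Eventually.of_forall fun p => ?_
  simp [mul_comm]

theorem Aop_selfAdjoint {d : ℝ} (hd : 0 < d) : IsSelfAdjoint (Aop hd) := by
  rw [ContinuousLinearMap.isSelfAdjoint_iff_isSymmetric]
  intro f g
  exact (inner_Aop_symm hd g f).symm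

theorem circleMean_lp {d : ℝ} (hd : 0 < d) (f : ℍ → ℂ) :
    circleMean d f = fun z => ∫ w, f (mulS z w) ∂(sig d) := by
  funext z
  exact circleMean_eq hd f z

theorem Aop_ae {d : ℝ} (hd : 0 < d) (f : L2) :
    (Aop hd f : ℍ → ℂ) =ᵐ[volume] circleMean d f := by
  rw [circleMean_lp hd]
  have key : ∀ s : Set ℍ, MeasurableSet s → (volume : Measure ℍ) s < ∞ →
      Integrable ((Prod.fst ⁻¹' s).indicator (fun p : ℍ × ℍ => f p.2)) (PI d) := by
    intro s hs hfin
    have h1 : MemLp ((Prod.fst ⁻¹' s).indicator (fun _ : ℍ × ℍ => (1 : ℂ))) 2 (PI d) := by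
      apply memLp_indicator_const _ (measurable_fst hs)
      right
      rw [(mp_fst d).measure_preimage hs.nullMeasurableSet]
      exact hfin.ne
    have h2 := h1.integrable_mul (memLp_snd hd f)
    apply h2.congr
    refine Eventually.of_forall fun p => ?_
    by_cases hp : p ∈ (Prod.fst ⁻¹' s : Set (ℍ × ℍ))
    · simp [indicator_of_mem hp]
    · simp [indicator_of_notMem hp]
  have hind : ∀ (s : Set ℍ) (z w : ℍ),
      (Prod.fst ⁻¹' s).indicator (fun p : ℍ × ℍ => f p.2) (z, mulS z w) =
        s.indicator (fun z => f (mulS z w)) z := by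
    intro s z w
    by_cases hz : z ∈ s
    · rw [indicator_of_mem (show ((z, mulS z w) : ℍ × ℍ) ∈ Prod.fst ⁻¹' s from hz),
        indicator_of_mem hz]
    · rw [indicator_of_notMem (show ((z, mulS z w) : ℍ × ℍ) ∉ Prod.fst ⁻¹' s from hz),
        indicator_of_notMem hz]
  have hind2 : ∀ (s : Set ℍ) (z : ℍ),
      ∫ w, (Prod.fst ⁻¹' s).indicator (fun p : ℍ × ℍ => f p.2) (z, mulS z w) ∂(sig d) =
        s.indicator (fun z => ∫ w, f (mulS z w) ∂(sig d)) z := by
    intro s z
    simp_rw [hind]
    by_cases hz : z ∈ s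
    · simp_rw [indicator_of_mem hz]
    · simp_rw [indicator_of_notMem hz]
      simp
  apply ae_eq_of_forall_setIntegral_eq_of_sigmaFinite
  · intro s hs hfin
    exact integrableOn_Lp_of_measure_ne_top (Aop hd f) (by norm_num) hfin.ne
  · intro s hs hfin
    have h1 := (integrable_PI_prod (key s hs hfin)).integral_prod_left
    simp_rw [hind2] at h1
    exact (integrable_indicator_iff hs).mp h1
  · intro s hs hfin
    rw [← L2.inner_indicatorConstLp_one (𝕜 := ℂ) hs hfin.ne (Aop hd f), inner_Aop]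
    have h1 : ∫ p, conj ((indicatorConstLp 2 hs hfin.ne (1 : ℂ) : L2) p.1) * f p.2 ∂(PI d) =
        ∫ p, (Prod.fst ⁻¹' s).indicator (fun p : ℍ × ℍ => f p.2) p ∂(PI d) := by
      apply integral_congr_ae
      have h2 : ((indicatorConstLp 2 hs hfin.ne (1 : ℂ) : L2) : ℍ → ℂ) =ᵐ[volume]
        s.indicator (fun _ => (1 : ℂ)) := indicatorConstLp_coeFn
      have h3 := (mp_fst d).quasiMeasurePreserving.ae_eq_comp h2
      filter_upwards [h3] with p hp
      simp only [Function.comp_apply] at hp
      rw [hp]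
      by_cases hz : p.1 ∈ s
      · rw [indicator_of_mem hz, indicator_of_mem (show p ∈ Prod.fst ⁻¹' s from hz)]
        simp
      · rw [indicator_of_notMem hz, indicator_of_notMem (show p ∉ Prod.fst ⁻¹' s from hz)]
        simp
    rw [h1, integral_PI (key s hs hfin)]
    simp_rw [hind2]
    rw [integral_indicator hs]

end Pool.Agent.H22.Hy
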