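import Pool.Agent.H22.HyH

namespace Pool.Agent.H22.Hy

open UpperHalfPlane MeasureTheory Metric Set Filter
open scoped MatrixGroups Topology ENNReal NNReal ComplexInnerProductSpace ComplexConjugate

theorem integrable_sig {E : Type*} [NormedAddCommGroup E] (d : ℝ) {F : ℍ → E} (hF : Continuous F) : Integrable F (sig d) := by
  unfold sig
  have hFc : Continuous (fun θ : ℝ => F (rot θ • pt d)) := hF.comp (continuous_rot_pt d)
  rw [integrable_map_measure hF.aestronglyMeasurable (continuous_rot_pt d).aemeasurable]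
  apply Integrable.smul_measure
  · exact hFc.integrableOn_Ioc
  · exact ENNReal.inv_ne_top.mpr (by simpa using Real.pi_pos)

variable {E : Type*} [NormedAddCommGroup E] [NormedSpace ℝ E]

/-- the horocyclic kernel -/
noncomputable def kd (d s : ℝ) : ℝ := (XX d s)⁻¹ / Real.pi

theorem kd_nonneg (d s : ℝ) : 0 ≤ kd d s := by
  unfold kd XX
  have := Real.pi_pos
  positivity

theorem kd_neg (d s : ℝ) : kd d (-s) = kd d s := by
  unfold kd; rw [XX_neg]

theorem kd_eq_zero {d s : ℝ} (h : |d| ≤ |s|) : kd d s = 0 := by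
  unfold kd
  rw [XX_eq_zero h]; simp

theorem kd_pos {d s : ℝ} (h : |s| < |d|) : 0 < kd d s := by
  unfold kd
  have := XX_pos h
  have := Real.pi_pos
  positivity

theorem measurable_kd (d : ℝ) : Measurable (kd d) := by
  unfold kd
  exact ((continuous_XX d).measurable.inv).div_const _

theorem two_dens (d s : ℝ) : 2 * dens d s * Real.exp (s / 2) = kd d s := by
  unfold dens kd
  have h : Real.exp (-s / 2) * Real.exp (s / 2) = 1 := by
    rw [← Real.exp_add]
    simp [neg_div]
  calc 2 * (Real.exp (-s / 2) * (XX d s)⁻¹ / (2 * Real.pi)) * Real.exp (s / 2)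
      = (Real.exp (-s / 2) * Real.exp (s / 2)) * ((XX d s)⁻¹ / Real.pi) := by
        have hpi := Real.pi_pos
        generalize Real.exp (-s / 2) = a
        generalize Real.exp (s / 2) = b
        field_simp
    _ = (XX d s)⁻¹ / Real.pi := by rw [h, one_mul]

theorem sqrt_exp (s : ℝ) : Real.sqrt (Real.exp s) = Real.exp (s / 2) := by
  rw [Real.sqrt_eq_rpow, ← Real.exp_mul]
  congr 1
  ring

theorem integral_map_wp {d ε : ℝ} {F : ℍ → E} (hF : Continuous F) :
    ∫ w, F w ∂((ms d).map (wp ε d)) = ∫ s, dens d s • F (wp ε d s) := by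
  rw [integral_map (continuous_wp ε d).aemeasurable hF.aestronglyMeasurable]
  unfold ms
  rw [integral_withDensity_eq_integral_toReal_smul (measurable_dens d).ennreal_ofReal
    (Eventually.of_forall fun _ => ENNReal.ofReal_lt_top)]
  apply integral_congr_ae
  refine Eventually.of_forall fun s => ?_
  simp only
  rw [ENNReal.toReal_ofReal (dens_nonneg d s)]

theorem integrable_map_wp {d ε : ℝ} (hd : 0 < d) (hε : ε = -1 ∨ ε = 1) {F : ℍ → E}
    (hF : Continuous F) : Integrable F ((ms d).map (wp ε d)) := by
  have h := integrable_sig d hF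
  rw [sig_eq hd, integrable_add_measure] at h
  rcases hε with rfl | rfl
  · exact h.1
  · exact h.2

theorem integrable_dens_wp {d ε : ℝ} (hd : 0 < d) (hε : ε = -1 ∨ ε = 1) {F : ℍ → E}
    (hF : Continuous F) : Integrable (fun s => dens d s • F (wp ε d s)) := by
  have h := integrable_map_wp hd hε hF
  rw [integrable_map_measure hF.aestronglyMeasurable (continuous_wp ε d).aemeasurable] at h
  unfold ms at h
  rw [integrable_withDensity_iff_integrable_smul' (measurable_dens d).ennreal_ofReal
    (Eventually.of_forall fun _ => ENNReal.ofReal_lt_top)] at h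
  apply h.congr
  refine Eventually.of_forall fun s => ?_
  simp only
  rw [ENNReal.toReal_ofReal (dens_nonneg d s)]
  rfl

theorem integral_sig_wp {d : ℝ} (hd : 0 < d) {F : ℍ → E} (hF : Continuous F) :
    ∫ w, F w ∂(sig d) = ∫ s, dens d s • (F (wp (-1) d s) + F (wp 1 d s)) := by
  rw [sig_eq hd, integral_add_measure (integrable_map_wp hd (Or.inl rfl) hF)
    (integrable_map_wp hd (Or.inr rfl) hF), integral_map_wp hF, integral_map_wp hF,
    ← integral_add (integrable_dens_wp hd (Or.inl rfl) hF)
      (integrable_dens_wp hd (Or.inr rfl) hF)]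
  simp_rw [smul_add]

theorem continuous_log_im : Continuous (fun w : ℍ => Real.log w.im) :=
  continuous_im.log fun w => w.im_pos.ne'

theorem integral_sig_horo {d : ℝ} (hd : 0 < d) {g : ℝ → E} (hg : Continuous g) :
    ∫ w : ℍ, Real.sqrt w.im • g (Real.log w.im) ∂(sig d) = ∫ s, kd d s • g s := by
  have hF : Continuous (fun w : ℍ => Real.sqrt w.im • g (Real.log w.im)) :=
    (continuous_im.sqrt).smul (hg.comp continuous_log_im)
  rw [integral_sig_wp hd hF]
  apply integral_congr_ae
  refine Eventually.of_forall fun s => ?_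
  simp only [wp_im, Real.log_exp, sqrt_exp]
  rw [← two_smul ℝ (Real.exp (s / 2) • g s), smul_smul, smul_smul, ← two_dens]
  congr 1
  ring

theorem integrable_kd_smul {d : ℝ} (hd : 0 < d) {g : ℝ → E} (hg : Continuous g) :
    Integrable (fun s => kd d s • g s) := by
  have hF : Continuous (fun w : ℍ => Real.sqrt w.im • g (Real.log w.im)) :=
    (continuous_im.sqrt).smul (hg.comp continuous_log_im)
  have h := (integrable_dens_wp hd (Or.inl rfl) hF).add (integrable_dens_wp hd (Or.inr rfl) hF)
  apply h.congr
  refine Eventually.of_forall fun s => ?_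
  simp only [wp_im, Real.log_exp, sqrt_exp, Pi.add_apply]
  rw [← smul_add, ← two_smul ℝ (Real.exp (s / 2) • g s), smul_smul, smul_smul, ← two_dens]
  congr 1
  ring

theorem integrable_kd {d : ℝ} (hd : 0 < d) : Integrable (kd d) := by
  have := integrable_kd_smul hd (g := fun _ => (1 : ℝ)) continuous_const
  simpa using this

/-- spherical value: `∫ kd d s cos(l s) ds` -/
noncomputable def ph (l d : ℝ) : ℝ := ∫ s, kd d s * Real.cos (l * s)

theorem integrable_kd_cos {d : ℝ} (hd : 0 < d) (l : ℝ) :
    Integrable (fun s => kd d s * Real.cos (l * s)) := by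
  have := integrable_kd_smul hd (g := fun s => Real.cos (l * s)) (by fun_prop)
  simpa using this

theorem integral_sig_im {d : ℝ} (hd : 0 < d) : ∫ w : ℍ, w.im ∂(sig d) = 1 := by
  rw [integral_eq_lintegral_of_nonneg_ae (Eventually.of_forall fun w => w.im_pos.le)
    continuous_im.aestronglyMeasurable, lintegral_im_sig hd]
  simp

theorem ph_zero_le_one {d : ℝ} (hd : 0 < d) : ph 0 d ≤ 1 := by
  have h1 : ph 0 d = ∫ w : ℍ, Real.sqrt w.im ∂(sig d) := by
    have := integral_sig_horo hd (g := fun _ => (1 : ℝ)) continuous_const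
    simp only [smul_eq_mul, mul_one] at this
    rw [this]
    unfold ph
    simp
  rw [h1]
  have h2 : ∫ w : ℍ, Real.sqrt w.im ∂(sig d) ≤ ∫ w : ℍ, (1 + w.im) / 2 ∂(sig d) := by
    apply integral_mono
    · exact integrable_sig d continuous_im.sqrt
    · exact integrable_sig d ((continuous_const.add continuous_im).div_const 2)
    · intro w
      simp only
      have := Real.sq_sqrt w.im_pos.le
      nlinarith [sq_nonneg (Real.sqrt w.im - 1)]
  refine h2.trans ?_
  rw [integral_div, integral_add (integrable_const _) (integrable_sig d continuous_im),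
    integral_sig_im hd, integral_const]
  simp

theorem abs_ph_le {d : ℝ} (hd : 0 < d) (l : ℝ) : |ph l d| ≤ ph 0 d := by
  unfold ph
  rw [← Real.norm_eq_abs]
  refine (norm_integral_le_integral_norm _).trans ?_
  apply integral_mono (integrable_kd_cos hd l).norm (integrable_kd_cos hd 0)
  intro s
  simp only [zero_mul, Real.cos_zero, mul_one, norm_mul, Real.norm_eq_abs]
  rw [abs_of_nonneg (kd_nonneg d s)]
  calc kd d s * |Real.cos (l * s)| ≤ kd d s * 1 :=
        mul_le_mul_of_nonneg_left (Real.abs_cos_le_one _) (kd_nonneg d s)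
    _ = kd d s := mul_one _

theorem ph_zero_pos {d : ℝ} (hd : 0 < d) : 0 < ph 0 d := by
  unfold ph
  have h0 : (fun s => kd d s * Real.cos (0 * s)) = kd d := by
    funext s; simp
  rw [h0]
  rw [integral_pos_iff_support_of_nonneg (kd_nonneg d) (integrable_kd hd)]
  have hsub : Ioo (-d) d ⊆ Function.support (kd d) := by
    intro s hs
    apply (kd_pos _).ne'
    rw [abs_of_pos hd]
    exact abs_lt.mpr hs
  refine lt_of_lt_of_le ?_ (measure_mono hsub)
  rw [Real.volume_Ioo]
  simp [hd]

/-- horocyclic wave -/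
noncomputable def wave (l : ℝ) (z : ℍ) : ℂ :=
  Real.sqrt z.im • Complex.exp (Complex.I * (l * Real.log z.im : ℝ))

theorem continuous_wave (l : ℝ) : Continuous (wave l) := by
  unfold wave
  have := continuous_log_im
  have h2 : Continuous (fun w : ℍ => Real.sqrt w.im) := continuous_im.sqrt
  fun_prop

theorem wave_mulS (l : ℝ) (z w : ℍ) : wave l (mulS z w) = wave l z * wave l w := by
  unfold wave
  rw [mulS_im, Real.sqrt_mul z.im_pos.le, Real.log_mul z.im_pos.ne' w.im_pos.ne']
  have : Complex.exp (Complex.I * (l * (Real.log z.im + Real.log w.im) : ℝ)) =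
      Complex.exp (Complex.I * (l * Real.log z.im : ℝ)) *
        Complex.exp (Complex.I * (l * Real.log w.im : ℝ)) := by
    rw [← Complex.exp_add]
    congr 1
    push_cast
    ring
  rw [this]
  simp only [Complex.real_smul]
  push_cast
  ring

theorem norm_wave (l : ℝ) (z : ℍ) : ‖wave l z‖ = Real.sqrt z.im := by
  unfold wave
  rw [norm_smul, mul_comm Complex.I, Complex.norm_exp_ofReal_mul_I, mul_one, Real.norm_eq_abs,
    abs_of_nonneg (Real.sqrt_nonneg _)]

theorem integral_wave {d : ℝ} (hd : 0 < d) (l : ℝ) : ∫ w, wave l w ∂(sig d) = (ph l d : ℂ) := by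
  have hg : Continuous (fun s : ℝ => Complex.exp (Complex.I * (l * s : ℝ))) := by fun_prop
  have h1 := integral_sig_horo hd hg
  have h2 : ∫ w, wave l w ∂(sig d) = ∫ s, kd d s • Complex.exp (Complex.I * (l * s : ℝ)) := h1
  have h3 : ∫ s, kd d s • Complex.exp (Complex.I * (l * s : ℝ)) =
      ∫ s, kd d s • Complex.exp (Complex.I * (l * (-s) : ℝ)) := by
    rw [← integral_neg_eq_self (fun s => kd d s • Complex.exp (Complex.I * (l * s : ℝ)))]
    simp_rw [kd_neg]
  have hint1 := integrable_kd_smul hd hg
  have hint2 : Integrable (fun s => kd d s • Complex.exp (Complex.I * (l * (-s) : ℝ))) :=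
    integrable_kd_smul hd (g := fun s : ℝ => Complex.exp (Complex.I * (l * (-s) : ℝ)))
      (by fun_prop)
  have h4 : (2 : ℂ) * ∫ w, wave l w ∂(sig d) = 2 * (ph l d : ℂ) := by
    rw [h2, two_mul]
    nth_rewrite 2 [h3]
    rw [← integral_add hint1 hint2]
    unfold ph
    have hre : ((∫ s, kd d s * Real.cos (l * s) : ℝ) : ℂ) =
        ∫ s, ((kd d s * Real.cos (l * s) : ℝ) : ℂ) := integral_complex_ofReal.symm
    rw [hre, ← integral_const_mul]
    apply integral_congr_ae
    refine Eventually.of_forall fun s => ?_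
    simp only [Complex.real_smul, Complex.coe_algebraMap]
    push_cast
    rw [Complex.cos]
    ring_nf
  exact mul_left_cancel₀ two_ne_zero h4

theorem circleMean_wave {d : ℝ} (hd : 0 < d) (l : ℝ) (z : ℍ) :
    circleMean d (wave l) z = (ph l d : ℂ) * wave l z := by
  rw [circleMean_eq hd]
  simp_rw [wave_mulS]
  rw [integral_const_mul, integral_wave hd, mul_comm]

end Pool.Agent.H22.Hy
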