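import Pool.Agent.H22.HyI
import Pool.Agent.H22.HyAbs

namespace Pool.Agent.H22.Hy

open UpperHalfPlane MeasureTheory Metric Set Filter
open scoped MatrixGroups Topology ENNReal NNReal ComplexInnerProductSpace ComplexConjugate

theorem continuous_wave2 : Continuous (fun p : ℝ × ℍ => wave p.1 p.2) := by
  unfold wave
  have h1 : Continuous (fun p : ℝ × ℍ => Real.log p.2.im) := continuous_log_im.comp continuous_snd
  have h2 : Continuous (fun p : ℝ × ℍ => Real.sqrt p.2.im) :=
    continuous_im.sqrt.comp continuous_snd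
  fun_prop

/-- spherical function -/
noncomputable def sph (l : ℝ) (z : ℍ) : ℂ :=
  Real.pi⁻¹ • ∫ θ in (0 : ℝ)..Real.pi, wave l (rot θ • z)

theorem continuous_sph2 : Continuous (fun p : ℝ × ℍ => sph p.1 p.2) := by
  unfold sph
  have h : Continuous (fun x : (ℝ × ℍ) × ℝ => wave x.1.1 (rot x.2 • x.1.2)) := by
    have h1 : Continuous (fun x : (ℝ × ℍ) × ℝ => (x.1.1, rot x.2 • x.1.2)) :=
      (continuous_fst.comp continuous_fst).prodMk
        ((continuous_rot.comp continuous_snd).smul (continuous_snd.comp continuous_fst))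
    exact continuous_wave2.comp h1
  have h2 := intervalIntegral.continuous_parametric_intervalIntegral_of_continuous'
    (f := fun (x : ℝ × ℍ) θ => wave x.1 (rot θ • x.2)) (μ := volume) h 0 Real.pi
  exact continuous_const.smul (f := fun _ : ℝ × ℍ => Real.pi⁻¹) h2

theorem continuous_sph_comp {X : Type*} [TopologicalSpace X] {a : X → ℝ} {b : X → ℍ}
    (ha : Continuous a) (hb : Continuous b) : Continuous (fun x => sph (a x) (b x)) := by
  have h := ha.prodMk hb
  have h4 := Continuous.comp continuous_sph2 h
  exact h4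

theorem continuous_sph (l : ℝ) : Continuous (fun z => sph l z) := by
  have h := continuous_sph_comp (X := ℍ) (a := fun _ => l) (b := fun z => z)
    continuous_const continuous_id
  exact h

theorem sph_eq_ph {r : ℝ} (hr : 0 < r) (l : ℝ) (z : ℍ) (hz : dist z I = r) :
    sph l z = (ph l r : ℂ) := by
  unfold sph
  rw [rot_average hr z hz (wave l) (continuous_wave l), integral_wave hr]

theorem wave_I (l : ℝ) : wave l I = 1 := by
  unfold wave
  simp

theorem sph_I (l : ℝ) : sph l I = 1 := by
  unfold sph
  simp only [rot_smul_I, wave_I]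
  rw [intervalIntegral.integral_const]
  simp

theorem norm_sph_le (l : ℝ) (z : ℍ) : ‖sph l z‖ ≤ 1 := by
  rcases eq_or_ne z I with rfl | hz
  · rw [sph_I]; simp
  · have hr : 0 < dist z I := dist_pos.mpr hz
    rw [sph_eq_ph hr l z rfl, Complex.norm_real, Real.norm_eq_abs]
    exact (abs_ph_le hr l).trans (ph_zero_le_one hr)

theorem sig_restrict {d : ℝ} (hd : 0 < d) : (sig d).restrict (sphere (I : ℍ) d) = sig d := by
  apply Measure.restrict_eq_self_of_ae_mem
  unfold sig
  rw [ae_map_iff (continuous_rot_pt d).aemeasurable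
    (p := fun x => x ∈ sphere (I : ℍ) d) isClosed_sphere.measurableSet]
  refine Eventually.of_forall fun θ => ?_
  rw [mem_sphere]
  exact dist_rot_pt θ d hd.le

theorem integrable_prod_sig {E : Type*} [NormedAddCommGroup E] {d : ℝ} (hd : 0 < d)
    {G : ℝ × ℍ → E} (hG : Continuous G) :
    Integrable G ((volume.restrict (Ioc 0 Real.pi)).prod (sig d)) := by
  rw [Measure.restrict_congr_set Ioc_ae_eq_Icc, ← sig_restrict hd, Measure.prod_restrict]
  exact hG.continuousOn.integrableOn_compact (isCompact_Icc.prod (isCompact_sphere _ _))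

theorem circleMean_sph {d : ℝ} (hd : 0 < d) (l : ℝ) (z : ℍ) :
    circleMean d (sph l) z = (ph l d : ℂ) * sph l z := by
  rw [circleMean_eq hd]
  unfold sph
  rw [integral_smul]
  simp_rw [intervalIntegral.integral_of_le Real.pi_pos.le]
  have hG : Continuous (fun p : ℝ × ℍ => wave l (rot p.1 • mulS z p.2)) := by
    apply (continuous_wave l).comp
    exact (continuous_rot.comp continuous_fst).smul
      (continuous_mulS.comp (continuous_const.prodMk continuous_snd))
  have hi := integrable_prod_sig hd hG
  rw [← integral_integral_swap (f := fun θ w => wave l (rot θ • mulS z w)) hi]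
  have h1 : ∀ θ : ℝ, ∫ w, wave l (rot θ • mulS z w) ∂(sig d) = (ph l d : ℂ) * wave l (rot θ • z) := by
    intro θ
    rw [← circleMean_eq hd (fun w => wave l (rot θ • w)) z, circleMean_smul, circleMean_wave hd]
  simp_rw [h1]
  rw [integral_const_mul, mul_smul_comm]

/-- superposition of spherical functions -/
noncomputable def HH (q : ℝ → ℂ) (z : ℍ) : ℂ := ∫ ξ : ℝ, q ξ * sph (2 * Real.pi * ξ) z

theorem integrable_HH {q : ℝ → ℂ} (hq : Integrable q) (z : ℍ) :
    Integrable (fun ξ : ℝ => q ξ * sph (2 * Real.pi * ξ) z) := by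
  apply hq.mul_bdd (c := 1)
  · have : Continuous (fun ξ : ℝ => sph (2 * Real.pi * ξ) z) :=
      continuous_sph_comp (a := fun ξ => 2 * Real.pi * ξ) (b := fun _ => z)
        (continuous_const.mul continuous_id) continuous_const
    exact this.aestronglyMeasurable
  · exact Eventually.of_forall fun ξ => norm_sph_le _ _

theorem norm_HH_le {q : ℝ → ℂ} (hq : Integrable q) (z : ℍ) : ‖HH q z‖ ≤ ∫ ξ, ‖q ξ‖ := by
  unfold HH
  refine (norm_integral_le_integral_norm _).trans ?_
  apply integral_mono (integrable_HH hq z).norm hq.norm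
  intro ξ
  simp only
  rw [norm_mul]
  calc ‖q ξ‖ * ‖sph (2 * Real.pi * ξ) z‖ ≤ ‖q ξ‖ * 1 :=
        mul_le_mul_of_nonneg_left (norm_sph_le _ _) (norm_nonneg _)
    _ = _ := mul_one _

theorem continuous_HH {q : ℝ → ℂ} (hq : Integrable q) : Continuous (HH q) := by
  unfold HH
  apply continuous_of_dominated (bound := fun ξ => ‖q ξ‖)
  · intro z
    exact (integrable_HH hq z).aestronglyMeasurable
  · intro z
    refine Eventually.of_forall fun ξ => ?_
    rw [norm_mul]
    calc ‖q ξ‖ * ‖sph (2 * Real.pi * ξ) z‖ ≤ ‖q ξ‖ * 1 :=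
        mul_le_mul_of_nonneg_left (norm_sph_le _ _) (norm_nonneg _)
      _ = _ := mul_one _
  · exact hq.norm
  · refine Eventually.of_forall fun ξ => ?_
    exact continuous_const.mul (continuous_sph _)

theorem continuous_ph {d : ℝ} (hd : 0 < d) : Continuous (fun l => ph l d) := by
  unfold ph
  apply continuous_of_dominated (bound := fun s => kd d s)
  · intro l
    exact (integrable_kd_cos hd l).aestronglyMeasurable
  · intro l
    refine Eventually.of_forall fun s => ?_
    rw [norm_mul, Real.norm_eq_abs, Real.norm_eq_abs, abs_of_nonneg (kd_nonneg d s)]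
    calc kd d s * |Real.cos (l * s)| ≤ kd d s * 1 :=
        mul_le_mul_of_nonneg_left (Real.abs_cos_le_one _) (kd_nonneg d s)
      _ = kd d s := mul_one _
  · exact integrable_kd hd
  · refine Eventually.of_forall fun s => ?_
    fun_prop

theorem circleMean_HH {d : ℝ} (hd : 0 < d) {q : ℝ → ℂ} (hq : Integrable q) (z : ℍ) :
    circleMean d (HH q) z = HH (fun ξ => (ph (2 * Real.pi * ξ) d : ℂ) * q ξ) z := by
  rw [circleMean_eq hd]
  unfold HH
  have hi : Integrable (fun p : ℍ × ℝ => q p.2 * sph (2 * Real.pi * p.2) (mulS z p.1))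
      ((sig d).prod volume) := by
    have h1 : Integrable (fun p : ℍ × ℝ => q p.2) ((sig d).prod volume) := hq.comp_snd _
    apply h1.mul_bdd (c := 1)
    · have : Continuous (fun p : ℍ × ℝ => sph (2 * Real.pi * p.2) (mulS z p.1)) :=
        continuous_sph_comp (a := fun p : ℍ × ℝ => 2 * Real.pi * p.2)
          (b := fun p : ℍ × ℝ => mulS z p.1) (continuous_const.mul continuous_snd)
          (continuous_mulS.comp (continuous_const.prodMk continuous_fst))
      exact this.aestronglyMeasurable
    · exact Eventually.of_forall fun ξ => norm_sph_le _ _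
  rw [integral_integral_swap (f := fun w ξ => q ξ * sph (2 * Real.pi * ξ) (mulS z w)) hi]
  apply integral_congr_ae
  refine Eventually.of_forall fun ξ => ?_
  simp only
  rw [integral_const_mul, ← circleMean_eq hd (sph (2 * Real.pi * ξ)) z, circleMean_sph hd]
  ring

end Pool.Agent.H22.Hy
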