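import Pool.Agent.H22.HyJ

namespace Pool.Agent.H22.Hy

open UpperHalfPlane MeasureTheory Metric Set Filter
open scoped MatrixGroups Topology ENNReal NNReal ComplexInnerProductSpace ComplexConjugate

theorem circleMean_congr_ae {d : ℝ} (hd : 0 < d) {u v : ℍ → ℂ}
    (h : u =ᵐ[(volume : Measure ℍ)] v) : circleMean d u =ᵐ[(volume : Measure ℍ)] circleMean d v := by
  rw [circleMean_lp hd, circleMean_lp hd]
  have h1 := (mp_snd hd).quasiMeasurePreserving.ae_eq_comp h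
  have h2 : ∀ᵐ p ∂(PI d), u p.2 = v p.2 := h1
  unfold PI at h2
  have h3 := ae_of_ae_map measurable_pair.aemeasurable h2
  have h4 := Measure.ae_ae_of_ae_prod h3
  filter_upwards [h4] with z hz
  exact integral_congr_ae hz

/-- an element of the Hilbert space given by a moved superposition of spherical functions -/
def Rep (γ : SL(2, ℝ)) (u : L2) (q : ℝ → ℂ) : Prop :=
  (u : ℍ → ℂ) =ᵐ[(volume : Measure ℍ)] fun z => HH q (γ • z)

/-- the shifted operator -/
noncomputable def Top {d : ℝ} (hd : 0 < d) (κ : ℝ) : L2 →L[ℂ] L2 :=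
  (κ : ℂ) • (1 : L2 →L[ℂ] L2) - Aop hd

theorem Top_apply {d : ℝ} (hd : 0 < d) (κ : ℝ) (u : L2) : Top hd κ u = (κ : ℂ) • u - Aop hd u := by
  rfl

theorem Top_symm {d : ℝ} (hd : 0 < d) (κ : ℝ) (x y : L2) : ⟪Top hd κ x, y⟫ = ⟪x, Top hd κ y⟫ := by
  rw [Top_apply, Top_apply, inner_sub_left, inner_sub_right, inner_smul_left, inner_smul_right,
    inner_Aop_symm]
  simp

theorem HH_sub_smul {q r : ℝ → ℂ} (hq : Integrable q) (hr : Integrable r) (c : ℂ) (z : ℍ) :
    HH (fun ξ => c * q ξ - r ξ) z = c * HH q z - HH r z := by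
  unfold HH
  rw [← integral_const_mul, ← integral_sub ((integrable_HH hq z).const_mul c) (integrable_HH hr z)]
  apply integral_congr_ae
  refine Eventually.of_forall fun ξ => ?_
  simp only
  ring

theorem integrable_mul_ph {d : ℝ} (hd : 0 < d) {q : ℝ → ℂ} (hq : Integrable q) :
    Integrable (fun ξ : ℝ => (ph (2 * Real.pi * ξ) d : ℂ) * q ξ) := by
  have hc : Continuous (fun ξ : ℝ => (ph (2 * Real.pi * ξ) d : ℂ)) := by
    have h1 := (continuous_ph hd).comp (continuous_const.mul continuous_id : Continuous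
      (fun ξ : ℝ => 2 * Real.pi * ξ))
    exact Complex.continuous_ofReal.comp h1
  apply hq.bdd_mul (c := 1) hc.aestronglyMeasurable
  refine Eventually.of_forall fun ξ => ?_
  rw [Complex.norm_real, Real.norm_eq_abs]
  exact (abs_ph_le hd _).trans (ph_zero_le_one hd)

theorem Rep.step {d : ℝ} (hd : 0 < d) (κ : ℝ) {γ : SL(2, ℝ)} {u : L2} {q : ℝ → ℂ}
    (hq : Integrable q) (h : Rep γ u q) :
    Rep γ (Top hd κ u) (fun ξ => ((κ - ph (2 * Real.pi * ξ) d : ℝ) : ℂ) * q ξ) := by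
  unfold Rep at h ⊢
  rw [Top_apply]
  have h1 := Lp.coeFn_sub ((κ : ℂ) • u) (Aop hd u)
  have h2 := Lp.coeFn_smul (κ : ℂ) u
  have h3 := (Aop_ae hd u).trans (circleMean_congr_ae hd h)
  filter_upwards [h, h1, h2, h3] with z h h1 h2 h3
  rw [h1, Pi.sub_apply, h2, Pi.smul_apply, h3, h, circleMean_smul γ d (HH q) z,
    circleMean_HH hd hq, smul_eq_mul, ← HH_sub_smul hq (integrable_mul_ph hd hq)]
  congr 1
  funext ξ
  push_cast
  ring

theorem integrable_pow_ph {d : ℝ} (hd : 0 < d) (κ : ℝ) {q : ℝ → ℂ} (hq : Integrable q) (n : ℕ) :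
    Integrable (fun ξ : ℝ => (((κ - ph (2 * Real.pi * ξ) d) ^ n : ℝ) : ℂ) * q ξ) := by
  induction n with
  | zero => simpa using hq
  | succ n ih =>
    have h1 := (ih.const_mul (κ : ℂ)).sub (integrable_mul_ph hd ih)
    apply h1.congr
    refine Eventually.of_forall fun ξ => ?_
    simp only [Pi.sub_apply]
    push_cast
    ring

theorem Rep.pow {d : ℝ} (hd : 0 < d) (κ : ℝ) {γ : SL(2, ℝ)} {u : L2} {q : ℝ → ℂ}
    (hq : Integrable q) (h : Rep γ u q) (n : ℕ) :
    Rep γ ((Top hd κ ^ n) u) (fun ξ => (((κ - ph (2 * Real.pi * ξ) d) ^ n : ℝ) : ℂ) * q ξ) := by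
  induction n with
  | zero => simpa using h
  | succ n ih =>
    have h1 := Rep.step hd κ (integrable_pow_ph hd κ hq n) ih
    have e1 : (Top hd κ ^ (n + 1)) u = Top hd κ ((Top hd κ ^ n) u) := by rw [pow_succ']; rfl
    rw [e1]
    convert h1 using 1
    funext ξ
    push_cast
    ring

theorem power_bound {d : ℝ} (hd : 0 < d) {κ ρ : ℝ} (hρ : ∀ l, |κ - ph l d| ≤ ρ)
    {γ : SL(2, ℝ)} {u : L2} {q : ℝ → ℂ} (hq : Integrable q) (h : Rep γ u q)
    (hu : Integrable (u : ℍ → ℂ)) : u ∈ growth (Top hd κ) ρ := by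
  have hρ0 : 0 ≤ ρ := (abs_nonneg _).trans (hρ 0)
  set D : ℝ := (∫ z, ‖u z‖) * ∫ ξ, ‖q ξ‖ with hD
  have hD0 : 0 ≤ D := mul_nonneg (integral_nonneg fun _ => norm_nonneg _)
    (integral_nonneg fun _ => norm_nonneg _)
  refine ⟨Real.sqrt D, fun N => ?_⟩
  set T := Top hd κ with hT
  have hpow : ∀ (n : ℕ) (x y : L2), ⟪(T ^ n) x, y⟫ = ⟪x, (T ^ n) y⟫ := by
    intro n
    induction n with
    | zero => intro x y; simp
    | succ n ih =>
      intro x y
      have e1 : (T ^ (n + 1)) x = T ((T ^ n) x) := by rw [pow_succ']; rfl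
      have e2 : (T ^ (n + 1)) y = (T ^ n) (T y) := by rw [pow_succ]; rfl
      rw [e1, e2, Top_symm, ih]
  have h1 : ‖(T ^ N) u‖ ^ 2 = ‖⟪u, (T ^ (2 * N)) u⟫‖ := by
    have e1 : (T ^ (2 * N)) u = (T ^ N) ((T ^ N) u) := by rw [two_mul, pow_add]; rfl
    rw [e1, ← hpow, inner_self_eq_norm_sq_to_K]
    simp
  have h2 := Rep.pow hd κ hq h (2 * N)
  have h3 : ∀ᵐ z ∂(volume : Measure ℍ), ‖((T ^ (2 * N)) u : ℍ → ℂ) z‖ ≤ ρ ^ (2 * N) * ∫ ξ, ‖q ξ‖ := by
    unfold Rep at h2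
    filter_upwards [h2] with z hz
    rw [hz]
    refine (norm_HH_le (integrable_pow_ph hd κ hq (2 * N)) _).trans ?_
    rw [← integral_const_mul]
    apply integral_mono (integrable_pow_ph hd κ hq (2 * N)).norm (hq.norm.const_mul _)
    intro ξ
    simp only
    rw [norm_mul, Complex.norm_real, norm_pow, Real.norm_eq_abs]
    exact mul_le_mul_of_nonneg_right (pow_le_pow_left₀ (abs_nonneg _) (hρ _) _) (norm_nonneg _)
  have h4 : ‖⟪u, (T ^ (2 * N)) u⟫‖ ≤ D * ρ ^ (2 * N) := by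
    rw [L2.inner_def]
    refine (norm_integral_le_integral_norm _).trans ?_
    have h5 : ∫ z, ‖⟪u z, ((T ^ (2 * N)) u : ℍ → ℂ) z⟫‖ ≤
        ∫ z, ‖u z‖ * (ρ ^ (2 * N) * ∫ ξ, ‖q ξ‖) := by
      apply integral_mono_of_nonneg (Eventually.of_forall fun _ => norm_nonneg _)
        (hu.norm.mul_const _)
      filter_upwards [h3] with z hz
      refine (norm_inner_le_norm _ _).trans ?_
      exact mul_le_mul_of_nonneg_left hz (norm_nonneg _)
    refine h5.trans ?_
    rw [integral_mul_const, hD]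
    apply le_of_eq
    ring
  rw [← h1] at h4
  have h5 : (Real.sqrt D * ρ ^ N) ^ 2 = D * ρ ^ (2 * N) := by
    rw [mul_pow, Real.sq_sqrt hD0]
    ring
  rw [← h5] at h4
  exact le_of_sq_le_sq h4 (by positivity)

end Pool.Agent.H22.Hy
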