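import Mathlib

namespace Pool.Agent.H22.Hy

open MeasureTheory Set Filter
open scoped Topology FourierTransform

theorem norm_fourier_le' (g : ℝ → ℂ) (x : ℝ) : ‖𝓕 g x‖ ≤ ∫ v, ‖g v‖ := by
  rw [Real.fourier_real_eq]
  refine (norm_integral_le_integral_norm _).trans (le_of_eq ?_)
  simp_rw [Circle.norm_smul]

theorem fourier_integrable {g : ℝ → ℂ} (h0 : Integrable g) (h0d : Differentiable ℝ g)
    (h1 : Integrable (deriv g)) (h1d : Differentiable ℝ (deriv g))
    (h2 : Integrable (deriv (deriv g))) : Integrable (𝓕 g) := by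
  have e1 := Real.fourier_deriv h0 h0d h1
  have e2 := Real.fourier_deriv h1 h1d h2
  set A : ℝ := ∫ v, ‖g v‖
  set B : ℝ := ∫ v, ‖deriv (deriv g) v‖
  have hB : 0 ≤ B := integral_nonneg fun _ => norm_nonneg _
  have hbound : ∀ x : ℝ, ‖𝓕 g x‖ ≤ (A + B) * (1 + x ^ 2)⁻¹ := by
    intro x
    have f1 : ‖𝓕 g x‖ ≤ A := norm_fourier_le' g x
    have f2 : ‖𝓕 (deriv (deriv g)) x‖ ≤ B := norm_fourier_le' _ x
    rw [e2, e1] at f2
    simp only [norm_smul, norm_mul, Complex.norm_real, Complex.norm_I, mul_one, Real.norm_eq_abs,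
      Complex.norm_ofNat] at f2
    have hpi := Real.pi_gt_three
    rw [abs_of_pos Real.pi_pos] at f2
    have f3 : x ^ 2 * ‖𝓕 g x‖ ≤ B := by
      have f4 : x ^ 2 = |x| * |x| := by rw [← sq, sq_abs]
      have f5 : 0 ≤ |x| * |x| * ‖𝓕 g x‖ := by positivity
      rw [f4]
      have f6 : 2 * Real.pi * |x| * (2 * Real.pi * |x| * ‖𝓕 g x‖) =
        (2 * Real.pi) ^ 2 * (|x| * |x| * ‖𝓕 g x‖) := by ring
      rw [f6] at f2
      have f7 : (1 : ℝ) ≤ (2 * Real.pi) ^ 2 := by nlinarith
      calc |x| * |x| * ‖𝓕 g x‖ = 1 * (|x| * |x| * ‖𝓕 g x‖) := (one_mul _).symm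
        _ ≤ (2 * Real.pi) ^ 2 * (|x| * |x| * ‖𝓕 g x‖) := mul_le_mul_of_nonneg_right f7 f5
        _ ≤ B := f2
    rw [← div_eq_mul_inv, le_div_iff₀ (by positivity)]
    nlinarith
  have hcont : Continuous (𝓕 g) := by
    exact VectorFourier.fourierIntegral_continuous Real.continuous_fourierChar
      (innerSL ℝ).continuous₂ h0
  apply Integrable.mono' (integrable_inv_one_add_sq.const_mul (A + B)) hcont.aestronglyMeasurable
  exact Eventually.of_forall hbound

/-- building blocks -/
noncomputable def bb (c : ℝ) (m : ℤ) (k : ℕ) (s : ℝ) : ℝ :=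
  Real.exp (m * s / 2) * ((Real.cosh s + c) ^ k)⁻¹

/-- a class of rapidly decaying functions closed under differentiation -/
inductive Nice (c : ℝ) : (ℝ → ℝ) → Prop
  | base (m : ℤ) (k : ℕ) (h : |m| < 2 * (k : ℤ)) : Nice c (bb c m k)
  | add {f g : ℝ → ℝ} (hf : Nice c f) (hg : Nice c g) : Nice c (fun s => f s + g s)
  | smul (a : ℝ) {f : ℝ → ℝ} (hf : Nice c f) : Nice c (fun s => a * f s)

theorem cosh_add_pos {c : ℝ} (hc : -1 < c) (s : ℝ) : 0 < Real.cosh s + c := by
  have := Real.one_le_cosh s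
  linarith

theorem bb_hasDerivAt {c : ℝ} (hc : -1 < c) (m : ℤ) (k : ℕ) (s : ℝ) :
    HasDerivAt (bb c m k) ((m / 2 : ℝ) * bb c m k s +
      ((-(k : ℝ) / 2) * bb c (m + 2) (k + 1) s + ((k : ℝ) / 2) * bb c (m - 2) (k + 1) s)) s := by
  have hD := cosh_add_pos hc s
  have h1 : HasDerivAt (fun s : ℝ => Real.exp (m * s / 2)) (Real.exp (m * s / 2) * (m / 2)) s := by
    have : HasDerivAt (fun s : ℝ => (m : ℝ) * s / 2) (m / 2) s := by
      have := ((hasDerivAt_id s).const_mul (m : ℝ)).div_const 2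
      simpa using this
    exact this.exp
  have h2 : HasDerivAt (fun s : ℝ => (Real.cosh s + c)) (Real.sinh s) s :=
    (Real.hasDerivAt_cosh s).add_const c
  have h3 := (h2.pow k).inv (pow_pos hD k).ne'
  have h4 := h1.mul h3
  unfold bb
  refine h4.congr_deriv ?_
  have e1 : Real.exp ((m + 2 : ℤ) * s / 2) = Real.exp (m * s / 2) * Real.exp s := by
    rw [← Real.exp_add]; congr 1; push_cast; ring
  have e2 : Real.exp ((m - 2 : ℤ) * s / 2) = Real.exp (m * s / 2) * Real.exp (-s) := by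
    rw [← Real.exp_add]; congr 1; push_cast; ring
  rw [e1, e2]
  have e3 : Real.sinh s = (Real.exp s - Real.exp (-s)) / 2 := Real.sinh_eq s
  rw [e3]
  rcases k with _ | k
  · simp
    ring
  · simp only [Nat.add_sub_cancel, Pi.pow_apply, Pi.inv_apply]
    generalize Real.exp (m * s / 2) = E
    generalize Real.exp s = P
    generalize Real.exp (-s) = Q
    have hne := hD.ne'
    set D := Real.cosh s + c
    push_cast
    field_simp
    ring

theorem Nice.hasDeriv {c : ℝ} (hc : -1 < c) {f : ℝ → ℝ} (hf : Nice c f) :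
    ∃ f' : ℝ → ℝ, Nice c f' ∧ ∀ s, HasDerivAt f (f' s) s := by
  induction hf with
  | base m k h =>
    refine ⟨_, ?_, fun s => bb_hasDerivAt hc m k s⟩
    refine Nice.add (Nice.smul _ (Nice.base m k h))
      (Nice.add (Nice.smul _ (Nice.base (m + 2) (k + 1) ?_))
        (Nice.smul _ (Nice.base (m - 2) (k + 1) ?_)))
    · rw [abs_lt] at h ⊢
      push_cast
      constructor <;> linarith [h.1, h.2]
    · rw [abs_lt] at h ⊢
      push_cast
      constructor <;> linarith [h.1, h.2]
  | add hf hg ihf ihg =>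
    obtain ⟨f', hf', hf2⟩ := ihf
    obtain ⟨g', hg', hg2⟩ := ihg
    exact ⟨_, Nice.add hf' hg', fun s => (hf2 s).add (hg2 s)⟩
  | smul a hf ihf =>
    obtain ⟨f', hf', hf2⟩ := ihf
    exact ⟨_, Nice.smul a hf', fun s => (hf2 s).const_mul a⟩

theorem integrable_exp_neg_abs : Integrable (fun s : ℝ => Real.exp (-(|s| / 2))) := by
  rw [← integrableOn_univ, ← Iic_union_Ioi (a := (0 : ℝ)), integrableOn_union]
  constructor
  · have h := integrableOn_exp_mul_Iic (a := (1 / 2 : ℝ)) (by norm_num) 0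
    apply h.congr_fun _ measurableSet_Iic
    intro s hs
    simp only
    rw [abs_of_nonpos (by exact hs)]
    congr 1
    ring
  · have h := integrableOn_exp_mul_Ioi (a := (-(1 / 2) : ℝ)) (by norm_num) 0
    apply h.congr_fun _ measurableSet_Ioi
    intro s hs
    simp only
    rw [abs_of_pos (by exact hs)]
    congr 1
    ring

theorem bb_bound {c : ℝ} (hc : -1 < c) (hc' : c < 0) (m : ℤ) (k : ℕ) (h : |m| < 2 * (k : ℤ)) (s : ℝ) :
    |bb c m k s| ≤ (2 / (1 + c)) ^ k * Real.exp (-(|s| / 2)) := by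
  have hD := cosh_add_pos hc s
  have hD2 : (1 + c) / 2 * Real.exp |s| ≤ Real.cosh s + c := by
    have h1 := Real.one_le_cosh s
    have h2 : Real.exp |s| / 2 ≤ Real.cosh s := by
      rw [← Real.cosh_abs, Real.cosh_eq]
      have := Real.exp_pos (-|s|)
      linarith
    nlinarith
  have hE := Real.exp_pos |s|
  have hb : 0 < bb c m k s := by unfold bb; positivity
  rw [abs_of_pos hb]
  unfold bb
  have h3 : ((Real.cosh s + c) ^ k)⁻¹ ≤ (((1 + c) / 2 * Real.exp |s|) ^ k)⁻¹ := by
    apply inv_anti₀ (by have : 0 < 1 + c := by linarith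
                        positivity)
    exact pow_le_pow_left₀ (by have : 0 < 1 + c := by linarith
                               positivity) hD2 k
  have h4 : Real.exp (m * s / 2) ≤ Real.exp ((2 * k - 1) * |s| / 2) := by
    apply Real.exp_le_exp.mpr
    have h5 : (m : ℝ) * s ≤ |(m : ℝ)| * |s| := by
      rw [← abs_mul]; exact le_abs_self _
    have h6 : |(m : ℝ)| ≤ 2 * k - 1 := by
      have : |m| ≤ 2 * (k : ℤ) - 1 := by omega
      exact_mod_cast this
    have h7 : |(m : ℝ)| * |s| ≤ (2 * k - 1) * |s| := mul_le_mul_of_nonneg_right h6 (abs_nonneg _)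
    linarith
  calc Real.exp (m * s / 2) * ((Real.cosh s + c) ^ k)⁻¹
      ≤ Real.exp ((2 * k - 1) * |s| / 2) * (((1 + c) / 2 * Real.exp |s|) ^ k)⁻¹ := by
        apply mul_le_mul h4 h3 (by positivity) (by positivity)
    _ = (2 / (1 + c)) ^ k * Real.exp (-(|s| / 2)) := by
        rw [mul_pow, mul_inv, ← Real.exp_nat_mul, ← Real.exp_neg, ← inv_pow, inv_div]
        have : Real.exp ((2 * k - 1) * |s| / 2) * ((2 / (1 + c)) ^ k * Real.exp (-(k * |s|))) =
            (2 / (1 + c)) ^ k * (Real.exp ((2 * k - 1) * |s| / 2) * Real.exp (-(k * |s|))) := by ring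
        rw [this, ← Real.exp_add]
        congr 2
        ring

theorem Nice.continuous {c : ℝ} (hc : -1 < c) {f : ℝ → ℝ} (hf : Nice c f) : Continuous f := by
  obtain ⟨f', -, h⟩ := hf.hasDeriv hc
  exact (show Differentiable ℝ f from fun s => (h s).differentiableAt).continuous

theorem Nice.integrable {c : ℝ} (hc : -1 < c) (hc' : c < 0) {f : ℝ → ℝ} (hf : Nice c f) :
    Integrable f := by
  induction hf with
  | base m k h =>
    apply Integrable.mono' (integrable_exp_neg_abs.const_mul ((2 / (1 + c)) ^ k))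
      (Nice.continuous hc (Nice.base m k h)).aestronglyMeasurable
    exact Eventually.of_forall fun s => bb_bound hc hc' m k h s
  | add hf hg ihf ihg => exact ihf.add ihg
  | smul a hf ihf => exact ihf.const_mul a

/-- nice functions are Fourier inverses of integrable functions -/
theorem Nice.fourier {c : ℝ} (hc : -1 < c) (hc' : c < 0) {f : ℝ → ℝ} (hf : Nice c f) :
    ∃ q : ℝ → ℂ, Integrable q ∧ ∀ s : ℝ,
      (f s : ℂ) = ∫ ξ : ℝ, Complex.exp (Complex.I * ((2 * Real.pi * ξ) * s : ℝ)) * q ξ := by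
  obtain ⟨f1, hf1, hd1⟩ := hf.hasDeriv hc
  obtain ⟨f2, hf2, hd2⟩ := hf1.hasDeriv hc
  set g : ℝ → ℂ := fun s => (f s : ℂ) with hg
  have e1 : deriv g = fun s => (f1 s : ℂ) := by
    funext s
    exact (hd1 s).ofReal_comp.deriv
  have e2 : deriv (deriv g) = fun s => (f2 s : ℂ) := by
    rw [e1]
    funext s
    exact (hd2 s).ofReal_comp.deriv
  have d0 : Differentiable ℝ g := fun s => (hd1 s).ofReal_comp.differentiableAt
  have d1 : Differentiable ℝ (deriv g) := by
    rw [e1]
    exact fun s => (hd2 s).ofReal_comp.differentiableAt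
  have i0 : Integrable g := (hf.integrable hc hc').ofReal
  have i1 : Integrable (deriv g) := by rw [e1]; exact (hf1.integrable hc hc').ofReal
  have i2 : Integrable (deriv (deriv g)) := by rw [e2]; exact (hf2.integrable hc hc').ofReal
  have hq := fourier_integrable i0 d0 i1 d1 i2
  refine ⟨𝓕 g, hq, fun s => ?_⟩
  have hinv := i0.fourierInv_fourier_eq hq (v := s) d0.continuous.continuousAt
  have hgs : (f s : ℂ) = g s := rfl
  rw [hgs, ← hinv, Real.fourierInv_eq']
  apply integral_congr_ae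
  refine Eventually.of_forall fun ξ => ?_
  simp only [smul_eq_mul]
  congr 2
  simp
  ring

end Pool.Agent.H22.Hy
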