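import Pool.Agent.H22.HyK
import Pool.Agent.H22.HyL

namespace Pool.Agent.H22.Hy

open UpperHalfPlane MeasureTheory Metric Set Filter
open scoped MatrixGroups Topology ENNReal NNReal ComplexInnerProductSpace ComplexConjugate

/-- the explicit profile -/
noncomputable def gc (c s : ℝ) : ℝ :=
  Real.cosh (s / 2) * (2 + c - Real.cosh s) / (2 * (Real.cosh s + c) ^ 2)

theorem gc_nice {c : ℝ} (hc : -1 < c) : Nice c (gc c) := by
  have h : gc c = fun s => (((2 + c) / 4 - 1 / 8) * bb c 1 2 s + ((2 + c) / 4 - 1 / 8) * bb c (-1) 2 s)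
      + ((-1 / 8) * bb c 3 2 s + (-1 / 8) * bb c (-3) 2 s) := by
    funext s
    unfold gc bb
    have hD := cosh_add_pos hc s
    rw [Real.cosh_eq (s / 2)]
    have e1 : Real.exp (((1 : ℤ) : ℝ) * s / 2) = Real.exp (s / 2) := by congr 1; push_cast; ring
    have e2 : Real.exp (((-1 : ℤ) : ℝ) * s / 2) = Real.exp (-(s / 2)) := by
      congr 1; push_cast; ring
    have e3 : Real.exp (((3 : ℤ) : ℝ) * s / 2) = Real.exp (s / 2) ^ 3 := by
      rw [← Real.exp_nat_mul]; congr 1; push_cast; ring
    have e4 : Real.exp (((-3 : ℤ) : ℝ) * s / 2) = Real.exp (-(s / 2)) ^ 3 := by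
      rw [← Real.exp_nat_mul]; congr 1; push_cast; ring
    have e5 : Real.cosh s = (Real.exp (s / 2) ^ 2 + Real.exp (-(s / 2)) ^ 2) / 2 := by
      rw [Real.cosh_eq, ← Real.exp_nat_mul, ← Real.exp_nat_mul]
      congr 2
      · congr 1; push_cast; ring
      · congr 1; push_cast; ring
    have e6 : Real.exp (s / 2) * Real.exp (-(s / 2)) = 1 := by
      rw [← Real.exp_add]; simp
    rw [e1, e2, e3, e4]
    set D := Real.cosh s + c with hDdef
    have hnum : 2 + c - Real.cosh s = 2 + c - (Real.exp (s / 2) ^ 2 + Real.exp (-(s / 2)) ^ 2) / 2 := by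
      rw [e5]
    rw [hnum]
    generalize Real.exp (s / 2) = P at *
    generalize Real.exp (-(s / 2)) = Q at *
    field_simp
    linear_combination (-32 * (P + Q)) * e6
  rw [h]
  refine Nice.add (Nice.add (Nice.smul _ (Nice.base 1 2 (by norm_num)))
    (Nice.smul _ (Nice.base (-1) 2 (by norm_num))))
    (Nice.add (Nice.smul _ (Nice.base 3 2 (by norm_num)))
    (Nice.smul _ (Nice.base (-3) 2 (by norm_num))))

theorem cosh_eq_half (s : ℝ) : Real.cosh s = 1 + 2 * Real.sinh (s / 2) ^ 2 := by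
  have h4 := Real.cosh_two_mul (s / 2)
  have h5 := Real.cosh_sq (s / 2)
  rw [show 2 * (s / 2) = s by ring] at h4
  rw [h4, h5]; ring

theorem sinh_eq_half (s : ℝ) : Real.sinh s = 2 * Real.sinh (s / 2) * Real.cosh (s / 2) := by
  have h4 := Real.sinh_two_mul (s / 2)
  rwa [show 2 * (s / 2) = s by ring] at h4

theorem XX_sq {r s : ℝ} (h : |s| ≤ |r|) :
    XX r s ^ 2 = 4 * (Real.sinh (r / 2) ^ 2 - Real.sinh (s / 2) ^ 2) := by
  unfold XX
  have h1 : Real.cosh s ≤ Real.cosh r := Real.cosh_le_cosh.mpr h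
  rw [Real.sq_sqrt (by linarith), cosh_eq_half r, cosh_eq_half s]
  ring

theorem XX_hasDerivAt {r s : ℝ} (h : |s| < |r|) :
    HasDerivAt (XX r) (-Real.sinh s / XX r s) s := by
  have h1 : Real.cosh s < Real.cosh r := Real.cosh_lt_cosh.mpr h
  have h2 : HasDerivAt (fun s => 2 * (Real.cosh r - Real.cosh s)) (2 * (-Real.sinh s)) s :=
    ((Real.hasDerivAt_cosh s).const_sub _).const_mul 2
  have h3 := h2.sqrt (by linarith : (2 * (Real.cosh r - Real.cosh s)) ≠ 0)
  have h4 : HasDerivAt (XX r) (2 * (-Real.sinh s) / (2 * √(2 * (Real.cosh r - Real.cosh s)))) s := h3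
  refine h4.congr_deriv ?_
  have h5 : √(2 * (Real.cosh r - Real.cosh s)) = XX r s := rfl
  rw [h5, mul_div_mul_left _ _ two_ne_zero]

/-- antiderivative -/
noncomputable def TH (c r s : ℝ) : ℝ :=
  √(1 + c) / (√(Real.cosh r + c) ^ 3) *
    Real.arcsin (√(Real.cosh r + c) * Real.sinh (s / 2) / (Real.sinh (r / 2) * √(Real.cosh s + c)))
  + Real.sinh (s / 2) * XX r s / ((Real.cosh r + c) * (Real.cosh s + c))

theorem TH_hasDerivAt {c r s : ℝ} (hc : -1 < c) (hr : 0 < r) (h : |s| < r) :
    HasDerivAt (TH c r) (2 * gc c s / XX r s) s := by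
  have hs' : |s| < |r| := by rwa [abs_of_pos hr]
  have hX : 0 < XX r s := XX_pos hs'
  have hXd := XX_hasDerivAt hs'
  have hXs := XX_sq hs'.le
  have hD := cosh_add_pos hc s
  have hW := cosh_add_pos hc r
  have ha : 0 < 1 + c := by linarith
  have hU : 0 < Real.sinh (r / 2) := Real.sinh_pos_iff.mpr (by linarith)
  set U := Real.sinh (r / 2) with hUd
  set W := Real.cosh r + c with hWd
  have hWU : W = (1 + c) + 2 * U ^ 2 := by rw [hWd, cosh_eq_half r]; ring
  have hDU : Real.cosh s + c = (1 + c) + 2 * Real.sinh (s / 2) ^ 2 := by rw [cosh_eq_half s]; ring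
  have hu' : HasDerivAt (fun s : ℝ => Real.sinh (s / 2)) (Real.cosh (s / 2) / 2) s := by
    have : HasDerivAt (fun s : ℝ => s / 2) (1 / 2) s := (hasDerivAt_id s).div_const 2
    have h2 := this.sinh
    refine h2.congr_deriv ?_
    ring
  have hD' : HasDerivAt (fun s : ℝ => Real.cosh s + c) (Real.sinh s) s :=
    (Real.hasDerivAt_cosh s).add_const c
  have hδ' := hD'.sqrt hD.ne'
  set δ := √(Real.cosh s + c) with hδd
  have hδ : 0 < δ := Real.sqrt_pos.mpr hD
  have hδ2 : δ ^ 2 = Real.cosh s + c := Real.sq_sqrt hD.le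
  set w := √W with hwd
  have hw : 0 < w := Real.sqrt_pos.mpr hW
  have hw2 : w ^ 2 = W := Real.sq_sqrt hW.le
  set α := √(1 + c) with hαd
  have hα : 0 < α := Real.sqrt_pos.mpr ha
  have hα2 : α ^ 2 = 1 + c := Real.sq_sqrt ha.le
  set u := Real.sinh (s / 2) with hud
  set C := Real.cosh (s / 2) with hCd
  have hsinh : Real.sinh s = 2 * u * C := sinh_eq_half s
  -- the argument of arcsin
  have hx' : HasDerivAt (fun s : ℝ => w * Real.sinh (s / 2) / (U * √(Real.cosh s + c)))
      (w * C * (1 + c) / (2 * U * δ ^ 3)) s := by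
    have h1 := (hu'.const_mul w).div (hδ'.const_mul U) (by positivity)
    refine h1.congr_deriv ?_
    rw [← hδd, hsinh, ← hud]
    have h2 : δ ^ 2 - 2 * u ^ 2 = 1 + c := by rw [hδ2, hDU]; ring
    rw [← h2]
    field_simp
  have hx2 : 1 - (w * u / (U * δ)) ^ 2 = (α * XX r s / (2 * U * δ)) ^ 2 := by
    rw [div_pow, div_pow, mul_pow, mul_pow, mul_pow, mul_pow, mul_pow, hw2, hδ2, hα2, hXs, hWU, hDU]
    have : (1 + c) + 2 * u ^ 2 ≠ 0 := by positivity
    field_simp
    ring
  have hpos : 0 < α * XX r s / (2 * U * δ) := by positivity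
  have hlt : (w * u / (U * δ)) ^ 2 < 1 := by
    have := sq_pos_of_pos hpos
    linarith
  have hne1 : w * u / (U * δ) ≠ -1 := by
    intro h0; rw [h0] at hlt; norm_num at hlt
  have hne2 : w * u / (U * δ) ≠ 1 := by
    intro h0; rw [h0] at hlt; norm_num at hlt
  have harc := (Real.hasDerivAt_arcsin hne1 hne2).comp s hx'
  rw [hx2, Real.sqrt_sq hpos.le] at harc
  have h5 := harc.const_mul (α / w ^ 3)
  have h6 := (hu'.mul hXd).div (hD'.const_mul W) (by positivity)
  have h7 := h5.add h6
  have h8 : HasDerivAt (TH c r) _ s := h7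
  refine h8.congr_deriv ?_
  simp only [Pi.mul_apply]
  rw [hsinh]
  unfold gc
  rw [← hud, ← hCd]
  have t1 : α / w ^ 3 * (1 / (α * XX r s / (2 * U * δ)) * (w * C * (1 + c) / (2 * U * δ ^ 3)))
      = C * (1 + c) / (w ^ 2 * XX r s * δ ^ 2) := by field_simp
  rw [t1, hw2, hδ2]
  have hcs : Real.cosh s = 1 + 2 * u ^ 2 := cosh_eq_half s
  have key : (1 + c) * (Real.cosh s + c) + (XX r s ^ 2 / 2 - 2 * u ^ 2) * (Real.cosh s + c)
      - 2 * u ^ 2 * XX r s ^ 2 = (2 + c - Real.cosh s) * W := by
    rw [hXs, hWU, hcs]; ring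
  set D := Real.cosh s + c with hDd
  set X := XX r s with hXd'
  calc C * (1 + c) / (W * X * D) +
      ((C / 2 * X + u * (-(2 * u * C) / X)) * (W * D) - u * X * (W * (2 * u * C))) / (W * D) ^ 2
      = C * ((1 + c) * D + (X ^ 2 / 2 - 2 * u ^ 2) * D - 2 * u ^ 2 * X ^ 2) / (W * D ^ 2 * X) := by
        field_simp
        ring
    _ = C * ((2 + c - Real.cosh s) * W) / (W * D ^ 2 * X) := by rw [key]
    _ = 2 * (C * (2 + c - Real.cosh s) / (2 * D ^ 2)) / X := by field_simp

theorem continuous_TH {c r : ℝ} (hc : -1 < c) (hr : 0 < r) : Continuous (TH c r) := by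
  unfold TH
  have h1 : Continuous (fun s : ℝ => Real.sinh (s / 2)) := by fun_prop
  have h2 : Continuous (fun s : ℝ => Real.cosh s + c) := by fun_prop
  have hX := continuous_XX r
  have hU : 0 < Real.sinh (r / 2) := Real.sinh_pos_iff.mpr (by linarith)
  have hW := cosh_add_pos hc r
  apply Continuous.add
  · apply Continuous.mul continuous_const
    apply Real.continuous_arcsin.comp
    apply Continuous.div (continuous_const.mul h1) (continuous_const.mul h2.sqrt)
    intro s
    have := Real.sqrt_pos.mpr (cosh_add_pos hc s)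
    exact (mul_pos hU this).ne'
  · apply Continuous.div (h1.mul hX) (continuous_const.mul h2)
    intro s
    have := cosh_add_pos hc s
    exact (mul_pos hW this).ne'

theorem TH_endpoints {c r : ℝ} (hc : -1 < c) (hr : 0 < r) :
    TH c r r - TH c r (-r) = √(1 + c) / (√(Real.cosh r + c) ^ 3) * Real.pi := by
  have hU : 0 < Real.sinh (r / 2) := Real.sinh_pos_iff.mpr (by linarith)
  have hW := cosh_add_pos hc r
  have hX0 : XX r r = 0 := XX_eq_zero le_rfl
  have hX1 : XX r (-r) = 0 := by rw [XX_neg, hX0]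
  have hw := Real.sqrt_pos.mpr hW
  unfold TH
  rw [hX0, hX1, Real.cosh_neg, neg_div, Real.sinh_neg]
  have e1 : √(Real.cosh r + c) * Real.sinh (r / 2) / (Real.sinh (r / 2) * √(Real.cosh r + c)) = 1 := by
    field_simp
  have e2 : √(Real.cosh r + c) * -Real.sinh (r / 2) / (Real.sinh (r / 2) * √(Real.cosh r + c)) = -1 := by
    field_simp
  rw [e1, e2, Real.arcsin_one, Real.arcsin_neg, Real.arcsin_one]
  ring

theorem continuous_gc {c : ℝ} (hc : -1 < c) : Continuous (gc c) := (gc_nice hc).continuous hc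

theorem integral_kd_gc {c r : ℝ} (hc : -1 < c) (hr : 0 < r) :
    ∫ s, kd r s * gc c s = √(1 + c) / (2 * √(Real.cosh r + c) ^ 3) := by
  have hint : Integrable (fun s => kd r s * gc c s) := by
    have := integrable_kd_smul hr (continuous_gc hc)
    simpa using this
  have h1 : ∫ s, kd r s * gc c s = ∫ s in (-r)..r, kd r s * gc c s := by
    rw [intervalIntegral.integral_of_le (by linarith)]
    symm
    apply setIntegral_eq_integral_of_forall_compl_eq_zero
    intro s hs
    rw [kd_eq_zero, zero_mul]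
    rw [abs_of_pos hr]
    by_contra hcon
    push Not at hcon
    have := abs_lt.mp hcon
    exact hs ⟨this.1, this.2.le⟩
  have h2 : ∫ s in (-r)..r, (2 * gc c s / XX r s) = TH c r r - TH c r (-r) := by
    apply intervalIntegral.integral_eq_sub_of_hasDerivAt_of_le (by linarith)
      (continuous_TH hc hr).continuousOn
    · intro s hs
      exact TH_hasDerivAt hc hr (abs_lt.mpr hs)
    · apply Integrable.intervalIntegrable
      have := hint.const_mul (2 * Real.pi)
      apply this.congr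
      refine Eventually.of_forall fun s => ?_
      simp only
      unfold kd
      have := Real.pi_pos
      field_simp
  have h3 : ∫ s in (-r)..r, kd r s * gc c s = (1 / (2 * Real.pi)) * ∫ s in (-r)..r, (2 * gc c s / XX r s) := by
    rw [← intervalIntegral.integral_const_mul]
    apply intervalIntegral.integral_congr
    intro s _
    simp only
    unfold kd
    have := Real.pi_pos
    field_simp
  have hw := Real.sqrt_pos.mpr (cosh_add_pos hc r)
  have := Real.pi_pos
  rw [h1, h3, h2, TH_endpoints hc hr]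
  field_simp

end Pool.Agent.H22.Hy
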