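import Pool.Agent.H22.HyM

namespace Pool.Agent.H22.Hy

open UpperHalfPlane MeasureTheory Metric Set Filter
open scoped MatrixGroups Topology ENNReal NNReal ComplexInnerProductSpace ComplexConjugate

/-- the explicit radial functions -/
noncomputable def ec (c : ℝ) (z : ℍ) : ℝ := (√(Real.cosh (dist z I) + c) ^ 3)⁻¹

theorem integral_kd_exp {d : ℝ} (hd : 0 < d) (l : ℝ) :
    ∫ s, kd d s • Complex.exp (Complex.I * (l * s : ℝ)) = (ph l d : ℂ) := by
  have hg : Continuous (fun s : ℝ => Complex.exp (Complex.I * (l * s : ℝ))) := by fun_prop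
  exact (integral_sig_horo hd hg).symm.trans (integral_wave hd l)

theorem HH_eq_integral {r : ℝ} (hr : 0 < r) {z : ℍ} (hz : dist z I = r) {q : ℝ → ℂ}
    (hq : Integrable q) :
    HH q z = ∫ s, kd r s • ∫ ξ : ℝ, Complex.exp (Complex.I * ((2 * Real.pi * ξ) * s : ℝ)) * q ξ := by
  unfold HH
  simp_rw [sph_eq_ph hr _ z hz, ← integral_kd_exp hr]
  have hi : Integrable (fun p : ℝ × ℝ => kd r p.2 •
      (Complex.exp (Complex.I * ((2 * Real.pi * p.1) * p.2 : ℝ)) * q p.1)) (volume.prod volume) := by
    have h1 : Integrable (fun p : ℝ × ℝ => q p.1 * ((kd r p.2 : ℝ) : ℂ)) (volume.prod volume) :=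
      hq.mul_prod (integrable_kd hr).ofReal
    have h2 : Continuous (fun p : ℝ × ℝ =>
        Complex.exp (Complex.I * ((2 * Real.pi * p.1) * p.2 : ℝ))) := by fun_prop
    have h3 := h1.bdd_mul (c := 1) h2.aestronglyMeasurable (Eventually.of_forall fun p => by
      rw [mul_comm, Complex.norm_exp_ofReal_mul_I])
    apply h3.congr
    refine Eventually.of_forall fun p => ?_
    simp only [Complex.real_smul]
    ring
  have h4 := integral_integral_swap (f := fun ξ s => kd r s •
      (Complex.exp (Complex.I * ((2 * Real.pi * ξ) * s : ℝ)) * q ξ)) hi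
  calc ∫ ξ : ℝ, q ξ * ∫ s : ℝ, kd r s • Complex.exp (Complex.I * ((2 * Real.pi * ξ) * s : ℝ))
      = ∫ ξ : ℝ, ∫ s : ℝ, kd r s • (Complex.exp (Complex.I * ((2 * Real.pi * ξ) * s : ℝ)) * q ξ) := by
        apply integral_congr_ae
        refine Eventually.of_forall fun ξ => ?_
        simp only
        rw [← integral_const_mul]
        apply integral_congr_ae
        refine Eventually.of_forall fun s => ?_
        simp only [Complex.real_smul]
        ring
    _ = _ := by
        rw [h4]
        apply integral_congr_ae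
        refine Eventually.of_forall fun s => ?_
        simp only
        rw [integral_smul]

theorem ec_rep {c : ℝ} (hc : -1 < c) (hc' : c < 0) :
    ∃ q : ℝ → ℂ, Integrable q ∧ ∀ z : ℍ, (ec c z : ℂ) = HH q z := by
  obtain ⟨q, hq, hg⟩ := (gc_nice hc).fourier hc hc'
  have ha : 0 < 1 + c := by linarith
  have hsa : 0 < √(1 + c) := Real.sqrt_pos.mpr ha
  refine ⟨fun ξ => ((2 / √(1 + c) : ℝ) : ℂ) * q ξ, hq.const_mul _, fun z => ?_⟩
  have h1 : HH (fun ξ => ((2 / √(1 + c) : ℝ) : ℂ) * q ξ) z = ((2 / √(1 + c) : ℝ) : ℂ) * HH q z := by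
    unfold HH
    rw [← integral_const_mul]
    apply integral_congr_ae
    refine Eventually.of_forall fun ξ => ?_
    simp only
    ring
  rw [h1]
  have h2 : HH q z = ((√(1 + c) / (2 * √(Real.cosh (dist z I) + c) ^ 3) : ℝ) : ℂ) := by
    rcases eq_or_ne z I with rfl | hz
    · unfold HH
      simp_rw [sph_I, mul_one]
      have h3 := hg 0
      simp only [mul_zero, Complex.ofReal_zero, Complex.exp_zero, one_mul] at h3
      rw [← h3, dist_self]
      unfold gc
      simp only [zero_div, Real.cosh_zero]
      congr 1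
      have hsq : √(1 + c) ^ 2 = 1 + c := Real.sq_sqrt ha.le
      have h4 : 2 + c - 1 = 1 + c := by ring
      rw [h4]
      generalize √(1 + c) = α at hsq hsa
      rw [← hsq]
      field_simp
    · have hr : 0 < dist z I := dist_pos.mpr hz
      rw [HH_eq_integral hr rfl hq]
      simp_rw [← hg]
      rw [← integral_kd_gc hc hr, ← integral_complex_ofReal]
      apply integral_congr_ae
      refine Eventually.of_forall fun s => ?_
      simp only [Complex.real_smul]
      push_cast
      ring
  rw [h2, ← Complex.ofReal_mul]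
  congr 1
  unfold ec
  have := Real.sqrt_pos.mpr (cosh_add_pos hc (dist z I))
  field_simp

theorem continuous_ec {c : ℝ} (hc : -1 < c) : Continuous (ec c) := by
  unfold ec
  apply Continuous.inv₀
  · have h1 : Continuous (fun z : ℍ => dist z I) := continuous_id.dist continuous_const
    exact (((Real.continuous_cosh.comp h1).add continuous_const).sqrt).pow 3
  · intro z
    have := Real.sqrt_pos.mpr (cosh_add_pos hc (dist z I))
    positivity

theorem ec_pos {c : ℝ} (hc : -1 < c) (z : ℍ) : 0 < ec c z := by
  unfold ec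
  have := Real.sqrt_pos.mpr (cosh_add_pos hc (dist z I))
  positivity

end Pool.Agent.H22.Hy
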