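import Pool.Agent.H22.HyN

namespace Pool.Agent.H22.Hy

open UpperHalfPlane MeasureTheory Metric Set Filter
open scoped MatrixGroups Topology ENNReal NNReal ComplexInnerProductSpace ComplexConjugate

theorem vol_smul (γ : SL(2, ℝ)) :
    MeasurePreserving (fun z : ℍ => γ • z) (volume : Measure ℍ) volume := by
  have h := measurePreserving_smul (γ : GL (Fin 2) ℝ) (volume : Measure ℍ)
  exact h

theorem integrable_of_hc {F : ℍ → ℝ} (hF : Continuous F) {B : ℝ × ℝ → ℝ}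
    (hB : Integrable B (volume.prod volume))
    (h : ∀ x v : ℝ, |Real.exp (-v) * F (hc (x, v))| ≤ B (x, v)) : Integrable F := by
  refine ⟨hF.aestronglyMeasurable, ?_⟩
  unfold HasFiniteIntegral
  have hFm : Measurable (fun z => ‖F z‖ₑ) := hF.measurable.enorm
  rw [lintegral_vol hFm]
  have h1 : ∫⁻ x : ℝ, ∫⁻ v : ℝ, ENNReal.ofReal (Real.exp (-v)) * ‖F (hc (x, v))‖ₑ ≤
      ∫⁻ x : ℝ, ∫⁻ v : ℝ, ‖B (x, v)‖ₑ := by
    apply lintegral_mono
    intro x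
    apply lintegral_mono
    intro v
    simp only
    rw [← Real.enorm_of_nonneg (Real.exp_pos (-v)).le, ← enorm_mul]
    rw [← ofReal_norm, ← ofReal_norm]
    apply ENNReal.ofReal_le_ofReal
    rw [Real.norm_eq_abs, Real.norm_eq_abs]
    exact (h x v).trans (le_abs_self _)
  refine lt_of_le_of_lt h1 ?_
  have h2 := hB.2
  unfold HasFiniteIntegral at h2
  rw [lintegral_prod _ hB.1.enorm] at h2
  exact h2

theorem ec_bound {c : ℝ} (hc : -1 < c) (hc' : c ≤ 0) (x v : ℝ) :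
    |Real.exp (-v) * ec c (Hy.hc (x, v))| ≤
      √(8 / (1 + c) ^ 3) * ((1 + x ^ 2)⁻¹ * Real.exp (-(|v| / 2))) := by
  have hpos : 0 < Real.exp (-v) * ec c (Hy.hc (x, v)) := mul_pos (Real.exp_pos _) (ec_pos hc _)
  rw [abs_of_pos hpos]
  have ha : 0 < 1 + c := by linarith
  apply le_of_sq_le_sq _ (by positivity)
  rw [mul_pow, mul_pow, mul_pow, Real.sq_sqrt (by positivity)]
  unfold ec
  rw [cosh_dist_I, hc_re, hc_im]
  set y := Real.exp v with hy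
  have hy0 : 0 < y := Real.exp_pos v
  set W := (x ^ 2 + y ^ 2 + 1) / (2 * y) with hW
  have hW1 : 1 ≤ W := by
    rw [hW, le_div_iff₀ (by positivity)]
    nlinarith [sq_nonneg (y - 1), sq_nonneg x]
  have hWc : (1 + c) * W ≤ W + c := by nlinarith
  have hWc0 : 0 < W + c := by linarith
  have h1 : ((√(W + c) ^ 3)⁻¹) ^ 2 = ((W + c) ^ 3)⁻¹ := by
    rw [inv_pow, ← pow_mul, mul_comm 3 2, pow_mul, Real.sq_sqrt hWc0.le]
  rw [h1]
  have h2 : ((W + c) ^ 3)⁻¹ ≤ (((1 + c) * W) ^ 3)⁻¹ :=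
    inv_anti₀ (by positivity) (pow_le_pow_left₀ (by positivity) hWc 3)
  have h3 : Real.exp (-v) ^ 2 = (y ^ 2)⁻¹ := by rw [Real.exp_neg, inv_pow]
  have h4 : Real.exp (-(|v| / 2)) ^ 2 = Real.exp (-|v|) := by
    rw [← Real.exp_nat_mul]; congr 1; push_cast; ring
  rw [h3, h4]
  have h5 : (y ^ 2)⁻¹ * (W ^ 3)⁻¹ ≤ 8 * (((1 + x ^ 2)⁻¹) ^ 2 * Real.exp (-|v|)) := by
    have e1 : (y ^ 2)⁻¹ * (W ^ 3)⁻¹ = 8 * y / (x ^ 2 + y ^ 2 + 1) ^ 3 := by
      rw [hW]; field_simp; norm_num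
    rw [e1]
    have e2 : y ≤ Real.exp (-|v|) * (x ^ 2 + y ^ 2 + 1) := by
      rcases le_total 0 v with hv | hv
      · rw [abs_of_nonneg hv, Real.exp_neg, ← hy]
        rw [inv_mul_eq_div, le_div_iff₀ hy0]
        nlinarith [sq_nonneg x]
      · rw [abs_of_nonpos hv, neg_neg, ← hy]
        nlinarith [sq_nonneg x, sq_nonneg y]
    have e3 : (1 + x ^ 2) ^ 2 ≤ (x ^ 2 + y ^ 2 + 1) ^ 2 := by
      apply pow_le_pow_left₀ (by positivity)
      nlinarith [sq_nonneg y]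
    have hE := Real.exp_pos (-|v|)
    rw [div_le_iff₀ (by positivity)]
    have e4 : 8 * (((1 + x ^ 2)⁻¹) ^ 2 * Real.exp (-|v|)) * (x ^ 2 + y ^ 2 + 1) ^ 3 =
        8 * (Real.exp (-|v|) * (x ^ 2 + y ^ 2 + 1)) *
          ((x ^ 2 + y ^ 2 + 1) ^ 2 / (1 + x ^ 2) ^ 2) := by
      field_simp
    rw [e4]
    have e5 : 1 ≤ (x ^ 2 + y ^ 2 + 1) ^ 2 / (1 + x ^ 2) ^ 2 := by
      rw [le_div_iff₀ (by positivity)]; linarith
    calc 8 * y ≤ 8 * (Real.exp (-|v|) * (x ^ 2 + y ^ 2 + 1)) := by linarith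
      _ = 8 * (Real.exp (-|v|) * (x ^ 2 + y ^ 2 + 1)) * 1 := (mul_one _).symm
      _ ≤ _ := mul_le_mul_of_nonneg_left e5 (by positivity)
  calc (y ^ 2)⁻¹ * ((W + c) ^ 3)⁻¹ ≤ (y ^ 2)⁻¹ * (((1 + c) * W) ^ 3)⁻¹ :=
        mul_le_mul_of_nonneg_left h2 (by positivity)
    _ = ((1 + c) ^ 3)⁻¹ * ((y ^ 2)⁻¹ * (W ^ 3)⁻¹) := by rw [mul_pow, mul_inv]; ring
    _ ≤ ((1 + c) ^ 3)⁻¹ * (8 * (((1 + x ^ 2)⁻¹) ^ 2 * Real.exp (-|v|))) :=
        mul_le_mul_of_nonneg_left h5 (by positivity)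
    _ = _ := by ring

theorem integrable_ec {c : ℝ} (hc : -1 < c) (hc' : c ≤ 0) : Integrable (ec c) := by
  apply integrable_of_hc (continuous_ec hc) (B := fun p =>
    √(8 / (1 + c) ^ 3) * ((1 + p.1 ^ 2)⁻¹ * Real.exp (-(|p.2| / 2))))
  · exact (integrable_inv_one_add_sq.mul_prod integrable_exp_neg_abs).const_mul _
  · exact ec_bound hc hc'

theorem ec_le {c : ℝ} (hc : -1 < c) (z : ℍ) : ec c z ≤ (√(1 + c) ^ 3)⁻¹ := by
  unfold ec
  have ha : 0 < 1 + c := by linarith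
  have := Real.sqrt_pos.mpr ha
  apply inv_anti₀ (by positivity)
  apply pow_le_pow_left₀ (by positivity)
  apply Real.sqrt_le_sqrt
  have := Real.one_le_cosh (dist z I)
  linarith

theorem memLp_of_bdd_integrable {α : Type*} [MeasurableSpace α] {μ : Measure α} {f : α → ℂ}
    (hf : Integrable f μ) {C : ℝ} (hC : ∀ x, ‖f x‖ ≤ C) : MemLp f 2 μ := by
  rw [memLp_two_iff_integrable_sq_norm hf.1]
  have h1 : Integrable (fun x => ‖f x‖ * ‖f x‖) μ :=
    hf.norm.mul_bdd (c := C) hf.1.norm (Eventually.of_forall fun x => by simpa using hC x)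
  apply h1.congr
  exact Eventually.of_forall fun x => by simp [sq]

theorem memLp_ec {c : ℝ} (hc : -1 < c) (hc' : c ≤ 0) (γ : SL(2, ℝ)) :
    MemLp (fun z : ℍ => (ec c (γ • z) : ℂ)) 2 (volume : Measure ℍ) := by
  have hint : Integrable (fun z : ℍ => (ec c z : ℂ)) := (integrable_ec hc hc').ofReal
  have h1 : MemLp (fun z : ℍ => (ec c z : ℂ)) 2 (volume : Measure ℍ) := by
    apply memLp_of_bdd_integrable hint (C := (√(1 + c) ^ 3)⁻¹)
    intro z
    rw [Complex.norm_real, Real.norm_eq_abs, abs_of_pos (ec_pos hc z)]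
    exact ec_le hc z
  exact h1.comp_measurePreserving (vol_smul γ)

/-- the elements of the Hilbert space -/
noncomputable def uc {c : ℝ} (hc : -1 < c) (hc' : c ≤ 0) (γ : SL(2, ℝ)) : L2 :=
  (memLp_ec hc hc' γ).toLp _

theorem uc_ae {c : ℝ} (hc : -1 < c) (hc' : c ≤ 0) (γ : SL(2, ℝ)) :
    (uc hc hc' γ : ℍ → ℂ) =ᵐ[(volume : Measure ℍ)] fun z => (ec c (γ • z) : ℂ) :=
  MemLp.coeFn_toLp _

theorem integrable_ec_smul {c : ℝ} (hc : -1 < c) (hc' : c ≤ 0) (γ : SL(2, ℝ)) :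
    Integrable (fun z : ℍ => (ec c (γ • z) : ℂ)) := by
  have hint : Integrable (fun z : ℍ => (ec c z : ℂ)) := (integrable_ec hc hc').ofReal
  have h := (vol_smul γ).integrable_comp_of_integrable hint
  simpa only [Function.comp_def] using h

theorem uc_mem_growth {c : ℝ} (hc : -1 < c) (hc' : c < 0) (γ : SL(2, ℝ)) {d : ℝ} (hd : 0 < d)
    {κ ρ : ℝ} (hρ : ∀ l, |κ - ph l d| ≤ ρ) : uc hc hc'.le γ ∈ growth (Top hd κ) ρ := by
  obtain ⟨q, hq, hz⟩ := ec_rep hc hc'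
  have hae := uc_ae hc hc'.le γ
  have hrep : Rep γ (uc hc hc'.le γ) q := by
    unfold Rep
    have h2 : (fun z : ℍ => (ec c (γ • z) : ℂ)) = fun z => HH q (γ • z) := by
      funext z
      exact hz (γ • z)
    rw [← h2]
    exact hae
  have h1 := integrable_ec_smul hc hc'.le γ
  exact power_bound hd hρ hq hrep (h1.congr hae.symm)

end Pool.Agent.H22.Hy
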