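import Pool.Agent.H22.HyO

namespace Pool.Agent.H22.Hy

open UpperHalfPlane MeasureTheory Metric Set Filter
open scoped MatrixGroups Topology ENNReal NNReal ComplexInnerProductSpace ComplexConjugate

/-- small box near `I` -/
def box (t : ℝ) : Set ℍ := {z | z.re ∈ Icc 0 t ∧ Real.log z.im ∈ Icc 0 t}

theorem measurableSet_box (t : ℝ) : MeasurableSet (box t) := by
  apply MeasurableSet.inter
  · exact (measurableSet_Icc).preimage continuous_re.measurable
  · exact (measurableSet_Icc).preimage continuous_log_im.measurable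

theorem vol_box {t : ℝ} (ht : 0 ≤ t) :
    ENNReal.ofReal (t * (t * Real.exp (-t))) ≤ (volume : Measure ℍ) (box t) := by
  have h1 : (volume : Measure ℍ) (box t) = ∫⁻ z, (box t).indicator 1 z := by
    rw [lintegral_indicator_one (measurableSet_box t)]
  have hm : Measurable ((box t).indicator (1 : ℍ → ℝ≥0∞)) :=
    measurable_one.indicator (measurableSet_box t)
  rw [h1, lintegral_vol hm]
  have h2 : ∫⁻ x : ℝ, (Icc 0 t).indicator (fun _ => ∫⁻ v : ℝ, (Icc 0 t).indicator
      (fun _ => ENNReal.ofReal (Real.exp (-t))) v) x ≤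
      ∫⁻ x : ℝ, ∫⁻ v : ℝ, ENNReal.ofReal (Real.exp (-v)) * (box t).indicator 1 (hc (x, v)) := by
    apply lintegral_mono
    intro x
    by_cases hx : x ∈ Icc 0 t
    · simp only [indicator_of_mem hx]
      apply lintegral_mono
      intro v
      by_cases hv : v ∈ Icc 0 t
      · have hmem : hc (x, v) ∈ box t := by
          refine ⟨hx, ?_⟩
          rw [hc_im, Real.log_exp]
          exact hv
        simp only [indicator_of_mem hv, indicator_of_mem hmem, Pi.one_apply, mul_one]
        apply ENNReal.ofReal_le_ofReal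
        exact Real.exp_le_exp.mpr (by linarith [hv.2])
      · simp [indicator_of_notMem hv]
    · simp [indicator_of_notMem hx]
  refine le_trans ?_ h2
  rw [lintegral_indicator measurableSet_Icc, setLIntegral_const,
    lintegral_indicator measurableSet_Icc, setLIntegral_const, Real.volume_Icc, sub_zero,
    ENNReal.ofReal_mul ht, ENNReal.ofReal_mul ht]
  apply le_of_eq
  ring

theorem box_cosh {t : ℝ} (ht1 : t ≤ 1) {z : ℍ} (hz : z ∈ box t) :
    Real.cosh (dist z I) ≤ 1 + 2 * t ^ 2 := by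
  obtain ⟨⟨hx0, hx1⟩, hv0, hv1⟩ := hz
  have ht0 : 0 ≤ t := hx0.trans hx1
  rw [cosh_dist_I]
  set v := Real.log z.im with hv
  have hy : z.im = Real.exp v := (Real.exp_log z.im_pos).symm
  set y := z.im with hyd
  set x := z.re
  have hy1 : 1 ≤ y := by rw [hy]; exact Real.one_le_exp hv0
  have hy0 : 0 < y := by linarith
  have hy3 : y ≤ 3 := by
    rw [hy]
    have := Real.exp_one_lt_d9
    have h2 : Real.exp v ≤ Real.exp 1 := Real.exp_le_exp.mpr (hv1.trans ht1)
    linarith
  -- y - 1 ≤ v * y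
  have hyv : y - 1 ≤ v * y := by
    have h1 : 1 - v ≤ Real.exp (-v) := by have := Real.add_one_le_exp (-v); linarith
    have h2 : Real.exp (-v) * y = 1 := by rw [hy, ← Real.exp_add]; simp
    nlinarith
  rw [div_le_iff₀ (by positivity)]
  have h3 : (y - 1) ^ 2 ≤ (v * y) ^ 2 := pow_le_pow_left₀ (by linarith) hyv 2
  have h4 : v ^ 2 ≤ t ^ 2 := pow_le_pow_left₀ hv0 hv1 2
  have h5 : x ^ 2 ≤ t ^ 2 := pow_le_pow_left₀ hx0 hx1 2
  have h6 : (v * y) ^ 2 ≤ t ^ 2 * (3 * y) := by
    rw [mul_pow]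
    apply mul_le_mul h4 _ (by positivity) (by positivity)
    nlinarith
  nlinarith

/-- mass of `ec c` near `I` -/
noncomputable def JJ (c : ℝ) : ℝ := ∫ z in ball (I : ℍ) 1, ec c z

theorem one_half_lt : (3 / 2 : ℝ) < Real.cosh 1 := by
  have h1 := Real.exp_one_gt_d9
  have h2 := Real.exp_one_lt_d9
  rw [Real.cosh_eq, Real.exp_neg]
  have h3 : (1 / 3 : ℝ) ≤ (Real.exp 1)⁻¹ := by
    rw [one_div]
    apply inv_anti₀ (by linarith) (by linarith)
  linarith

theorem JJ_lower {c : ℝ} (hc : -1 < c) (hc' : c ≤ 0) :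
    (√(1 + c))⁻¹ / 200 ≤ JJ c := by
  have ha : 0 < 1 + c := by linarith
  set s := √(1 + c) with hs
  have hs0 : 0 < s := Real.sqrt_pos.mpr ha
  have hs2 : s ^ 2 = 1 + c := Real.sq_sqrt ha.le
  have hs1 : s ≤ 1 := by
    rw [hs]; apply Real.sqrt_le_one.mpr; linarith
  set t := s / 2 with ht
  have hbox : box t ⊆ ball (I : ℍ) 1 := by
    intro z hz
    rw [mem_ball]
    have h1 := box_cosh (by linarith) hz
    have h2 : Real.cosh (dist z I) < Real.cosh 1 := by
      have := one_half_lt
      nlinarith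
    rw [Real.cosh_lt_cosh, abs_of_nonneg dist_nonneg, abs_one] at h2
    exact h2
  have hlow : ∀ z ∈ box t, (2 * s) ^ (-3 : ℤ) ≤ ec c z := by
    intro z hz
    have h1 := box_cosh (by linarith) hz
    unfold ec
    have h2 : √(Real.cosh (dist z I) + c) ≤ 2 * s := by
      rw [Real.sqrt_le_left (by positivity)]
      nlinarith
    rw [zpow_neg]
    have hp := Real.sqrt_pos.mpr (cosh_add_pos hc (dist z I))
    apply inv_anti₀ (by positivity)
    exact pow_le_pow_left₀ (by positivity) h2 3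
  have hint := (integrable_ec hc hc').integrableOn (s := ball (I : ℍ) 1)
  have h3 : ∫ z in box t, ec c z ≤ JJ c := by
    unfold JJ
    apply setIntegral_mono_set hint
    · exact Eventually.of_forall fun z => (ec_pos hc z).le
    · exact Eventually.of_forall hbox
  have hfin : (volume : Measure ℍ) (box t) ≠ ∞ := by
    refine ne_top_of_le_ne_top ?_ (measure_mono hbox)
    exact measure_ball_lt_top.ne
  have h4 : (2 * s) ^ (-3 : ℤ) * ((volume : Measure ℍ) (box t)).toReal ≤ ∫ z in box t, ec c z := by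
    have h5 := setIntegral_mono_on (μ := (volume : Measure ℍ)) (s := box t)
      (f := fun _ => (2 * s) ^ (-3 : ℤ)) (g := ec c)
      (integrableOn_const hfin) ((integrable_ec hc hc').integrableOn) (measurableSet_box t) hlow
    rw [setIntegral_const] at h5
    rw [mul_comm]
    exact h5
  have h5 : t * (t * Real.exp (-t)) ≤ ((volume : Measure ℍ) (box t)).toReal := by
    rw [← ENNReal.ofReal_le_iff_le_toReal hfin]
    exact vol_box (by positivity)
  have h6 : (1 / 2 : ℝ) ≤ Real.exp (-t) := by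
    have := Real.add_one_le_exp (-t)
    linarith
  have h7 : s ^ 2 / 8 ≤ t * (t * Real.exp (-t)) := by
    have ht0 : 0 < t := by positivity
    have : t * (t * (1 / 2)) ≤ t * (t * Real.exp (-t)) := by
      apply mul_le_mul_of_nonneg_left _ ht0.le
      exact mul_le_mul_of_nonneg_left h6 ht0.le
    calc s ^ 2 / 8 = t * (t * (1 / 2)) := by rw [ht]; ring
      _ ≤ _ := this
  have h8 : s⁻¹ / 200 ≤ (2 * s) ^ (-3 : ℤ) * (s ^ 2 / 8) := by
    have e1 : (2 * s) ^ (-3 : ℤ) * (s ^ 2 / 8) = s⁻¹ / 64 := by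
      rw [zpow_neg]
      have : ((2 * s) ^ (3 : ℤ)) = 8 * s ^ 3 := by
        norm_cast
        ring
      rw [this]
      field_simp
      norm_num
    rw [e1]
    have : 0 < s⁻¹ := by positivity
    linarith
  have h9 : 0 ≤ (2 * s) ^ (-3 : ℤ) := by positivity
  calc s⁻¹ / 200 ≤ (2 * s) ^ (-3 : ℤ) * (s ^ 2 / 8) := h8
    _ ≤ (2 * s) ^ (-3 : ℤ) * ((volume : Measure ℍ) (box t)).toReal :=
        mul_le_mul_of_nonneg_left (h7.trans h5) h9
    _ ≤ _ := h4.trans h3

end Pool.Agent.H22.Hy
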