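import Pool.Agent.H22.HyP

namespace Pool.Agent.H22.Hy

open UpperHalfPlane MeasureTheory Metric Set Filter
open scoped MatrixGroups Topology ENNReal NNReal ComplexInnerProductSpace ComplexConjugate

/-- two point kernel -/
noncomputable def kk (c : ℝ) (z w : ℍ) : ℝ := (√(Real.cosh (dist z w) + c) ^ 3)⁻¹

theorem kk_comm (c : ℝ) (z w : ℍ) : kk c z w = kk c w z := by
  unfold kk; rw [dist_comm]

theorem kk_pos {c : ℝ} (hc : -1 < c) (z w : ℍ) : 0 < kk c z w := by
  unfold kk
  have := Real.sqrt_pos.mpr (cosh_add_pos hc (dist z w))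
  positivity

theorem continuous_kk {c : ℝ} (hc : -1 < c) : Continuous (fun p : ℍ × ℍ => kk c p.1 p.2) := by
  unfold kk
  apply Continuous.inv₀
  · have h1 : Continuous (fun z : ℍ × ℍ => dist z.1 z.2) := continuous_fst.dist continuous_snd
    exact (((Real.continuous_cosh.comp h1).add continuous_const).sqrt).pow 3
  · intro z
    have := Real.sqrt_pos.mpr (cosh_add_pos hc (dist z.1 z.2))
    positivity

theorem continuous_kk_right {c : ℝ} (hc : -1 < c) (z : ℍ) : Continuous (fun w => kk c z w) := by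
  have h2 : Continuous (fun w : ℍ => (z, w)) := Continuous.prodMk_right z
  have h := Continuous.comp (continuous_kk hc) h2
  exact h

theorem kk_eq_ec (c : ℝ) (z w : ℍ) : kk c z w = ec c ((w.toSL2R)⁻¹ • z) := by
  unfold kk ec
  have h : dist ((w.toSL2R)⁻¹ • z) I = dist z w := by
    rw [← dist_smul w.toSL2R, smul_inv_smul, toSL2R_smul_I]
  rw [h]

theorem kk_smul (c : ℝ) (γ : SL(2, ℝ)) (z w : ℍ) : kk c (γ • z) (γ • w) = kk c z w := by
  unfold kk; rw [dist_smul]

theorem integrable_kk {c : ℝ} (hc : -1 < c) (hc' : c ≤ 0) (w : ℍ) :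
    Integrable (fun z => kk c z w) := by
  have h := (vol_smul (w.toSL2R)⁻¹).integrable_comp_of_integrable (integrable_ec hc hc')
  have e : (fun z => kk c z w) = (ec c) ∘ (fun z : ℍ => (w.toSL2R)⁻¹ • z) := by
    funext z; exact kk_eq_ec c z w
  rw [e]
  exact h

theorem setIntegral_kk {c : ℝ} (z : ℍ) : ∫ w in ball z 1, kk c z w = JJ c := by
  unfold JJ
  have hmp := (vol_smul z.toSL2R).setIntegral_preimage_emb (measEmb_smul z.toSL2R)
    (fun w => kk c z w) (ball z 1)
  rw [← hmp]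
  have hpre : (fun w : ℍ => z.toSL2R • w) ⁻¹' (ball z 1) = ball I 1 := by
    ext w
    rw [mem_preimage, mem_ball, mem_ball]
    nth_rewrite 2 [← toSL2R_smul_I z]
    rw [dist_smul]
  rw [hpre]
  apply setIntegral_congr_fun isOpen_ball.measurableSet
  intro w _
  simp only
  rw [kk_comm, kk_eq_ec, inv_smul_smul]

/-- far kernel bound -/
theorem kk_far {c r : ℝ} (hc : -1 < c) {z w : ℍ} (hr : 0 < r) (h : r ≤ dist z w) :
    kk c z w ≤ (√(Real.cosh r - 1) ^ 3)⁻¹ := by
  unfold kk
  have h1 : Real.cosh r ≤ Real.cosh (dist z w) := by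
    rw [Real.cosh_le_cosh, abs_of_pos hr, abs_of_nonneg dist_nonneg]; exact h
  have h2 : 1 < Real.cosh r := Real.one_lt_cosh.mpr hr.ne'
  have h3 : 0 < √(Real.cosh r - 1) := Real.sqrt_pos.mpr (by linarith)
  apply inv_anti₀ (by positivity)
  apply pow_le_pow_left₀ h3.le
  apply Real.sqrt_le_sqrt
  linarith

/-- far kernel bound with decay: for `dist z w ≥ 1`, `dist w I ≤ R` -/
theorem kk_far_decay {c R : ℝ} (hc : -1 < c) {z w : ℍ} (h : 1 ≤ dist z w) (hw : dist w I ≤ R) :
    kk c z w ≤ (√(Real.exp (-R) / 6) ^ 3)⁻¹ * ec 0 z := by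
  unfold kk ec
  rw [← mul_inv, ← mul_pow, ← Real.sqrt_mul (by positivity), add_zero]
  set r := dist z w with hr
  set ρ := dist z I with hρ
  have h1 : ρ ≤ r + R := by
    have := dist_triangle z w I
    linarith
  have h2 : Real.cosh 1 ≤ Real.cosh r := by
    rw [Real.cosh_le_cosh, abs_one, abs_of_nonneg dist_nonneg]; exact h
  have h3 := one_half_lt
  have h4 : Real.cosh r / 3 ≤ Real.cosh r + c := by linarith
  have h5 : Real.exp (-R) / 2 * Real.cosh ρ ≤ Real.cosh r := by
    have e1 : Real.cosh ρ ≤ Real.exp ρ := by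
      rw [Real.cosh_eq]
      have : Real.exp (-ρ) ≤ Real.exp ρ := Real.exp_le_exp.mpr (by
        have : 0 ≤ ρ := dist_nonneg
        linarith)
      linarith
    have e2 : Real.exp (-R) * Real.exp ρ ≤ Real.exp r := by
      rw [← Real.exp_add]; apply Real.exp_le_exp.mpr; linarith
    have e3 : Real.exp r / 2 ≤ Real.cosh r := by
      rw [Real.cosh_eq]; have := Real.exp_pos (-r); linarith
    have e4 := Real.exp_pos (-R)
    nlinarith
  have hcρ := Real.one_le_cosh ρ
  have h6 : 0 < Real.exp (-R) / 6 * Real.cosh ρ := by positivity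
  have h7 := Real.sqrt_pos.mpr h6
  apply inv_anti₀ (by positivity)
  apply pow_le_pow_left₀ h7.le
  apply Real.sqrt_le_sqrt
  linarith

theorem JJ_mono {c : ℝ} (hc : -1 < c) (hc' : c ≤ 0) : JJ 0 ≤ JJ c := by
  unfold JJ
  apply setIntegral_mono (integrable_ec (by norm_num) le_rfl).integrableOn
    (integrable_ec hc hc').integrableOn
  intro z
  unfold ec
  have h1 := Real.sqrt_pos.mpr (cosh_add_pos hc (dist z I))
  apply inv_anti₀ (by positivity)
  apply pow_le_pow_left₀ h1.le
  apply Real.sqrt_le_sqrt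
  linarith

theorem JJ_pos {c : ℝ} (hc : -1 < c) (hc' : c ≤ 0) : 0 < JJ c := by
  have := JJ_lower hc hc'
  have h2 : 0 < (√(1 + c))⁻¹ := by
    have : 0 < 1 + c := by linarith
    have := Real.sqrt_pos.mpr this
    positivity
  linarith

/-- the sequence of parameters -/
noncomputable def cn (n : ℕ) : ℝ := -1 + 1 / ((n : ℝ) + 2)

theorem cn_gt (n : ℕ) : -1 < cn n := by
  unfold cn
  have : (0 : ℝ) < 1 / ((n : ℝ) + 2) := by positivity
  linarith

theorem cn_lt (n : ℕ) : cn n < 0 := by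
  unfold cn
  have : 1 / ((n : ℝ) + 2) < 1 := by
    rw [div_lt_one (by positivity)]
    have : (0 : ℝ) ≤ n := Nat.cast_nonneg n
    linarith
  linarith

theorem tendsto_JJ_inv : Tendsto (fun n => (JJ (cn n))⁻¹) atTop (𝓝 0) := by
  have h1 : ∀ n, (JJ (cn n))⁻¹ ≤ 200 * √(1 / ((n : ℝ) + 2)) := by
    intro n
    have h2 := JJ_lower (cn_gt n) (cn_lt n).le
    have h3 : 1 + cn n = 1 / ((n : ℝ) + 2) := by unfold cn; ring
    rw [h3] at h2
    have h4 : 0 < √(1 / ((n : ℝ) + 2)) := Real.sqrt_pos.mpr (by positivity)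
    have h5 : (JJ (cn n))⁻¹ ≤ ((√(1 / ((n : ℝ) + 2)))⁻¹ / 200)⁻¹ :=
      inv_anti₀ (by positivity) h2
    refine h5.trans (le_of_eq ?_)
    field_simp
  have h2 : Tendsto (fun n : ℕ => 200 * √(1 / ((n : ℝ) + 2))) atTop (𝓝 0) := by
    have h3 : Tendsto (fun n : ℕ => 1 / ((n : ℝ) + 2)) atTop (𝓝 0) := by
      have h4 : Tendsto (fun n : ℕ => (n : ℝ) + 2) atTop atTop :=
        tendsto_atTop_add_const_right _ _ tendsto_natCast_atTop_atTop
      simp only [one_div]
      exact h4.inv_tendsto_atTop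
    have h5 := (h3.sqrt).const_mul 200
    simpa using h5
  refine squeeze_zero (fun n => ?_) h1 h2
  exact inv_nonneg.mpr (JJ_pos (cn_gt n) (cn_lt n).le).le

/-- regularisation of a test function -/
noncomputable def reg (φ : ℍ → ℂ) (n : ℕ) (z : ℍ) : ℂ :=
  ∫ w, ((JJ (cn n))⁻¹ * kk (cn n) z w) • φ w

theorem tendsto_reg {φ : ℍ → ℂ} (hφ : Continuous φ) (hs : HasCompactSupport φ) (z : ℍ) :
    Tendsto (fun n => reg φ n z) atTop (𝓝 (φ z)) := by
  unfold reg
  apply tendsto_integral_peak_smul_of_integrable_of_tendsto (x₀ := z) (t := ball z 1)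
    isOpen_ball.measurableSet (ball_mem_nhds z one_pos) measure_ball_lt_top.ne
  · refine Eventually.of_forall fun n w => ?_
    exact mul_nonneg (inv_nonneg.mpr (JJ_pos (cn_gt n) (cn_lt n).le).le) (kk_pos (cn_gt n) _ _).le
  · intro u hu hzu
    obtain ⟨r, hr, hball⟩ := Metric.isOpen_iff.mp hu z hzu
    have h1 : Tendsto (fun n => (JJ (cn n))⁻¹ * (√(Real.cosh r - 1) ^ 3)⁻¹) atTop (𝓝 0) := by
      simpa using tendsto_JJ_inv.mul_const ((√(Real.cosh r - 1) ^ 3)⁻¹)
    rw [Metric.tendstoUniformlyOn_iff]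
    intro ε hε
    filter_upwards [h1.eventually (gt_mem_nhds hε)] with n hn w hw
    have hr' : r ≤ dist z w := by
      by_contra hcon
      push Not at hcon
      exact hw (hball (by rw [mem_ball, dist_comm]; exact hcon))
    have h0 : 0 ≤ (JJ (cn n))⁻¹ * kk (cn n) z w :=
      mul_nonneg (inv_nonneg.mpr (JJ_pos (cn_gt n) (cn_lt n).le).le) (kk_pos (cn_gt n) _ _).le
    rw [Pi.zero_apply, dist_comm, Real.dist_eq, sub_zero, abs_of_nonneg h0]
    refine lt_of_le_of_lt ?_ hn
    exact mul_le_mul_of_nonneg_left (kk_far (cn_gt n) hr hr')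
      (inv_nonneg.mpr (JJ_pos (cn_gt n) (cn_lt n).le).le)
  · have : ∀ n, ∫ w in ball z 1, (JJ (cn n))⁻¹ * kk (cn n) z w = 1 := by
      intro n
      rw [integral_const_mul, setIntegral_kk]
      exact inv_mul_cancel₀ (JJ_pos (cn_gt n) (cn_lt n).le).ne'
    simp_rw [this]
    exact tendsto_const_nhds
  · refine Eventually.of_forall fun n => ?_
    have : Continuous (fun w => (JJ (cn n))⁻¹ * kk (cn n) z w) :=
      continuous_const.mul (continuous_kk_right (cn_gt n) z)
    exact this.aestronglyMeasurable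
  · exact hφ.integrable_of_hasCompactSupport hs
  · exact hφ.continuousAt

end Pool.Agent.H22.Hy
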