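import Pool.Agent.H22.HyQ

namespace Pool.Agent.H22.Hy

open UpperHalfPlane MeasureTheory Metric Set Filter
open scoped MatrixGroups Topology ENNReal NNReal ComplexInnerProductSpace ComplexConjugate

theorem reg_integrable {φ : ℍ → ℂ} (hφ : Continuous φ) (hs : HasCompactSupport φ) (n : ℕ) (z : ℍ) :
    Integrable (fun w => ((JJ (cn n))⁻¹ * kk (cn n) z w) • φ w) := by
  have hc : Continuous (fun w => ((JJ (cn n))⁻¹ * kk (cn n) z w) • φ w) :=
    (continuous_const.mul (continuous_kk_right (cn_gt n) z)).smul hφ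
  have hs2 : HasCompactSupport (fun w => ((JJ (cn n))⁻¹ * kk (cn n) z w) • φ w) := by
    apply HasCompactSupport.mono hs
    intro w hw
    rw [Function.mem_support] at hw ⊢
    intro h0
    apply hw
    rw [h0, smul_zero]
  exact hc.integrable_of_hasCompactSupport hs2

theorem reg_bound {φ : ℍ → ℂ} (hφ : Continuous φ) (hs : HasCompactSupport φ) :
    ∃ K : ℝ, ∀ n z, ‖reg φ n z‖ ≤ K * ec 0 z := by
  obtain ⟨M, hM⟩ := hs.exists_bound_of_continuous hφ
  have hM0 : 0 ≤ M := (norm_nonneg _).trans (hM I)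
  obtain ⟨R, hR⟩ := hs.isCompact.isBounded.subset_closedBall (I : ℍ)
  have hsupp : ∀ w, φ w ≠ 0 → dist w I ≤ R := by
    intro w hw
    have := hR (subset_tsupport φ hw)
    rwa [mem_closedBall] at this
  have hφi : Integrable φ := hφ.integrable_of_hasCompactSupport hs
  set K1 : ℝ := M * √(Real.cosh (R + 1)) ^ 3 with hK1
  set K2 : ℝ := (JJ 0)⁻¹ * ((√(Real.exp (-R) / 6) ^ 3)⁻¹ * ∫ w, ‖φ w‖) with hK2
  refine ⟨K1 + K2, fun n z => ?_⟩
  have hJ := JJ_pos (cn_gt n) (cn_lt n).le
  have hJ0 := JJ_pos (c := 0) (by norm_num) le_rfl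
  have hJm := JJ_mono (cn_gt n) (cn_lt n).le
  have hJinv : (JJ (cn n))⁻¹ ≤ (JJ 0)⁻¹ := inv_anti₀ hJ0 hJm
  have hi := reg_integrable hφ hs n z
  have hez := ec_pos (c := 0) (by norm_num) z
  have h1 : ‖reg φ n z‖ ≤ ∫ w, ‖((JJ (cn n))⁻¹ * kk (cn n) z w) • φ w‖ :=
    norm_integral_le_integral_norm _
  have h2 := (integral_add_compl (μ := (volume : Measure ℍ)) (s := ball z 1)
    isOpen_ball.measurableSet hi.norm).symm
  rw [h2] at h1
  have h3 : ∫ w in ball z 1, ‖((JJ (cn n))⁻¹ * kk (cn n) z w) • φ w‖ ≤ K1 * ec 0 z := by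
    rcases lt_or_ge (dist z I) (R + 1) with hz | hz
    · have h4 : ∫ w in ball z 1, ‖((JJ (cn n))⁻¹ * kk (cn n) z w) • φ w‖ ≤
          ∫ w in ball z 1, ((JJ (cn n))⁻¹ * kk (cn n) z w) * M := by
        apply setIntegral_mono hi.norm.integrableOn
        · have h5 := integrable_kk (cn_gt n) (cn_lt n).le z
          have h6 : Integrable (fun w => kk (cn n) z w) := by
            apply h5.congr
            exact Eventually.of_forall fun w => kk_comm _ _ _
          exact ((h6.const_mul _).mul_const M).integrableOn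
        · intro w
          simp only
          have hk := kk_pos (cn_gt n) z w
          rw [norm_smul, Real.norm_eq_abs, abs_of_nonneg (by positivity)]
          exact mul_le_mul_of_nonneg_left (hM w) (by positivity)
      refine h4.trans ?_
      rw [integral_mul_const, integral_const_mul, setIntegral_kk, inv_mul_cancel₀ hJ.ne', one_mul, hK1]
      have h5 : 1 ≤ √(Real.cosh (R + 1)) ^ 3 * ec 0 z := by
        unfold ec
        rw [add_zero]
        have h6 : Real.cosh (dist z I) ≤ Real.cosh (R + 1) := by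
          rw [Real.cosh_le_cosh, abs_of_nonneg dist_nonneg, abs_of_nonneg
            (le_trans dist_nonneg hz.le)]
          exact hz.le
        have h7 : 0 < √(Real.cosh (dist z I)) := Real.sqrt_pos.mpr (Real.cosh_pos _)
        rw [← div_eq_mul_inv, le_div_iff₀ (by positivity), one_mul]
        exact pow_le_pow_left₀ h7.le (Real.sqrt_le_sqrt h6) 3
      calc M = M * 1 := (mul_one _).symm
        _ ≤ M * (√(Real.cosh (R + 1)) ^ 3 * ec 0 z) := mul_le_mul_of_nonneg_left h5 hM0
        _ = _ := by ring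
    · have h4 : ∫ w in ball z 1, ‖((JJ (cn n))⁻¹ * kk (cn n) z w) • φ w‖ = 0 := by
        apply setIntegral_eq_zero_of_forall_eq_zero
        intro w hw
        have : φ w = 0 := by
          by_contra hne
          have h5 := hsupp w hne
          rw [mem_ball] at hw
          have h6 := dist_triangle z w I
          rw [dist_comm z w] at h6
          linarith
        rw [this]; simp
      rw [h4]
      positivity
  have h4 : ∫ w in (ball z 1)ᶜ, ‖((JJ (cn n))⁻¹ * kk (cn n) z w) • φ w‖ ≤ K2 * ec 0 z := by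
    have h5 : ∫ w in (ball z 1)ᶜ, ‖((JJ (cn n))⁻¹ * kk (cn n) z w) • φ w‖ ≤
        ∫ w in (ball z 1)ᶜ, ((JJ 0)⁻¹ * ((√(Real.exp (-R) / 6) ^ 3)⁻¹ * ec 0 z)) * ‖φ w‖ := by
      apply setIntegral_mono_on hi.norm.integrableOn ((hφi.norm.const_mul _).integrableOn)
        isOpen_ball.measurableSet.compl
      intro w hw
      have hk := kk_pos (cn_gt n) z w
      rw [norm_smul, Real.norm_eq_abs, abs_of_nonneg (by positivity)]
      rcases eq_or_ne (φ w) 0 with h0 | h0
      · rw [h0]; simp
      · apply mul_le_mul_of_nonneg_right _ (norm_nonneg _)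
        have hd : 1 ≤ dist z w := by
          by_contra hcon
          push Not at hcon
          exact hw (by rw [mem_ball, dist_comm]; exact hcon)
        exact mul_le_mul hJinv (kk_far_decay (cn_gt n) hd (hsupp w h0)) hk.le (by positivity)
    refine h5.trans ?_
    have h6 : ∫ w in (ball z 1)ᶜ, ((JJ 0)⁻¹ * ((√(Real.exp (-R) / 6) ^ 3)⁻¹ * ec 0 z)) * ‖φ w‖ ≤
        ∫ w, ((JJ 0)⁻¹ * ((√(Real.exp (-R) / 6) ^ 3)⁻¹ * ec 0 z)) * ‖φ w‖ := by
      apply setIntegral_le_integral (hφi.norm.const_mul _)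
      exact Eventually.of_forall fun w => by positivity
    refine h6.trans (le_of_eq ?_)
    rw [integral_const_mul, hK2]
    ring
  calc ‖reg φ n z‖ ≤ _ := h1
    _ ≤ K1 * ec 0 z + K2 * ec 0 z := add_le_add h3 h4
    _ = _ := by ring

theorem kk_le {c : ℝ} (hc : -1 < c) (z w : ℍ) : kk c z w ≤ (√(1 + c) ^ 3)⁻¹ := by
  rw [kk_eq_ec]; exact ec_le hc _

theorem integrable_kk_phi {c : ℝ} (hc : -1 < c) (hc' : c ≤ 0) {φ : ℍ → ℂ} (hφ : Continuous φ)
    (hs : HasCompactSupport φ) :
    Integrable (fun p : ℍ × ℍ => kk c p.1 p.2 * ‖φ p.2‖) ((volume : Measure ℍ).prod volume) := by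
  have hφi : Integrable φ := hφ.integrable_of_hasCompactSupport hs
  have hcont : Continuous (fun p : ℍ × ℍ => kk c p.1 p.2 * ‖φ p.2‖) :=
    (continuous_kk hc).mul (hφ.comp continuous_snd).norm
  rw [integrable_prod_iff' hcont.aestronglyMeasurable]
  constructor
  · refine Eventually.of_forall fun w => ?_
    have h := (integrable_kk hc hc' w).mul_const ‖φ w‖
    change Integrable (fun z => kk c z w * ‖φ w‖)
    exact h
  · have h1 : ∀ w : ℍ, ∫ z : ℍ, ‖kk c z w * ‖φ w‖‖ = (∫ z, ec c z) * ‖φ w‖ := by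
      intro w
      have h2 : ∀ z : ℍ, ‖kk c z w * ‖φ w‖‖ = kk c z w * ‖φ w‖ := by
        intro z
        rw [Real.norm_eq_abs, abs_of_nonneg (mul_nonneg (kk_pos hc _ _).le (norm_nonneg _))]
      simp_rw [h2]
      rw [integral_mul_const]
      congr 1
      have h3 := (vol_smul (w.toSL2R)⁻¹).integral_comp (measEmb_smul (w.toSL2R)⁻¹) (ec c)
      rw [← h3]
      apply integral_congr_ae
      exact Eventually.of_forall fun z => kk_eq_ec c z w
    simp_rw [h1]
    exact hφi.norm.const_mul _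

theorem integrable_kk_phi_f {c : ℝ} (hc : -1 < c) (hc' : c ≤ 0) {φ : ℍ → ℂ} (hφ : Continuous φ)
    (hs : HasCompactSupport φ) (f : L2) :
    Integrable (fun p : ℍ × ℍ => (kk c p.1 p.2 : ℂ) * (φ p.2 * f p.1))
      ((volume : Measure ℍ).prod volume) := by
  have hφi : Integrable φ := hφ.integrable_of_hasCompactSupport hs
  have hf2 : Integrable (fun z => ‖f z‖ ^ 2) :=
    (memLp_two_iff_integrable_sq_norm (Lp.memLp f).1).mp (Lp.memLp f)
  have h1 := integrable_kk_phi hc hc' hφ hs
  have h2 : Integrable (fun p : ℍ × ℍ => ‖f p.1‖ ^ 2 * ‖φ p.2‖) ((volume : Measure ℍ).prod volume) :=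
    hf2.mul_prod hφi.norm
  set C : ℝ := (√(1 + c) ^ 3)⁻¹ with hC
  have hC0 : 0 < C := by
    have : 0 < 1 + c := by linarith
    have := Real.sqrt_pos.mpr this
    positivity
  apply ((h1.const_mul C).add h2).mono'
  · have m1 : AEStronglyMeasurable (fun p : ℍ × ℍ => (kk c p.1 p.2 : ℂ))
        ((volume : Measure ℍ).prod volume) :=
      (Complex.continuous_ofReal.comp (continuous_kk hc)).aestronglyMeasurable
    have m2 : AEStronglyMeasurable (fun p : ℍ × ℍ => φ p.2) ((volume : Measure ℍ).prod volume) :=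
      (hφ.comp continuous_snd).aestronglyMeasurable
    have m3 : AEStronglyMeasurable (fun p : ℍ × ℍ => f p.1) ((volume : Measure ℍ).prod volume) :=
      ((Lp.stronglyMeasurable f).comp_measurable measurable_fst).aestronglyMeasurable
    exact m1.mul (m2.mul m3)
  · refine Eventually.of_forall fun p => ?_
    simp only [Pi.add_apply]
    have hk := kk_pos hc p.1 p.2
    have hk2 := kk_le hc p.1 p.2
    rw [norm_mul, norm_mul, Complex.norm_real, Real.norm_eq_abs, abs_of_pos hk]
    have ha := norm_nonneg (φ p.2)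
    have hb := norm_nonneg (f p.1)
    set k := kk c p.1 p.2
    set a := ‖φ p.2‖
    set b := ‖f p.1‖
    have h3 : k * b ≤ C * k + b ^ 2 := by
      have : k * k ≤ C * k := mul_le_mul_of_nonneg_right hk2 hk.le
      nlinarith [sq_nonneg (k - b), sq_nonneg (k + b)]
    calc k * (a * b) = a * (k * b) := by ring
      _ ≤ a * (C * k + b ^ 2) := mul_le_mul_of_nonneg_left h3 ha
      _ = _ := by ring

end Pool.Agent.H22.Hy
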