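import Pool.Agent.H22.HyR

namespace Pool.Agent.H22.Hy

open UpperHalfPlane MeasureTheory Metric Set Filter
open scoped MatrixGroups Topology ENNReal NNReal ComplexInnerProductSpace ComplexConjugate

theorem memLp_norm (f : L2) : MemLp (fun z => ‖f z‖) 2 (volume : Measure ℍ) := (Lp.memLp f).norm

theorem memLp_ec_real : MemLp (fun z : ℍ => ec 0 z) 2 (volume : Measure ℍ) := by
  have h := (memLp_ec (c := 0) (by norm_num) le_rfl 1).norm
  apply h.congr_norm (continuous_ec (by norm_num)).aestronglyMeasurable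
  refine Eventually.of_forall fun z => ?_
  simp

theorem inner_uc {c : ℝ} (hc : -1 < c) (hc' : c ≤ 0) (w : ℍ) (f : L2) :
    ⟪uc hc hc' (w.toSL2R)⁻¹, f⟫ = ∫ z, (kk c z w : ℂ) * f z := by
  rw [L2.inner_def]
  apply integral_congr_ae
  filter_upwards [uc_ae hc hc' (w.toSL2R)⁻¹] with z hz
  rw [hz, ← kk_eq_ec]
  simp [mul_comm]

theorem test_zero {f : L2} (hf : ∀ n w, ∫ z, (kk (cn n) z w : ℂ) * f z = 0) {φ : ℍ → ℂ}
    (hφ : Continuous φ) (hs : HasCompactSupport φ) : ∫ z, φ z * f z = 0 := by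
  obtain ⟨K, hK⟩ := reg_bound hφ hs
  have h1 : ∀ n, ∫ z, reg φ n z * f z = 0 := by
    intro n
    have hi := integrable_kk_phi_f (cn_gt n) (cn_lt n).le hφ hs f
    have e1 : ∀ z : ℍ, reg φ n z * f z =
        ((JJ (cn n))⁻¹ : ℂ) * ∫ w, (kk (cn n) z w : ℂ) * (φ w * f z) := by
      intro z
      unfold reg
      rw [← integral_mul_const, ← integral_const_mul]
      apply integral_congr_ae
      refine Eventually.of_forall fun w => ?_
      simp only [Complex.real_smul]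
      push_cast
      ring
    simp_rw [e1]
    rw [integral_const_mul]
    have e2 := integral_integral_swap (f := fun z w => (kk (cn n) z w : ℂ) * (φ w * f z)) hi
    rw [e2]
    have e3 : ∀ w : ℍ, ∫ z, (kk (cn n) z w : ℂ) * (φ w * f z) = 0 := by
      intro w
      have e4 : ∀ z : ℍ, (kk (cn n) z w : ℂ) * (φ w * f z) = φ w * ((kk (cn n) z w : ℂ) * f z) := by
        intro z; ring
      simp_rw [e4]
      rw [integral_const_mul, hf n w, mul_zero]
    simp_rw [e3]
    simp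
  have h2 : Tendsto (fun n => ∫ z, reg φ n z * f z) atTop (𝓝 (∫ z, φ z * f z)) := by
    apply tendsto_integral_of_dominated_convergence (fun z => K * ec 0 z * ‖f z‖)
    · intro n
      have hi := integrable_kk_phi_f (cn_gt n) (cn_lt n).le hφ hs f
      have h3 := hi.integral_prod_left.aestronglyMeasurable
      have h4 := h3.const_mul ((JJ (cn n))⁻¹ : ℂ)
      apply h4.congr
      refine Eventually.of_forall fun z => ?_
      simp only
      unfold reg
      rw [← integral_mul_const, ← integral_const_mul]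
      apply integral_congr_ae
      refine Eventually.of_forall fun w => ?_
      simp only [Complex.real_smul]
      push_cast
      ring
    · have h3 := (memLp_ec_real.const_mul K).integrable_mul (memLp_norm f)
      exact h3
    · intro n
      refine Eventually.of_forall fun z => ?_
      rw [norm_mul]
      exact mul_le_mul_of_nonneg_right (hK n z) (norm_nonneg _)
    · refine Eventually.of_forall fun z => ?_
      exact (tendsto_reg hφ hs z).mul_const _
  simp_rw [h1] at h2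
  exact (tendsto_nhds_unique h2 tendsto_const_nhds)

theorem eq_zero_of_test {f : L2} (hf : ∀ φ : ℍ → ℂ, Continuous φ → HasCompactSupport φ →
    ∫ z, φ z * f z = 0) : f = 0 := by
  by_contra hne
  have hn : 0 < ‖f‖ := norm_pos_iff.mpr hne
  obtain ⟨g, hgs, hgε, hgc, hgm⟩ := (Lp.memLp f).exists_hasCompactSupport_eLpNorm_sub_le
    (by norm_num) (ε := ENNReal.ofReal (‖f‖ / 2)) (by simpa using hn)
  set G : L2 := hgm.toLp g with hG
  have hGae : (G : ℍ → ℂ) =ᵐ[(volume : Measure ℍ)] g := MemLp.coeFn_toLp _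
  have h1 : ‖f - G‖ ≤ ‖f‖ / 2 := by
    rw [Lp.norm_def]
    have e1 : eLpNorm (f - G : L2) 2 (volume : Measure ℍ) =
        eLpNorm ((f : ℍ → ℂ) - g) 2 (volume : Measure ℍ) := by
      apply eLpNorm_congr_ae
      filter_upwards [Lp.coeFn_sub f G, hGae] with z h1 h2
      rw [h1, Pi.sub_apply, Pi.sub_apply, h2]
    rw [e1]
    exact ENNReal.toReal_le_of_le_ofReal (by positivity) hgε
  have h2 : ⟪G, f⟫ = 0 := by
    rw [L2.inner_def]
    have h3 := hf (fun z => conj (g z)) (Complex.continuous_conj.comp hgc)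
      (hgs.comp_left (g := fun x : ℂ => conj x) (by simp))
    rw [← h3]
    apply integral_congr_ae
    filter_upwards [hGae] with z hz
    rw [hz]
    simp [mul_comm]
  have h3 : ‖f‖ ^ 2 ≤ ‖f‖ / 2 * ‖f‖ := by
    have e1 : ⟪f, f⟫ = ⟪f - G, f⟫ := by rw [inner_sub_left, h2, sub_zero]
    have e2 : ‖⟪f, f⟫‖ = ‖f‖ ^ 2 := by
      rw [inner_self_eq_norm_sq_to_K]; simp
    rw [← e2, e1]
    exact (norm_inner_le_norm _ _).trans (mul_le_mul_of_nonneg_right h1 (norm_nonneg _))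
  nlinarith

theorem growth_dense {d : ℝ} (hd : 0 < d) {κ ρ : ℝ} (hρ : ∀ l, |κ - ph l d| ≤ ρ) :
    Dense (growth (Top hd κ) ρ : Set L2) := by
  rw [Submodule.dense_iff_topologicalClosure_eq_top, Submodule.topologicalClosure_eq_top_iff,
    Submodule.eq_bot_iff]
  intro f hf
  apply eq_zero_of_test
  intro φ hφ hs
  apply test_zero _ hφ hs
  intro n w
  rw [← inner_uc (cn_gt n) (cn_lt n).le w f]
  exact (Submodule.mem_orthogonal _ _).mp hf _ (uc_mem_growth (cn_gt n) (cn_lt n) _ hd hρ)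

theorem Top_norm_le {d : ℝ} (hd : 0 < d) {κ ρ : ℝ} (hρ : ∀ l, |κ - ph l d| ≤ ρ) (f : L2) :
    ‖Top hd κ f‖ ≤ ρ * ‖f‖ :=
  norm_le_of_dense _ (Top_symm hd κ) ((abs_nonneg _).trans (hρ 0)) (growth_dense hd hρ) f

/-- the spectrum bounds -/
theorem form_upper {d : ℝ} (hd : 0 < d) (f : L2) :
    (⟪Aop hd f, f⟫).re ≤ ph 0 d * ‖f‖ ^ 2 := by
  have h1 := Top_norm_le hd (κ := 0) (ρ := ph 0 d) (fun l => by
    rw [zero_sub, abs_neg]; exact abs_ph_le hd l) f
  have h2 : ‖Aop hd f‖ = ‖Top hd 0 f‖ := by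
    rw [Top_apply]; simp
  have h3 : (⟪Aop hd f, f⟫).re ≤ ‖⟪Aop hd f, f⟫‖ := Complex.re_le_norm _
  calc (⟪Aop hd f, f⟫).re ≤ ‖⟪Aop hd f, f⟫‖ := h3
    _ ≤ ‖Aop hd f‖ * ‖f‖ := norm_inner_le_norm _ _
    _ ≤ (ph 0 d * ‖f‖) * ‖f‖ := by
        rw [h2]; exact mul_le_mul_of_nonneg_right h1 (norm_nonneg _)
    _ = _ := by ring

theorem form_lower {d m : ℝ} (hd : 0 < d) (hm : ∀ l, m ≤ ph l d) (f : L2) :
    m * ‖f‖ ^ 2 ≤ (⟪Aop hd f, f⟫).re := by
  have hm0 : 0 ≤ ph 0 d - m := sub_nonneg.mpr (hm 0)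
  have h1 := Top_norm_le hd (κ := ph 0 d) (ρ := ph 0 d - m) (fun l => by
    rw [abs_of_nonneg (sub_nonneg.mpr ((le_abs_self _).trans (abs_ph_le hd l)))]
    linarith [hm l]) f
  have h2 : (⟪Top hd (ph 0 d) f, f⟫).re ≤ (ph 0 d - m) * ‖f‖ ^ 2 := by
    calc (⟪Top hd (ph 0 d) f, f⟫).re ≤ ‖⟪Top hd (ph 0 d) f, f⟫‖ := Complex.re_le_norm _
      _ ≤ ‖Top hd (ph 0 d) f‖ * ‖f‖ := norm_inner_le_norm _ _
      _ ≤ ((ph 0 d - m) * ‖f‖) * ‖f‖ := mul_le_mul_of_nonneg_right h1 (norm_nonneg _)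
      _ = _ := by ring
  have h3 : (⟪Top hd (ph 0 d) f, f⟫).re = ph 0 d * ‖f‖ ^ 2 - (⟪Aop hd f, f⟫).re := by
    rw [Top_apply, inner_sub_left, inner_smul_left, inner_self_eq_norm_sq_to_K]
    simp [← Complex.ofReal_pow]
  rw [h3] at h2
  linarith

end Pool.Agent.H22.Hy
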