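import Pool.Agent.H22.HyS

namespace Pool.Agent.H22.Hy

open UpperHalfPlane MeasureTheory Metric Set Filter
open scoped MatrixGroups Topology ENNReal NNReal ComplexInnerProductSpace ComplexConjugate

/-- rectangle in horocyclic coordinates -/
def BX (X L : ℝ) : Set ℍ := {z | z.re ∈ Icc 0 X ∧ Real.log z.im ∈ Icc 0 L}

theorem measurableSet_BX (X L : ℝ) : MeasurableSet (BX X L) := by
  apply MeasurableSet.inter
  · exact (measurableSet_Icc).preimage continuous_re.measurable
  · exact (measurableSet_Icc).preimage continuous_log_im.measurable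

theorem mem_BX_hc (X L x v : ℝ) : hc (x, v) ∈ BX X L ↔ x ∈ Icc 0 X ∧ v ∈ Icc 0 L := by
  unfold BX
  simp [Real.log_exp]

/-- weighted volume in coordinates -/
theorem lintegral_im {G : ℍ → ℝ≥0∞} (hG : Measurable G) :
    ∫⁻ z, ENNReal.ofReal z.im * G z = ∫⁻ x : ℝ, ∫⁻ v : ℝ, G (hc (x, v)) := by
  have him : Measurable (fun w : ℍ => ENNReal.ofReal w.im) :=
    continuous_im.measurable.ennreal_ofReal
  rw [lintegral_vol (F := fun z => ENNReal.ofReal z.im * G z) (him.mul hG)]
  apply lintegral_congr; intro x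
  apply lintegral_congr; intro v
  rw [hc_im, ← mul_assoc, ← ENNReal.ofReal_mul (Real.exp_pos _).le, ← Real.exp_add]
  simp

theorem lintegral_im_BX {X L : ℝ} :
    ∫⁻ z, ENNReal.ofReal z.im * (BX X L).indicator 1 z = ENNReal.ofReal X * ENNReal.ofReal L := by
  rw [lintegral_im (measurable_one.indicator (measurableSet_BX X L))]
  have h : ∀ x v : ℝ, (BX X L).indicator (1 : ℍ → ℝ≥0∞) (hc (x, v)) =
      (Icc 0 X).indicator (fun _ => (Icc 0 L).indicator (fun _ => (1 : ℝ≥0∞)) v) x := by
    intro x v
    by_cases hx : x ∈ Icc 0 X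
    · by_cases hv : v ∈ Icc 0 L
      · rw [indicator_of_mem ((mem_BX_hc X L x v).mpr ⟨hx, hv⟩), indicator_of_mem hx,
          indicator_of_mem hv]; rfl
      · rw [indicator_of_notMem (fun h => hv ((mem_BX_hc X L x v).mp h).2), indicator_of_mem hx,
          indicator_of_notMem hv]
    · rw [indicator_of_notMem (fun h => hx ((mem_BX_hc X L x v).mp h).1), indicator_of_notMem hx]
  simp_rw [h]
  have h2 : ∀ x : ℝ, ∫⁻ v : ℝ, (Icc 0 X).indicator
      (fun _ => (Icc 0 L).indicator (fun _ => (1 : ℝ≥0∞)) v) x =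
      (Icc 0 X).indicator (fun _ => ENNReal.ofReal L) x := by
    intro x
    by_cases hx : x ∈ Icc 0 X
    · simp only [indicator_of_mem hx]
      rw [lintegral_indicator measurableSet_Icc, setLIntegral_const, Real.volume_Icc]
      simp
    · simp only [indicator_of_notMem hx]
      simp
  simp_rw [h2]
  rw [lintegral_indicator measurableSet_Icc, setLIntegral_const, Real.volume_Icc, sub_zero, mul_comm]

/-- boundary effect of a right translation -/
theorem lintegral_im_BX_diff {X L : ℝ} (hX : 0 ≤ X) (hL : 0 ≤ L) (w : ℍ) :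
    ∫⁻ z, ENNReal.ofReal z.im * ((BX X L).indicator 1 z * (BX X L)ᶜ.indicator 1 (mulS z w)) ≤
      ENNReal.ofReal (X * |Real.log w.im| + L * (Real.exp L * |w.re|)) := by
  have hm : Measurable (fun z : ℍ => mulS z w) :=
    (continuous_mulS.comp (continuous_id.prodMk continuous_const)).measurable
  have hm1 : Measurable ((BX X L).indicator (1 : ℍ → ℝ≥0∞)) :=
    measurable_one.indicator (measurableSet_BX X L)
  have hm2 : Measurable ((BX X L)ᶜ.indicator (1 : ℍ → ℝ≥0∞)) :=
    measurable_one.indicator (measurableSet_BX X L).compl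
  rw [lintegral_im (G := fun z => (BX X L).indicator 1 z * (BX X L)ᶜ.indicator 1 (mulS z w))
    (hm1.mul (hm2.comp hm))]
  set s := Real.log w.im with hs
  set a := w.re with ha
  -- pointwise bound
  have hpt : ∀ x v : ℝ, (BX X L).indicator (1 : ℍ → ℝ≥0∞) (hc (x, v)) *
      (BX X L)ᶜ.indicator 1 (mulS (hc (x, v)) w) ≤
      (Icc 0 X).indicator 1 x * ((Icc 0 L) \ (Icc (-s) (L - s))).indicator 1 v +
      (Icc 0 L).indicator 1 v *
        ((Icc 0 X) \ (Icc (-(Real.exp v * a)) (X - Real.exp v * a))).indicator 1 x := by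
    intro x v
    by_cases hmem : hc (x, v) ∈ BX X L
    · obtain ⟨hx, hv⟩ := (mem_BX_hc X L x v).mp hmem
      by_cases hmem2 : mulS (hc (x, v)) w ∈ BX X L
      · have : mulS (hc (x, v)) w ∉ (BX X L)ᶜ := fun h => h hmem2
        rw [indicator_of_notMem this, mul_zero]
        exact zero_le
      · rw [indicator_of_mem hmem, indicator_of_mem (show mulS (hc (x, v)) w ∈ (BX X L)ᶜ from hmem2)]
        rw [indicator_of_mem hx, indicator_of_mem hv]
        simp only [Pi.one_apply, one_mul]
        have hcases : v ∉ Icc (-s) (L - s) ∨ x ∉ Icc (-(Real.exp v * a)) (X - Real.exp v * a) := by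
          by_contra hcon
          push Not at hcon
          apply hmem2
          constructor
          · rw [mulS_re, hc_re, hc_im]
            constructor <;> linarith [hcon.2.1, hcon.2.2]
          · rw [mulS_im, hc_im, Real.log_mul (Real.exp_pos v).ne' w.im_pos.ne', Real.log_exp]
            constructor <;> linarith [hcon.1.1, hcon.1.2]
        rcases hcases with h | h
        · rw [indicator_of_mem (show v ∈ (Icc 0 L) \ (Icc (-s) (L - s)) from ⟨hv, h⟩)]
          exact le_self_add
        · rw [indicator_of_mem (show x ∈ (Icc 0 X) \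
            (Icc (-(Real.exp v * a)) (X - Real.exp v * a)) from ⟨hx, h⟩)]
          exact le_add_self
    · rw [indicator_of_notMem hmem, zero_mul]
      exact zero_le
  have hdiff : ∀ (Y t : ℝ), 0 ≤ Y → volume ((Icc 0 Y) \ (Icc (-t) (Y - t))) ≤ ENNReal.ofReal |t| := by
    intro Y t hY
    rcases le_total 0 t with ht | ht
    · have hsub : (Icc 0 Y) \ (Icc (-t) (Y - t)) ⊆ Icc (Y - t) Y := by
        rintro x ⟨⟨h1, h2⟩, h3⟩
        rw [mem_Icc, not_and, not_le] at h3
        exact ⟨(h3 (by linarith)).le, h2⟩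
      refine (measure_mono hsub).trans ?_
      rw [Real.volume_Icc, abs_of_nonneg ht]
      apply ENNReal.ofReal_le_ofReal; linarith
    · have hsub : (Icc 0 Y) \ (Icc (-t) (Y - t)) ⊆ Icc 0 (-t) := by
        rintro x ⟨⟨h1, h2⟩, h3⟩
        rw [mem_Icc, not_and_or, not_le, not_le] at h3
        refine ⟨h1, ?_⟩
        rcases h3 with h3 | h3
        · exact h3.le
        · linarith
      refine (measure_mono hsub).trans ?_
      rw [Real.volume_Icc, abs_of_nonpos ht]
      apply ENNReal.ofReal_le_ofReal; linarith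
  have hmA : Measurable (fun p : ℝ × ℝ => (Icc 0 X).indicator (1 : ℝ → ℝ≥0∞) p.1 *
      ((Icc 0 L) \ (Icc (-s) (L - s))).indicator 1 p.2) :=
    ((measurable_one.indicator measurableSet_Icc).comp measurable_fst).mul
      ((measurable_one.indicator (measurableSet_Icc.diff measurableSet_Icc)).comp measurable_snd)
  have hSm : MeasurableSet {p : ℝ × ℝ | p.1 ∈ (Icc 0 X) \
      (Icc (-(Real.exp p.2 * a)) (X - Real.exp p.2 * a))} := by
    have c1 : Continuous (fun p : ℝ × ℝ => Real.exp p.2 * a) := by fun_prop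
    have e1 : {p : ℝ × ℝ | p.1 ∈ (Icc 0 X) \ (Icc (-(Real.exp p.2 * a)) (X - Real.exp p.2 * a))} =
        (Prod.fst ⁻¹' (Icc 0 X)) \ ({p : ℝ × ℝ | -(Real.exp p.2 * a) ≤ p.1} ∩
          {p : ℝ × ℝ | p.1 ≤ X - Real.exp p.2 * a}) := by
      ext p
      simp [mem_Icc]
    rw [e1]
    exact (measurable_fst measurableSet_Icc).diff
      ((isClosed_le c1.neg continuous_fst).measurableSet.inter
        (isClosed_le continuous_fst (continuous_const.sub c1)).measurableSet)
  have hmB : Measurable (fun p : ℝ × ℝ => (Icc 0 L).indicator (1 : ℝ → ℝ≥0∞) p.2 *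
      ((Icc 0 X) \ (Icc (-(Real.exp p.2 * a)) (X - Real.exp p.2 * a))).indicator
        (1 : ℝ → ℝ≥0∞) p.1) := by
    apply ((measurable_one.indicator measurableSet_Icc).comp measurable_snd).mul
    have e2 : (fun p : ℝ × ℝ => ((Icc 0 X) \
        (Icc (-(Real.exp p.2 * a)) (X - Real.exp p.2 * a))).indicator (1 : ℝ → ℝ≥0∞) p.1) =
        {p : ℝ × ℝ | p.1 ∈ (Icc 0 X) \ (Icc (-(Real.exp p.2 * a)) (X - Real.exp p.2 * a))}.indicator
          1 := by
      funext p
      by_cases hp : p.1 ∈ (Icc 0 X) \ (Icc (-(Real.exp p.2 * a)) (X - Real.exp p.2 * a))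
      · rw [indicator_of_mem hp, indicator_of_mem (show p ∈ {p : ℝ × ℝ | p.1 ∈ (Icc 0 X) \
          (Icc (-(Real.exp p.2 * a)) (X - Real.exp p.2 * a))} from hp)]; rfl
      · rw [indicator_of_notMem hp, indicator_of_notMem (show p ∉ {p : ℝ × ℝ | p.1 ∈ (Icc 0 X) \
          (Icc (-(Real.exp p.2 * a)) (X - Real.exp p.2 * a))} from hp)]
    rw [e2]
    exact measurable_one.indicator hSm
  calc ∫⁻ x : ℝ, ∫⁻ v : ℝ, (BX X L).indicator (1 : ℍ → ℝ≥0∞) (hc (x, v)) *
      (BX X L)ᶜ.indicator 1 (mulS (hc (x, v)) w)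
      ≤ ∫⁻ x : ℝ, ∫⁻ v : ℝ, ((Icc 0 X).indicator 1 x *
          ((Icc 0 L) \ (Icc (-s) (L - s))).indicator 1 v +
        (Icc 0 L).indicator 1 v *
        ((Icc 0 X) \ (Icc (-(Real.exp v * a)) (X - Real.exp v * a))).indicator 1 x) := by
        apply lintegral_mono; intro x
        apply lintegral_mono; intro v
        exact hpt x v
    _ = (∫⁻ x : ℝ, ∫⁻ v : ℝ, (Icc 0 X).indicator 1 x *
          ((Icc 0 L) \ (Icc (-s) (L - s))).indicator 1 v) +
        ∫⁻ x : ℝ, ∫⁻ v : ℝ, (Icc 0 L).indicator 1 v *
        ((Icc 0 X) \ (Icc (-(Real.exp v * a)) (X - Real.exp v * a))).indicator 1 x := by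
        rw [← lintegral_add_left]
        · apply lintegral_congr; intro x
          rw [lintegral_add_left]
          exact hmA.comp (measurable_const.prodMk measurable_id)
        · exact hmA.lintegral_prod_right'
    _ ≤ ENNReal.ofReal (X * |s|) + ENNReal.ofReal (L * (Real.exp L * |a|)) := by
        apply add_le_add
        · have e1 : ∀ x : ℝ, ∫⁻ v : ℝ, (Icc 0 X).indicator (1 : ℝ → ℝ≥0∞) x *
              ((Icc 0 L) \ (Icc (-s) (L - s))).indicator 1 v =
              (Icc 0 X).indicator 1 x * volume ((Icc 0 L) \ (Icc (-s) (L - s))) := by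
            intro x
            rw [lintegral_const_mul _ (measurable_one.indicator
              (measurableSet_Icc.diff measurableSet_Icc)),
              lintegral_indicator_one (measurableSet_Icc.diff measurableSet_Icc)]
          simp_rw [e1]
          rw [lintegral_mul_const _ (measurable_one.indicator measurableSet_Icc),
            lintegral_indicator_one measurableSet_Icc, Real.volume_Icc, sub_zero,
            ENNReal.ofReal_mul hX]
          gcongr
          exact hdiff L s hL
        · have e1 := lintegral_lintegral_swap (μ := (volume : Measure ℝ)) (ν := (volume : Measure ℝ))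
            (f := fun x v => (Icc 0 L).indicator (1 : ℝ → ℝ≥0∞) v *
              ((Icc 0 X) \ (Icc (-(Real.exp v * a)) (X - Real.exp v * a))).indicator
                (1 : ℝ → ℝ≥0∞) x) hmB.aemeasurable
          rw [e1]
          have e2 : ∀ v : ℝ, ∫⁻ x : ℝ, (Icc 0 L).indicator (1 : ℝ → ℝ≥0∞) v *
              ((Icc 0 X) \ (Icc (-(Real.exp v * a)) (X - Real.exp v * a))).indicator 1 x ≤
              (Icc 0 L).indicator (fun _ => ENNReal.ofReal (Real.exp L * |a|)) v := by
            intro v
            by_cases hv : v ∈ Icc 0 L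
            · rw [indicator_of_mem hv, indicator_of_mem hv]
              simp only [Pi.one_apply, one_mul]
              rw [lintegral_indicator_one (measurableSet_Icc.diff measurableSet_Icc)]
              refine (hdiff X (Real.exp v * a) hX).trans ?_
              apply ENNReal.ofReal_le_ofReal
              rw [abs_mul, abs_of_pos (Real.exp_pos v)]
              exact mul_le_mul_of_nonneg_right (Real.exp_le_exp.mpr hv.2) (abs_nonneg _)
            · rw [indicator_of_notMem hv, indicator_of_notMem hv]
              simp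
          refine (lintegral_mono e2).trans ?_
          rw [lintegral_indicator measurableSet_Icc, setLIntegral_const, Real.volume_Icc, sub_zero,
            ENNReal.ofReal_mul hL, mul_comm]
    _ = _ := (ENNReal.ofReal_add (by positivity) (by positivity)).symm

end Pool.Agent.H22.Hy
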