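import Pool.Agent.H22.HyT

namespace Pool.Agent.H22.Hy

open UpperHalfPlane MeasureTheory Metric Set Filter
open scoped MatrixGroups Topology ENNReal NNReal ComplexInnerProductSpace ComplexConjugate

/-- truncated wave -/
noncomputable def tau (l X L : ℝ) : ℍ → ℂ := (BX X L).indicator (wave l)

theorem measurable_tau (l X L : ℝ) : Measurable (tau l X L) :=
  (continuous_wave l).measurable.indicator (measurableSet_BX X L)

theorem enorm_wave (l : ℝ) (z : ℍ) : ‖wave l z‖ₑ = ENNReal.ofReal (√z.im) := by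
  rw [← ofReal_norm, norm_wave]

theorem enorm_tau_sq (l X L : ℝ) (z : ℍ) :
    ‖tau l X L z‖ₑ ^ 2 = ENNReal.ofReal z.im * (BX X L).indicator 1 z := by
  unfold tau
  by_cases hz : z ∈ BX X L
  · rw [indicator_of_mem hz, indicator_of_mem hz, enorm_wave, ← ENNReal.ofReal_pow (Real.sqrt_nonneg _),
      Real.sq_sqrt z.im_pos.le]
    simp
  · rw [indicator_of_notMem hz, indicator_of_notMem hz]
    simp

theorem memLp_tau (l X L : ℝ) : MemLp (tau l X L) 2 (volume : Measure ℍ) := by
  refine ⟨(measurable_tau l X L).aestronglyMeasurable, ?_⟩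
  rw [eLpNorm_lt_top_iff_lintegral_rpow_enorm_lt_top (by norm_num) (by norm_num)]
  have h : ∀ z, ‖tau l X L z‖ₑ ^ (2 : ℝ≥0∞).toReal =
      ENNReal.ofReal z.im * (BX X L).indicator 1 z := by
    intro z
    rw [← enorm_tau_sq l X L z]
    simp
  simp_rw [h]
  rw [lintegral_im_BX]
  exact ENNReal.mul_lt_top ENNReal.ofReal_lt_top ENNReal.ofReal_lt_top

/-- the test element -/
noncomputable def Tau (l X L : ℝ) : L2 := (memLp_tau l X L).toLp _

theorem Tau_ae (l X L : ℝ) : (Tau l X L : ℍ → ℂ) =ᵐ[(volume : Measure ℍ)] tau l X L :=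
  MemLp.coeFn_toLp _

theorem norm_tau_sq (l X L : ℝ) (z : ℍ) :
    ‖tau l X L z‖ ^ 2 = (BX X L).indicator (fun z => z.im) z := by
  unfold tau
  by_cases hz : z ∈ BX X L
  · rw [indicator_of_mem hz, indicator_of_mem hz, norm_wave, Real.sq_sqrt z.im_pos.le]
  · rw [indicator_of_notMem hz, indicator_of_notMem hz]
    simp

theorem integral_im_BX {X L : ℝ} (hX : 0 ≤ X) (hL : 0 ≤ L) :
    ∫ z, (BX X L).indicator (fun z => z.im) z = X * L := by
  rw [integral_eq_lintegral_of_nonneg_ae]
  · have h : ∀ z : ℍ, ENNReal.ofReal ((BX X L).indicator (fun z => z.im) z) =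
        ENNReal.ofReal z.im * (BX X L).indicator 1 z := by
      intro z
      by_cases hz : z ∈ BX X L
      · rw [indicator_of_mem hz, indicator_of_mem hz]; simp
      · rw [indicator_of_notMem hz, indicator_of_notMem hz]; simp
    simp_rw [h]
    rw [lintegral_im_BX, ENNReal.toReal_mul, ENNReal.toReal_ofReal hX, ENNReal.toReal_ofReal hL]
  · refine Eventually.of_forall fun z => ?_
    exact indicator_nonneg (fun z _ => z.im_pos.le) z
  · exact (continuous_im.measurable.indicator (measurableSet_BX X L)).aestronglyMeasurable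

theorem Tau_norm_sq (l : ℝ) {X L : ℝ} (hX : 0 ≤ X) (hL : 0 ≤ L) : ‖Tau l X L‖ ^ 2 = X * L := by
  have h1 : ⟪Tau l X L, Tau l X L⟫ = ((‖Tau l X L‖ ^ 2 : ℝ) : ℂ) := by
    rw [inner_self_eq_norm_sq_to_K]; simp
  have h2 : ⟪Tau l X L, Tau l X L⟫ = ((X * L : ℝ) : ℂ) := by
    rw [L2.inner_def, ← integral_im_BX hX hL, ← integral_complex_ofReal]
    apply integral_congr_ae
    filter_upwards [Tau_ae l X L] with z hz
    rw [hz, inner_self_eq_norm_sq_to_K, ← norm_tau_sq l]
    simp
  rw [h1] at h2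
  exact_mod_cast h2

/-- difference function -/
noncomputable def DD (l X L : ℝ) (p : ℍ × ℍ) : ℂ :=
  conj (tau l X L p.1) * (wave l p.2 - tau l X L p.2)

theorem measurable_DD (l X L : ℝ) : Measurable (DD l X L) := by
  unfold DD
  have h1 : Measurable (fun p : ℍ × ℍ => tau l X L p.1) := (measurable_tau l X L).comp measurable_fst
  have h2 : Measurable (fun p : ℍ × ℍ => tau l X L p.2) := (measurable_tau l X L).comp measurable_snd
  have h3 : Measurable (fun p : ℍ × ℍ => wave l p.2) :=
    (continuous_wave l).measurable.comp measurable_snd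
  exact (Complex.continuous_conj.measurable.comp h1).mul (h3.sub h2)

theorem lintegral_DD (d : ℝ) (l : ℝ) :
    ∃ C : ℝ, 0 ≤ C ∧ ∀ X L : ℝ, 0 ≤ X → 0 ≤ L →
      ∫⁻ p, ‖DD l X L p‖ₑ ∂(PI d) ≤ ENNReal.ofReal (C * (X + L * Real.exp L)) := by
  set F1 : ℍ → ℝ := fun w => √w.im * |Real.log w.im| with hF1
  set F2 : ℍ → ℝ := fun w => √w.im * |w.re| with hF2
  have c1 : Continuous F1 := (continuous_im.sqrt).mul continuous_log_im.abs
  have c2 : Continuous F2 := (continuous_im.sqrt).mul continuous_re.abs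
  have i1 := integrable_sig d c1
  have i2 := integrable_sig d c2
  have n1 : 0 ≤ ∫ w, F1 w ∂(sig d) := integral_nonneg fun w => by simp only [hF1]; positivity
  have n2 : 0 ≤ ∫ w, F2 w ∂(sig d) := integral_nonneg fun w => by simp only [hF2]; positivity
  refine ⟨(∫ w, F1 w ∂(sig d)) + ∫ w, F2 w ∂(sig d), add_nonneg n1 n2, fun X L hX hL => ?_⟩
  have hDm := (measurable_DD l X L).enorm
  rw [lintegral_PI d hDm]
  have hpt : ∀ z w : ℍ, ‖DD l X L (z, mulS z w)‖ₑ =
      ENNReal.ofReal z.im * ((BX X L).indicator 1 z * (BX X L)ᶜ.indicator 1 (mulS z w)) *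
        ENNReal.ofReal (√w.im) := by
    intro z w
    unfold DD tau
    by_cases hz : z ∈ BX X L
    · by_cases hw : mulS z w ∈ BX X L
      · rw [indicator_of_mem hz, indicator_of_mem hw,
          indicator_of_notMem (show mulS z w ∉ (BX X L)ᶜ from fun h => h hw)]
        simp
      · rw [indicator_of_mem hz, indicator_of_notMem hw, indicator_of_mem hz,
          indicator_of_mem (show mulS z w ∈ (BX X L)ᶜ from hw), sub_zero, enorm_mul]
        have e1 : ‖conj (wave l z)‖ₑ = ‖wave l z‖ₑ := by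
          rw [← ofReal_norm, ← ofReal_norm, RCLike.norm_conj]
        rw [e1, enorm_wave, enorm_wave, mulS_im, Real.sqrt_mul z.im_pos.le,
          ← ENNReal.ofReal_mul (Real.sqrt_nonneg _), ← mul_assoc, Real.mul_self_sqrt z.im_pos.le,
          ENNReal.ofReal_mul z.im_pos.le]
        simp
    · rw [indicator_of_notMem hz, indicator_of_notMem hz]
      simp
  simp_rw [hpt]
  have hm : Measurable (fun p : ℍ × ℍ => ENNReal.ofReal p.1.im *
      ((BX X L).indicator (1 : ℍ → ℝ≥0∞) p.1 * (BX X L)ᶜ.indicator 1 (mulS p.1 p.2)) *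
        ENNReal.ofReal (√p.2.im)) := by
    have m1 : Measurable ((BX X L).indicator (1 : ℍ → ℝ≥0∞)) :=
      measurable_one.indicator (measurableSet_BX X L)
    have m2 : Measurable ((BX X L)ᶜ.indicator (1 : ℍ → ℝ≥0∞)) :=
      measurable_one.indicator (measurableSet_BX X L).compl
    have m3 : Measurable (fun p : ℍ × ℍ => ENNReal.ofReal p.1.im) :=
      (continuous_im.measurable.comp measurable_fst).ennreal_ofReal
    have m4 : Measurable (fun p : ℍ × ℍ => ENNReal.ofReal (√p.2.im)) :=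
      (continuous_im.sqrt.measurable.comp measurable_snd).ennreal_ofReal
    exact (m3.mul ((m1.comp measurable_fst).mul (m2.comp continuous_mulS.measurable))).mul m4
  rw [lintegral_lintegral_swap (f := fun z w => ENNReal.ofReal z.im *
      ((BX X L).indicator (1 : ℍ → ℝ≥0∞) z * (BX X L)ᶜ.indicator 1 (mulS z w)) *
        ENNReal.ofReal (√w.im)) hm.aemeasurable]
  have h1 : ∀ w : ℍ, ∫⁻ z, ENNReal.ofReal z.im *
      ((BX X L).indicator (1 : ℍ → ℝ≥0∞) z * (BX X L)ᶜ.indicator 1 (mulS z w)) *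
        ENNReal.ofReal (√w.im) ≤ ENNReal.ofReal (X * F1 w + L * Real.exp L * F2 w) := by
    intro w
    rw [lintegral_mul_const' _ _ ENNReal.ofReal_ne_top]
    refine (mul_le_mul_left (lintegral_im_BX_diff hX hL w) _).trans ?_
    rw [← ENNReal.ofReal_mul (by positivity)]
    apply ENNReal.ofReal_le_ofReal
    simp only [hF1, hF2]
    apply le_of_eq
    ring
  refine (lintegral_mono h1).trans ?_
  have i3 : Integrable (fun w => X * F1 w + L * Real.exp L * F2 w) (sig d) :=
    (i1.const_mul X).add (i2.const_mul _)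
  rw [← ofReal_integral_eq_lintegral_ofReal i3]
  · apply ENNReal.ofReal_le_ofReal
    rw [integral_add (i1.const_mul X) (i2.const_mul _), integral_const_mul, integral_const_mul]
    have hE : 0 ≤ L * Real.exp L := by positivity
    nlinarith
  · refine Eventually.of_forall fun w => ?_
    simp only [hF1, hF2, Pi.zero_apply]
    positivity

theorem integrable_tau_tau {d : ℝ} (hd : 0 < d) (l X L : ℝ) :
    Integrable (fun p : ℍ × ℍ => conj (tau l X L p.1) * tau l X L p.2) (PI d) := by
  have h1 : MemLp (fun p : ℍ × ℍ => tau l X L p.1) 2 (PI d) :=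
    (memLp_tau l X L).comp_measurePreserving (mp_fst d)
  have h2 : MemLp (fun p : ℍ × ℍ => tau l X L p.2) 2 (PI d) :=
    (memLp_tau l X L).comp_measurePreserving (mp_snd hd)
  exact (memLp_conj h1).integrable_mul h2

theorem inner_Tau {d : ℝ} (hd : 0 < d) (l X L : ℝ) :
    ⟪Tau l X L, Aop hd (Tau l X L)⟫ = ∫ p, conj (tau l X L p.1) * tau l X L p.2 ∂(PI d) := by
  rw [inner_Aop]
  apply integral_congr_ae
  have h1 := (mp_fst d).quasiMeasurePreserving.ae_eq_comp (Tau_ae l X L)
  have h2 := (mp_snd hd).quasiMeasurePreserving.ae_eq_comp (Tau_ae l X L)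
  filter_upwards [h1, h2] with p h1 h2
  simp only [Function.comp_apply] at h1 h2
  rw [h1, h2]

theorem Tau_error {d : ℝ} (hd : 0 < d) (l : ℝ) :
    ∃ C : ℝ, 0 ≤ C ∧ ∀ X L : ℝ, 0 ≤ X → 0 ≤ L →
      ‖⟪Tau l X L, Aop hd (Tau l X L)⟫ - ((ph l d * (X * L) : ℝ) : ℂ)‖ ≤ C * (X + L * Real.exp L) := by
  obtain ⟨C, hC, hb⟩ := lintegral_DD d l
  refine ⟨C, hC, fun X L hX hL => ?_⟩
  have hB := hb X L hX hL
  have hDi : Integrable (DD l X L) (PI d) := by
    refine ⟨(measurable_DD l X L).aestronglyMeasurable, ?_⟩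
    unfold HasFiniteIntegral
    exact lt_of_le_of_lt hB ENNReal.ofReal_lt_top
  have hsum : Integrable (fun p : ℍ × ℍ => conj (tau l X L p.1) * wave l p.2) (PI d) := by
    have h := (integrable_tau_tau hd l X L).add hDi
    apply h.congr
    refine Eventually.of_forall fun p => ?_
    simp only [Pi.add_apply, DD]
    ring
  have e1 : ∫ p, conj (tau l X L p.1) * wave l p.2 ∂(PI d) = ((ph l d * (X * L) : ℝ) : ℂ) := by
    rw [integral_PI hsum]
    have h2 : ∀ z : ℍ, ∫ w, conj (tau l X L z) * wave l (mulS z w) ∂(sig d) =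
        (((ph l d : ℝ) * (BX X L).indicator (fun z => z.im) z : ℝ) : ℂ) := by
      intro z
      rw [integral_const_mul, ← circleMean_eq hd (wave l) z, circleMean_wave hd, ← norm_tau_sq l]
      by_cases hz : z ∈ BX X L
      · have e : wave l z = tau l X L z := by unfold tau; rw [indicator_of_mem hz]
        rw [e]
        push_cast
        rw [← Complex.conj_mul']
        ring
      · have e : tau l X L z = 0 := by unfold tau; rw [indicator_of_notMem hz]
        rw [e]
        simp
    simp only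
    simp_rw [h2]
    rw [integral_complex_ofReal, integral_const_mul, integral_im_BX hX hL]
  have e2 : ⟪Tau l X L, Aop hd (Tau l X L)⟫ - ((ph l d * (X * L) : ℝ) : ℂ) =
      - ∫ p, DD l X L p ∂(PI d) := by
    rw [inner_Tau, ← e1, ← integral_sub (integrable_tau_tau hd l X L) hsum, ← integral_neg]
    apply integral_congr_ae
    refine Eventually.of_forall fun p => ?_
    simp only [DD]
    ring
  rw [e2, norm_neg]
  have h3 := ENNReal.toReal_mono ENNReal.ofReal_ne_top hB
  rw [ENNReal.toReal_ofReal (by positivity)] at h3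
  refine le_trans ?_ h3
  have h4 := norm_integral_le_lintegral_norm (μ := PI d) (DD l X L)
  refine h4.trans (le_of_eq ?_)
  congr 1
  apply lintegral_congr
  intro p
  exact ofReal_norm _

theorem sharp {d : ℝ} (hd : 0 < d) (l : ℝ) {ε : ℝ} (hε : 0 < ε) :
    ∃ f : L2, ‖f‖ = 1 ∧ |(⟪Aop hd f, f⟫).re - ph l d| ≤ ε := by
  obtain ⟨C, hC, hb⟩ := Tau_error hd l
  -- choose L then X
  set L : ℝ := 2 * (C + 1) / ε with hL
  have hL0 : 0 < L := by positivity
  set X : ℝ := 2 * (C + 1) * Real.exp L / ε with hX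
  have hX0 : 0 < X := by positivity
  have hXL : 0 < X * L := by positivity
  have hB := hb X L hX0.le hL0.le
  have hn := Tau_norm_sq l hX0.le hL0.le
  set T := Tau l X L with hT
  have hTn : 0 < ‖T‖ := by
    rcases (norm_nonneg T).eq_or_lt with h | h
    · rw [← h] at hn; nlinarith
    · exact h
  refine ⟨((‖T‖⁻¹ : ℝ) : ℂ) • T, ?_, ?_⟩
  · rw [norm_smul, Complex.norm_real, Real.norm_eq_abs, abs_of_pos (inv_pos.mpr hTn)]
    exact inv_mul_cancel₀ hTn.ne'
  · have e1 : ⟪Aop hd (((‖T‖⁻¹ : ℝ) : ℂ) • T), ((‖T‖⁻¹ : ℝ) : ℂ) • T⟫ =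
        ((((X * L)⁻¹ : ℝ) : ℂ)) * ⟪T, Aop hd T⟫ := by
      rw [map_smul, inner_smul_left, inner_smul_right, ← inner_Aop_symm, ← hn]
      simp only [Complex.conj_ofReal]
      push_cast
      ring
    rw [e1, Complex.re_ofReal_mul]
    have e2 : (X * L)⁻¹ * (⟪T, Aop hd T⟫).re - ph l d =
        (X * L)⁻¹ * (⟪T, Aop hd T⟫ - ((ph l d * (X * L) : ℝ) : ℂ)).re := by
      rw [Complex.sub_re, Complex.ofReal_re]
      field_simp
    rw [e2, abs_mul, abs_of_pos (inv_pos.mpr hXL)]
    have e3 : |(⟪T, Aop hd T⟫ - ((ph l d * (X * L) : ℝ) : ℂ)).re| ≤ C * (X + L * Real.exp L) :=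
      (Complex.abs_re_le_norm _).trans hB
    calc (X * L)⁻¹ * |(⟪T, Aop hd T⟫ - ((ph l d * (X * L) : ℝ) : ℂ)).re|
        ≤ (X * L)⁻¹ * (C * (X + L * Real.exp L)) :=
          mul_le_mul_of_nonneg_left e3 (inv_pos.mpr hXL).le
      _ = C / L + C * Real.exp L / X := by field_simp
      _ ≤ ε / 2 + ε / 2 := by
          apply add_le_add
          · rw [div_le_iff₀ hL0, hL]
            have : ε / 2 * (2 * (C + 1) / ε) = C + 1 := by field_simp
            rw [this]; linarith
          · rw [div_le_iff₀ hX0, hX]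
            have : ε / 2 * (2 * (C + 1) * Real.exp L / ε) = (C + 1) * Real.exp L := by field_simp
            rw [this]
            have := Real.exp_pos L
            nlinarith
      _ = ε := by ring

end Pool.Agent.H22.Hy
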