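import Mathlib

namespace Pool.Agent.H22.Hy

open MeasureTheory Set Filter
open scoped Topology

/-- the convolution quotient of two sequences -/
noncomputable def quo (a b : ℕ → ℝ) : ℕ → ℝ
  | n => (b n - ∑ j : Fin n, a (n - j) * quo a b j) / a 0
decreasing_by exact j.2

theorem quo_spec {a b : ℕ → ℝ} (ha : a 0 ≠ 0) (n : ℕ) :
    b n = ∑ j ∈ Finset.range (n + 1), a (n - j) * quo a b j := by
  rw [Finset.sum_range_succ, Nat.sub_self]
  have h : quo a b n = (b n - ∑ j : Fin n, a (n - j) * quo a b j) / a 0 := by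
    conv_lhs => unfold quo
  rw [h, Finset.sum_range (fun j => a (n - j) * quo a b j)]
  field_simp
  ring

theorem quo_nonneg {a b : ℕ → ℝ} (ha : ∀ n, 0 < a n) (hlc : ∀ n, a (n + 1) ^ 2 ≤ a n * a (n + 2))
    (hb0 : 0 ≤ b 0) (hr : ∀ n, b n * a (n + 1) ≤ b (n + 1) * a n) (n : ℕ) : 0 ≤ quo a b n := by
  -- ratios are monotone
  have hrat : ∀ m k : ℕ, a (m + 1) * a (m + k) ≤ a m * a (m + k + 1) := by
    intro m k
    induction k with
    | zero => rw [add_zero]; exact le_of_eq (mul_comm _ _)
    | succ k ih =>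
      -- a (m+1) a(m+k+1) ≤ a m a (m+k+2)
      have h1 := hlc (m + k)
      have p1 := ha (m + k)
      have p2 := ha (m + k + 1)
      have p3 := ha (m + k + 2)
      have p4 := ha m
      have p5 := ha (m + 1)
      have h2 : a (m + 1) * a (m + k + 1) * a (m + k) ≤ a m * a (m + k + 2) * a (m + k) := by
        calc a (m + 1) * a (m + k + 1) * a (m + k) = (a (m + 1) * a (m + k)) * a (m + k + 1) := by ring
          _ ≤ (a m * a (m + k + 1)) * a (m + k + 1) := mul_le_mul_of_nonneg_right ih p2.le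
          _ = a m * a (m + k + 1) ^ 2 := by ring
          _ ≤ a m * (a (m + k) * a (m + k + 2)) := mul_le_mul_of_nonneg_left h1 p4.le
          _ = a m * a (m + k + 2) * a (m + k) := by ring
      exact le_of_mul_le_mul_right h2 p1
  induction n using Nat.strong_induction_on with
  | _ n ih =>
    rcases n with _ | n
    · have h := quo_spec (b := b) (ha 0).ne' 0
      simp only [zero_add, Finset.range_one, Finset.sum_singleton, Nat.sub_zero] at h
      rw [h] at hb0
      exact nonneg_of_mul_nonneg_right hb0 (ha 0)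
    · have h := quo_spec (b := b) (ha 0).ne' (n + 1)
      rw [Finset.sum_range_succ, Nat.sub_self] at h
      have h1 := quo_spec (b := b) (ha 0).ne' n
      -- sum ≤ (a (n+1)/a n) b n
      have h2 : (∑ j ∈ Finset.range (n + 1), a (n + 1 - j) * quo a b j) * a n ≤ b n * a (n + 1) := by
        rw [h1, Finset.sum_mul, Finset.sum_mul]
        apply Finset.sum_le_sum
        intro j hj
        have hj' : j ≤ n := Nat.lt_succ_iff.mp (Finset.mem_range.mp hj)
        have hq := ih j (by omega)
        obtain ⟨m, rfl⟩ := Nat.exists_eq_add_of_le hj'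
        have e1 : j + m + 1 - j = m + 1 := by omega
        have e2 : j + m - j = m := by omega
        rw [e1, e2]
        have h3 := hrat m j
        rw [add_comm m j] at h3
        calc a (m + 1) * quo a b j * a (j + m) = (a (m + 1) * a (j + m)) * quo a b j := by ring
          _ ≤ (a m * a (j + m + 1)) * quo a b j := mul_le_mul_of_nonneg_right h3 hq
          _ = a m * quo a b j * a (j + m + 1) := by ring
      have h4 := h2.trans (hr n)
      have h5 := le_of_mul_le_mul_right h4 (ha n)
      have h6 : 0 ≤ a 0 * quo a b (n + 1) := by linarith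
      exact nonneg_of_mul_nonneg_right h6 (ha 0)

theorem tsum_antidiag {F : ℕ × ℕ → ℝ} (hF : Summable F) :
    ∑' n, ∑ p ∈ Finset.HasAntidiagonal.antidiagonal n, F p = ∑' j, ∑' m, F (j, m) := by
  have h1 : ∀ n, ∑ p ∈ Finset.HasAntidiagonal.antidiagonal n, F p =
      ∑' p : Finset.HasAntidiagonal.antidiagonal n, F p := by
    intro n
    rw [← Finset.sum_finset_coe, tsum_fintype]
    rfl
  simp_rw [h1]
  rw [← hF.tsum_prod, ← Finset.HasAntidiagonal.sigmaAntidiagonalEquivProd.tsum_eq F]
  have h2 : Summable (fun x : Σ n : ℕ, Finset.HasAntidiagonal.antidiagonal n =>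
      F (Finset.HasAntidiagonal.sigmaAntidiagonalEquivProd x)) :=
    Finset.HasAntidiagonal.sigmaAntidiagonalEquivProd.summable_iff.mpr hF
  rw [h2.tsum_sigma' (fun n => (hasSum_fintype _).summable)]
  rfl

theorem conv_lower {a b C θ : ℕ → ℝ} (ha : ∀ n, 0 < a n) (hC : ∀ n, 0 ≤ C n)
    (hb : ∀ n, b n = ∑ j ∈ Finset.range (n + 1), a (n - j) * C j)
    (hsa : Summable a) (hsb : Summable b) (hθ : ∀ n, |θ n| ≤ 1) {G : ℝ}
    (hG : ∀ j, G * ∑' m, a m ≤ ∑' m, a m * θ (j + m)) :
    G * ∑' n, b n ≤ ∑' n, b n * θ n := by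
  have hCb : ∀ n, C n ≤ b n / a 0 := by
    intro n
    rw [le_div_iff₀ (ha 0), hb n, Finset.sum_range_succ, Nat.sub_self, mul_comm]
    have : 0 ≤ ∑ j ∈ Finset.range n, a (n - j) * C j :=
      Finset.sum_nonneg fun j _ => mul_nonneg (ha _).le (hC _)
    linarith
  have hsC : Summable C := Summable.of_nonneg_of_le hC hCb (hsb.div_const _)
  have hprod : Summable (fun p : ℕ × ℕ => C p.1 * a p.2) :=
    hsC.mul_of_nonneg hsa hC (fun n => (ha n).le)
  have hF : Summable (fun p : ℕ × ℕ => C p.1 * a p.2 * θ (p.1 + p.2)) := by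
    apply Summable.of_norm_bounded hprod
    intro p
    rw [Real.norm_eq_abs, abs_mul, abs_of_nonneg (mul_nonneg (hC _) (ha _).le)]
    calc C p.1 * a p.2 * |θ (p.1 + p.2)| ≤ C p.1 * a p.2 * 1 :=
          mul_le_mul_of_nonneg_left (hθ _) (mul_nonneg (hC _) (ha _).le)
      _ = _ := mul_one _
  have e1 : ∀ n, ∑ p ∈ Finset.HasAntidiagonal.antidiagonal n, C p.1 * a p.2 * θ (p.1 + p.2) = b n * θ n := by
    intro n
    rw [Finset.Nat.sum_antidiagonal_eq_sum_range_succ (fun i j => C i * a j * θ (i + j)), hb n,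
      Finset.sum_mul]
    apply Finset.sum_congr rfl
    intro j hj
    have hj' : j ≤ n := Nat.lt_succ_iff.mp (Finset.mem_range.mp hj)
    rw [Nat.add_sub_cancel' hj']
    ring
  have e2 : ∀ n, ∑ p ∈ Finset.HasAntidiagonal.antidiagonal n, C p.1 * a p.2 = b n := by
    intro n
    rw [Finset.Nat.sum_antidiagonal_eq_sum_range_succ (fun i j => C i * a j), hb n]
    apply Finset.sum_congr rfl
    intro j hj
    ring
  have f1 := tsum_antidiag hF
  have f2 := tsum_antidiag hprod
  simp_rw [e1] at f1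
  simp_rw [e2] at f2
  rw [f1, f2, ← tsum_mul_left]
  have s1 : Summable (fun j => G * ∑' m, C j * a m) := by
    apply Summable.mul_left
    simp_rw [tsum_mul_left]
    exact hsC.mul_right _
  apply s1.tsum_le_tsum _ hF.prod
  intro j
  have e3 : ∀ m, C j * a m * θ (j + m) = C j * (a m * θ (j + m)) := fun m => mul_assoc _ _ _
  simp only
  simp_rw [e3]
  rw [tsum_mul_left, tsum_mul_left]
  calc G * (C j * ∑' m, a m) = C j * (G * ∑' m, a m) := by ring
    _ ≤ C j * ∑' m, a m * θ (j + m) := mul_le_mul_of_nonneg_left (hG j) (hC j)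

end Pool.Agent.H22.Hy
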