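import Pool.Agent.H22.HyV

namespace Pool.Agent.H22.Hy

open MeasureTheory Set Filter
open scoped Topology

/-- geometric intervals -/
def gI (q : ℝ) (k : ℕ) : Set ℝ := Ico (q ^ (k + 1)) (q ^ k)

theorem gI_sub {q : ℝ} (hq : q ∈ Ioo (0 : ℝ) 1) (k : ℕ) : gI q k ⊆ Ioo 0 1 := by
  rintro t ⟨h1, h2⟩
  refine ⟨lt_of_lt_of_le (pow_pos hq.1 _) h1, lt_of_lt_of_le h2 (pow_le_one₀ hq.1.le hq.2.le)⟩

theorem gI_meas (q : ℝ) (k : ℕ) : MeasurableSet (gI q k) := measurableSet_Ico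

theorem gI_union {q : ℝ} (hq : q ∈ Ioo (0 : ℝ) 1) : ⋃ k, gI q k = Ioo 0 1 := by
  apply Subset.antisymm
  · exact iUnion_subset fun k => gI_sub hq k
  · intro t ht
    obtain ⟨n, h1, h2⟩ := exists_nat_pow_near_of_lt_one ht.1 ht.2.le hq.1 hq.2
    rcases h2.lt_or_eq with h2 | h2
    · exact mem_iUnion.mpr ⟨n, h1.le, h2⟩
    · rcases n with _ | n
      · rw [pow_zero] at h2
        exact absurd h2 ht.2.ne
      · refine mem_iUnion.mpr ⟨n, h2.ge, ?_⟩
        rw [h2, pow_succ]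
        exact mul_lt_of_lt_one_right (pow_pos hq.1 n) hq.2

theorem gI_disj {q : ℝ} (hq : q ∈ Ioo (0 : ℝ) 1) : Pairwise (Function.onFun Disjoint (gI q)) := by
  intro i j hij
  rw [Function.onFun, Set.disjoint_left]
  rintro t ⟨h1, h2⟩ ⟨h3, h4⟩
  rcases lt_or_gt_of_ne hij with h | h
  · have : q ^ j ≤ q ^ (i + 1) := pow_le_pow_of_le_one hq.1.le hq.2.le h
    linarith
  · have : q ^ i ≤ q ^ (j + 1) := pow_le_pow_of_le_one hq.1.le hq.2.le h
    linarith

theorem gI_hasSum {q : ℝ} (hq : q ∈ Ioo (0 : ℝ) 1) {f : ℝ → ℝ} (hf : IntegrableOn f (Ioo 0 1)) :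
    HasSum (fun k => ∫ t in gI q k, f t) (∫ t in Ioo (0 : ℝ) 1, f t) := by
  have h := hasSum_integral_iUnion (μ := volume) (f := f) (gI_meas q) (gI_disj hq)
    (by rw [gI_union hq]; exact hf)
  rwa [gI_union hq] at h

theorem gI_scale {q : ℝ} (hq : q ∈ Ioo (0 : ℝ) 1) (f : ℝ → ℝ) (k : ℕ) :
    ∫ t in gI q k, f t = ∫ s in Ico q 1, q ^ k * f (q ^ k * s) := by
  have hk : 0 < q ^ k := pow_pos hq.1 k
  have h1 : ∫ t in gI q k, f t = ∫ t in (q ^ k * q)..(q ^ k * 1), f t := by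
    unfold gI
    rw [intervalIntegral.integral_of_le (mul_le_mul_of_nonneg_left hq.2.le hk.le),
      integral_Ico_eq_integral_Ioc, mul_one, pow_succ]
  have h2 : ∫ s in Ico q 1, q ^ k * f (q ^ k * s) = ∫ s in q..1, q ^ k * f (q ^ k * s) := by
    rw [intervalIntegral.integral_of_le hq.2.le, integral_Ico_eq_integral_Ioc]
  rw [h1, h2, intervalIntegral.integral_const_mul,
    intervalIntegral.integral_comp_mul_left f hk.ne', smul_eq_mul]
  field_simp

theorem gI_pos {q : ℝ} (hq : q ∈ Ioo (0 : ℝ) 1) {f : ℝ → ℝ} (hf : IntegrableOn f (Ioo 0 1))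
    (hpos : ∀ t ∈ Ioo (0 : ℝ) 1, 0 < f t) (k : ℕ) : 0 < ∫ t in gI q k, f t := by
  rw [setIntegral_pos_iff_support_of_nonneg_ae]
  · have hsub : gI q k ⊆ Function.support f ∩ gI q k := by
      intro t ht
      exact ⟨(hpos t (gI_sub hq k ht)).ne', ht⟩
    refine lt_of_lt_of_le ?_ (measure_mono hsub)
    unfold gI
    rw [Real.volume_Ico]
    apply ENNReal.ofReal_pos.mpr
    rw [pow_succ]
    have := mul_lt_of_lt_one_right (pow_pos hq.1 k) hq.2
    linarith
  · filter_upwards [ae_restrict_mem (gI_meas q k)] with t ht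
    exact (hpos t (gI_sub hq k ht)).le
  · exact hf.mono_set (gI_sub hq k)

theorem gI_logconvex {q : ℝ} (hq : q ∈ Ioo (0 : ℝ) 1) {f : ℝ → ℝ} (hf : IntegrableOn f (Ioo 0 1))
    (hpos : ∀ t ∈ Ioo (0 : ℝ) 1, 0 < f t)
    (hlc : ∀ s ∈ Ioo (0 : ℝ) 1, f (q * s) ^ 2 ≤ f s * f (q ^ 2 * s)) (k : ℕ) :
    (∫ t in gI q (k + 1), f t) ^ 2 ≤ (∫ t in gI q k, f t) * ∫ t in gI q (k + 2), f t := by
  have hint : ∀ j, IntegrableOn (fun s => q ^ j * f (q ^ j * s)) (Ico q 1) := by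
    intro j
    have hj : 0 < q ^ j := pow_pos hq.1 j
    apply Integrable.const_mul
    have h1 : IntegrableOn f (gI q j) := hf.mono_set (gI_sub hq j)
    have h2 : IntervalIntegrable f volume (q ^ j * q) (q ^ j * 1) := by
      rw [intervalIntegrable_iff_integrableOn_Ico_of_le
        (mul_le_mul_of_nonneg_left hq.2.le hj.le), mul_one, ← pow_succ]
      exact h1
    have h3 := h2.comp_mul_left (c := q ^ j)
    rw [mul_div_cancel_left₀ _ hj.ne', mul_div_cancel_left₀ _ hj.ne'] at h3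
    exact (intervalIntegrable_iff_integrableOn_Ico_of_le hq.2.le).mp h3
  have A0 := gI_pos hq hf hpos k
  have A2 := gI_pos hq hf hpos (k + 2)
  have A1 := gI_pos hq hf hpos (k + 1)
  set a0 := ∫ t in gI q k, f t with ha0
  set a1 := ∫ t in gI q (k + 1), f t with ha1
  set a2 := ∫ t in gI q (k + 2), f t with ha2
  have key : ∀ c : ℝ, 0 < c → 2 * a1 ≤ c * a0 + c⁻¹ * a2 := by
    intro c hc
    rw [ha0, ha1, ha2, gI_scale hq, gI_scale hq, gI_scale hq, ← integral_const_mul,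
      ← integral_const_mul, ← integral_const_mul,
      ← integral_add ((hint k).const_mul c) ((hint (k + 2)).const_mul c⁻¹)]
    apply setIntegral_mono_on ((hint (k + 1)).const_mul 2)
      (((hint k).const_mul c).add ((hint (k + 2)).const_mul c⁻¹)) measurableSet_Ico
    intro s hs
    have hs' : s ∈ Ioo (0 : ℝ) 1 := ⟨lt_of_lt_of_le hq.1 hs.1, hs.2⟩
    have hk : 0 < q ^ k := pow_pos hq.1 k
    have hks : q ^ k * s ∈ Ioo (0 : ℝ) 1 :=
      ⟨mul_pos hk hs'.1, lt_of_le_of_lt (mul_le_of_le_one_left hs'.1.le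
        (pow_le_one₀ hq.1.le hq.2.le)) hs'.2⟩
    have h1 := hlc _ hks
    have e1 : q * (q ^ k * s) = q ^ (k + 1) * s := by ring
    have e2 : q ^ 2 * (q ^ k * s) = q ^ (k + 2) * s := by ring
    rw [e1, e2] at h1
    have hks2 : q ^ (k + 2) * s ∈ Ioo (0 : ℝ) 1 :=
      ⟨mul_pos (pow_pos hq.1 _) hs'.1, lt_of_le_of_lt (mul_le_of_le_one_left hs'.1.le
        (pow_le_one₀ hq.1.le hq.2.le)) hs'.2⟩
    have hks1 : q ^ (k + 1) * s ∈ Ioo (0 : ℝ) 1 :=
      ⟨mul_pos (pow_pos hq.1 _) hs'.1, lt_of_le_of_lt (mul_le_of_le_one_left hs'.1.le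
        (pow_le_one₀ hq.1.le hq.2.le)) hs'.2⟩
    have p0 := hpos _ hks
    have p1 := hpos _ hks1
    have p2 := hpos _ hks2
    -- AM-GM
    set u := q ^ k * f (q ^ k * s) with hu
    set v := q ^ (k + 1) * f (q ^ (k + 1) * s) with hv
    set w := q ^ (k + 2) * f (q ^ (k + 2) * s) with hw
    have hu0 : 0 < u := mul_pos hk p0
    have hv0 : 0 < v := mul_pos (pow_pos hq.1 _) p1
    have hw0 : 0 < w := mul_pos (pow_pos hq.1 _) p2
    have h2 : v ^ 2 ≤ u * w := by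
      calc v ^ 2 = (q ^ k) ^ 2 * q ^ 2 * f (q ^ (k + 1) * s) ^ 2 := by rw [hv]; ring
        _ ≤ (q ^ k) ^ 2 * q ^ 2 * (f (q ^ k * s) * f (q ^ (k + 2) * s)) :=
            mul_le_mul_of_nonneg_left h1 (by have := hq.1; positivity)
        _ = u * w := by rw [hu, hw]; ring
    have h3 : (2 * v) ^ 2 ≤ (c * u + c⁻¹ * w) ^ 2 := by
      have h4 : c * u * (c⁻¹ * w) = u * w := by field_simp
      nlinarith [sq_nonneg (c * u - c⁻¹ * w)]
    exact le_of_sq_le_sq h3
      (add_nonneg (mul_nonneg hc.le hu0.le) (mul_nonneg (inv_pos.mpr hc).le hw0.le))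
  -- optimise
  have h := key (√(a2 / a0)) (Real.sqrt_pos.mpr (div_pos A2 A0))
  set r := √(a2 / a0) with hr
  have hr0 : 0 < r := Real.sqrt_pos.mpr (div_pos A2 A0)
  have hr2 : r ^ 2 = a2 / a0 := Real.sq_sqrt (div_pos A2 A0).le
  have h2 : a2 = r ^ 2 * a0 := by rw [hr2]; field_simp
  have h3 : r⁻¹ * a2 = r * a0 := by rw [h2]; field_simp
  rw [h3] at h
  have h4 : a1 ≤ r * a0 := by linarith
  calc a1 ^ 2 ≤ (r * a0) ^ 2 := pow_le_pow_left₀ A1.le h4 2
    _ = a0 * (r ^ 2 * a0) := by ring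
    _ = a0 * a2 := by rw [← h2]

theorem gI_ratio {q : ℝ} (hq : q ∈ Ioo (0 : ℝ) 1) {f g : ℝ → ℝ} (hf : IntegrableOn f (Ioo 0 1))
    (hg : IntegrableOn g (Ioo 0 1)) (hpf : ∀ t ∈ Ioo (0 : ℝ) 1, 0 < f t)
    (hpg : ∀ t ∈ Ioo (0 : ℝ) 1, 0 < g t)
    (hr : ∀ s ∈ Ioo (0 : ℝ) 1, ∀ t ∈ Ioo (0 : ℝ) 1, s ≤ t → g t * f s ≤ g s * f t) (k : ℕ) :
    (∫ t in gI q k, g t) * (∫ t in gI q (k + 1), f t) ≤
      (∫ t in gI q (k + 1), g t) * ∫ t in gI q k, f t := by
  set t0 := q ^ (k + 1) with ht0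
  have ht0m : t0 ∈ Ioo (0 : ℝ) 1 :=
    ⟨pow_pos hq.1 _, pow_lt_one₀ hq.1.le hq.2 (Nat.succ_ne_zero k)⟩
  have f0 := hpf t0 ht0m
  have g0 := hpg t0 ht0m
  set c := g t0 / f t0 with hc
  have hc0 : 0 < c := div_pos g0 f0
  have h1 : ∫ t in gI q k, g t ≤ c * ∫ t in gI q k, f t := by
    rw [← integral_const_mul]
    apply setIntegral_mono_on (hg.mono_set (gI_sub hq k)) ((hf.mono_set (gI_sub hq k)).const_mul c)
      (gI_meas q k)
    intro t ht
    have := hr t0 ht0m t (gI_sub hq k ht) ht.1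
    rw [hc, div_mul_eq_mul_div, le_div_iff₀ f0]
    exact this
  have h2 : c * ∫ t in gI q (k + 1), f t ≤ ∫ t in gI q (k + 1), g t := by
    rw [← integral_const_mul]
    apply setIntegral_mono_on ((hf.mono_set (gI_sub hq (k + 1))).const_mul c)
      (hg.mono_set (gI_sub hq (k + 1))) (gI_meas q (k + 1))
    intro t ht
    have := hr t (gI_sub hq (k + 1) ht) t0 ht0m ht.2.le
    rw [hc, div_mul_eq_mul_div, div_le_iff₀ f0]
    exact this
  have A0 := gI_pos hq hf hpf k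
  have A1 := gI_pos hq hf hpf (k + 1)
  calc (∫ t in gI q k, g t) * (∫ t in gI q (k + 1), f t)
      ≤ (c * ∫ t in gI q k, f t) * (∫ t in gI q (k + 1), f t) := mul_le_mul_of_nonneg_right h1 A1.le
    _ = (c * ∫ t in gI q (k + 1), f t) * ∫ t in gI q k, f t := by ring
    _ ≤ _ := mul_le_mul_of_nonneg_right h2 A0.le

theorem gI_approx {q : ℝ} (hq : q ∈ Ioo (0 : ℝ) 1) {f : ℝ → ℝ} (hf : IntegrableOn f (Ioo 0 1))
    (hpos : ∀ t ∈ Ioo (0 : ℝ) 1, 0 < f t) (x : ℝ) :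
    |(∫ t in Ioo (0 : ℝ) 1, Real.cos (x * t) * f t) -
      ∑' k, (∫ t in gI q k, f t) * Real.cos (x * q ^ k)| ≤
        |x| * (1 - q) * ∫ t in Ioo (0 : ℝ) 1, f t := by
  have hcf : IntegrableOn (fun t => Real.cos (x * t) * f t) (Ioo 0 1) := by
    apply Integrable.bdd_mul (c := 1) hf
    · exact (by fun_prop : Continuous (fun t => Real.cos (x * t))).aestronglyMeasurable
    · exact Eventually.of_forall fun t => by simpa using Real.abs_cos_le_one _
  have S1 := gI_hasSum hq hcf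
  have S2 := gI_hasSum hq hf
  have hterm : ∀ k, |(∫ t in gI q k, Real.cos (x * t) * f t) -
      (∫ t in gI q k, f t) * Real.cos (x * q ^ k)| ≤ |x| * (1 - q) * ∫ t in gI q k, f t := by
    intro k
    have i1 := hcf.mono_set (gI_sub hq k)
    have i2 := hf.mono_set (gI_sub hq k)
    rw [mul_comm (∫ t in gI q k, f t) (Real.cos _), ← integral_const_mul,
      ← integral_sub i1 (i2.const_mul _), ← integral_const_mul, ← Real.norm_eq_abs]
    refine (norm_integral_le_integral_norm _).trans ?_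
    apply setIntegral_mono_on (i1.sub (i2.const_mul _)).norm (i2.const_mul _) (gI_meas q k)
    intro t ht
    have hft := hpos t (gI_sub hq k ht)
    have e1 : Real.cos (x * t) * f t - Real.cos (x * q ^ k) * f t =
      (Real.cos (x * t) - Real.cos (x * q ^ k)) * f t := by ring
    simp only [Pi.sub_apply]
    rw [e1, norm_mul, Real.norm_eq_abs, Real.norm_eq_abs, abs_of_pos hft]
    apply mul_le_mul_of_nonneg_right _ hft.le
    have h1 : |Real.cos (x * t) - Real.cos (x * q ^ k)| ≤ |x * t - x * q ^ k| :=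
      Real.abs_cos_sub_cos_le _ _
    refine h1.trans ?_
    rw [← mul_sub, abs_mul]
    apply mul_le_mul_of_nonneg_left _ (abs_nonneg _)
    rw [abs_le]
    have h2 : q ^ k ≤ 1 := pow_le_one₀ hq.1.le hq.2.le
    have h3 := ht.1
    rw [pow_succ] at h3
    have h4 := ht.2
    have h5 : 0 < q ^ k := pow_pos hq.1 k
    constructor
    · nlinarith [hq.2]
    · nlinarith [hq.2]
  have hsum3 : Summable (fun k => (∫ t in gI q k, f t) * Real.cos (x * q ^ k)) := by
    apply Summable.of_norm_bounded S2.summable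
    intro k
    rw [norm_mul, Real.norm_eq_abs, Real.norm_eq_abs, abs_of_pos (gI_pos hq hf hpos k)]
    calc _ ≤ (∫ t in gI q k, f t) * 1 :=
          mul_le_mul_of_nonneg_left (Real.abs_cos_le_one _) (gI_pos hq hf hpos k).le
      _ = _ := mul_one _
  rw [← S1.tsum_eq, ← S1.summable.tsum_sub hsum3, ← Real.norm_eq_abs, ← S2.tsum_eq, ← tsum_mul_left]
  apply tsum_of_norm_bounded (S2.summable.mul_left _).hasSum
  intro k
  rw [Real.norm_eq_abs]
  exact hterm k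

/-- comparison principle for cosine transforms -/
theorem compare {f g : ℝ → ℝ} (hf : IntegrableOn f (Ioo 0 1))
    (hg : IntegrableOn g (Ioo 0 1)) (hpf : ∀ t ∈ Ioo (0 : ℝ) 1, 0 < f t)
    (hpg : ∀ t ∈ Ioo (0 : ℝ) 1, 0 < g t)
    (hlc : ∀ q ∈ Ioo (0 : ℝ) 1, ∀ s ∈ Ioo (0 : ℝ) 1, f (q * s) ^ 2 ≤ f s * f (q ^ 2 * s))
    (hr : ∀ s ∈ Ioo (0 : ℝ) 1, ∀ t ∈ Ioo (0 : ℝ) 1, s ≤ t → g t * f s ≤ g s * f t)
    {G : ℝ} (hG : ∀ x : ℝ, G * ∫ t in Ioo (0 : ℝ) 1, f t ≤ ∫ t in Ioo (0 : ℝ) 1, Real.cos (x * t) * f t)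
    (x : ℝ) : G * ∫ t in Ioo (0 : ℝ) 1, g t ≤ ∫ t in Ioo (0 : ℝ) 1, Real.cos (x * t) * g t := by
  set A := ∫ t in Ioo (0 : ℝ) 1, f t with hA
  set B := ∫ t in Ioo (0 : ℝ) 1, g t with hB
  have hA0 : 0 ≤ A := setIntegral_nonneg measurableSet_Ioo fun t ht => (hpf t ht).le
  have hB0 : 0 ≤ B := setIntegral_nonneg measurableSet_Ioo fun t ht => (hpg t ht).le
  have key : ∀ q ∈ Ioo (0 : ℝ) 1, (G - 2 * (|x| * (1 - q))) * B ≤
      ∫ t in Ioo (0 : ℝ) 1, Real.cos (x * t) * g t := by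
    intro q hq
    set a : ℕ → ℝ := fun k => ∫ t in gI q k, f t with ha
    set b : ℕ → ℝ := fun k => ∫ t in gI q k, g t with hb
    have Sa := gI_hasSum hq hf
    have Sb := gI_hasSum hq hg
    have pa : ∀ n, 0 < a n := gI_pos hq hf hpf
    have pb : ∀ n, 0 < b n := gI_pos hq hg hpg
    have hC := quo_nonneg pa (gI_logconvex hq hf hpf (hlc q hq)) (pb 0).le
      (gI_ratio hq hf hg hpf hpg hr)
    have hcl := conv_lower (θ := fun n => Real.cos (x * q ^ n)) (G := G - |x| * (1 - q)) pa hC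
      (quo_spec (pa 0).ne') Sa.summable Sb.summable (fun n => Real.abs_cos_le_one _) ?_
    · have h1 := gI_approx hq hg hpg x
      rw [abs_le] at h1
      have h2 := h1.1
      rw [Sb.tsum_eq] at hcl
      have h3 : ∑' k, (∫ t in gI q k, g t) * Real.cos (x * q ^ k) =
        ∑' n, b n * Real.cos (x * q ^ n) := rfl
      rw [h3] at h2
      nlinarith
    · intro j
      rw [Sa.tsum_eq]
      have h1 := gI_approx hq hf hpf (x * q ^ j)
      rw [abs_le] at h1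
      have h2 := h1.2
      have h3 : ∑' k, (∫ t in gI q k, f t) * Real.cos (x * q ^ j * q ^ k) =
          ∑' m, a m * Real.cos (x * q ^ (j + m)) := by
        congr 1
        funext m
        rw [pow_add, mul_assoc]
      rw [h3] at h2
      have h4 := hG (x * q ^ j)
      have h5 : |x * q ^ j| * (1 - q) * A ≤ |x| * (1 - q) * A := by
        apply mul_le_mul_of_nonneg_right _ hA0
        apply mul_le_mul_of_nonneg_right _ (by linarith [hq.2])
        rw [abs_mul, abs_of_pos (pow_pos hq.1 j)]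
        exact mul_le_of_le_one_right (abs_nonneg _) (pow_le_one₀ hq.1.le hq.2.le)
      nlinarith
  have hlim : Tendsto (fun n : ℕ => (G - 2 * (|x| * (1 - (1 - 1 / ((n : ℝ) + 2))))) * B) atTop
      (𝓝 ((G - 2 * (|x| * (1 - (1 - 0)))) * B)) := by
    have h4 : Tendsto (fun n : ℕ => 1 / ((n : ℝ) + 2)) atTop (𝓝 0) := by
      have h5 : Tendsto (fun n : ℕ => (n : ℝ) + 2) atTop atTop :=
        tendsto_atTop_add_const_right _ _ tendsto_natCast_atTop_atTop
      simp only [one_div]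
      exact h5.inv_tendsto_atTop
    exact (((((h4.const_sub 1).const_sub 1).const_mul |x|).const_mul 2).const_sub G).mul_const B
  have h6 : (G - 2 * (|x| * (1 - (1 - 0)))) * B = G * B := by ring
  rw [h6] at hlim
  apply le_of_tendsto' hlim
  intro n
  apply key
  have h7 : (0 : ℝ) ≤ n := Nat.cast_nonneg n
  constructor
  · have : 1 / ((n : ℝ) + 2) < 1 := by rw [div_lt_one (by positivity)]; linarith
    linarith
  · have : 0 < 1 / ((n : ℝ) + 2) := by positivity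
    linarith

end Pool.Agent.H22.Hy
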