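import Pool.Agent.H22.HyU
import Pool.Agent.H22.HyW

namespace Pool.Agent.H22.Hy

open MeasureTheory Set Filter
open scoped Topology

/-- `cosh d - cosh (d t)` -/
noncomputable def Dd (d t : ℝ) : ℝ := Real.cosh d - Real.cosh (d * t)

theorem Dd_pos {d t : ℝ} (hd : 0 < d) (ht : t ∈ Ioo (0 : ℝ) 1) : 0 < Dd d t := by
  unfold Dd
  have : Real.cosh (d * t) < Real.cosh d := by
    rw [Real.cosh_lt_cosh, abs_of_pos hd, abs_of_pos (mul_pos hd ht.1)]
    exact mul_lt_of_lt_one_right hd ht.2
  linarith

theorem cosh_mid (x y : ℝ) : 2 * Real.cosh ((x + y) / 2) ≤ Real.cosh x + Real.cosh y := by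
  have h1 := Real.cosh_add ((x + y) / 2) ((x - y) / 2)
  have h2 := Real.cosh_sub ((x + y) / 2) ((x - y) / 2)
  rw [show (x + y) / 2 + (x - y) / 2 = x by ring] at h1
  rw [show (x + y) / 2 - (x - y) / 2 = y by ring] at h2
  have h3 := Real.one_le_cosh ((x - y) / 2)
  have h4 := Real.cosh_pos ((x + y) / 2)
  rw [h1, h2]
  nlinarith

theorem Dd_logconcave {d q s : ℝ} (hd : 0 < d) (hq : q ∈ Ioo (0 : ℝ) 1) (hs : s ∈ Ioo (0 : ℝ) 1) :
    Dd d s * Dd d (q ^ 2 * s) ≤ Dd d (q * s) ^ 2 := by
  have ha := Dd_pos hd hs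
  have h1 : 2 * Real.cosh (d * (q * s)) ≤ Real.cosh (d * s) + Real.cosh (d * (q ^ 2 * s)) := by
    refine le_trans ?_ (cosh_mid _ _)
    have h2 : Real.cosh (d * (q * s)) ≤ Real.cosh ((d * s + d * (q ^ 2 * s)) / 2) := by
      have hds : 0 < d * s := mul_pos hd hs.1
      have hq0 := hq.1
      have hs0 := hs.1
      rw [Real.cosh_le_cosh, abs_of_pos (by positivity), abs_of_pos (by positivity)]
      nlinarith [sq_nonneg (q - 1)]
    linarith
  unfold Dd at ha ⊢
  nlinarith [sq_nonneg (Real.cosh (d * s) - Real.cosh (d * (q * s)))]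

theorem ell_mono {x y : ℝ} (hx : 0 < x) (hxy : x ≤ y) :
    x * Real.cosh x * Real.sinh y ≤ y * Real.cosh y * Real.sinh x := by
  have hmono : MonotoneOn (fun y => y * Real.cosh y / Real.sinh y) (Ioi 0) := by
    apply monotoneOn_of_deriv_nonneg (convex_Ioi 0)
    · apply ContinuousOn.div
      · fun_prop
      · exact Real.continuous_sinh.continuousOn
      · intro y hy
        exact (Real.sinh_pos_iff.mpr hy).ne'
    · intro y hy
      rw [interior_Ioi] at hy
      have hs := Real.sinh_pos_iff.mpr hy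
      apply DifferentiableAt.differentiableWithinAt
      apply DifferentiableAt.div _ Real.differentiable_sinh.differentiableAt hs.ne'
      exact differentiableAt_id.mul Real.differentiable_cosh.differentiableAt
    · intro y hy
      rw [interior_Ioi] at hy
      have hs : 0 < Real.sinh y := Real.sinh_pos_iff.mpr hy
      have h1 : HasDerivAt (fun y => y * Real.cosh y) (1 * Real.cosh y + y * Real.sinh y) y :=
        (hasDerivAt_id y).mul (Real.hasDerivAt_cosh y)
      have h2 := h1.div (Real.hasDerivAt_sinh y) hs.ne'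
      have h3 : HasDerivAt (fun y => y * Real.cosh y / Real.sinh y) _ y := h2
      rw [h3.deriv]
      apply div_nonneg _ (sq_nonneg _)
      have h4 := Real.cosh_sq y
      have h5 := Real.self_le_sinh_iff.mpr hy.le
      have h6 := Real.one_le_cosh y
      have h7 : (1 * Real.cosh y + y * Real.sinh y) * Real.sinh y - y * Real.cosh y * Real.cosh y =
          Real.cosh y * Real.sinh y - y := by
        have : y * Real.cosh y * Real.cosh y = y * (Real.sinh y ^ 2 + 1) := by rw [← h4]; ring
        rw [this]; ring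
      rw [h7]
      nlinarith
  have hy : 0 < y := lt_of_lt_of_le hx hxy
  have h := hmono hx hy hxy
  simp only at h
  rw [div_le_div_iff₀ (Real.sinh_pos_iff.mpr hx) (Real.sinh_pos_iff.mpr hy)] at h
  exact h

theorem sinh_ratio {r r' c c' : ℝ} (hr : 0 < r) (hrr : r ≤ r') (hc : 0 < c) (hcc : c ≤ c') :
    Real.sinh (r * c') * Real.sinh (r' * c) ≤ Real.sinh (r * c) * Real.sinh (r' * c') := by
  have hr' : 0 < r' := lt_of_lt_of_le hr hrr
  have hanti : AntitoneOn (fun c => Real.sinh (r * c) / Real.sinh (r' * c)) (Ioi 0) := by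
    have hder : ∀ c ∈ Ioi (0 : ℝ), HasDerivAt (fun c => Real.sinh (r * c) / Real.sinh (r' * c))
        ((Real.cosh (r * c) * r * Real.sinh (r' * c) - Real.sinh (r * c) *
          (Real.cosh (r' * c) * r')) / Real.sinh (r' * c) ^ 2) c := by
      intro c hc
      have hs : 0 < Real.sinh (r' * c) := Real.sinh_pos_iff.mpr (mul_pos hr' hc)
      have e1 : HasDerivAt (fun c : ℝ => r * c) r c := by
        simpa using (hasDerivAt_id c).const_mul r
      have e2 : HasDerivAt (fun c : ℝ => r' * c) r' c := by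
        simpa using (hasDerivAt_id c).const_mul r'
      exact (e1.sinh).div (e2.sinh) hs.ne'
    apply antitoneOn_of_deriv_nonpos (convex_Ioi 0)
    · intro c hc
      exact (hder c hc).continuousAt.continuousWithinAt
    · intro c hc
      rw [interior_Ioi] at hc
      exact (hder c hc).differentiableAt.differentiableWithinAt
    · intro c hc
      rw [interior_Ioi] at hc
      rw [(hder c hc).deriv]
      apply div_nonpos_of_nonpos_of_nonneg _ (sq_nonneg _)
      have hc' : 0 < c := hc
      have h1 := ell_mono (mul_pos hr hc) (mul_le_mul_of_nonneg_right hrr hc'.le)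
      have h2 : c * (Real.cosh (r * c) * r * Real.sinh (r' * c)) ≤
          c * (Real.sinh (r * c) * (Real.cosh (r' * c) * r')) := by
        calc _ = r * c * Real.cosh (r * c) * Real.sinh (r' * c) := by ring
          _ ≤ r' * c * Real.cosh (r' * c) * Real.sinh (r * c) := h1
          _ = _ := by ring
      have := le_of_mul_le_mul_left h2 hc
      linarith
  have hc' : 0 < c' := lt_of_lt_of_le hc hcc
  have h := hanti hc hc' hcc
  simp only at h
  rw [div_le_div_iff₀ (Real.sinh_pos_iff.mpr (mul_pos hr' hc'))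
    (Real.sinh_pos_iff.mpr (mul_pos hr' hc))] at h
  exact h

theorem Dd_ratio {r r' s t : ℝ} (hr : 0 < r) (hrr : r ≤ r') (hs : s ∈ Ioo (0 : ℝ) 1)
    (ht : t ∈ Ioo (0 : ℝ) 1) (hst : s ≤ t) : Dd r t * Dd r' s ≤ Dd r s * Dd r' t := by
  rcases hst.eq_or_lt with rfl | hst
  · exact le_rfl
  have hr' : 0 < r' := lt_of_lt_of_le hr hrr
  have hder : ∀ a x : ℝ, HasDerivAt (fun x => Real.cosh (a * x)) (Real.sinh (a * x) * a) x := by
    intro a x
    have e1 : HasDerivAt (fun c : ℝ => a * c) a x := by
      simpa using (hasDerivAt_id x).const_mul a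
    exact e1.cosh
  have hcont : ∀ a : ℝ, Continuous (fun x => Real.cosh (a * x)) := fun a => by fun_prop
  obtain ⟨c, hc, h1⟩ := exists_ratio_hasDerivAt_eq_ratio_slope (fun x => Real.cosh (r * x))
    (fun x => Real.sinh (r * x) * r) hst (hcont r).continuousOn (fun x _ => hder r x)
    (fun x => Real.cosh (r' * x)) (fun x => Real.sinh (r' * x) * r') (hcont r').continuousOn
    (fun x _ => hder r' x)
  obtain ⟨c', hc', h2⟩ := exists_ratio_hasDerivAt_eq_ratio_slope (fun x => Real.cosh (r * x))
    (fun x => Real.sinh (r * x) * r) ht.2 (hcont r).continuousOn (fun x _ => hder r x)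
    (fun x => Real.cosh (r' * x)) (fun x => Real.sinh (r' * x) * r') (hcont r').continuousOn
    (fun x _ => hder r' x)
  simp only [mul_one] at h1 h2
  have hc0 : 0 < c := lt_trans hs.1 hc.1
  have hcc : c ≤ c' := (lt_trans hc.2 hc'.1).le
  have hc'0 : 0 < c' := lt_of_lt_of_le hc0 hcc
  have h3 := sinh_ratio hr hrr hc0 hcc
  have p1 : 0 < Real.sinh (r' * c) := Real.sinh_pos_iff.mpr (mul_pos hr' hc0)
  have p2 : 0 < Real.sinh (r' * c') := Real.sinh_pos_iff.mpr (mul_pos hr' hc'0)
  -- abbreviations
  unfold Dd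
  set f1 := Real.cosh r
  set ft := Real.cosh (r * t)
  set fs := Real.cosh (r * s)
  set g1 := Real.cosh r'
  set gt := Real.cosh (r' * t)
  set gs := Real.cosh (r' * s)
  have hg1 : 0 < g1 - gt := Dd_pos hr' ht
  have hg2 : 0 < gt - gs := by
    have : gs < gt := by
      rw [Real.cosh_lt_cosh, abs_of_pos (mul_pos hr' hs.1), abs_of_pos (mul_pos hr' ht.1)]
      exact mul_lt_mul_of_pos_left hst hr'
    linarith
  -- need (f1 - ft)(gt - gs) ≤ (ft - fs)(g1 - gt)
  have h4 : (f1 - ft) * (gt - gs) ≤ (ft - fs) * (g1 - gt) := by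
    have hp : 0 < (Real.sinh (r' * c) * r') * (Real.sinh (r' * c') * r') := by positivity
    have h5 : ((f1 - ft) * (gt - gs)) * ((Real.sinh (r' * c) * r') * (Real.sinh (r' * c') * r')) ≤
        ((ft - fs) * (g1 - gt)) * ((Real.sinh (r' * c) * r') * (Real.sinh (r' * c') * r')) := by
      calc ((f1 - ft) * (gt - gs)) * ((Real.sinh (r' * c) * r') * (Real.sinh (r' * c') * r'))
          = ((f1 - ft) * (Real.sinh (r' * c') * r')) * ((gt - gs) * (Real.sinh (r' * c) * r')) := by
            ring
        _ = ((g1 - gt) * (Real.sinh (r * c') * r)) * ((gt - gs) * (Real.sinh (r' * c) * r')) := by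
            rw [h2]
        _ = ((g1 - gt) * (gt - gs) * (r * r')) * (Real.sinh (r * c') * Real.sinh (r' * c)) := by
            ring
        _ ≤ ((g1 - gt) * (gt - gs) * (r * r')) * (Real.sinh (r * c) * Real.sinh (r' * c')) :=
            mul_le_mul_of_nonneg_left h3 (by positivity)
        _ = ((gt - gs) * (Real.sinh (r * c) * r)) * ((g1 - gt) * (Real.sinh (r' * c') * r')) := by
            ring
        _ = ((ft - fs) * (Real.sinh (r' * c) * r')) * ((g1 - gt) * (Real.sinh (r' * c') * r')) := by
            rw [h1]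
        _ = _ := by ring
    exact le_of_mul_le_mul_right h5 hp
  nlinarith

end Pool.Agent.H22.Hy
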