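import Pool.Agent.H22.HyX

namespace Pool.Agent.H22.Hy

open MeasureTheory Set Filter
open scoped Topology

/-- rescaled kernel on `(0,1)` -/
noncomputable def kn (d t : ℝ) : ℝ := kd d (d * t)

theorem kn_eq {d t : ℝ} : kn d t = (√(2 * Dd d t) * Real.pi)⁻¹ := by
  unfold kn kd XX Dd
  rw [mul_inv]
  rfl

theorem kn_pos {d t : ℝ} (hd : 0 < d) (ht : t ∈ Ioo (0 : ℝ) 1) : 0 < kn d t := by
  unfold kn
  apply kd_pos
  rw [abs_of_pos hd, abs_of_pos (mul_pos hd ht.1)]
  exact mul_lt_of_lt_one_right hd ht.2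

theorem kn_integrable {d : ℝ} (hd : 0 < d) : IntegrableOn (kn d) (Ioo 0 1) := by
  have h := (integrable_kd hd).comp_mul_left' hd.ne'
  exact h.integrableOn

theorem kn_logconvex {d : ℝ} (hd : 0 < d) (q : ℝ) (hq : q ∈ Ioo (0 : ℝ) 1) (s : ℝ)
    (hs : s ∈ Ioo (0 : ℝ) 1) : kn d (q * s) ^ 2 ≤ kn d s * kn d (q ^ 2 * s) := by
  have hqs : q * s ∈ Ioo (0 : ℝ) 1 := ⟨mul_pos hq.1 hs.1, by nlinarith [hq.1, hq.2, hs.1, hs.2]⟩
  have hqqs : q ^ 2 * s ∈ Ioo (0 : ℝ) 1 :=
    ⟨mul_pos (pow_pos hq.1 2) hs.1, by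
      have : q ^ 2 * s = q * (q * s) := by ring
      rw [this]; nlinarith [hq.1, hq.2, hqs.1, hqs.2]⟩
  have h0 := Dd_pos hd hs
  have h1 := Dd_pos hd hqs
  have h2 := Dd_pos hd hqqs
  have h3 := Dd_logconcave hd hq hs
  rw [kn_eq, kn_eq, kn_eq, ← mul_inv]
  have hpi := Real.pi_pos
  have s0 := Real.sqrt_pos.mpr (mul_pos two_pos h0)
  have s1 := Real.sqrt_pos.mpr (mul_pos two_pos h1)
  have s2 := Real.sqrt_pos.mpr (mul_pos two_pos h2)
  rw [inv_pow]
  apply inv_anti₀ (by positivity)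
  have e1 : √(2 * Dd d s) * Real.pi * (√(2 * Dd d (q ^ 2 * s)) * Real.pi) =
      (√(2 * Dd d s) * √(2 * Dd d (q ^ 2 * s))) * Real.pi ^ 2 := by ring
  have e2 : (√(2 * Dd d (q * s)) * Real.pi) ^ 2 = (2 * Dd d (q * s)) * Real.pi ^ 2 := by
    rw [mul_pow, Real.sq_sqrt (by positivity)]
  rw [e1, e2]
  apply mul_le_mul_of_nonneg_right _ (by positivity)
  rw [← Real.sqrt_mul (by positivity)]
  apply Real.sqrt_le_iff.mpr
  refine ⟨by positivity, ?_⟩
  nlinarith

theorem kn_ratio {r r' : ℝ} (hr : 0 < r) (hrr : r ≤ r') (s : ℝ) (hs : s ∈ Ioo (0 : ℝ) 1)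
    (t : ℝ) (ht : t ∈ Ioo (0 : ℝ) 1) (hst : s ≤ t) : kn r' t * kn r s ≤ kn r' s * kn r t := by
  have hr' : 0 < r' := lt_of_lt_of_le hr hrr
  have h := Dd_ratio hr hrr hs ht hst
  have a1 := Dd_pos hr hs
  have a2 := Dd_pos hr ht
  have a3 := Dd_pos hr' hs
  have a4 := Dd_pos hr' ht
  rw [kn_eq, kn_eq, kn_eq, kn_eq, ← mul_inv, ← mul_inv]
  have hpi := Real.pi_pos
  have s1 := Real.sqrt_pos.mpr (mul_pos two_pos a1)
  have s2 := Real.sqrt_pos.mpr (mul_pos two_pos a2)
  have s3 := Real.sqrt_pos.mpr (mul_pos two_pos a3)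
  have s4 := Real.sqrt_pos.mpr (mul_pos two_pos a4)
  apply inv_anti₀ (by positivity)
  have e1 : √(2 * Dd r' s) * Real.pi * (√(2 * Dd r t) * Real.pi) =
      (√(2 * Dd r' s) * √(2 * Dd r t)) * Real.pi ^ 2 := by ring
  have e2 : √(2 * Dd r' t) * Real.pi * (√(2 * Dd r s) * Real.pi) =
      (√(2 * Dd r' t) * √(2 * Dd r s)) * Real.pi ^ 2 := by ring
  rw [e1, e2]
  apply mul_le_mul_of_nonneg_right _ (by positivity)
  rw [← Real.sqrt_mul (by positivity), ← Real.sqrt_mul (by positivity)]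
  apply Real.sqrt_le_sqrt
  nlinarith

theorem ph_eq {d : ℝ} (hd : 0 < d) (l : ℝ) :
    ph l d = 2 * d * ∫ t in Ioo (0 : ℝ) 1, Real.cos (l * d * t) * kn d t := by
  have h1 : ph l d = ∫ s, (fun s => kd d s * Real.cos (l * s)) |s| := by
    unfold ph
    apply integral_congr_ae
    refine Eventually.of_forall fun s => ?_
    rcases abs_choice s with h | h
    · simp only [h]
    · simp only [h, kd_neg, mul_neg, Real.cos_neg]
  rw [h1, integral_comp_abs (f := fun s => kd d s * Real.cos (l * s))]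
  have h2 : ∫ s in Ioi (0 : ℝ), kd d s * Real.cos (l * s) =
      ∫ s in Ioo (0 : ℝ) d, kd d s * Real.cos (l * s) := by
    apply setIntegral_eq_of_subset_of_forall_sdiff_eq_zero measurableSet_Ioi Ioo_subset_Ioi_self
    intro s hs
    rw [kd_eq_zero, zero_mul]
    have h3 : 0 < s := hs.1
    rw [abs_of_pos hd, abs_of_pos h3]
    by_contra hcon
    push Not at hcon
    exact hs.2 ⟨h3, hcon⟩
  rw [h2, ← integral_Ioc_eq_integral_Ioo, ← intervalIntegral.integral_of_le hd.le]
  have h3 : ∫ t in Ioo (0 : ℝ) 1, Real.cos (l * d * t) * kn d t =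
      ∫ t in (0 : ℝ)..1, (fun s => kd d s * Real.cos (l * s)) (d * t) := by
    rw [intervalIntegral.integral_of_le zero_le_one, integral_Ioc_eq_integral_Ioo]
    apply integral_congr_ae
    refine Eventually.of_forall fun t => ?_
    simp only
    unfold kn
    rw [mul_comm, mul_assoc l d t]
  rw [h3, intervalIntegral.integral_comp_mul_left (fun s => kd d s * Real.cos (l * s)) hd.ne',
    mul_zero, mul_one, smul_eq_mul]
  field_simp

/-- monotonicity of the normalised lower bound -/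
theorem ph_compare {r r' : ℝ} (hr : 0 < r) (hrr : r ≤ r') {G : ℝ}
    (hG : ∀ l, G * ph 0 r ≤ ph l r) (l : ℝ) : G * ph 0 r' ≤ ph l r' := by
  have hr' : 0 < r' := lt_of_lt_of_le hr hrr
  have e0 : ∀ d : ℝ, 0 < d → ph 0 d = 2 * d * ∫ t in Ioo (0 : ℝ) 1, kn d t := by
    intro d hd
    rw [ph_eq hd 0]
    congr 2
    funext t
    simp
  have h1 : ∀ x : ℝ, G * ∫ t in Ioo (0 : ℝ) 1, kn r t ≤
      ∫ t in Ioo (0 : ℝ) 1, Real.cos (x * t) * kn r t := by
    intro x
    have h2 := hG (x / r)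
    rw [e0 r hr, ph_eq hr, div_mul_cancel₀ _ hr.ne'] at h2
    have h3 : 2 * r * (G * ∫ t in Ioo (0 : ℝ) 1, kn r t) ≤
        2 * r * ∫ t in Ioo (0 : ℝ) 1, Real.cos (x * t) * kn r t := by
      calc _ = G * (2 * r * ∫ t in Ioo (0 : ℝ) 1, kn r t) := by ring
        _ ≤ _ := h2
    exact le_of_mul_le_mul_left h3 (by positivity)
  have h2 := compare (kn_integrable hr) (kn_integrable hr') (fun t ht => kn_pos hr ht)
    (fun t ht => kn_pos hr' ht) (kn_logconvex hr) (kn_ratio hr hrr) h1 (l * r')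
  rw [e0 r' hr', ph_eq hr']
  calc G * (2 * r' * ∫ t in Ioo (0 : ℝ) 1, kn r' t)
      = 2 * r' * (G * ∫ t in Ioo (0 : ℝ) 1, kn r' t) := by ring
    _ ≤ _ := mul_le_mul_of_nonneg_left h2 (by positivity)

/-- the spherical value at `π / d` is negative -/
theorem ph_neg {d : ℝ} (hd : 0 < d) : ph (Real.pi / d) d < 0 := by
  rw [ph_eq hd, div_mul_cancel₀ _ hd.ne']
  have hhalf : (1 / 2 : ℝ) ∈ Ioo (0 : ℝ) 1 := by constructor <;> norm_num
  have hmono : ∀ s ∈ Ioo (0 : ℝ) 1, ∀ t ∈ Ioo (0 : ℝ) 1, s < t → kn d s < kn d t := by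
    intro s hs t ht hst
    rw [kn_eq, kn_eq]
    have a1 := Dd_pos hd hs
    have a2 := Dd_pos hd ht
    have hpi := Real.pi_pos
    have s2 := Real.sqrt_pos.mpr (mul_pos two_pos a2)
    apply inv_strictAnti₀ (by positivity)
    apply mul_lt_mul_of_pos_right _ hpi
    apply Real.sqrt_lt_sqrt (by positivity)
    unfold Dd
    have : Real.cosh (d * s) < Real.cosh (d * t) := by
      rw [Real.cosh_lt_cosh, abs_of_pos (mul_pos hd hs.1), abs_of_pos (mul_pos hd ht.1)]
      exact mul_lt_mul_of_pos_left hst hd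
    linarith
  have hint := kn_integrable hd
  have hcos : Integrable (fun t : ℝ => Real.cos (Real.pi * t)) (volume.restrict (Ioo 0 1)) := by
    apply (by fun_prop : Continuous (fun t : ℝ => Real.cos (Real.pi * t))).integrableOn_Icc.mono_set
      Ioo_subset_Icc_self
  have hck : Integrable (fun t : ℝ => Real.cos (Real.pi * t) * kn d t)
      (volume.restrict (Ioo 0 1)) := by
    apply Integrable.bdd_mul (c := 1) hint
    · exact (by fun_prop : Continuous (fun t => Real.cos (Real.pi * t))).aestronglyMeasurable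
    · exact Eventually.of_forall fun t => by simpa using Real.abs_cos_le_one _
  have hzero : ∫ t in Ioo (0 : ℝ) 1, Real.cos (Real.pi * t) = 0 := by
    rw [← integral_Ioc_eq_integral_Ioo, ← intervalIntegral.integral_of_le zero_le_one,
      intervalIntegral.integral_comp_mul_left (fun s => Real.cos s) Real.pi_ne_zero]
    simp
  have h1 : ∫ t in Ioo (0 : ℝ) 1, Real.cos (Real.pi * t) * kn d t =
      - ∫ t in Ioo (0 : ℝ) 1, Real.cos (Real.pi * t) * (kn d (1 / 2) - kn d t) := by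
    have e : ∀ t, Real.cos (Real.pi * t) * (kn d (1 / 2) - kn d t) =
        Real.cos (Real.pi * t) * kn d (1 / 2) - Real.cos (Real.pi * t) * kn d t := fun t => by ring
    simp_rw [e]
    rw [integral_sub (hcos.mul_const _) hck, integral_mul_const, hzero]
    ring
  have hpos : 0 < ∫ t in Ioo (0 : ℝ) 1, Real.cos (Real.pi * t) * (kn d (1 / 2) - kn d t) := by
    have hsign : ∀ t ∈ Ioo (0 : ℝ) 1, 0 ≤ Real.cos (Real.pi * t) * (kn d (1 / 2) - kn d t) := by
      intro t ht
      have hpi := Real.pi_pos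
      rcases lt_trichotomy t (1 / 2) with h | h | h
      · have c1 : 0 ≤ Real.cos (Real.pi * t) := by
          apply Real.cos_nonneg_of_mem_Icc
          constructor <;> nlinarith [ht.1]
        exact mul_nonneg c1 (sub_nonneg.mpr (hmono t ht _ hhalf h).le)
      · rw [h]; simp
      · have c1 : Real.cos (Real.pi * t) ≤ 0 := by
          apply Real.cos_nonpos_of_pi_div_two_le_of_le
          · nlinarith
          · nlinarith [ht.2]
        exact mul_nonneg_of_nonpos_of_nonpos c1 (sub_nonpos.mpr (hmono _ hhalf t ht h).le)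
    rw [setIntegral_pos_iff_support_of_nonneg_ae]
    · have hsub : Ioo (0 : ℝ) (1 / 2) ⊆ Function.support
          (fun t => Real.cos (Real.pi * t) * (kn d (1 / 2) - kn d t)) ∩ Ioo (0 : ℝ) 1 := by
        intro t ht
        have ht1 : t ∈ Ioo (0 : ℝ) 1 := ⟨ht.1, by linarith [ht.2]⟩
        refine ⟨?_, ht1⟩
        have hpi := Real.pi_pos
        have c1 : 0 < Real.cos (Real.pi * t) := by
          apply Real.cos_pos_of_mem_Ioo
          constructor <;> nlinarith [ht.1, ht.2]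
        exact (mul_pos c1 (sub_pos.mpr (hmono t ht1 _ hhalf ht.2))).ne'
      refine lt_of_lt_of_le ?_ (measure_mono hsub)
      rw [Real.volume_Ioo]
      norm_num
    · filter_upwards [ae_restrict_mem measurableSet_Ioo] with t ht
      exact hsign t ht
    · have e : (fun t => Real.cos (Real.pi * t) * (kn d (1 / 2) - kn d t)) = fun t =>
          Real.cos (Real.pi * t) * kn d (1 / 2) - Real.cos (Real.pi * t) * kn d t := by
        funext t; ring
      rw [e]
      exact (hcos.mul_const _).sub hck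
  rw [h1]
  nlinarith [mul_pos hd hpos]

end Pool.Agent.H22.Hy
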