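import Pool.Agent.H22.HyY

namespace Pool.Agent.H22.Hy

open UpperHalfPlane MeasureTheory Metric Set Filter
open scoped MatrixGroups Topology ENNReal NNReal ComplexInnerProductSpace ComplexConjugate

/-- values of the quadratic form on unit vectors -/
def formSet {d : ℝ} (hd : 0 < d) : Set ℝ := {x : ℝ | ∃ f : L2, ‖f‖ = 1 ∧ x = (⟪Aop hd f, f⟫).re}

theorem formSet_nonempty {d : ℝ} (hd : 0 < d) : (formSet hd).Nonempty := by
  obtain ⟨f, hf, -⟩ := sharp hd 0 one_pos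
  exact ⟨_, f, hf, rfl⟩

theorem formSet_upper {d : ℝ} (hd : 0 < d) : ∀ x ∈ formSet hd, x ≤ ph 0 d := by
  rintro x ⟨g, hg, rfl⟩
  have := form_upper hd g
  rw [hg] at this
  simpa using this

theorem bddBelow_ph {d : ℝ} (hd : 0 < d) : BddBelow (Set.range fun l => ph l d) := by
  refine ⟨-ph 0 d, ?_⟩
  rintro x ⟨l, rfl⟩
  exact (abs_le.mp (abs_ph_le hd l)).1

theorem formSet_lower {d : ℝ} (hd : 0 < d) : ∀ x ∈ formSet hd, (⨅ l, ph l d) ≤ x := by
  rintro x ⟨g, hg, rfl⟩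
  have := form_lower hd (fun l => ciInf_le (bddBelow_ph hd) l) g
  rw [hg] at this
  simpa using this

theorem sSup_formSet {d : ℝ} (hd : 0 < d) : sSup (formSet hd) = ph 0 d := by
  apply le_antisymm
  · exact csSup_le (formSet_nonempty hd) (formSet_upper hd)
  · apply le_of_forall_pos_le_add
    intro ε hε
    obtain ⟨f, hf, h⟩ := sharp hd 0 hε
    have h1 := le_csSup ⟨_, formSet_upper hd⟩ (⟨f, hf, rfl⟩ : (⟪Aop hd f, f⟫).re ∈ formSet hd)
    have h2 := (abs_le.mp h).1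
    linarith

theorem sInf_formSet {d : ℝ} (hd : 0 < d) : sInf (formSet hd) = ⨅ l, ph l d := by
  apply le_antisymm
  · apply le_ciInf
    intro l
    apply le_of_forall_pos_le_add
    intro ε hε
    obtain ⟨f, hf, h⟩ := sharp hd l hε
    have h1 := csInf_le ⟨_, formSet_lower hd⟩ (⟨f, hf, rfl⟩ : (⟪Aop hd f, f⟫).re ∈ formSet hd)
    have h2 := (abs_le.mp h).2
    linarith
  · exact le_csInf (formSet_nonempty hd) (formSet_lower hd)

theorem inf_neg {d : ℝ} (hd : 0 < d) : (⨅ l, ph l d) < 0 :=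
  lt_of_le_of_lt (ciInf_le (bddBelow_ph hd) (Real.pi / d)) (ph_neg hd)

theorem hoffman_mono {d d' : ℝ} (hd : 0 < d) (hdd : d ≤ d') :
    1 - ph 0 d / (⨅ l, ph l d) ≤ 1 - ph 0 d' / (⨅ l, ph l d') := by
  have hd' : 0 < d' := lt_of_lt_of_le hd hdd
  have hm := inf_neg hd
  have hm' := inf_neg hd'
  have hP := ph_zero_pos hd
  have hP' := ph_zero_pos hd'
  have hle : ∀ l, (⨅ l, ph l d) ≤ ph l d := fun l => ciInf_le (bddBelow_ph hd) l
  set m := ⨅ l, ph l d
  set m' := ⨅ l, ph l d' with hm'd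
  set P := ph 0 d with hPd
  set P' := ph 0 d' with hP'd
  have h1 : m / P * P' ≤ m' := by
    rw [hm'd]
    apply le_ciInf
    intro l
    apply ph_compare hd hdd (G := m / P)
    intro l
    rw [← hPd, div_mul_cancel₀ _ hP.ne']
    exact hle l
  have h2 : m * P' ≤ m' * P := by
    have h3 := mul_le_mul_of_nonneg_right h1 hP.le
    have h4 : m / P * P' * P = m * P' := by field_simp
    linarith
  have h5 : P' / m' ≤ P / m := by
    have e1 : P' / m' = (m * P') / (m * m') := by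
      rw [mul_div_mul_left _ _ hm.ne]
    have e2 : P / m = (m' * P) / (m * m') := by
      rw [mul_comm m m', mul_div_mul_left _ _ hm'.ne]
    rw [e1, e2]
    exact div_le_div_of_nonneg_right h2 (mul_pos_of_neg_of_neg hm hm').le
  linarith

/-- bridge between functions and elements of the Hilbert space -/
theorem circleMean_toLp {d : ℝ} (hd : 0 < d) {f : ℍ → ℂ} (hf : MemLp f 2 (volume : Measure ℍ)) :
    circleMean d f =ᵐ[(volume : Measure ℍ)] (Aop hd (hf.toLp f) : ℍ → ℂ) := by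
  have h1 : f =ᵐ[(volume : Measure ℍ)] (hf.toLp f : ℍ → ℂ) := hf.coeFn_toLp.symm
  exact (circleMean_congr_ae hd h1).trans (Aop_ae hd _).symm

theorem circleMean_memLp {d : ℝ} (hd : 0 < d) {f : ℍ → ℂ} (hf : MemLp f 2 (volume : Measure ℍ)) :
    MemLp (circleMean d f) 2 (volume : Measure ℍ) :=
  (Lp.memLp (Aop hd (hf.toLp f))).ae_eq (circleMean_toLp hd hf).symm

theorem form_toLp {d : ℝ} (hd : 0 < d) {f : ℍ → ℂ} (hf : MemLp f 2 (volume : Measure ℍ)) :
    (∫ z, circleMean d f z * conj (f z)).re = (⟪Aop hd (hf.toLp f), hf.toLp f⟫).re := by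
  rw [← inner_conj_symm, Complex.conj_re, L2.inner_def]
  congr 1
  apply integral_congr_ae
  filter_upwards [circleMean_toLp hd hf, hf.coeFn_toLp] with z h1 h2
  rw [h1, h2]
  simp

theorem norm_toLp_sq {f : ℍ → ℂ} (hf : MemLp f 2 (volume : Measure ℍ)) :
    ‖hf.toLp f‖ ^ 2 = ∫ z, ‖f z‖ ^ 2 := by
  have h1 : ⟪hf.toLp f, hf.toLp f⟫ = ((‖hf.toLp f‖ ^ 2 : ℝ) : ℂ) := by
    rw [inner_self_eq_norm_sq_to_K]; simp
  have h2 : ⟪hf.toLp f, hf.toLp f⟫ = ((∫ z, ‖f z‖ ^ 2 : ℝ) : ℂ) := by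
    rw [L2.inner_def, ← integral_complex_ofReal]
    apply integral_congr_ae
    filter_upwards [hf.coeFn_toLp] with z hz
    rw [hz, inner_self_eq_norm_sq_to_K]
    simp
  rw [h1] at h2
  exact_mod_cast h2

theorem formSet_eq {d : ℝ} (hd : 0 < d) :
    {x : ℝ | ∃ f : ℍ → ℂ, MemLp f 2 (volume : Measure ℍ) ∧ ∫ z, ‖f z‖ ^ 2 = 1 ∧
      x = (∫ z, circleMean d f z * conj (f z)).re} = formSet hd := by
  ext x
  constructor
  · rintro ⟨f, hf, h1, rfl⟩
    refine ⟨hf.toLp f, ?_, form_toLp hd hf⟩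
    rw [← norm_toLp_sq hf] at h1
    exact (pow_eq_one_iff_of_nonneg (norm_nonneg _) two_ne_zero).mp h1
  · rintro ⟨f, h1, rfl⟩
    have hf := Lp.memLp f
    have e : hf.toLp f = f := Lp.toLp_coeFn f hf
    refine ⟨f, hf, ?_, ?_⟩
    · rw [← norm_toLp_sq hf, e, h1, one_pow]
    · rw [form_toLp hd hf, e]

end Pool.Agent.H22.Hy
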